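import Mathlib

/-! Linear independence, over any field in which the prime `q` is invertible, of the functions
`x ↦ (least residue of x β / s modulo q)` for `4S < β ≤ 5S`, `S < s ≤ 2S`, `s` squarefree and
prime to `β`, when `20 S^3 ≤ q`. -/

namespace Pool.Agent.Lib.MP_53226a_nt

open Finset

lemma zero_of_periodic {k : Type*} [AddCommGroup k] {f : ℤ → k} {s : ℕ} (hs : 0 < s)
    (hf : Function.Periodic f (s : ℤ)) (x : ℤ) (h : ∀ a, x ≤ a → a < x + s → f a = 0) (a : ℤ) :
    f a = 0 := by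
  have hs' : (0 : ℤ) < s := by exact_mod_cast hs
  have h1 := hf.sub_int_mul_eq (x := a) ((a - x) / s)
  rw [← h1]
  have h2 := Int.emod_add_mul_ediv (a - x) s
  have h3 := Int.emod_nonneg (a - x) hs'.ne'
  have h4 := Int.emod_lt_of_pos (a - x) hs'
  apply h <;> push_cast <;> nlinarith

lemma vanish_of_periodic {k : Type*} [AddCommGroup k] (T : Finset ℕ) :
    (∀ s ∈ T, 0 < s) → ∀ (π : ℕ → ℤ → k), (∀ s ∈ T, Function.Periodic (π s) (s : ℤ)) →
    ∀ x : ℤ, (∀ a, x ≤ a → a < x + ((∑ s ∈ T, s : ℕ) : ℤ) → ∑ s ∈ T, π s a = 0) →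
    ∀ a, ∑ s ∈ T, π s a = 0 := by
  induction T using Finset.induction_on with
  | empty => intro _ π _ x _ a; simp
  | insert s0 T hs0 ih =>
    intro hpos π hper x h
    have hp0 : 0 < s0 := hpos s0 (by simp)
    have key := ih (fun s hs => hpos s (by simp [hs])) (fun s a => π s (a + s0) - π s a)
      (fun s hs a => by
        have := hper s (by simp [hs])
        simp only
        rw [this a, show a + (s : ℤ) + s0 = (a + s0) + s by ring, this]) x (by
        intro a h1 h2
        have e1 := h a h1 (by rw [Finset.sum_insert hs0]; push_cast at h2 ⊢; omega)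
        have e2 := h (a + s0) (by omega) (by rw [Finset.sum_insert hs0]; push_cast at h2 ⊢; omega)
        rw [Finset.sum_insert hs0] at e1 e2
        rw [hper s0 (by simp) a] at e2
        rw [Finset.sum_sub_distrib, sub_eq_zero]
        exact add_left_cancel (e2.trans e1.symm))
    have hF : Function.Periodic (fun a => ∑ s ∈ insert s0 T, π s a) (s0 : ℤ) := by
      intro a
      simp only [Finset.sum_insert hs0]
      rw [hper s0 (by simp) a]
      have := key a
      rw [Finset.sum_sub_distrib, sub_eq_zero] at this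
      rw [this]
    intro a
    apply zero_of_periodic hp0 hF x
    intro b h1 h2
    apply h b h1
    rw [Finset.sum_insert hs0]
    push_cast
    have : (0 : ℤ) ≤ ∑ s ∈ T, (s : ℤ) := Finset.sum_nonneg fun _ _ => by positivity
    omega

/-- the quasi-periodic continuation of `n ↦ (least residue of n / s mod q)` -/
def gam (q s u n : ℤ) : ℤ := (n + ((-n * u) % s) * q) / s

lemma gam_mul {q s u : ℤ} (hu : s ∣ q * u - 1) (n : ℤ) :
    s * gam q s u n = n + ((-n * u) % s) * q := by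
  unfold gam
  apply Int.mul_ediv_cancel'
  obtain ⟨e, he⟩ := hu
  have h2 := Int.emod_add_mul_ediv (-n * u) s
  refine ⟨-n * e - (-n * u) / s * q, ?_⟩
  have : (-n * u) % s = -n * u - s * ((-n * u) / s) := by linarith
  rw [this]
  linear_combination (-n) * he

lemma gam_add {q s u : ℤ} (hs : 0 < s) (hu : s ∣ q * u - 1) (n t : ℤ) :
    gam q s u (n + s * t) = gam q s u n + t := by
  apply mul_left_cancel₀ hs.ne'
  rw [mul_add, gam_mul hu, gam_mul hu]
  have : (-(n + s * t) * u) % s = (-n * u) % s := by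
    rw [show -(n + s * t) * u = -n * u + s * (-t * u) by ring, Int.add_mul_emod_self_left]
  rw [this]; ring

lemma gam_val {q s u : ℤ} (hs : 0 < s) (hq : 0 < q) (hu : s ∣ q * u - 1) {n v : ℤ} (hv0 : 0 ≤ v)
    (hv1 : v < q) (hv : q ∣ s * v - n) (hn0 : 0 ≤ n) (hn1 : n < 2 * q) :
    v = gam q s u n - (if q ≤ n ∧ s ∣ n - q then q else 0) := by
  obtain ⟨m, hm⟩ := hv
  have hg := gam_mul hu n
  set M := (-n * u) % s with hM
  have hM0 : 0 ≤ M := Int.emod_nonneg _ hs.ne'
  have hM1 : M < s := Int.emod_lt_of_pos _ hs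
  set γ := gam q s u n
  have hcop : IsCoprime s q := by
    obtain ⟨e, he⟩ := hu
    exact ⟨-e, u, by linear_combination he⟩
  have h1 : s * (v - γ) = q * (m - M) := by linear_combination hm - hg
  have h2 : s ∣ m - M := hcop.dvd_of_dvd_mul_left ⟨v - γ, h1.symm⟩
  obtain ⟨e, he⟩ := h2
  have h3 : v - γ = q * e := by
    apply mul_left_cancel₀ hs.ne'
    rw [h1, he]; ring
  have hsv0 : 0 ≤ s * v := mul_nonneg hs.le hv0
  have hsv1 : s * v < s * q := mul_lt_mul_of_pos_left hv1 hs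
  have hm1 : m < s := by nlinarith
  have hm2 : -2 < m := by nlinarith
  have he1 : e ≤ 0 := by nlinarith
  split_ifs with hc
  · obtain ⟨hc1, c, hc2⟩ := hc
    have h4 : s ∣ m + 1 := hcop.dvd_of_dvd_mul_left ⟨v - c, by linear_combination -hm - hc2⟩
    have hm3 : m + 1 < s := by nlinarith
    have hm4 : m + 1 = 0 := Int.eq_zero_of_dvd_of_nonneg_of_lt (by omega) hm3 h4
    have : e = -1 := by
      have : -2 < e := by nlinarith
      have : e < 0 := by nlinarith
      omega
    rw [this] at h3; linarith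
  · have : e = 0 := by
      by_contra hne
      have h5 : e ≤ -1 := by omega
      have h6 : m = -1 := by nlinarith
      apply hc
      rw [h6] at hm
      exact ⟨by nlinarith, v, by linarith⟩
    rw [this] at h3; linarith

/-- the index set -/
def fam (S : ℕ) : Finset (ℕ × ℕ) :=
  (Finset.Ioc (4 * S) (5 * S) ×ˢ Finset.Ioc S (2 * S)).filter
    fun y => Squarefree y.2 ∧ Nat.Coprime y.1 y.2

lemma exists_sep {q S : ℕ} (hq : q.Prime) (hqS : 2 * S < q) {y0 : ℕ × ℕ} (h0 : y0 ∈ fam S) :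
    ∃ a : ℤ, ((y0.2 : ℤ) ∣ a * y0.1 - q) ∧ ∀ y ∈ fam S, (y.2 : ℤ) ∣ a * y.1 - q → y = y0 := by
  obtain ⟨β0, s0⟩ := y0
  simp only [fam, Finset.mem_filter, Finset.mem_product, Finset.mem_Ioc] at h0
  obtain ⟨⟨⟨b1, b2⟩, s1, s2⟩, hsq, hcop⟩ := h0
  set T := (Finset.Ioc S (2 * S)).filter Squarefree with hT
  set m : ℕ := ∏ s ∈ T, s / Nat.gcd s s0 with hm
  have hm0 : Nat.Coprime m s0 := by
    apply Nat.Coprime.prod_left
    intro s hs
    have hs' : Squarefree s := (Finset.mem_filter.1 hs).2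
    apply Nat.Coprime.symm
    rw [Nat.coprime_iff_gcd_eq_one]
    by_contra hne
    obtain ⟨l, hl, hdv⟩ := Nat.exists_prime_and_dvd hne
    have d1 : l ∣ s0 := hdv.trans (Nat.gcd_dvd_left _ _)
    have d2 : l ∣ s / Nat.gcd s s0 := hdv.trans (Nat.gcd_dvd_right _ _)
    have d3 : l ∣ s := d2.trans (Nat.div_dvd_of_dvd (Nat.gcd_dvd_left _ _))
    have d4 : l ∣ Nat.gcd s s0 := Nat.dvd_gcd d3 d1
    have d5 : l * l ∣ s := by
      rw [← Nat.div_mul_cancel (Nat.gcd_dvd_left s s0)]
      exact Nat.mul_dvd_mul d2 d4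
    exact hl.one_lt.ne' (Nat.isUnit_iff.1 (hs' l d5))
  have hc : IsCoprime ((m * β0 : ℕ) : ℤ) (s0 : ℤ) :=
    Nat.isCoprime_iff_coprime.2 (Nat.Coprime.mul_left hm0 hcop)
  obtain ⟨t, e, hte⟩ := hc
  push_cast at hte
  have hdiv : (s0 : ℤ) ∣ t * q * m * β0 - q := ⟨-e * q, by linear_combination (q : ℤ) * hte⟩
  refine ⟨t * q * m, hdiv, ?_⟩
  rintro ⟨β, s⟩ hy hd
  simp only [fam, Finset.mem_filter, Finset.mem_product, Finset.mem_Ioc] at hy hd
  obtain ⟨⟨⟨b3, b4⟩, s3, s4⟩, hsq', hcop'⟩ := hy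
  have hss : s = s0 := by
    by_contra hne
    have hg : s / Nat.gcd s s0 ≠ 1 := by
      intro h1
      have h2 : s = Nat.gcd s s0 := by
        have := Nat.div_mul_cancel (Nat.gcd_dvd_left s s0)
        rw [h1, one_mul] at this
        exact this.symm
      have h3 : s ∣ s0 := h2 ▸ Nat.gcd_dvd_right s s0
      obtain ⟨c, hc⟩ := h3
      have : c = 0 ∨ c = 1 ∨ 2 ≤ c := by omega
      rcases this with rfl | rfl | h
      · omega
      · omega
      · nlinarith
    obtain ⟨l, hl, hdv⟩ := Nat.exists_prime_and_dvd hg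
    have d1 : l ∣ m := hdv.trans (Finset.dvd_prod_of_mem (fun s => s / Nat.gcd s s0)
      (Finset.mem_filter.2 ⟨Finset.mem_Ioc.2 ⟨s3, s4⟩, hsq'⟩))
    have d2 : l ∣ s := hdv.trans (Nat.div_dvd_of_dvd (Nat.gcd_dvd_left _ _))
    have d3 : (l : ℤ) ∣ t * q * m * β - q := (Int.natCast_dvd_natCast.2 d2).trans hd
    have d4 : (l : ℤ) ∣ t * q * m * β :=
      Dvd.dvd.mul_right (Dvd.dvd.mul_left (Int.natCast_dvd_natCast.2 d1) _) _
    have d5 : (l : ℤ) ∣ q := by
      have := dvd_sub d4 d3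
      simpa using this
    have d6 : l = q := (Nat.prime_dvd_prime_iff_eq hl hq).1 (Int.natCast_dvd_natCast.1 d5)
    have : l ≤ s := Nat.le_of_dvd (by omega) d2
    omega
  subst hss
  have hqs : IsCoprime (s : ℤ) (q : ℤ) := by
    apply Nat.isCoprime_iff_coprime.2
    apply Nat.Coprime.symm
    rw [Nat.Prime.coprime_iff_not_dvd hq]
    intro h
    have := Nat.le_of_dvd (by omega) h
    omega
  have d1 : (s : ℤ) ∣ q * ((β : ℤ) - β0) := by
    have := dvd_sub (Dvd.dvd.mul_right hd (β0 : ℤ)) (Dvd.dvd.mul_right hdiv (β : ℤ))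
    have e : (t * q * m * β - q) * β0 - (t * q * m * β0 - q) * β = (q : ℤ) * ((β : ℤ) - β0) := by
      ring
    exact e ▸ this
  have d2 : (s : ℤ) ∣ (β : ℤ) - β0 := hqs.dvd_of_dvd_mul_left d1
  have d3 : (β : ℤ) - β0 = 0 := by
    apply Int.eq_zero_of_abs_lt_dvd d2
    rw [abs_lt]
    constructor <;> omega
  have : β = β0 := by omega
  rw [this]

theorem indep {k : Type*} [Field k] {q S : ℕ} [Fact q.Prime] (hS : 4 ≤ S) (hqS : 20 * S ^ 3 ≤ q)
    (hk : (q : k) ≠ 0) :
    LinearIndependent k (fun y : fam S => fun x : ZMod q =>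
      (((x * (y.1.1 : ZMod q) * (y.1.2 : ZMod q)⁻¹).val : ℕ) : k)) := by
  have hq : q.Prime := Fact.out
  have hS3 : 16 * S ≤ S ^ 3 := by nlinarith [Nat.mul_le_mul hS hS]
  have hq2 : 2 * S < q := by omega
  rw [Fintype.linearIndependent_iff]
  intro c hc
  set c' : ℕ × ℕ → k := fun y => if h : y ∈ fam S then c ⟨y, h⟩ else 0 with hc'
  have hsum : ∀ x : ZMod q, ∑ y ∈ fam S,
      c' y * (((x * (y.1 : ZMod q) * (y.2 : ZMod q)⁻¹).val : ℕ) : k) = 0 := by
    intro x
    have := congrFun hc x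
    simp only [Finset.sum_apply, Pi.smul_apply, smul_eq_mul, Pi.zero_apply] at this
    rw [← this, ← Finset.sum_coe_sort]
    apply Finset.sum_congr rfl
    intro y _
    simp [hc']
  have hex : ∀ s : ℕ, ∃ u : ℤ, 0 < s → s < q → (s : ℤ) ∣ q * u - 1 := by
    intro s
    by_cases h : 0 < s ∧ s < q
    · have : IsCoprime (q : ℤ) (s : ℤ) := by
        apply Nat.isCoprime_iff_coprime.2
        rw [Nat.Prime.coprime_iff_not_dvd hq]
        intro hd
        have := Nat.le_of_dvd h.1 hd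
        omega
      obtain ⟨a, b, hab⟩ := this
      exact ⟨a, fun _ _ => ⟨-b, by linear_combination hab⟩⟩
    · exact ⟨0, fun h1 h2 => absurd ⟨h1, h2⟩ h⟩
  choose u hu using hex
  have hmem : ∀ y ∈ fam S, 4 * S < y.1 ∧ y.1 ≤ 5 * S ∧ S < y.2 ∧ y.2 ≤ 2 * S := by
    intro y hy
    simp only [fam, Finset.mem_filter, Finset.mem_product, Finset.mem_Ioc] at hy
    exact ⟨hy.1.1.1, hy.1.1.2, hy.1.2.1, hy.1.2.2⟩
  set g : ℕ × ℕ → ℤ → ℤ := fun y a => gam q y.2 (u y.2) (a * y.1) with hg
  have hval : ∀ y ∈ fam S, ∀ a : ℤ, 0 ≤ a → a * y.1 < 2 * q →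
      (((((a : ZMod q) * (y.1 : ZMod q) * (y.2 : ZMod q)⁻¹).val : ℕ) : ℤ)) =
        g y a - (if (q : ℤ) ≤ a * y.1 ∧ (y.2 : ℤ) ∣ a * y.1 - q then (q : ℤ) else 0) := by
    intro y hy a ha0 ha1
    obtain ⟨h1, h2, h3, h4⟩ := hmem y hy
    apply gam_val (by exact_mod_cast (by omega : 0 < y.2)) (by exact_mod_cast hq.pos)
      (hu y.2 (by omega) (by omega)) (by positivity) (by exact_mod_cast ZMod.val_lt _) _
      (by positivity) ha1
    rw [← ZMod.intCast_zmod_eq_zero_iff_dvd]
    have hs0 : ((y.2 : ℕ) : ZMod q) ≠ 0 := by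
      rw [Ne, ZMod.natCast_eq_zero_iff]
      intro hd
      have := Nat.le_of_dvd (by omega) hd
      omega
    push_cast
    rw [ZMod.natCast_zmod_val]
    field_simp
    ring
  set T := Finset.Ioc S (2 * S) with hT
  have hTpos : ∀ s ∈ T, 0 < s := fun s hs => by have := (Finset.mem_Ioc.1 hs).1; omega
  have hTsum : ∑ s ∈ T, s ≤ 2 * S ^ 2 := by
    have : ∑ s ∈ T, s ≤ ∑ _s ∈ T, 2 * S :=
      Finset.sum_le_sum fun s hs => (Finset.mem_Ioc.1 hs).2
    rw [Finset.sum_const, hT, Nat.card_Ioc, smul_eq_mul] at this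
    calc _ ≤ (2 * S - S) * (2 * S) := this
      _ = 2 * S ^ 2 := by rw [show 2 * S - S = S by omega]; ring
  have hfib : ∀ F : ℕ × ℕ → k, ∑ s ∈ T, ∑ y ∈ (fam S).filter (fun y => y.2 = s), F y
      = ∑ y ∈ fam S, F y := by
    intro F
    apply Finset.sum_fiberwise_of_maps_to
    intro y hy
    obtain ⟨h1, h2, h3, h4⟩ := hmem y hy
    exact Finset.mem_Ioc.2 ⟨h3, h4⟩
  have hSZ : (4 : ℤ) ≤ S := by exact_mod_cast hS
  have hqZ : 20 * (S : ℤ) ^ 3 ≤ q := by exact_mod_cast hqS
  have hTZ : ((∑ s ∈ T, s : ℕ) : ℤ) ≤ 2 * (S : ℤ) ^ 2 := by exact_mod_cast hTsum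
  set G : ℤ → k := fun a => ∑ y ∈ fam S, c' y * (g y a : k) with hG
  -- first interval
  have hG0 : ∀ a : ℤ, 0 ≤ a → a ≤ 2 * (S : ℤ) ^ 2 + 1 → G a = 0 := by
    intro a ha0 ha1
    rw [← hsum (a : ZMod q)]
    apply Finset.sum_congr rfl
    intro y hy
    obtain ⟨h1, h2, h3, h4⟩ := hmem y hy
    have h2' : (y.1 : ℤ) ≤ 5 * S := by exact_mod_cast h2
    have hlt : a * y.1 < q := by nlinarith
    have := hval y hy a ha0 (by linarith [show (0 : ℤ) < q by exact_mod_cast hq.pos])
    rw [if_neg (fun h => absurd h.1 (not_le.2 hlt)), sub_zero] at this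
    rw [← this]; simp
  have hGdiff : ∀ a, G (a + 1) - G a = 0 := by
    have := vanish_of_periodic T hTpos
      (fun s a => ∑ y ∈ (fam S).filter (fun y => y.2 = s), c' y * ((g y (a + 1) - g y a : ℤ) : k))
      (by
        intro s hs a
        apply Finset.sum_congr rfl
        intro y hy
        obtain ⟨hy1, rfl⟩ := Finset.mem_filter.1 hy
        obtain ⟨h1, h2, h3, h4⟩ := hmem y hy1
        have hp : (0 : ℤ) < y.2 := by exact_mod_cast (by omega : 0 < y.2)
        have e1 : g y (a + y.2 + 1) = g y (a + 1) + y.1 := by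
          simp only [hg]
          rw [← gam_add hp (hu y.2 (by omega) (by omega))]
          congr 1; ring
        have e2 : g y (a + y.2) = g y a + y.1 := by
          simp only [hg]
          rw [← gam_add hp (hu y.2 (by omega) (by omega))]
          congr 1; ring
        rw [e1, e2]
        congr 2; ring) 0 (by
        intro a h1 h2
        rw [hfib (fun y => c' y * ((g y (a + 1) - g y a : ℤ) : k))]
        have e1 := hG0 a h1 (by linarith)
        have e2 := hG0 (a + 1) (by linarith) (by linarith)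
        simp only [hG] at e1 e2
        push_cast
        simp only [mul_sub, Finset.sum_sub_distrib]
        rw [e1, e2, sub_zero])
    intro a
    have h := this a
    rw [hfib (fun y => c' y * ((g y (a + 1) - g y a : ℤ) : k))] at h
    rw [← h]
    push_cast
    simp only [hG, mul_sub, Finset.sum_sub_distrib]
  have hGall : ∀ a, G a = 0 := by
    have hper : Function.Periodic G ((1 : ℕ) : ℤ) := fun a => sub_eq_zero.1 (hGdiff a)
    apply zero_of_periodic one_pos hper 0
    intro a h1 h2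
    exact hG0 a h1 (by push_cast at h2; nlinarith)
  -- second interval
  set x0 : ℤ := q / (4 * S) + 1 with hx0
  have hx1 : (q : ℤ) < 4 * S * x0 := by
    have := Int.lt_ediv_add_one_mul_self (q : ℤ) (show (0 : ℤ) < 4 * S by linarith)
    rw [hx0]; linarith
  have hx2 : 4 * S * x0 ≤ q + 4 * S := by
    have := Int.ediv_mul_le (q : ℤ) (show (4 * S : ℤ) ≠ 0 by linarith)
    rw [hx0]; linarith
  have hx3 : 0 ≤ x0 := by
    have : (0 : ℤ) ≤ q / (4 * S) := Int.ediv_nonneg (by positivity) (by positivity)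
    omega
  have hJ := vanish_of_periodic T hTpos
    (fun s a => ∑ y ∈ (fam S).filter (fun y => y.2 = s),
      c' y * (if (y.2 : ℤ) ∣ a * y.1 - q then (1 : k) else 0))
    (by
      intro s hs a
      apply Finset.sum_congr rfl
      intro y hy
      obtain ⟨hy1, rfl⟩ := Finset.mem_filter.1 hy
      have : ((y.2 : ℤ) ∣ (a + y.2) * y.1 - q) ↔ ((y.2 : ℤ) ∣ a * y.1 - q) := by
        rw [show (a + y.2) * y.1 - q = (a * y.1 - q) + y.2 * y.1 by ring]
        exact (dvd_add_left (dvd_mul_right _ _))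
      simp only [this]) x0 (by
      intro a h1 h2
      rw [hfib (fun y => c' y * (if (y.2 : ℤ) ∣ a * y.1 - q then (1 : k) else 0))]
      have e1 := hsum (a : ZMod q)
      have e2 := hGall a
      apply mul_left_cancel₀ hk
      have e3 := sub_eq_zero.2 (e2.trans e1.symm)
      rw [mul_zero]
      refine Eq.trans ?_ e3
      rw [hG, Finset.mul_sum, ← Finset.sum_sub_distrib]
      apply Finset.sum_congr rfl
      intro y hy
      obtain ⟨b1, b2, b3, b4⟩ := hmem y hy
      have b1' : 4 * (S : ℤ) < y.1 := by exact_mod_cast b1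
      have b2' : (y.1 : ℤ) ≤ 5 * S := by exact_mod_cast b2
      have ha0 : 0 ≤ a := by linarith
      have hlo : (q : ℤ) ≤ a * y.1 := by nlinarith
      have hhi : a * y.1 < 2 * q := by
        have h3 : a ≤ x0 + 2 * (S : ℤ) ^ 2 := by linarith
        have h4 : a * y.1 ≤ (x0 + 2 * (S : ℤ) ^ 2) * (5 * S) :=
          mul_le_mul h3 b2' (by positivity) (by positivity)
        nlinarith
      have := congrArg (fun z : ℤ => (z : k)) (hval y hy a ha0 hhi)
      simp only [Int.cast_natCast, hlo, true_and] at this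
      rw [this]
      push_cast
      split_ifs <;> ring)
  rintro ⟨y0, hy0⟩
  obtain ⟨a, ha1, ha2⟩ := exists_sep hq hq2 hy0
  have h := hJ a
  rw [hfib (fun y => c' y * (if (y.2 : ℤ) ∣ a * y.1 - q then (1 : k) else 0)),
    Finset.sum_eq_single y0] at h
  · rw [if_pos ha1, mul_one] at h
    simpa [hc', hy0] using h
  · intro y hy hne
    rw [if_neg (fun hd => hne (ha2 y hy hd)), mul_zero]
  · intro h; exact absurd hy0 h

end Pool.Agent.Lib.MP_53226a_nt
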