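import Mathlib
import Pool.Agent.Lib.MP_53226a_nt.Indep

/-! A positive proportion of the pairs in the box are admissible. -/

namespace Pool.Agent.Lib.MP_53226a_nt

open Finset

lemma sum_odd_sq (X : ℕ) : ∑ j ∈ Finset.range (X + 2), (1 : ℝ) / (2 * (j : ℝ) + 3) ^ 2
    ≤ (1 : ℝ) / 9 + 1 / 25 + 1 / 12 - 1 / (4 * ((X : ℝ) + 3)) := by
  induction X with
  | zero => simp [Finset.sum_range_succ]; norm_num
  | succ X ih =>
    rw [show X + 1 + 2 = (X + 2) + 1 by ring, Finset.sum_range_succ]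
    push_cast
    have h : (1 : ℝ) / (2 * (X + 2) + 3) ^ 2 ≤ 1 / (4 * (X + 3)) - 1 / (4 * (X + 1 + 3)) := by
      rw [div_sub_div _ _ (by positivity) (by positivity), div_le_div_iff₀ (by positivity)
        (by positivity)]
      have : (0 : ℝ) ≤ X := by positivity
      nlinarith
    linarith

lemma sum_prime_sq (P : Finset ℕ) (hP : ∀ l ∈ P, l.Prime) :
    ∑ l ∈ P, (1 : ℝ) / (l : ℝ) ^ 2 ≤ 4845 / 10000 := by
  obtain ⟨X, hX⟩ := P.bddAbove
  have hsub : P ⊆ insert 2 ((Finset.range (X + 2)).image fun j => 2 * j + 3) := by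
    intro l hl
    have h1 := hP l hl
    have h2 : l ≤ X := hX hl
    rcases h1.eq_two_or_odd with h | h
    · simp [h]
    · have := h1.two_le
      apply Finset.mem_insert_of_mem
      exact Finset.mem_image.2 ⟨(l - 3) / 2, Finset.mem_range.2 (by omega), by omega⟩
  refine (Finset.sum_le_sum_of_subset_of_nonneg hsub (fun _ _ _ => by positivity)).trans ?_
  rw [Finset.sum_insert (by simp), Finset.sum_image (by intro a _ b _ h; simp at h; omega)]
  have := sum_odd_sq X
  push_cast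
  have h3 : (0 : ℝ) ≤ 1 / (4 * (X + 3)) := by positivity
  linarith

lemma card_mult (a S d : ℕ) :
    (((Finset.Ioc a (a + S)).filter (d ∣ ·)).card : ℝ) ≤ S / d + 1 := by
  have h1 := Nat.Ioc_filter_dvd_card_eq_div (a + S) d
  have h2 := Nat.Ioc_filter_dvd_card_eq_div a d
  have h3 : ((Finset.Ioc 0 (a + S)).filter (d ∣ ·)).card =
      ((Finset.Ioc 0 a).filter (d ∣ ·)).card + ((Finset.Ioc a (a + S)).filter (d ∣ ·)).card := by
    rw [← Finset.card_union_of_disjoint, ← Finset.filter_union,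
      Finset.Ioc_union_Ioc_eq_Ioc (by omega) (by omega)]
    apply Finset.disjoint_filter_filter
    rw [Finset.disjoint_left]
    intro x h1 h2
    simp only [Finset.mem_Ioc] at h1 h2
    omega
  have h4 : (a + S) / d ≤ a / d + S / d + 1 := Nat.add_div_le_div_add_div_add_one a S d
  have h5 : ((Finset.Ioc a (a + S)).filter (d ∣ ·)).card ≤ S / d + 1 := by omega
  have h6 : ((S / d : ℕ) : ℝ) ≤ S / d := Nat.cast_div_le
  have h7 : (((Finset.Ioc a (a + S)).filter (d ∣ ·)).card : ℝ) ≤ (S / d : ℕ) + 1 := by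
    exact_mod_cast h5
  linarith

theorem card_fam {S : ℕ} (hS : 80000 ≤ S) : (S : ℝ) ^ 2 / 100 ≤ (fam S).card := by
  set box := Finset.Ioc (4 * S) (4 * S + S) ×ˢ Finset.Ioc S (S + S) with hbox
  set P1 := (Finset.range (Nat.sqrt (2 * S) + 1)).filter Nat.Prime with hP1
  set P2 := (Finset.range (2 * S + 1)).filter Nat.Prime with hP2
  set A : ℕ → Finset (ℕ × ℕ) := fun l =>
    Finset.Ioc (4 * S) (4 * S + S) ×ˢ (Finset.Ioc S (S + S)).filter (l * l ∣ ·) with hA
  set B : ℕ → Finset (ℕ × ℕ) := fun l =>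
    (Finset.Ioc (4 * S) (4 * S + S)).filter (l ∣ ·) ×ˢ (Finset.Ioc S (S + S)).filter (l ∣ ·)
    with hB
  have hsub : box ⊆ fam S ∪ (P1.biUnion A ∪ P2.biUnion B) := by
    rintro ⟨β, s⟩ hy
    simp only [hbox, Finset.mem_product, Finset.mem_Ioc] at hy
    simp only [Finset.mem_union, Finset.mem_biUnion]
    by_cases h1 : Squarefree s
    · by_cases h2 : Nat.Coprime β s
      · left
        simp only [fam, Finset.mem_filter, Finset.mem_product, Finset.mem_Ioc]
        exact ⟨⟨⟨hy.1.1, by omega⟩, hy.2.1, by omega⟩, h1, h2⟩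
      · right; right
        obtain ⟨l, hl, d1, d2⟩ := Nat.Prime.not_coprime_iff_dvd.1 h2
        have := Nat.le_of_dvd (by omega) d2
        refine ⟨l, Finset.mem_filter.2 ⟨Finset.mem_range.2 (by omega), hl⟩, ?_⟩
        simp only [hB, Finset.mem_filter, Finset.mem_product, Finset.mem_Ioc]
        exact ⟨⟨hy.1, d1⟩, hy.2, d2⟩
    · right; left
      rw [Nat.squarefree_iff_prime_squarefree] at h1
      push Not at h1
      obtain ⟨l, hl, d⟩ := h1
      have := Nat.le_of_dvd (by omega) d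
      have h3 : l ≤ Nat.sqrt (2 * S) := Nat.le_sqrt.2 (by omega)
      refine ⟨l, Finset.mem_filter.2 ⟨Finset.mem_range.2 (by omega), hl⟩, ?_⟩
      simp only [hA, Finset.mem_filter, Finset.mem_product, Finset.mem_Ioc]
      exact ⟨hy.1, hy.2, d⟩
  have hc1 : box.card = S * S := by simp [hbox]
  have hc2 : box.card ≤ (fam S).card + (∑ l ∈ P1, (A l).card + ∑ l ∈ P2, (B l).card) :=
    (Finset.card_le_card hsub).trans ((Finset.card_union_le _ _).trans (Nat.add_le_add_left
      ((Finset.card_union_le _ _).trans (Nat.add_le_add Finset.card_biUnion_le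
        Finset.card_biUnion_le)) _))
  have hSR : (80000 : ℝ) ≤ S := by exact_mod_cast hS
  have hA1 : ∀ l ∈ P1, ((A l).card : ℝ) ≤ (S : ℝ) ^ 2 * (1 / (l : ℝ) ^ 2) + S := by
    intro l hl
    have hl0 : 0 < l := (Finset.mem_filter.1 hl).2.pos
    have := card_mult S S (l * l)
    simp only [hA, Finset.card_product, Nat.card_Ioc]
    rw [show 4 * S + S - 4 * S = S by omega]
    push_cast at this ⊢
    calc _ ≤ (S : ℝ) * (S / (l * l) + 1) := mul_le_mul_of_nonneg_left this (by positivity)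
      _ = _ := by ring
  have hB1 : ∀ l ∈ P2, ((B l).card : ℝ) ≤ 51 / 50 * (S : ℝ) ^ 2 * (1 / (l : ℝ) ^ 2) + 51 := by
    intro l hl
    have hl0 : 0 < l := (Finset.mem_filter.1 hl).2.pos
    have e1 := card_mult (4 * S) S l
    have e2 := card_mult S S l
    simp only [hB, Finset.card_product]
    push_cast
    calc _ ≤ ((S : ℝ) / l + 1) * (S / l + 1) := mul_le_mul e1 e2 (by positivity) (by positivity)
      _ ≤ 51 / 50 * (S / l) ^ 2 + 51 := by nlinarith [sq_nonneg ((S : ℝ) / l - 50)]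
      _ = _ := by ring
  have hs1 := sum_prime_sq P1 fun l hl => (Finset.mem_filter.1 hl).2
  have hs2 := sum_prime_sq P2 fun l hl => (Finset.mem_filter.1 hl).2
  have hn1 : (P1.card : ℝ) ≤ S / 200 + 1 := by
    have h1 : P1.card ≤ Nat.sqrt (2 * S) + 1 := by
      simpa using Finset.card_filter_le (Finset.range (Nat.sqrt (2 * S) + 1)) Nat.Prime
    have h2 : 200 * Nat.sqrt (2 * S) ≤ S := by
      have := Nat.sqrt_le (2 * S)
      nlinarith
    have h3 : (P1.card : ℝ) ≤ Nat.sqrt (2 * S) + 1 := by exact_mod_cast h1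
    have h4 : 200 * (Nat.sqrt (2 * S) : ℝ) ≤ S := by exact_mod_cast h2
    linarith
  have hn2 : (P2.card : ℝ) ≤ 2 * S + 1 := by
    have h1 : P2.card ≤ 2 * S + 1 := by
      simpa using Finset.card_filter_le (Finset.range (2 * S + 1)) Nat.Prime
    exact_mod_cast h1
  have t1 := Finset.sum_le_sum hA1
  have t2 := Finset.sum_le_sum hB1
  rw [Finset.sum_add_distrib, ← Finset.mul_sum, Finset.sum_const, nsmul_eq_mul] at t1 t2
  rw [hc1] at hc2
  have hc3 : (S : ℝ) * S ≤ (fam S).card + (∑ l ∈ P1, ((A l).card : ℝ)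
      + ∑ l ∈ P2, ((B l).card : ℝ)) := by exact_mod_cast hc2
  have u1 : (S : ℝ) ^ 2 * ∑ l ∈ P1, (1 : ℝ) / (l : ℝ) ^ 2 ≤ S ^ 2 * (4845 / 10000) :=
    mul_le_mul_of_nonneg_left hs1 (by positivity)
  have u2 : 51 / 50 * (S : ℝ) ^ 2 * ∑ l ∈ P2, (1 : ℝ) / (l : ℝ) ^ 2
      ≤ 51 / 50 * S ^ 2 * (4845 / 10000) := mul_le_mul_of_nonneg_left hs2 (by positivity)
  have u3 : (P1.card : ℝ) * S ≤ (S / 200 + 1) * S :=
    mul_le_mul_of_nonneg_right hn1 (by positivity)
  nlinarith

end Pool.Agent.Lib.MP_53226a_nt
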