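import Pool.Agent.Lib.MP_53226a_nt.H17K

/-! Counting digit vectors with a nonvanishing power sum. -/

namespace Pool.Agent.Lib.MP_53226a_nt.H17

open Polynomial Finset

lemma sum_card_comm {α ι : Type*} [Fintype ι] (A : Finset α) (P : α → ι → Prop)
    [∀ a s, Decidable (P a s)] : ∑ a ∈ A, #{s | P a s} = ∑ s, #{a ∈ A | P a s} := by
  simp only [card_filter]
  exact sum_comm

lemma card_le_of_moves {α β ι : Type*} [Fintype ι] [DecidableEq β] (A : Finset α) (B : Finset β)
    (f : α → ι → β) (hf : ∀ s, Set.InjOn (f · s) A) {L : ℕ} (h0 : 0 < Fintype.card ι)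
    (h : ∀ a ∈ A, Fintype.card ι ≤ L * #{s | f a s ∈ B}) : A.card ≤ L * B.card := by
  have h1 := card_nsmul_le_sum A _ _ h
  rw [← mul_sum, sum_card_comm] at h1
  have h2 := sum_le_card_nsmul univ (fun s => #{a ∈ A | f a s ∈ B}) B.card fun s _ =>
    card_le_card_of_injOn (f · s) (fun a ha => (mem_filter.1 ha).2)
      ((hf s).mono (coe_subset.2 (filter_subset _ _)))
  rw [card_univ, smul_eq_mul] at h2
  have h3 := h1.trans (Nat.mul_le_mul_left L h2)
  rw [smul_eq_mul, mul_comm, mul_left_comm] at h3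
  exact Nat.le_of_mul_le_mul_left h3 h0

variable {F : Type*} [Field F] {p : ℕ} {ι : Type*} {θ : ι → F}
variable [Fact p.Prime] [CharP F p] [Fintype ι] [DecidableEq ι]

/-- The cube of digit vectors. -/
def cube (p : ℕ) (ι : Type*) [Fintype ι] [DecidableEq ι] : Finset (ι → ℕ) :=
  Fintype.piFinset fun _ => range p

lemma mem_cube {c : ι → ℕ} : c ∈ cube p ι ↔ ∀ s, c s ≤ p - 1 := by
  have := (Fact.out : p.Prime).one_le
  simp only [cube, Fintype.mem_piFinset, mem_range]
  exact forall_congr' fun s => by omega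

open Classical in
lemma bad_small (hθ : Function.Injective θ) (M : ℕ) :
    M * ∑ c ∈ cube p ι, (if Full p θ c ((∑ s, c s) / (p - 1) + M) then 0 else #{s | c s = 1}) ≤
      (p - 1) * (Fintype.card ι * p ^ Fintype.card ι) + M * ((p - 1) ^ 3 * p ^ Fintype.card ι) := by
  have hp1 := (Fact.out : p.Prime).two_le
  have hcard : (cube p ι).card = p ^ Fintype.card ι := by simp [cube]
  set a : ℕ → ℕ := fun j => ∑ c ∈ cube p ι,
    #{s | c s < p - 1 ∧ NoNew p θ c s ((∑ s, c s) / (p - 1) + j)} with ha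
  have edge : ∀ j, ∑ c ∈ cube p ι,
      #{s | 0 < c s ∧ NoNew p θ (dn c s) s ((∑ s, c s) / (p - 1) + j)} ≤ a j := by
    intro j
    simp only [ha, sum_card_comm]
    refine sum_le_sum fun s _ => card_le_card_of_injOn (dn · s) (fun c hc => ?_)
      fun c hc c' hc' h => ?_
    · obtain ⟨h1, h2, h3⟩ := mem_filter.1 hc
      have h4 : ∀ t, dn c s t ≤ c t := fun t => by
        by_cases ht : t = s <;> simp [dn, ht]
      refine mem_filter.2 ⟨mem_cube.2 fun t => (h4 t).trans (mem_cube.1 h1 t), ?_,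
        fun y hy hd => h3 y hy (hd.trans_le (Nat.mul_le_mul_left _ (Nat.add_le_add_right
          (Nat.div_le_div_right (sum_le_sum fun t _ => h4 t)) _)))⟩
      have := mem_cube.1 h1 s
      simp only [dn, Function.update_self]
      omega
    · rw [← up_dn (mem_filter.1 hc).2.1, ← up_dn (mem_filter.1 hc').2.1]
      exact congrArg (up · s) h
  set R := ∑ c ∈ cube p ι,
    (if Full p θ c ((∑ s, c s) / (p - 1) + M) then 0 else #{s | c s = 1}) with hR
  have main : ∀ j ≤ M, (p - 1) * a j + j * R ≤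
      (p - 1) * a 0 + j * ((p - 1) ^ 3 * p ^ Fintype.card ι) := by
    intro j
    induction j with
    | zero => simp
    | succ j ih =>
      intro hj
      have h1 := sum_le_sum (s := cube p ι) fun c hc =>
        key (K := (∑ s, c s) / (p - 1) + j) hθ (mem_cube.1 hc) (by
          have := Nat.lt_mul_div_succ (∑ s, c s) (show 0 < p - 1 by omega)
          exact this.trans_le (Nat.mul_le_mul_left _ (by omega)))
      simp only [sum_add_distrib, ← mul_sum, sum_const, hcard, smul_eq_mul] at h1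
      have h2 : R ≤ ∑ c ∈ cube p ι,
          (if Full p θ c ((∑ s, c s) / (p - 1) + j) then 0 else #{s | 0 < c s}) := by
        refine sum_le_sum fun c _ => ?_
        split_ifs with h3 h4 h4
        · rfl
        · exact Nat.zero_le _
        · exact absurd (fun e he => (h4 e he).trans (by omega)) h3
        · exact card_le_card fun s hs => by simp [(mem_filter.1 hs).2]
      have h3 := Nat.mul_le_mul_left (p - 1) (edge j)
      have h4 := ih (by omega)
      have h5 : a (j + 1) = ∑ c ∈ cube p ι,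
        #{s | c s < p - 1 ∧ NoNew p θ c s ((∑ s, c s) / (p - 1) + j + 1)} := rfl
      rw [← h5, mul_comm (p ^ _)] at h1
      rw [add_one_mul, add_one_mul]
      omega
  have h0 : a 0 ≤ Fintype.card ι * p ^ Fintype.card ι := by
    rw [← hcard, mul_comm]
    exact sum_le_card_nsmul _ _ _ fun c _ => card_le_univ _
  have := main M le_rfl
  have := Nat.mul_le_mul_left (p - 1) h0
  omega

open Classical in
/-- Digit vectors at distance `r` from a balanced one. -/
noncomputable def GG (p : ℕ) (θ : ι → F) (r : ℕ) : Finset (ι → ℕ) :=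
  {c ∈ cube p ι | ∃ K, Full p θ c K ∧ (p - 1) * K = ∑ s, c s + r ∧
    16 * p * (K + p) + Fintype.card ι ≤ 16 * p * Fintype.card ι}

lemma GG_le (hθ : Function.Injective θ) (h0 : 0 < Fintype.card ι) (r : ℕ) :
    (GG p θ r).card ≤ (16 * p) ^ r * (GG p θ 0).card := by
  classical
  induction r with
  | zero => simp
  | succ r ih =>
    rw [pow_succ', mul_assoc]
    refine (card_le_of_moves _ (GG p θ r) up (fun s c _ c' _ h => ?_) h0 fun c hc => ?_).trans
      (Nat.mul_le_mul_left _ ih)
    · rw [← dn_up c s, ← dn_up c' s]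
      exact congrArg (dn · s) h
    · obtain ⟨h1, K, h2, h3, h4⟩ := mem_filter.1 hc
      have h5 := Nat.mul_le_mul_left (16 * p) (greedy hθ (mem_cube.1 h1) h2 (by omega))
      have h6 : #{s | c s < p - 1 ∧ Full p θ (up c s) K} ≤ #{s | up c s ∈ GG p θ r} := by
        refine card_le_card fun s hs => ?_
        obtain ⟨-, h7, h8⟩ := mem_filter.1 hs
        refine mem_filter.2 ⟨mem_univ _, mem_filter.2 ⟨mem_cube.2 fun t => ?_, K, h8, ?_, h4⟩⟩
        · by_cases ht : t = s
          · simpa [up, ht] using h7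
          · simpa [up, ht] using mem_cube.1 h1 t
        · rw [sum_up]; omega
      have h7 := Nat.mul_le_mul_left (16 * p) h6
      rw [mul_add] at h5
      omega

lemma GG_big (hp : Odd p) (hθ : Function.Injective θ)
    (hd : 4 * p * (p - 1) ^ 3 + 16 * p * (4 * p * (p - 1) + p) ≤ Fintype.card ι) :
    p ^ Fintype.card ι ≤ 4 * p * (((p - 1) * (4 * p * (p - 1)) + 1) *
      (16 * p) ^ ((p - 1) * (4 * p * (p - 1)))) * (GG p θ 0).card := by
  classical
  have hp1 := (Fact.out : p.Prime).two_le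
  have hp2 : 3 ≤ p := by obtain ⟨k, rfl⟩ := hp; omega
  have hb := bad_small hθ (4 * p * (p - 1))
  set M := 4 * p * (p - 1) with hM
  have hM0 : 0 < M := Nat.mul_pos (by omega) (by omega)
  set d := Fintype.card ι with hdd
  have hd0 : 0 < d := by
    have : 0 < 16 * p * (M + p) := Nat.mul_pos (by omega) (by omega)
    omega
  have hcard : (cube p ι).card = p ^ d := by simp [cube, hdd]
  set I := {c ∈ cube p ι | Full p θ c ((∑ s, c s) / (p - 1) + M) ∧ d ≤ 4 * p * #{s | c s = 1}}
    with hI
  set R := ∑ c ∈ cube p ι,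
    (if Full p θ c ((∑ s, c s) / (p - 1) + M) then 0 else #{s | c s = 1}) with hR
  have h1 : p * ∑ c ∈ cube p ι, #{s | c s = 1} = d * p ^ d := by
    rw [sum_card_comm, cube, sum_congr rfl fun s _ =>
      Fintype.card_filter_piFinset_const_eq_of_mem (range p) s (mem_range.2 hp1)]
    rw [sum_const, card_univ, card_range, smul_eq_mul, mul_left_comm, ← pow_succ',
      Nat.sub_add_cancel hd0]
  have h2 : ∑ c ∈ cube p ι, 4 * p * #{s | c s = 1} ≤ ∑ c ∈ cube p ι,
      (4 * p * (if Full p θ c ((∑ s, c s) / (p - 1) + M) then 0 else #{s | c s = 1}) +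
        4 * p * d * (if Full p θ c ((∑ s, c s) / (p - 1) + M) ∧ d ≤ 4 * p * #{s | c s = 1}
          then 1 else 0) + d) := by
    refine sum_le_sum fun c _ => ?_
    have := Nat.mul_le_mul_left (4 * p) (card_le_univ {s | c s = 1})
    rw [← hdd] at this
    by_cases h3 : Full p θ c ((∑ s, c s) / (p - 1) + M)
    · by_cases h4 : d ≤ 4 * p * #{s | c s = 1}
      · rw [if_pos h3, if_pos ⟨h3, h4⟩, mul_one]; omega
      · omega
    · rw [if_neg h3]; omega
  simp only [sum_add_distrib, ← mul_sum, sum_const, hcard, smul_eq_mul, ← card_filter] at h2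
  rw [← hR, ← hI, mul_assoc, h1] at h2
  have h3 : 4 * p * R ≤ 2 * (d * p ^ d) := by
    refine Nat.le_of_mul_le_mul_left ?_ (show 0 < p - 1 by omega)
    have h4 : M * ((p - 1) ^ 3 * p ^ d) ≤ (p - 1) * (d * p ^ d) := by
      have := Nat.mul_le_mul_left ((p - 1) * p ^ d) (show 4 * p * (p - 1) ^ 3 ≤ d by omega)
      rw [hM]
      linarith
    have h5 : (p - 1) * (4 * p * R) = M * R := by rw [hM]; ring
    linarith
  have h4 : p ^ d ≤ 4 * p * I.card := by
    refine Nat.le_of_mul_le_mul_left ?_ hd0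
    linarith
  have h5 : I ⊆ (range ((p - 1) * M + 1)).biUnion (GG p θ) := by
    intro c hc
    obtain ⟨g1, g2, g3⟩ := mem_filter.1 hc
    have g4 := Nat.mul_div_le (∑ s, c s) (p - 1)
    have g5 := Nat.lt_mul_div_succ (∑ s, c s) (show 0 < p - 1 by omega)
    have g6 : (p - 1) * 1 ≤ (p - 1) * M := Nat.mul_le_mul_left _ hM0
    have g7 : 2 * ∑ s, c s + (p - 1) * #{s | c s = 1} ≤ (p - 1) * (2 * d) := by
      rw [card_filter, mul_sum, mul_sum, ← sum_add_distrib, mul_comm 2 d, mul_left_comm]
      refine sum_le_card_nsmul _ _ _ fun s _ => ?_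
      have := mem_cube.1 g1 s
      split_ifs <;> omega
    have g8 : 2 * ((∑ s, c s) / (p - 1)) + #{s | c s = 1} ≤ 2 * d := by
      refine Nat.le_of_mul_le_mul_left ?_ (show 0 < p - 1 by omega)
      linarith
    have g9 := Nat.mul_le_mul_left (8 * p) g8
    rw [mul_add_one] at g5
    refine mem_biUnion.2 ⟨(p - 1) * ((∑ s, c s) / (p - 1) + M) - ∑ s, c s, ?_,
      mem_filter.2 ⟨g1, _, g2, ?_, ?_⟩⟩
    · rw [mem_range, mul_add]; omega
    · rw [mul_add]; omega
    · have : 16 * p * (M + p) ≤ d := by omega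
      linarith
  have h6 := (card_le_card h5).trans (card_biUnion_le_card_mul _ _
    ((16 * p) ^ ((p - 1) * M) * (GG p θ 0).card) fun r hr => (GG_le hθ hd0 r).trans
      (Nat.mul_le_mul_right _ (Nat.pow_le_pow_right (by omega) (by simpa [Nat.lt_succ_iff] using hr))))
  rw [card_range] at h6
  exact h4.trans ((Nat.mul_le_mul_left _ h6).trans_eq (by ring))

open Classical in
lemma GG_zero [Algebra (ZMod p) F] (hp : Odd p) (hθ : Function.Injective θ) {c : ι → ℕ}
    (hc : c ∈ GG p θ 0) : (∀ s, c s ≤ p - 1) ∧ Even (∑ s, c s) ∧ (∃ s, c s ≠ p - 1) ∧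
      Fintype.card ι ≤ 16 * p *
        #{s | ∑ J ∈ range (Fintype.card ι), S p J (θ s ::ₘ pts θ c) ≠ 0} := by
  have hp1 := (Fact.out : p.Prime).two_le
  have hp2 : 3 ≤ p := by obtain ⟨k, rfl⟩ := hp; omega
  obtain ⟨h1, J, h2, h3, h4⟩ := mem_filter.1 hc
  rw [add_zero] at h3
  have h5 : J + p ≤ Fintype.card ι := Nat.le_of_mul_le_mul_left (le_of_add_le_left h4) (by omega)
  refine ⟨mem_cube.1 h1, h3 ▸ (Nat.Odd.sub_odd hp odd_one).mul_right _, ?_, ?_⟩
  · by_contra h
    push Not at h
    simp only [h, sum_const, card_univ, smul_eq_mul, mul_comm (Fintype.card ι)] at h3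
    have := Nat.eq_of_mul_eq_mul_left (by omega) h3
    omega
  set P := ∑ I ∈ range (J + 1), PS p I (pts θ c) with hP
  have hP0 : P ≠ 0 := by
    intro h
    have := congrArg (coeff · J) h
    simp only [hP, finsetSum_coeff, sum_range_succ, coeff_add, coeff_PS_top, coeff_zero] at this
    rw [sum_eq_zero fun I hI => coeff_PS_gt _ _ (mem_range.1 hI), zero_add] at this
    exact good hp hθ (mem_cube.1 h1) h2 h3.symm (by omega) this
  have hPd : P.natDegree ≤ J := natDegree_le_iff_coeff_eq_zero.2 fun N hN => by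
    rw [hP, finsetSum_coeff]
    exact sum_eq_zero fun I hI => coeff_PS_gt _ _ (by have := mem_range.1 hI; omega)
  have hev : ∀ τ, ∑ I ∈ range (Fintype.card ι), S p I (τ ::ₘ pts θ c) = P.eval τ := by
    intro τ
    simp only [hP, eval_finsetSum, eval_PS]
    refine (sum_subset (range_subset_range.2 (by omega)) fun I _ hI => S_zero ?_).symm
    have := Nat.mul_le_mul_left (p - 1) (not_lt.1 (mem_range.not.1 hI))
    rw [Multiset.card_cons, card_pts, ← h3]
    rw [mul_add_one] at this
    omega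
  have h6 := sum_le_deg hθ hP0 (b := fun s => if P.eval (θ s) = 0 then 1 else 0) fun s => by
    split_ifs with h
    · rw [pow_one]; exact dvd_iff_isRoot.2 h
    · simp
  rw [← card_filter] at h6
  have h7 := card_filter_add_card_filter_not (s := univ) (fun s => P.eval (θ s) = 0)
  rw [card_univ] at h7
  simp only [hev]
  have h8 := Nat.mul_le_mul_left (16 * p)
    (show Fintype.card ι ≤ #{s | P.eval (θ s) ≠ 0} + (J + p) by simp only [ne_eq]; omega)
  rw [mul_add] at h8
  omega

end Pool.Agent.Lib.MP_53226a_nt.H17
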