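import Pool.Agent.Lib.MP_53226a_nt.H17C

/-! Characters of `F_p[T] / Q` and their reduction modulo a prime above `p`. -/

namespace Pool.Agent.Lib.MP_53226a_nt.H17

open Polynomial Finset

variable {p : ℕ} [Fact p.Prime]

lemma coeff_mon {J : ℕ} (v : Fin J → ZMod p) (j : Fin J) : (mon (ZMod p) v).coeff j = v j := by
  rw [mon, coeff_add, coeff_X_pow, if_neg j.2.ne, zero_add, lin, finsetSum_coeff,
    sum_eq_single j (fun i _ h => by rw [coeff_monomial, if_neg (Fin.val_ne_of_ne h)]) (by simp)]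
  simp

lemma mon_monic {J : ℕ} (v : Fin J → ZMod p) :
    (mon (ZMod p) v).Monic ∧ (mon (ZMod p) v).natDegree = J := by
  have h : (lin (ZMod p) v).degree < J := (degree_lt_iff_coeff_zero _ _).2 fun k hk => coeff_lin v hk
  refine ⟨monic_X_pow_add h, natDegree_eq_of_degree_eq_some ?_⟩
  rw [mon, degree_add_eq_left_of_degree_lt (by rwa [degree_X_pow]), degree_X_pow]

lemma finsum_monic {M : Type*} [AddCommMonoid M] (d : ℕ) (g : (ZMod p)[X] → M) :
    ∑ᶠ f ∈ {f : (ZMod p)[X] | f.Monic ∧ f.natDegree < d}, g f =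
      ∑ J ∈ range d, ∑ v : Fin J → ZMod p, g (mon (ZMod p) v) := by
  rw [sum_sigma', ← finsum_mem_coe_finset]
  refine (finsum_mem_eq_of_bijOn (fun x : Σ J, Fin J → ZMod p => mon (ZMod p) x.2)
    ⟨fun x hx => ?_, ?_, fun f hf => ?_⟩ fun _ _ => rfl).symm
  · refine ⟨(mon_monic _).1, ?_⟩
    rw [(mon_monic _).2]
    simpa using hx
  · rintro ⟨J, v⟩ - ⟨I, w⟩ - h
    obtain rfl : J = I := by rw [← (mon_monic v).2, ← (mon_monic w).2]; exact congrArg _ h
    congr 1
    funext j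
    rw [← coeff_mon v, ← coeff_mon w]
    exact congrArg (coeff · j) h
  · refine ⟨⟨f.natDegree, fun j => f.coeff j⟩, by simpa using hf.2, ?_⟩
    conv_rhs => rw [hf.1.as_sum, sum_range]
    simp [mon, lin, C_mul_X_pow_eq_monomial]

lemma exists_hom {k : Type*} [Field k] [Algebra (ZMod p) k] (π : integralClosure ℤ ℂ →+* k)
    {Q : (ZMod p)[X]} (hQ : Q.Monic) (hd : 0 < Q.natDegree) :
    ∃ α : k, Q.eval₂ (algebraMap (ZMod p) k) α = 0 := by
  obtain ⟨R, hR, h1, h2⟩ := lifts_and_natDegree_eq_and_monic (f := Int.castRingHom (ZMod p))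
    ((mem_lifts Q).2 (map_surjective _ (ZMod.ringHom_surjective _) Q)) hQ
  obtain ⟨z, hz⟩ := IsAlgClosed.exists_aeval_eq_zero ℂ R
    (natDegree_pos_iff_degree_pos.1 (h1 ▸ hd)).ne'
  refine ⟨π ⟨z, R, h2, hz⟩, ?_⟩
  have h3 : R.eval₂ (algebraMap ℤ (integralClosure ℤ ℂ)) ⟨z, R, h2, hz⟩ = 0 := by
    apply Subtype.ext
    exact (Subalgebra.aeval_coe _ _ _).symm.trans hz
  rw [← hR, eval₂_map, RingHom.ext_int (RingHom.comp _ _) (π.comp (algebraMap ℤ _)),
    ← hom_eval₂, h3, map_zero]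

lemma exists_char {L k : Type*} [Field L] [Fintype L] [Field k] (π : integralClosure ℤ ℂ →+* k)
    (ι : L →+* k) : ∃ (ψ : MulChar L ℂ) (φ : L → integralClosure ℤ ℂ),
      ∀ x, (φ x : ℂ) = ψ x ∧ π (φ x) = ι x := by
  classical
  obtain ⟨γ, hγ⟩ := IsCyclic.exists_generator (α := Lˣ)
  have hN : 0 < Fintype.card Lˣ := Fintype.card_pos
  have h1 := Complex.isPrimitiveRoot_exp _ hN.ne'
  have h2 := congrArg (eval₂ π (ι γ)) (X_pow_sub_one_eq_prod hN
    ((IsPrimitiveRoot.coe_submonoidClass_iff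
      (ζ := (⟨_, h1.isIntegral hN⟩ : integralClosure ℤ ℂ))).1 h1))
  rw [eval₂_sub, eval₂_X_pow, ← map_pow, ← Units.val_pow_eq_pow_val, pow_card_eq_one,
    Units.val_one, map_one, eval₂_one, sub_self, eval₂_finsetProd, eq_comm, prod_eq_zero_iff] at h2
  obtain ⟨ζ, h3, h4⟩ := h2
  rw [eval₂_sub, eval₂_X, eval₂_C, sub_eq_zero] at h4
  have h5 : (ζ : ℂ) ^ Fintype.card Lˣ = 1 := by
    exact_mod_cast congrArg Subtype.val ((mem_nthRootsFinset hN _).1 h3)
  have h6 : (ζ : ℂ) ≠ 0 := fun h => by simp [h, hN.ne'] at h5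
  have h7 : Units.mk0 _ h6 ∈ rootsOfUnity (Fintype.card Lˣ) ℂ :=
    (mem_rootsOfUnity' _ _).2 h5
  have : ∀ x, ∃ a : integralClosure ℤ ℂ, (a : ℂ) = MulChar.ofRootOfUnity h7 hγ x ∧ π a = ι x := by
    intro x
    by_cases hx : x = 0
    · exact ⟨0, by simp [hx, MulChar.map_zero]⟩
    · obtain ⟨m, hm⟩ := mem_powers_iff_mem_zpowers.2 (hγ (Units.mk0 x hx))
      have h8 : x = (γ : L) ^ m := by simpa using congrArg Units.val hm.symm
      exact ⟨ζ ^ m, by simp [h8, MulChar.ofRootOfUnity_spec], by simp [h8, h4]⟩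
  choose φ hφ using this
  exact ⟨_, φ, hφ⟩

lemma digits_lt {d : ℕ} {c : Fin d → ℕ} (hc : ∀ s, c s ≤ p - 1) (h : ∃ s, c s ≠ p - 1) :
    ∑ s, c s * p ^ (s : ℕ) < p ^ d - 1 := by
  have hp := (Fact.out : p.Prime).two_le
  obtain ⟨s, hs⟩ := h
  have h1 := sum_lt_sum (s := univ) (f := fun s : Fin d => c s * p ^ (s : ℕ))
    (g := fun s => (p - 1) * p ^ (s : ℕ)) (fun t _ => Nat.mul_le_mul_right _ (hc t))
    ⟨s, mem_univ s, Nat.mul_lt_mul_of_pos_right ((hc s).lt_of_ne hs) (by positivity)⟩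
  rw [← mul_sum, Fin.sum_univ_eq_sum_range (fun i => p ^ i), Nat.geomSum_eq hp] at h1
  exact h1.trans_le (Nat.mul_div_le _ _)

lemma digits_inj {d : ℕ} {c c' : Fin d → ℕ} (hc : ∀ s, c s ≤ p - 1) (hc' : ∀ s, c' s ≤ p - 1)
    (h : ∑ s, c s * p ^ (s : ℕ) = ∑ s, c' s * p ^ (s : ℕ)) : c = c' := by
  have hp := (Fact.out : p.Prime).two_le
  have := finFunctionFinEquiv.injective (a₁ := fun s => (⟨c s, by have := hc s; omega⟩ : Fin p))
    (a₂ := fun s => ⟨c' s, by have := hc' s; omega⟩) (Fin.ext h)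
  exact funext fun s => congrArg Fin.val (congrFun this s)

lemma eval_mon_iter {k : Type*} [Field k] [Algebra (ZMod p) k] [CharP k p] {J : ℕ}
    (v : Fin J → ZMod p) (α : k) (s : ℕ) :
    (mon k v).eval (α ^ p ^ s) = (mon k v).eval α ^ p ^ s := by
  induction s with
  | zero => simp
  | succ s ih => rw [pow_succ, pow_mul, pow_mul, eval_mon_pow, ih]

theorem count {k : Type*} [Field k] [CharP k p] (hp : Odd p) (π : integralClosure ℤ ℂ →+* k)
    {Q : (ZMod p)[X]} (hQ : Q.Monic) (hI : Irreducible Q)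
    (hd : 4 * p * (p - 1) ^ 3 + 16 * p * (4 * p * (p - 1) + p) ≤ Q.natDegree) :
    p ^ Q.natDegree ≤ 4 * p * (((p - 1) * (4 * p * (p - 1)) + 1) *
      (16 * p) ^ ((p - 1) * (4 * p * (p - 1)))) * (16 * p *
      {χ : MulChar (AdjoinRoot Q) ℂ | χ (-1) = -1 ∧ ∃ a : integralClosure ℤ ℂ, π a ≠ 0 ∧
        ∑ᶠ f ∈ {f : (ZMod p)[X] | f.Monic ∧ f.natDegree < Q.natDegree},
          χ (AdjoinRoot.mk Q f) = a}.ncard) := by
  classical
  have hp1 := (Fact.out : p.Prime).two_le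
  let := ZMod.algebra k p
  have := Fact.mk hI
  have hfr : Module.finrank (ZMod p) (AdjoinRoot Q) = Q.natDegree :=
    (AdjoinRoot.powerBasis hQ.ne_zero).finrank
  have := (AdjoinRoot.powerBasis hQ.ne_zero).finite
  have : Finite (AdjoinRoot Q) := Module.finite_of_finite (ZMod p)
  let := Fintype.ofFinite (AdjoinRoot Q)
  have hcard : Fintype.card (AdjoinRoot Q) = p ^ Q.natDegree := by
    rw [Module.card_eq_pow_finrank (K := ZMod p), ZMod.card, hfr]
  obtain ⟨α, hα⟩ := exists_hom π hQ hI.natDegree_pos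
  set ι := AdjoinRoot.lift _ _ hα with hι
  obtain ⟨ψ, φ, hφ⟩ := exists_char π ι
  set θ : Fin Q.natDegree → k := fun s => α ^ p ^ (s : ℕ) with hθ
  have hθi : Function.Injective θ := by
    intro s t h
    have h1 : AdjoinRoot.root Q ^ p ^ (s : ℕ) = AdjoinRoot.root Q ^ p ^ (t : ℕ) :=
      ι.injective (by simpa [hι] using h)
    have h2 := (FiniteField.bijective_frobeniusAlgHom_pow (ZMod p) (AdjoinRoot Q)).1
      (a₁ := s.cast hfr.symm) (a₂ := t.cast hfr.symm) (AdjoinRoot.algHom_ext (by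
        simpa [AlgHom.coe_pow, FiniteField.coe_frobeniusAlgHom, pow_iterate] using h1))
    exact Fin.cast_injective _ h2
  refine (GG_big hp hθi (by simpa using hd)).trans' (by simp) |>.trans (Nat.mul_le_mul_left _ ?_)
  rw [Set.ncard_eq_toFinset_card _ (Set.toFinite _)]
  have hne : ∀ (c : Fin Q.natDegree → ℕ) (s : Fin Q.natDegree),
      ∑ t, c t * p ^ (t : ℕ) + p ^ (s : ℕ) ≠ 0 := fun c s => by positivity
  refine card_le_of_moves _ _ (fun c (s : Fin Q.natDegree) =>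
      ψ ^ (∑ t : Fin Q.natDegree, c t * p ^ (t : ℕ) + p ^ (s : ℕ)))
    (fun s c hc c' hc' h => ?_) (by simpa using hI.natDegree_pos) fun c hc => ?_
  · obtain ⟨g1, -, g2, -⟩ := GG_zero hp hθi hc
    obtain ⟨g3, -, g4, -⟩ := GG_zero hp hθi hc'
    obtain ⟨γ, hγ⟩ := IsCyclic.exists_generator (α := (AdjoinRoot Q)ˣ)
    have h1 := DFunLike.congr_fun h (γ : AdjoinRoot Q)
    simp only [MulChar.pow_apply' _ (hne _ _), ← (hφ _).1] at h1
    have h2 := congrArg π (Subtype.ext (a1 := φ γ ^ _) (a2 := φ γ ^ _) (by simpa using h1))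
    simp only [map_pow, (hφ _).2] at h2
    simp only [← map_pow] at h2
    have h3 := ι.injective h2
    rw [← Units.val_pow_eq_pow_val, ← Units.val_pow_eq_pow_val, Units.val_inj, pow_eq_pow_iff_modEq,
      orderOf_eq_card_of_forall_mem_zpowers hγ, Nat.card_eq_fintype_card, Fintype.card_units,
      hcard] at h3
    exact digits_inj g1 g3 ((h3.add_right_cancel' _).eq_of_lt_of_lt (digits_lt g1 g2)
      (digits_lt g3 g4))
  · obtain ⟨-, g1, -, g2⟩ := GG_zero hp hθi hc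
    refine g2.trans (Nat.mul_le_mul_left _ (card_le_card fun s hs => ?_))
    have h1 := (mem_filter.1 hs).2
    rw [Fintype.card_fin] at h1
    refine mem_filter.2 ⟨mem_univ _, (Set.Finite.mem_toFinset _).2 ⟨?_, ∑ J ∈ range Q.natDegree,
      ∑ v : Fin J → ZMod p, φ (AdjoinRoot.mk Q (mon (ZMod p) v)) ^
        (∑ t : Fin Q.natDegree, c t * p ^ (t : ℕ) + p ^ (s : ℕ)), fun h => h1 (Eq.trans ?_ h), ?_⟩⟩
    · have h2 : ψ (-1) = -1 := by
        refine (mul_self_eq_one_iff.1 (by rw [← map_mul]; simp)).resolve_left fun h => ?_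
        have h3 := (hφ (-1)).2
        rw [show φ (-1) = 1 from Subtype.ext ((hφ _).1.trans h), map_one, map_neg, map_one] at h3
        have h4 : ((2 : ℕ) : k) = 0 := by push_cast; linear_combination h3
        have := Nat.le_of_dvd two_pos ((CharP.cast_eq_zero_iff k p 2).1 h4)
        obtain ⟨m, rfl⟩ := hp
        omega
      rw [MulChar.pow_apply' _ (hne _ _), h2]
      refine Odd.neg_one_pow (ZMod.natCast_eq_one_iff_odd.1 ?_)
      have h3 := ZMod.natCast_eq_zero_iff_even.2 g1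
      push_cast at h3 ⊢
      simp [ZMod.natCast_eq_one_iff_odd.2 hp, h3]
    · simp only [map_sum, map_pow, (hφ _).2, S]
      refine sum_congr rfl fun J _ => sum_congr rfl fun v _ => ?_
      have h2 : ι (AdjoinRoot.mk Q (mon (ZMod p) v)) = (mon k v).eval α := by
        simp [hι, AdjoinRoot.lift_mk, mon, lin, eval_finsetSum]
      rw [pr_cons, pr, prod_pts, h2, pow_add, ← prod_pow_eq_pow_sum, mul_comm]
      simp only [hθ, eval_mon_iter, ← pow_mul, mul_comm]
    · rw [finsum_monic]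
      push_cast
      simp only [MulChar.pow_apply' _ (hne _ _), (hφ _).1]

end Pool.Agent.Lib.MP_53226a_nt.H17
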