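import Pool.Agent.Lib.MP_53226a_nt.H17S

/-! The determinant formula for the power sums. -/

namespace Pool.Agent.Lib.MP_53226a_nt.H17

open Polynomial Finset Matrix

variable {F : Type*} [Field F] {p : ℕ}

/-- The product of `τ - X` over the points `τ` of `t`. -/
noncomputable def gp (t : Multiset F) : F[X] := (t.map fun τ => C τ - X).prod

/-- The matrix of the determinant formula. -/
noncomputable def MM (p J : ℕ) (f : F[X]) : Matrix (Fin J) (Fin J) F :=
  Matrix.of fun m i => (f * X ^ (i : ℕ)).coeff (p * m + (p - 1))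

/-- The determinant. -/
noncomputable def DD (p J : ℕ) (t : Multiset F) : F := (MM p J (gp t)).det

lemma gp_cons (τ : F) (t : Multiset F) : gp (τ ::ₘ t) = (C τ - X) * gp t := by simp [gp]

lemma gp_deg (t : Multiset F) : (gp t).natDegree ≤ t.card ∧ (gp t).coeff t.card = (-1) ^ t.card := by
  induction t using Multiset.induction_on with
  | empty => simp [gp]
  | cons τ t ih =>
    rw [gp_cons, Multiset.card_cons]
    have h1 : (C τ - X : F[X]).natDegree ≤ 1 := by compute_degree
    refine ⟨natDegree_mul_le.trans (by omega), ?_⟩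
    rw [add_comm t.card, coeff_mul_add_eq_of_natDegree_le h1 ih.1, ih.2, add_comm, pow_succ]
    simp [mul_comm]

lemma MM_zero {J : ℕ} (t : Multiset F) (m i : Fin J) (h : t.card + i < p * m + (p - 1)) :
    MM p J (gp t) m i = 0 := by
  rw [MM, of_apply]
  refine coeff_eq_zero_of_natDegree_lt (natDegree_mul_le.trans_lt ?_)
  have h1 := (gp_deg t).1
  rw [natDegree_X_pow]
  omega

lemma DD_zero {J : ℕ} {t : Multiset F} (hp : 1 ≤ p) (h : t.card < (p - 1) * J) : DD p J t = 0 := by
  obtain ⟨n, rfl⟩ := Nat.exists_eq_add_of_le' hp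
  rcases J with _ | I
  · simp at h
  refine det_eq_zero_of_row_eq_zero (Fin.last I) fun i => MM_zero _ _ _ ?_
  have h2 := i.2
  simp only [Fin.val_last, Nat.add_sub_cancel] at h ⊢
  nlinarith

lemma DD_last {I : ℕ} {t : Multiset F} (hp : Odd p) (h : t.card = (p - 1) * (I + 1)) :
    DD p (I + 1) t = DD p I t := by
  obtain ⟨k, rfl⟩ := hp
  simp only [Nat.add_sub_cancel] at h
  rw [DD, det_succ_row _ (Fin.last I), Fin.sum_univ_castSucc, sum_eq_zero, zero_add]
  · have h1 : MM (2 * k + 1) (I + 1) (gp t) (Fin.last I) (Fin.last I) = 1 := by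
      simp only [MM, of_apply, Fin.val_last, Nat.add_sub_cancel]
      rw [show (2 * k + 1) * I + 2 * k = t.card + I by rw [h]; ring, coeff_mul_X_pow,
        (gp_deg t).2, h, mul_assoc, pow_mul]
      simp
    rw [h1, ← two_mul, pow_mul, Fin.succAbove_last]
    simp only [even_two, Even.neg_pow, one_pow, mul_one, one_mul]
    rfl
  · intro i _
    have : MM (2 * k + 1) (I + 1) (gp t) (Fin.last I) i.castSucc = 0 := by
      refine MM_zero _ _ _ ?_
      have h2 := i.2
      simp only [Fin.val_last, Nat.add_sub_cancel, Fin.val_castSucc]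
      nlinarith
    rw [this, mul_zero, zero_mul]

lemma MM_mulVec (J : ℕ) (f : F[X]) (v : Fin J → F) (m : Fin J) :
    (MM p J f *ᵥ v) m = (f * ∑ i : Fin J, C (v i) * X ^ (i : ℕ)).coeff (p * m + (p - 1)) := by
  simp only [mulVec, dotProduct, MM, of_apply, mul_sum, finsetSum_coeff]
  refine sum_congr rfl fun i _ => ?_
  rw [mul_left_comm, coeff_C_mul, mul_comm]

lemma DD_frob [Fact p.Prime] [CharP F p] {J : ℕ} {t : Multiset F} (τ : F) (h : DD p J t = 0) :
    DD p J (Multiset.replicate p τ + t) = 0 := by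
  have hp := (Fact.out : p.Prime).one_le
  obtain ⟨v, hv, h0⟩ := exists_mulVec_eq_zero_iff.2 h
  refine exists_mulVec_eq_zero_iff.1 ⟨v, hv, funext fun m => ?_⟩
  have h1 : gp (Multiset.replicate p τ + t) = (C (τ ^ p) - X ^ p) * gp t := by
    simp [gp, sub_pow_char]
  have h2 : ∀ m : Fin J, (gp t * ∑ i : Fin J, C (v i) * X ^ (i : ℕ)).coeff (p * m + (p - 1)) = 0 :=
    fun m => by rw [← MM_mulVec, h0]; rfl
  rw [MM_mulVec, h1, mul_assoc, sub_mul, coeff_sub, coeff_C_mul, h2, coeff_X_pow_mul']
  split_ifs with h3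
  · obtain ⟨m, hm⟩ := m
    rcases m with _ | m
    · simp only [mul_zero, zero_add] at h3
      omega
    · have := h2 ⟨m, by omega⟩
      simp only [mul_add, mul_one] at this ⊢
      rw [show p * m + p + (p - 1) - p = p * m + (p - 1) by omega, this]
      simp
  · simp

/-- `DD` as a polynomial in one extra point. -/
noncomputable def PD (p J : ℕ) (t : Multiset F) : F[X] :=
  det ((X : F[X]) • (MM p J (gp t)).map C + (-MM p J (X * gp t)).map C)

lemma eval_PD (J : ℕ) (t : Multiset F) (τ : F) : (PD p J t).eval τ = DD p J (τ ::ₘ t) := by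
  rw [PD, DD, ← coe_evalRingHom, RingHom.map_det]
  congr 1
  ext m i
  simp [MM, gp_cons, mul_assoc, coeff_C_mul, sub_eq_add_neg, add_mul, mul_comm τ]

lemma coeff_PD_gt (J : ℕ) (t : Multiset F) {k : ℕ} (hk : J < k) : (PD p J t).coeff k = 0 :=
  coeff_eq_zero_of_natDegree_lt ((natDegree_det_X_add_C_le _ _).trans_lt (by simpa using hk))

lemma coeff_PD_top (J : ℕ) (t : Multiset F) : (PD p J t).coeff J = DD p J t := by
  simpa [PD, DD] using coeff_det_X_add_C_card (MM p J (gp t)) (-MM p J (X * gp t))

lemma grid [DecidableEq F] (Δ : Multiset F → F) (x : ℕ) (G : Finset F)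
    (hx : (p - 1) * G.card < x)
    (hpoly : ∀ t : Multiset F, t.card + 1 = x → ∃ P : F[X], (∀ k, G.card ≤ k → P.coeff k = 0) ∧
      ∀ τ, Δ (τ ::ₘ t) = P.eval τ)
    (hvan : ∀ (τ : F) (t : Multiset F), p + t.card = x → Δ (Multiset.replicate p τ + t) = 0) :
    ∀ (r : ℕ) (t : Multiset F), t.card = x → (t.filter (· ∉ G)).card = r → Δ t = 0 := by
  intro r
  induction r with
  | zero =>
    intro t ht h0
    have hG : t.toFinset ⊆ G := by
      intro τ hτ
      by_contra h
      have : τ ∈ t.filter (· ∉ G) := Multiset.mem_filter.2 ⟨Multiset.mem_toFinset.1 hτ, h⟩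
      rw [Multiset.card_eq_zero.1 h0] at this
      simp at this
    obtain ⟨τ, hτ⟩ : ∃ τ, p ≤ t.count τ := by
      by_contra h
      push Not at h
      have h1 := Multiset.sum_count_eq_card (s := G) (m := t)
        (fun a ha => hG (Multiset.mem_toFinset.2 ha))
      have h2 := Finset.sum_le_card_nsmul G (fun a => t.count a) (p - 1)
        (fun a _ => by have := h a; omega)
      rw [smul_eq_mul, mul_comm] at h2
      omega
    obtain ⟨u, rfl⟩ := Multiset.le_iff_exists_add.1 (Multiset.le_count_iff_replicate_le.1 hτ)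
    exact hvan τ u (by simpa using ht)
  | succ r ih =>
    intro t ht h0
    obtain ⟨τ, hτ⟩ := Multiset.card_pos_iff_exists_mem.1 (show 0 < (t.filter (· ∉ G)).card by omega)
    obtain ⟨h1, h2⟩ := Multiset.mem_filter.1 hτ
    obtain ⟨u, rfl⟩ := Multiset.exists_cons_of_mem h1
    rw [Multiset.filter_cons_of_pos (p := (· ∉ G)) _ h2, Multiset.card_cons] at h0
    rw [Multiset.card_cons] at ht
    obtain ⟨P, hP, hΔ⟩ := hpoly u ht
    have : P = 0 := by
      refine eq_zero_of_degree_lt_of_eval_finset_eq_zero G ((degree_lt_iff_coeff_zero _ _).2 hP) ?_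
      intro γ hγ
      rw [← hΔ]
      refine ih _ (by simpa using ht) ?_
      rw [Multiset.filter_cons_of_neg _ (by simpa using hγ)]
      omega
    rw [hΔ, this, eval_zero]

theorem S_eq_DD [Fact p.Prime] [CharP F p] [Algebra (ZMod p) F] (hp : Odd p) (G : Finset F) :
    ∀ J ≤ G.card, ∀ (x : ℕ) (t : Multiset F), t.card = x → x < (p - 1) * (J + 1) →
      S p J t = (-1) ^ J * DD p J t := by
  classical
  have hp1 := (Fact.out : p.Prime).two_le
  intro J
  induction J with
  | zero => intro _ x t _ _; simp [S, DD, mon, lin, pr]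
  | succ I ihJ =>
    intro hJ x
    induction x with
    | zero =>
      intro t ht _
      have : t.card < (p - 1) * (I + 1) := ht ▸ Nat.mul_pos (by omega) I.succ_pos
      rw [S_zero this, DD_zero (by omega) this, mul_zero]
    | succ x ihx =>
      intro t ht hx
      have hvan : ∀ (τ : F) (t : Multiset F), p + t.card = x + 1 →
          S p (I + 1) (Multiset.replicate p τ + t) -
            (-1) ^ (I + 1) * DD p (I + 1) (Multiset.replicate p τ + t) = 0 := by
        intro τ u hu
        rw [mul_add (p - 1) (I + 1)] at hx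
        rw [S_frob, S_zero (by rw [Multiset.card_cons]; omega),
          DD_frob τ (DD_zero (by omega) (by omega))]
        simp
      rcases lt_trichotomy (x + 1) ((p - 1) * (I + 1)) with h | h | h
      · rw [S_zero (ht ▸ h), DD_zero (by omega) (ht ▸ h), mul_zero]
      · obtain ⟨G', -, hG⟩ := Finset.exists_subset_card_eq (show I ≤ G.card by omega)
        refine sub_eq_zero.1 (grid (p := p)
          (fun t => S p (I + 1) t - (-1) ^ (I + 1) * DD p (I + 1) t) (x + 1) G' ?_ ?_ hvan _ t ht rfl)
        · rw [hG, h]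
          exact Nat.mul_lt_mul_of_pos_left I.lt_succ_self (by omega)
        · intro u hu
          refine ⟨PS p (I + 1) u - C ((-1) ^ (I + 1)) * PD p I u, fun k hk => ?_, fun τ => ?_⟩
          · rw [coeff_sub, coeff_C_mul]
            rcases (hG ▸ hk : I ≤ k).eq_or_lt with rfl | h1
            · rw [coeff_PS_second (by omega), coeff_PD_top,
                ihJ (by omega) _ u rfl (by omega)]
              ring
            · rw [coeff_PD_gt _ _ h1, mul_zero, sub_zero]
              rcases (Nat.succ_le_of_lt h1).eq_or_lt with rfl | h2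
              · rw [coeff_PS_top, S_zero (by omega)]
              · exact coeff_PS_gt _ _ h2
          · rw [eval_sub, eval_mul, eval_C, eval_PS, eval_PD,
              DD_last hp (by rw [Multiset.card_cons]; omega)]
      · obtain ⟨G', -, hG⟩ := Finset.exists_subset_card_eq hJ
        refine sub_eq_zero.1 (grid (p := p)
          (fun t => S p (I + 1) t - (-1) ^ (I + 1) * DD p (I + 1) t) (x + 1) G' (hG ▸ h) ?_ hvan _ t
          ht rfl)
        intro u hu
        refine ⟨PS p (I + 1) u - C ((-1) ^ (I + 1)) * PD p (I + 1) u, fun k hk => ?_, fun τ => ?_⟩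
        · rw [coeff_sub, coeff_C_mul]
          rcases (hG ▸ hk : I + 1 ≤ k).eq_or_lt with rfl | h1
          · rw [coeff_PS_top, coeff_PD_top, ihx u (by omega) (by omega), sub_self]
          · rw [coeff_PD_gt _ _ h1, coeff_PS_gt _ _ h1, mul_zero, sub_zero]
        · rw [eval_sub, eval_mul, eval_C, eval_PS, eval_PD]

end Pool.Agent.Lib.MP_53226a_nt.H17
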