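import Pool.Agent.Lib.MP_53226a_nt.H17L
import Pool.Agent.Lib.MP_53226a_nt.H17T

/-! The Wronskian inequality, the balancing step and the nonvanishing criterion. -/

namespace Pool.Agent.Lib.MP_53226a_nt.H17

open Polynomial Finset

variable {F : Type*} [Field F] {p : ℕ} {ι : Type*} {θ : ι → F} {c : ι → ℕ}

/-- All lattice elements of degree below `p K` vanish to higher order at `θ s`. -/
def NoNew (p : ℕ) (θ : ι → F) (c : ι → ℕ) (s : ι) (K : ℕ) : Prop :=
  ∀ y, Lam p θ c y → y.natDegree < p * K → (X - C (θ s)) ^ (c s + 1) ∣ y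

/-- All successive minima are at most `K`. -/
def Full (p : ℕ) (θ : ι → F) (c : ι → ℕ) (K : ℕ) : Prop := ∀ e < p - 1, kk p θ c e ≤ K

lemma arith_pos {n ρ μ c : ℕ} (h2 : ρ < n) (hc : c ≤ n) (hμ : μ = min ρ (n - ρ)) :
    ρ * c ≤ n * (ρ + c - n) + μ * (n - 1) * (if 0 < c then 1 else 0) := by
  split_ifs with h0
  · rw [mul_one]
    obtain ⟨m, rfl⟩ : ∃ m, n = m + 1 := ⟨n - 1, by omega⟩
    rw [Nat.add_sub_cancel]
    rcases le_total ρ (m + 1 - ρ) with h | h
    · rw [hμ, min_eq_left h]
      rcases hc.eq_or_lt with rfl | h3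
      · rw [Nat.add_sub_cancel, mul_comm]; omega
      · exact le_add_left (Nat.mul_le_mul_left _ (by omega))
    · rw [min_eq_right h] at hμ
      rcases le_total c μ with h3 | h3
      · exact le_add_left (by rw [mul_comm]; exact Nat.mul_le_mul h3 (by omega))
      · obtain ⟨t, rfl⟩ := Nat.exists_eq_add_of_le h3
        rw [show ρ + (μ + t) - (m + 1) = t by omega, mul_add, add_comm, mul_comm μ]
        exact add_le_add (Nat.mul_le_mul_right _ (by omega)) (Nat.mul_le_mul_right _ (by omega))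
  · simp [show c = 0 by omega]

lemma arith_fin {n ρ μ w K T U V D B : ℕ} (h0 : 0 < ρ) (h1 : ρ < n) (hμ : μ = min ρ (n - ρ))
    (hK : w < n * K) (hT : T + (n - ρ) * K ≤ w)
    (hb : ρ * w + B + ρ * U + (n - ρ) * V ≤ ρ * n + (n + 1) * T)
    (hs : ρ * w ≤ n * B + μ * (n - 1) * (V + D)) : n * U + (V + D) ≤ n * D + n ^ 3 := by
  obtain ⟨a, ha⟩ : ∃ a, n = ρ + a := ⟨n - ρ, by omega⟩
  rw [show n - ρ = a by omega] at hb hT hμ
  have g1 : n * T ≤ ρ * w := by
    have g2 := Nat.mul_le_mul_left a hK.le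
    have g3 := Nat.mul_le_mul_left n hT
    have g4 : n * w = ρ * w + a * w := by rw [ha, add_mul]
    nlinarith
  have g2 : n * (μ * U) ≤ n * (ρ * U) := Nat.mul_le_mul_left _ (Nat.mul_le_mul_right _ (by omega))
  have g3 : n * (μ * V) ≤ n * (a * V) := Nat.mul_le_mul_left _ (Nat.mul_le_mul_right _ (by omega))
  have g4 := Nat.mul_le_mul_left n hb
  have g5 := Nat.mul_le_mul_left (n * n) (Nat.mul_le_mul h1.le (show 1 ≤ μ by omega))
  have g6 := Nat.mul_le_mul_left (n + 1) g1
  obtain ⟨m, rfl⟩ : ∃ m, n = m + 1 := ⟨n - 1, by omega⟩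
  rw [Nat.add_sub_cancel] at hs
  refine Nat.le_of_mul_le_mul_left (c := μ) ?_ (by omega)
  linarith

variable [Fact p.Prime] [CharP F p] [Fintype ι] [DecidableEq ι]

/-- Lower the exponent at `s` by one. -/
def dn (c : ι → ℕ) (s : ι) : ι → ℕ := Function.update c s (c s - 1)

omit [Fintype ι] in
lemma up_dn {s : ι} (h : 0 < c s) : up (dn c s) s = c := by
  simp [up, dn, Nat.sub_add_cancel h]

omit [Fintype ι] in
lemma dn_up (c : ι → ℕ) (s : ι) : dn (up c s) s = c := by simp [up, dn]

open Classical in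
lemma key (hθ : Function.Injective θ) (hc : ∀ s, c s ≤ p - 1) {K : ℕ}
    (hK : ∑ s, c s < (p - 1) * (K + 1)) :
    (p - 1) * #{s | c s < p - 1 ∧ NoNew p θ c s (K + 1)} +
      (if Full p θ c K then 0 else #{s | 0 < c s}) ≤
        (p - 1) * #{s | 0 < c s ∧ NoNew p θ (dn c s) s K} + (p - 1) ^ 3 := by
  have hp1 := (Fact.out : p.Prime).one_le
  choose! Yf hY using fun e (he : e < p - 1) => kk_spec θ c he
  have hdeg : ∀ e < p - 1, kk p θ c e ≤ K → (Yf e).natDegree < p * (K + 1) := by
    intro e he h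
    have := Nat.mul_le_mul_left p h
    rw [(hY e he).2.2, mul_add_one]
    omega
  split_ifs with hF
  · rw [card_eq_zero.2 (filter_eq_empty_iff.2 ?_)]
    · simp
    · rintro s - ⟨h1, h2⟩
      obtain ⟨e, he, h3, -⟩ := step hθ h1
      have := kk_le (lam_up.2 ⟨(hY e he).1, h2 _ (hY e he).1 (hdeg e he (hF e he))⟩)
        (hY e he).2.1 (hY e he).2.2
      omega
  have hsum := sum_kk hθ _ c hc rfl
  set n := p - 1 with hn
  set w := ∑ s, c s with hw
  set A := (range n).filter (fun e => kk p θ c e ≤ K) with hA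
  have hAc : ∑ e ∈ A, kk p θ c e + (n - A.card) * (K + 1) ≤ w := by
    rw [← hsum, ← sum_filter_add_sum_filter_not (range n) (fun e => kk p θ c e ≤ K)]
    have h1 := card_nsmul_le_sum ((range n).filter fun e => ¬ kk p θ c e ≤ K) (kk p θ c) (K + 1)
      fun e he => by simpa using (mem_filter.1 he).2
    have h2 := card_filter_add_card_filter_not (s := range n) (fun e => kk p θ c e ≤ K)
    rw [card_range] at h2
    rw [Nat.sub_eq_of_eq_add' h2.symm]
    exact Nat.add_le_add_left h1 _
  have hlt : A.card < n := by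
    simp only [Full, not_forall] at hF
    obtain ⟨e, he, h⟩ := hF
    exact (card_lt_card (filter_ssubset.2 ⟨e, mem_range.2 he, h⟩)).trans_eq (card_range n)
  obtain ⟨r, hr⟩ : ∃ r, A.card = r + 1 := ⟨A.card - 1, by
    rcases Nat.eq_zero_or_pos A.card with h | h
    · rw [h, Nat.sub_zero] at hAc; omega
    · omega⟩
  set ef := A.orderEmbOfFin hr with hef
  have hm : ∀ i, ef i < n ∧ kk p θ c (ef i) ≤ K := fun i => by
    have := mem_filter.1 (A.orderEmbOfFin_mem hr i)
    exact ⟨mem_range.1 this.1, this.2⟩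
  obtain ⟨hW, hWd⟩ := Wr_ne (fun i => Yf (ef i)) (fun i => (hY _ (hm i).1).2.1) (fun i j h => by
    simp only [(hY _ (hm _).1).2.2, Nat.cast_add, Nat.cast_mul, CharP.cast_eq_zero, zero_mul,
      add_zero] at h
    exact ef.injective (CharP.natCast_injOn_Iio F p (by have := (hm i).1; simp; omega)
      (by have := (hm j).1; simp; omega) h))
  have hWd2 : (Wr fun i => Yf (ef i)).natDegree ≤ (r + 1) * n + p * ∑ e ∈ A, kk p θ c e := by
    refine hWd.trans ?_
    simp only [(hY _ (hm _).1).2.2, sum_add_distrib, ← mul_sum]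
    rw [← A.image_orderEmbOfFin_univ hr, sum_image fun _ _ _ _ h => ef.injective h]
    refine Nat.add_le_add_right ?_ _
    simpa using sum_le_card_nsmul univ (fun i => ef i) n fun i _ => (hm i).1.le
  set u : ι → ℕ := fun s => if c s < n ∧ NoNew p θ c s (K + 1) then 1 else 0 with hu
  set v : ι → ℕ := fun s => if 0 < c s ∧ ¬ NoNew p θ (dn c s) s K then 1 else 0 with hv
  have hb := sum_le_deg hθ hW (b := fun s =>
    (r + 1) * c s + (r + 1 + c s - n) + (r + 1) * u s + (n - (r + 1)) * v s) fun s => by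
      have hu1 : u s ≤ 1 ∧ c s + u s ≤ n := by
        have := hc s
        simp only [hu]
        split_ifs with h
        · omega
        · omega
      have hd : ∀ i, (X - C (θ s)) ^ (c s + u s) ∣ Yf (ef i) := fun i => by
        simp only [hu]
        split_ifs with h
        · exact h.2 _ (hY _ (hm i).1).1 (hdeg _ (hm i).1 (hm i).2)
        · exact (hY _ (hm i).1).1.2 s
      simp only [hv]
      split_ifs with h
      · obtain ⟨h0, h⟩ := h
        simp only [NoNew, not_forall] at h
        obtain ⟨z, hz, hz1, hz2⟩ := h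
        have h1 := lam_up_mul (s := s) hz
        rw [up_dn h0] at h1
        obtain ⟨q, hq⟩ := generate (K := K + 1) ef (fun i => Yf (ef i)) (fun e he h2 => by
            have : e ∈ Set.range ef := by
              rw [hef, range_orderEmbOfFin]
              simpa [hA] using ⟨he, by omega⟩
            exact this) (fun i => hY _ (hm i).1) _ _ h1
          (degree_le_natDegree.trans_lt (Nat.cast_lt.2 (natDegree_mul_le.trans_lt (by
            rw [natDegree_pow, natDegree_X_sub_C, mul_add_one]; omega)))) le_rfl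
        obtain ⟨c', hc'⟩ : ∃ c', c s = c' + 1 := ⟨c s - 1, by omega⟩
        have h2 : dn c s s = c' := by simp [dn, hc']
        have h3 := hz.2 s
        rw [h2] at h3 hz2
        refine (pow_dvd_pow _ ?_).trans (local_one (θ s) (fun i => Yf (ef i))
          (fun i => (hY _ (hm i).1).1.1) (b := c' + u s) (by omega) (Nat.le_add_right _ _)
          (fun i => by rw [add_right_comm, ← hc']; exact hd i) hz.1 h3 hz2 q hq)
        rw [hc']
        simp only [add_mul, mul_add, mul_one, one_mul]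
        omega
      · refine (pow_dvd_pow _ ?_).trans (local_zero (θ s) (fun i => Yf (ef i))
          (fun i => (hY _ (hm i).1).1.1) hu1.2 hd)
        simp only [mul_add, mul_zero]
        omega
  obtain ⟨μ, hμ⟩ : ∃ μ, μ = min (r + 1) (n - (r + 1)) := ⟨_, rfl⟩
  rw [hr] at hlt hAc
  have hs := sum_le_sum (s := univ) fun s _ => arith_pos hlt (hc s) hμ
  simp only [sum_add_distrib, ← mul_sum, ← hw] at hs hb
  have e1 : ∑ s, u s = #{s | c s < n ∧ NoNew p θ c s (K + 1)} := by rw [card_filter]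
  have e2 : (∑ s, if 0 < c s then 1 else 0) = #{s | 0 < c s} := by rw [card_filter]
  have e3 : ∑ s, v s + #{s | 0 < c s ∧ NoNew p θ (dn c s) s K} = #{s | 0 < c s} := by
    rw [card_filter, card_filter, ← sum_add_distrib]
    refine sum_congr rfl fun s _ => ?_
    by_cases h1 : 0 < c s <;> by_cases h2 : NoNew p θ (dn c s) s K <;> simp [hv, h1, h2]
  rw [e2] at hs
  rw [← e1, ← e3]
  rw [← e3] at hs
  exact arith_fin r.succ_pos hlt hμ hK hAc ((hb.trans hWd2).trans_eq (by congr 2; omega)) hs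

omit [Fintype ι] [DecidableEq ι] in
lemma InY.dvd_succ {y : F[X]} (h : InY p y) {a : F} (h1 : (X - C a) ^ (p - 1) ∣ y) :
    (X - C a) ^ (p - 1 + 1) ∣ y := by
  rw [dvd_iff_taylor, X_pow_dvd_iff] at h1 ⊢
  intro d hd
  rcases (Nat.le_of_lt_succ hd).eq_or_lt with rfl | h2
  · exact h.taylor a
  · exact h1 d h2

open Classical in
lemma greedy (hθ : Function.Injective θ) (hc : ∀ s, c s ≤ p - 1) {K : ℕ} (hF : Full p θ c K)
    (hK : ∑ s, c s < (p - 1) * K) :
    Fintype.card ι ≤ #{s | c s < p - 1 ∧ Full p θ (up c s) K} + (K + p) := by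
  have hp1 := (Fact.out : p.Prime).two_le
  obtain ⟨e, he, h1⟩ := exists_le_of_sum_le (s := range (p - 1))
    (f := fun e => (p - 1) * kk p θ c e) (g := fun _ => ∑ s, c s) ⟨0, by simp; omega⟩
    (by rw [← mul_sum, sum_kk hθ _ c hc rfl]; simp)
  obtain ⟨y, hy, hy0, hyd⟩ := kk_spec θ c (mem_range.1 he)
  have h2 : kk p θ c e < K := Nat.lt_of_mul_lt_mul_left (h1.trans_lt hK)
  have h3 := sum_le_deg hθ hy0
    (b := fun s => c s + if (X - C (θ s)) ^ (c s + 1) ∣ y then 1 else 0) fun s => by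
      split_ifs with h
      · exact h
      · exact hy.2 s
  rw [sum_add_distrib, ← card_filter, hyd] at h3
  have h4 := card_filter_add_card_filter_not (s := univ) (fun s => (X - C (θ s)) ^ (c s + 1) ∣ y)
  have h5 : #{s | ¬ (X - C (θ s)) ^ (c s + 1) ∣ y} ≤ #{s | c s < p - 1 ∧ Full p θ (up c s) K} := by
    refine card_le_card fun s hs => ?_
    have h6 := (mem_filter.1 hs).2
    have h7 : c s < p - 1 := (hc s).lt_of_ne fun h => h6 (h ▸ hy.1.dvd_succ (h ▸ hy.2 s))
    obtain ⟨e0, -, g1, g2, g3⟩ := step hθ h7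
    refine mem_filter.2 ⟨mem_univ _, h7, fun f hf => ?_⟩
    by_cases h8 : f = e0
    · have := g3 y hy h6
      have h9 : kk p θ c e0 < kk p θ c e + 1 := Nat.lt_of_mul_lt_mul_left (a := p) (by
        have := mem_range.1 he
        rw [mul_add_one]; omega)
      rw [h8]; omega
    · rw [g2 f hf h8]; exact hF f hf
  have h6 : p * kk p θ c e = (p - 1) * kk p θ c e + kk p θ c e := by
    rw [← add_one_mul, Nat.sub_add_cancel (by omega)]
  have := mem_range.1 he
  rw [card_univ] at h4
  omega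

/-- The multiset of points with multiplicities `c`. -/
noncomputable def pts (θ : ι → F) (c : ι → ℕ) : Multiset F := ∑ s, Multiset.replicate (c s) (θ s)

omit [Field F] [DecidableEq ι] in
lemma prod_pts {M : Type*} [CommMonoid M] (θ : ι → F) (c : ι → ℕ) (f : F → M) :
    ((pts θ c).map f).prod = ∏ s, f (θ s) ^ c s := by
  rw [pts, ← Multiset.coe_mapAddMonoidHom, map_sum]
  simp [Multiset.prod_sum]

omit [Field F] [DecidableEq ι] in
lemma card_pts (θ : ι → F) (c : ι → ℕ) : (pts θ c).card = ∑ s, c s := by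
  simp [pts]

lemma good [Algebra (ZMod p) F] (hp : Odd p) (hθ : Function.Injective θ) (hc : ∀ s, c s ≤ p - 1)
    {J : ℕ} (hF : Full p θ c J) (hJ : ∑ s, c s = (p - 1) * J) (hd : J ≤ Fintype.card ι) :
    S p J (pts θ c) ≠ 0 := by
  classical
  have hp1 := (Fact.out : p.Prime).two_le
  rw [S_eq_DD hp (univ.image θ) J (by rwa [card_image_of_injective _ hθ]) _ _ rfl (by
    rw [card_pts, hJ]; exact Nat.mul_lt_mul_of_pos_left J.lt_succ_self (by omega))]
  refine mul_ne_zero (pow_ne_zero _ (by simp)) fun h => ?_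
  obtain ⟨v, hv, h0⟩ := Matrix.exists_mulVec_eq_zero_iff.2 h
  set b : F[X] := ∑ i : Fin J, C (v i) * X ^ (i : ℕ) with hb
  have hb0 : b ≠ 0 := fun h1 => hv (funext fun i => by
    have := congrArg (coeff · i) h1
    simpa [hb, finsetSum_coeff, coeff_X_pow, Fin.val_inj] using this)
  have hb1 : b.natDegree < J := (natDegree_lt_iff_degree_lt hb0).2 (degree_sum_fin_lt v)
  have hg : gp (pts θ c) = ∏ s, (C (θ s) - X) ^ c s := prod_pts θ c _
  have hg0 : gp (pts θ c) ≠ 0 := fun h1 => by simpa [h1] using (gp_deg (pts θ c)).2.symm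
  have h1 : (gp (pts θ c) * b).natDegree < p * J := by
    have := (gp_deg (pts θ c)).1
    have h2 : p * J = (p - 1) * J + J := by rw [← add_one_mul, Nat.sub_add_cancel (by omega)]
    rw [card_pts, hJ] at this
    exact natDegree_mul_le.trans_lt (by omega)
  have h2 : Lam p θ c (gp (pts θ c) * b) := by
    refine ⟨fun m => ?_, fun s => Dvd.dvd.mul_right ?_ _⟩
    · by_cases hm : m < J
      · exact (MM_mulVec J _ v ⟨m, hm⟩).symm.trans (congrFun h0 _)
      · exact coeff_eq_zero_of_natDegree_lt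
          (h1.trans_le (le_add_right (Nat.mul_le_mul_left _ (by omega))))
    · rw [hg]
      exact (pow_dvd_pow_of_dvd (by rw [← neg_sub, neg_dvd]) _).trans
        (dvd_prod_of_mem (fun s => (C (θ s) - X) ^ c s) (mem_univ s))
  obtain ⟨h3, h4⟩ := class_lt (by omega) h2 (mul_ne_zero hg0 hb0)
  have h5 := (sum_eq_sum_iff_of_le (s := range (p - 1)) (g := fun _ => J)
    fun e he => hF e (mem_range.1 he)).1 (by rw [sum_kk hθ _ c hc rfl, hJ]; simp) _ (mem_range.2 h3)
  have := Nat.div_lt_of_lt_mul h1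
  omega

end Pool.Agent.Lib.MP_53226a_nt.H17
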