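import Pool.Agent.Lib.MP_53226a_nt.H17W

/-! Lattices of exact polynomials with prescribed zeros and their successive minima. -/

namespace Pool.Agent.Lib.MP_53226a_nt.H17

open Polynomial Finset

variable {F : Type*} [Field F] {p : ℕ} {ι : Type*} {θ : ι → F} {c : ι → ℕ}

/-- Exact polynomials with a zero of order at least `c s` at `θ s`. -/
def Lam (p : ℕ) (θ : ι → F) (c : ι → ℕ) (y : F[X]) : Prop :=
  InY p y ∧ ∀ s, (X - C (θ s)) ^ c s ∣ y

lemma InY.expand_mul (hp : 1 ≤ p) {y : F[X]} (h : InY p y) (q : F[X]) :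
    InY p (expand F p q * y) := by
  induction q using Polynomial.induction_on' with
  | add a b ha hb => intro m; rw [map_add, add_mul, coeff_add, ha, hb, add_zero]
  | monomial k a =>
    intro m
    rw [expand_monomial, ← C_mul_X_pow_eq_monomial, mul_assoc, coeff_C_mul, coeff_X_pow_mul']
    split_ifs with h1
    · have : k ≤ m := by
        by_contra h2
        have : (m + 1) * p ≤ k * p := Nat.mul_le_mul_right _ (by omega)
        rw [add_one_mul, mul_comm m] at this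
        omega
      obtain ⟨j, rfl⟩ := Nat.exists_eq_add_of_le this
      rw [show p * (k + j) + (p - 1) - k * p = p * j + (p - 1) by
        rw [mul_add, mul_comm k]; omega, h, mul_zero]
    · rw [mul_zero]

lemma InY.of_deg {y : F[X]} (h : y.natDegree < p - 1) : InY p y :=
  fun _ => coeff_eq_zero_of_natDegree_lt (by omega)

lemma Lam.mul (hp : 1 ≤ p) {y : F[X]} (h : Lam p θ c y) (q : F[X]) :
    Lam p θ c (expand F p q * y) := ⟨h.1.expand_mul hp q, fun s => (h.2 s).mul_left _⟩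

lemma Lam.sub {y z : F[X]} (h : Lam p θ c y) (h' : Lam p θ c z) : Lam p θ c (y - z) :=
  ⟨fun m => by rw [coeff_sub, h.1, h'.1, sub_zero], fun s => dvd_sub (h.2 s) (h'.2 s)⟩

lemma expand_lin [Fact p.Prime] [CharP F p] (a : F) :
    expand F p (X - C (a ^ p)) = (X - C a) ^ p := by
  rw [map_sub, expand_X, expand_C, map_pow, sub_pow_char]

/-- The least `K` such that the lattice has an element of degree `e + p K`. -/
noncomputable def kk (p : ℕ) (θ : ι → F) (c : ι → ℕ) (e : ℕ) : ℕ :=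
  sInf {K | ∃ y, Lam p θ c y ∧ y ≠ 0 ∧ y.natDegree = e + p * K}

lemma kk_le {e K : ℕ} {y : F[X]} (h : Lam p θ c y) (h0 : y ≠ 0) (hd : y.natDegree = e + p * K) :
    kk p θ c e ≤ K := Nat.sInf_le ⟨y, h, h0, hd⟩

lemma class_lt (hp : 1 ≤ p) {y : F[X]} (h : Lam p θ c y) (h0 : y ≠ 0) :
    y.natDegree % p < p - 1 ∧ kk p θ c (y.natDegree % p) ≤ y.natDegree / p := by
  refine ⟨?_, kk_le h h0 (Nat.mod_add_div _ _).symm⟩
  have h1 := Nat.mod_lt y.natDegree hp
  by_contra h2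
  apply leadingCoeff_ne_zero.2 h0
  rw [leadingCoeff, ← Nat.div_add_mod y.natDegree p, show y.natDegree % p = p - 1 by omega, h.1]

lemma cancel {y z : F[X]} (hy : y ≠ 0) (hz : z ≠ 0) {j : ℕ}
    (h : y.natDegree = z.natDegree + p * j) : ∃ q, (y - expand F p q * z).degree < y.degree := by
  have h1 : y.leadingCoeff / z.leadingCoeff ≠ 0 :=
    div_ne_zero (leadingCoeff_ne_zero.2 hy) (leadingCoeff_ne_zero.2 hz)
  refine ⟨monomial j (y.leadingCoeff / z.leadingCoeff), degree_sub_lt_left ?_ hy ?_⟩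
  · rw [expand_monomial, degree_mul, degree_monomial _ h1, degree_eq_natDegree hy,
      degree_eq_natDegree hz, h, mul_comm, add_comm]
    rfl
  · rw [expand_monomial, leadingCoeff_mul, leadingCoeff_monomial,
      div_mul_cancel₀ _ (leadingCoeff_ne_zero.2 hz)]

variable [Fact p.Prime] [CharP F p] [Fintype ι] [DecidableEq ι]

omit [Fintype ι] [DecidableEq ι] in
lemma InY.prod_mul {y : F[X]} (h : InY p y) (A : Finset ι) :
    InY p ((∏ s ∈ A, ((X - C (θ s)) ^ c s) ^ p) * y) := by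
  have := h.expand_mul (Fact.out : p.Prime).one_le (∏ s ∈ A, (X - C (θ s ^ p)) ^ c s)
  simpa only [map_prod, map_pow (expand F p), expand_lin, ← pow_mul, mul_comm p] using this

omit [DecidableEq ι] in
lemma kk_spec (θ : ι → F) (c : ι → ℕ) {e : ℕ} (he : e < p - 1) :
    ∃ y, Lam p θ c y ∧ y ≠ 0 ∧ y.natDegree = e + p * kk p θ c e := by
  refine Nat.sInf_mem (s := {K | ∃ y, Lam p θ c y ∧ y ≠ 0 ∧ y.natDegree = e + p * K})
    ⟨∑ s, c s, (∏ s, ((X - C (θ s)) ^ c s) ^ p) * X ^ e, ⟨?_, fun s => ?_⟩, ?_, ?_⟩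
  · exact (InY.of_deg (by simpa using he)).prod_mul _
  · exact ((dvd_pow_self _ (Fact.out : p.Prime).ne_zero).trans
      (dvd_prod_of_mem (fun s => ((X - C (θ s)) ^ c s) ^ p) (mem_univ s))).mul_right _
  · exact ((monic_prod_of_monic _ _ fun s _ => ((monic_X_sub_C _).pow _).pow _).mul
      (monic_X_pow _)).ne_zero
  · rw [Monic.natDegree_mul (monic_prod_of_monic _ _ fun s _ => ((monic_X_sub_C _).pow _).pow _)
      (monic_X_pow _), natDegree_prod_of_monic _ _ fun s _ => ((monic_X_sub_C _).pow _).pow _]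
    simp [mul_sum, add_comm]

lemma exists_new (hθ : Function.Injective θ) {s : ι} (hs : c s < p - 1) :
    ∃ y, Lam p θ c y ∧ ¬ (X - C (θ s)) ^ (c s + 1) ∣ y := by
  refine ⟨(∏ t ∈ univ.erase s, ((X - C (θ t)) ^ c t) ^ p) * (X - C (θ s)) ^ c s,
    ⟨(InY.of_deg (by simpa using hs)).prod_mul _, fun t => ?_⟩, fun h => ?_⟩
  · by_cases ht : t = s
    · rw [ht]; exact dvd_mul_left _ _
    · exact ((dvd_pow_self _ (Fact.out : p.Prime).ne_zero).trans
        (dvd_prod_of_mem (fun s => ((X - C (θ s)) ^ c s) ^ p)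
          (mem_erase.2 ⟨ht, mem_univ t⟩))).mul_right _
  · rw [pow_succ', mul_dvd_mul_iff_right (pow_ne_zero _ (X_sub_C_ne_zero _)), dvd_iff_isRoot,
      IsRoot, eval_prod, prod_eq_zero_iff] at h
    obtain ⟨t, ht, h⟩ := h
    simp only [eval_pow, eval_sub, eval_X, eval_C] at h
    exact (mem_erase.1 ht).1 (hθ (sub_eq_zero.1 (eq_zero_of_pow_eq_zero (eq_zero_of_pow_eq_zero h)))).symm

/-- Raise the exponent at `s` by one. -/
def up (c : ι → ℕ) (s : ι) : ι → ℕ := Function.update c s (c s + 1)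

omit [Fact p.Prime] [CharP F p] [Fintype ι] in
lemma lam_up {s : ι} {y : F[X]} :
    Lam p θ (up c s) y ↔ Lam p θ c y ∧ (X - C (θ s)) ^ (c s + 1) ∣ y := by
  constructor
  · rintro ⟨h1, h2⟩
    have h3 : (X - C (θ s)) ^ (c s + 1) ∣ y := by simpa [up] using h2 s
    refine ⟨⟨h1, fun t => ?_⟩, h3⟩
    by_cases ht : t = s
    · rw [ht]; exact (pow_dvd_pow _ (Nat.le_succ _)).trans h3
    · simpa [up, ht] using h2 t
  · rintro ⟨⟨h1, h2⟩, h3⟩
    refine ⟨h1, fun t => ?_⟩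
    by_cases ht : t = s
    · simpa [up, ht] using h3
    · simpa [up, ht] using h2 t

lemma sum_up (c : ι → ℕ) (s : ι) : ∑ t, up c s t = ∑ t, c t + 1 := by
  rw [up, sum_update_of_mem (mem_univ s), ← add_sum_erase _ c (mem_univ s), sdiff_singleton_eq_erase]
  omega

omit [CharP F p] [Fintype ι] in
lemma reduce {s : ι} {y z : F[X]} (hy : Lam p θ c y) (hz : Lam p θ c z)
    (h : ¬ (X - C (θ s)) ^ (c s + 1) ∣ z) : ∃ a : F, Lam p θ (up c s) (y - C a * z) := by
  obtain ⟨u, rfl⟩ := hy.2 s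
  obtain ⟨v, rfl⟩ := hz.2 s
  have hv : v.eval (θ s) ≠ 0 := fun h1 =>
    h (by rw [pow_succ]; exact mul_dvd_mul_left _ (dvd_iff_isRoot.2 h1))
  refine ⟨u.eval (θ s) / v.eval (θ s), lam_up.2 ⟨hy.sub ?_, ?_⟩⟩
  · simpa using hz.mul (Fact.out : p.Prime).one_le (C (u.eval (θ s) / v.eval (θ s)))
  · rw [mul_left_comm, ← mul_sub, pow_succ]
    exact mul_dvd_mul_left _ (dvd_iff_isRoot.2 (by simp [hv]))

omit [Fintype ι] in
lemma lam_up_mul {s : ι} {y : F[X]} (hy : Lam p θ c y) :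
    Lam p θ (up c s) ((X - C (θ s)) ^ p * y) := by
  refine lam_up.2 ⟨expand_lin (p := p) (θ s) ▸ hy.mul (Fact.out : p.Prime).one_le _, ?_⟩
  rw [pow_succ']
  exact mul_dvd_mul (dvd_pow_self _ (Fact.out : p.Prime).ne_zero) (hy.2 s)

lemma step (hθ : Function.Injective θ) {s : ι} (hs : c s < p - 1) :
    ∃ e0 < p - 1, kk p θ (up c s) e0 = kk p θ c e0 + 1 ∧
      (∀ e < p - 1, e ≠ e0 → kk p θ (up c s) e = kk p θ c e) ∧
      ∀ y, Lam p θ c y → ¬ (X - C (θ s)) ^ (c s + 1) ∣ y → p * kk p θ c e0 ≤ y.natDegree := by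
  have hp := (Fact.out : p.Prime).one_le
  obtain ⟨z, ⟨hz, hz1⟩, hmin⟩ := (measure natDegree).wf.has_min
    {y | Lam p θ c y ∧ ¬ (X - C (θ s)) ^ (c s + 1) ∣ y} (exists_new hθ hs)
  have hmin' : ∀ y, Lam p θ c y → ¬ (X - C (θ s)) ^ (c s + 1) ∣ y → z.natDegree ≤ y.natDegree :=
    fun y h1 h2 => not_lt.1 (hmin y ⟨h1, h2⟩)
  have hz0 : z ≠ 0 := fun h => hz1 (h ▸ dvd_zero _)
  obtain ⟨he0, hk0⟩ := class_lt hp hz hz0
  have hzd := Nat.mod_add_div z.natDegree p
  have h1 : z.natDegree / p < kk p θ (up c s) (z.natDegree % p) := by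
    by_contra h
    obtain ⟨j, hj⟩ := Nat.exists_eq_add_of_le (not_lt.1 h)
    obtain ⟨y, hy, hy0, hyd⟩ := kk_spec θ (up c s) he0
    obtain ⟨q, hq⟩ := cancel (p := p) (j := j) hz0 hy0 (by rw [hyd, add_assoc, ← mul_add, ← hj, hzd])
    have h2 : ¬ (X - C (θ s)) ^ (c s + 1) ∣ z - expand F p q * y := fun h3 =>
      hz1 (by simpa using dvd_add h3 ((lam_up.1 hy).2.mul_left (expand F p q)))
    exact absurd (natDegree_lt_natDegree (fun h => h2 (by rw [h]; exact dvd_zero _)) hq)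
      (not_lt.2 (hmin' _ (hz.sub ((lam_up.1 hy).1.mul hp q)) h2))
  have h2 : kk p θ (up c s) (z.natDegree % p) ≤ kk p θ c (z.natDegree % p) + 1 := by
    obtain ⟨y, hy, hy0, hyd⟩ := kk_spec θ c he0
    refine kk_le (lam_up_mul hy) (mul_ne_zero (pow_ne_zero _ (X_sub_C_ne_zero _)) hy0) ?_
    rw [natDegree_mul (pow_ne_zero _ (X_sub_C_ne_zero _)) hy0, hyd, natDegree_pow,
      natDegree_X_sub_C]
    ring
  refine ⟨_, he0, by omega, fun e he hne => le_antisymm ?_ ?_, fun y hy hy1 => ?_⟩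
  · obtain ⟨y, hy, hy0, hyd⟩ := kk_spec θ c he
    by_cases h3 : (X - C (θ s)) ^ (c s + 1) ∣ y
    · exact kk_le (lam_up.2 ⟨hy, h3⟩) hy0 hyd
    · have h4 : z.natDegree < y.natDegree := (hmin' y hy h3).lt_of_ne fun h5 => hne (by
        rw [h5, hyd, Nat.add_mul_mod_self_left, Nat.mod_eq_of_lt (by omega)])
      obtain ⟨a, ha⟩ := reduce hy hz hz1
      have h5 := natDegree_sub_eq_left_of_natDegree_lt ((natDegree_C_mul_le a z).trans_lt h4)
      exact kk_le ha (fun h => by rw [h, natDegree_zero] at h5; omega) (h5.trans hyd)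
  · obtain ⟨y, hy, hy0, hyd⟩ := kk_spec θ (up c s) he
    exact kk_le (lam_up.1 hy).1 hy0 hyd
  · exact ((Nat.mul_le_mul_left p hk0).trans (Nat.mul_div_le _ _)).trans (hmin' y hy hy1)

lemma sum_kk (hθ : Function.Injective θ) : ∀ (N : ℕ) (c : ι → ℕ), (∀ s, c s ≤ p - 1) →
    ∑ s, c s = N → ∑ e ∈ range (p - 1), kk p θ c e = N := by
  intro N
  induction N with
  | zero =>
    intro c _ h
    refine sum_eq_zero fun e he => Nat.le_zero.1 (kk_le (y := X ^ e)
      ⟨InY.of_deg (by simpa using he), fun s => ?_⟩ (pow_ne_zero _ X_ne_zero) (by simp))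
    rw [sum_eq_zero_iff.1 h s (mem_univ s), pow_zero]
    exact one_dvd _
  | succ N ih =>
    intro c hc h
    obtain ⟨s, -, hs⟩ := exists_ne_zero_of_sum_ne_zero (h.trans_ne N.succ_ne_zero)
    obtain ⟨c0, rfl⟩ : ∃ c0, c = up c0 s := ⟨Function.update c s (c s - 1), by
      simp [up, Nat.sub_add_cancel (Nat.one_le_iff_ne_zero.2 hs)]⟩
    have h1 : c0 s < p - 1 := by simpa [up, Nat.succ_le_iff] using hc s
    obtain ⟨e0, he0, h2, h3, -⟩ := step hθ h1
    rw [sum_up] at h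
    rw [← ih c0 (fun t => ?_) (by omega), ← add_sum_erase _ _ (mem_range.2 he0),
      ← add_sum_erase _ (kk p θ c0) (mem_range.2 he0), h2,
      sum_congr rfl fun e he => h3 e (mem_range.1 (mem_erase.1 he).2) (mem_erase.1 he).1]
    · exact add_right_comm _ _ _
    · by_cases ht : t = s
      · rw [ht]; exact h1.le
      · simpa [up, ht] using hc t

omit [CharP F p] [Fintype ι] [DecidableEq ι] in
lemma generate {ρ K : ℕ} (ef : Fin ρ → ℕ) (Y : Fin ρ → F[X])
    (hef : ∀ e < p - 1, kk p θ c e < K → ∃ i, ef i = e)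
    (hY : ∀ i, Lam p θ c (Y i) ∧ Y i ≠ 0 ∧ (Y i).natDegree = ef i + p * kk p θ c (ef i)) :
    ∀ (N : ℕ) (y : F[X]), Lam p θ c y → y.degree < N → N ≤ p * K →
      ∃ q : Fin ρ → F[X], y = ∑ i, expand F p (q i) * Y i := by
  have hp := (Fact.out : p.Prime).one_le
  intro N
  induction N with
  | zero => intro y _ h _; exact ⟨0, by simpa using h⟩
  | succ N ih =>
    intro y hy h hN
    by_cases h0 : y = 0
    · exact ⟨0, by simp [h0]⟩
    have h1 : y.natDegree < N + 1 := (natDegree_lt_iff_degree_lt h0).2 h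
    obtain ⟨h2, h3⟩ := class_lt hp hy h0
    obtain ⟨i, hi⟩ := hef _ h2 (h3.trans_lt (Nat.div_lt_of_lt_mul (by omega)))
    obtain ⟨j, hj⟩ := Nat.exists_eq_add_of_le h3
    obtain ⟨q, hq⟩ := cancel (p := p) (j := j) h0 (hY i).2.1 (by
      rw [(hY i).2.2, hi, add_assoc, ← mul_add, ← hj, Nat.mod_add_div])
    obtain ⟨r, hr⟩ := ih _ (hy.sub ((hY i).1.mul hp q))
      (hq.trans_le (degree_le_of_natDegree_le (by omega))) (by omega)
    refine ⟨r + Pi.single i q, ?_⟩
    simp only [Pi.add_apply, map_add, add_mul, sum_add_distrib, ← hr]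
    rw [sum_eq_single i (fun b _ hb => by simp [hb]) (by simp)]
    simp

omit [Fact p.Prime] [CharP F p] [DecidableEq ι] in
lemma sum_le_deg (hθ : Function.Injective θ) {y : F[X]} (h0 : y ≠ 0) {b : ι → ℕ}
    (h : ∀ s, (X - C (θ s)) ^ b s ∣ y) : ∑ s, b s ≤ y.natDegree := by
  have := natDegree_le_of_dvd (prod_dvd_of_coprime (t := univ) (fun s _ t _ hst =>
    (pairwise_coprime_X_sub_C hθ hst).pow) fun s _ => h s) h0
  rw [natDegree_prod_of_monic _ _ fun s _ => (monic_X_sub_C _).pow _] at this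
  simpa using this

end Pool.Agent.Lib.MP_53226a_nt.H17
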