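import Mathlib

/-! Power sums over monic polynomials with coefficients in the prime field. -/

namespace Pool.Agent.Lib.MP_53226a_nt.H17

open Polynomial Finset

variable {F : Type*} [Field F] {p : ℕ} [Fact p.Prime] [Algebra (ZMod p) F]

/-- The polynomial with coefficient vector `v`. -/
noncomputable def lin (F : Type*) [Field F] [Algebra (ZMod p) F] {J : ℕ} (v : Fin J → ZMod p) :
    F[X] := ∑ j : Fin J, monomial (j : ℕ) (algebraMap (ZMod p) F (v j))

/-- The monic polynomial with lower coefficient vector `v`. -/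
noncomputable def mon (F : Type*) [Field F] [Algebra (ZMod p) F] {J : ℕ} (v : Fin J → ZMod p) :
    F[X] := X ^ J + lin F v

/-- The product of the values of `a` at the points of `t`. -/
noncomputable def pr (t : Multiset F) (a : F[X]) : F := (t.map fun τ => a.eval τ).prod

/-- The power sum over the monic polynomials of degree `J`. -/
noncomputable def S (p : ℕ) [Fact p.Prime] [Algebra (ZMod p) F] (J : ℕ) (t : Multiset F) : F :=
  ∑ v : Fin J → ZMod p, pr t (mon F v)

lemma pr_cons (τ : F) (t : Multiset F) (a : F[X]) : pr (τ ::ₘ t) a = a.eval τ * pr t a := by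
  simp [pr]

lemma sum_eval_zero {J : ℕ} (f : MvPolynomial (Fin J) F) (h : f.totalDegree < (p - 1) * J) :
    ∑ v : Fin J → ZMod p, MvPolynomial.eval (fun j => algebraMap (ZMod p) F (v j)) f = 0 := by
  simp only [MvPolynomial.eval_eq']
  rw [sum_comm]
  refine sum_eq_zero fun d hd => ?_
  obtain ⟨i, hi⟩ : ∃ i, d i < p - 1 := f.exists_degree_lt (p - 1) (by simpa using h) hd
  rw [← mul_sum]
  have h1 := Finset.prod_univ_sum (fun _ : Fin J => (univ : Finset (ZMod p)))
    (fun i a => algebraMap (ZMod p) F a ^ d i)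
  rw [Fintype.piFinset_univ] at h1
  rw [← h1, prod_eq_zero (mem_univ i), mul_zero]
  simp only [← map_pow, ← map_sum]
  rw [FiniteField.sum_pow_lt_card_sub_one (ZMod p) _ (by simpa using hi), map_zero]

lemma sum_vanish {J : ℕ} (w : F[X]) (t : Multiset F) :
    ∀ f : MvPolynomial (Fin J) F, f.totalDegree + t.card < (p - 1) * J →
      ∑ v : Fin J → ZMod p, MvPolynomial.eval (fun j => algebraMap (ZMod p) F (v j)) f *
        pr t (w + lin F v) = 0 := by
  induction t using Multiset.induction_on with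
  | empty => intro f h; simpa [pr] using sum_eval_zero f (by simpa using h)
  | cons τ t ih =>
    intro f h
    set L : MvPolynomial (Fin J) F := MvPolynomial.C (w.eval τ) +
      ∑ j : Fin J, MvPolynomial.C (τ ^ (j : ℕ)) * MvPolynomial.X j with hL
    have hd : L.totalDegree ≤ 1 := by
      refine (MvPolynomial.totalDegree_add _ _).trans (max_le (by simp) ?_)
      refine MvPolynomial.totalDegree_finsetSum_le fun j _ => ?_
      refine (MvPolynomial.totalDegree_mul _ _).trans ?_
      rw [MvPolynomial.totalDegree_C, MvPolynomial.totalDegree_X]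
    have := ih (f * L) (by
      have := MvPolynomial.totalDegree_mul f L
      rw [Multiset.card_cons] at h
      omega)
    rw [← this]
    refine sum_congr rfl fun v _ => ?_
    rw [pr_cons, map_mul, mul_assoc]
    congr 2
    simp [hL, lin, eval_finsetSum, mul_comm]

lemma S_zero {J : ℕ} {t : Multiset F} (h : t.card < (p - 1) * J) : S p J t = 0 := by
  simpa [S, mon] using sum_vanish (p := p) (J := J) (X ^ J) t 1 (by simpa using h)

omit [Algebra (ZMod p) F] in
lemma hom_sum [CharP F p] {m : ℕ} (h : (Fin (m + 1) → ZMod p) → F)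
    (hh : ∀ (c : ZMod p) u, c ≠ 0 → h (c • u) = h u) :
    ∑ u, h u = ∑ v : Fin m → ZMod p, h (Fin.snoc v 0) - ∑ v : Fin m → ZMod p, h (Fin.snoc v 1) := by
  rw [← (Fin.snocEquiv fun _ => ZMod p).sum_comp, Fintype.sum_prod_type,
    ← Finset.add_sum_erase _ _ (mem_univ (0 : ZMod p))]
  have h1 : ∀ c ∈ (univ : Finset (ZMod p)).erase 0,
      ∑ v : Fin m → ZMod p, h ((Fin.snocEquiv fun _ => ZMod p) (c, v)) =
        ∑ v : Fin m → ZMod p, h (Fin.snoc v 1) := by
    intro c hc
    have hc0 : c ≠ 0 := (mem_erase.1 hc).1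
    rw [← Equiv.sum_comp (MulAction.toPerm (Units.mk0 c hc0))]
    refine sum_congr rfl fun v _ => ?_
    rw [← hh c (Fin.snoc v 1) hc0]
    congr 1
    funext i
    refine Fin.lastCases ?_ (fun i => ?_) i <;> simp [Fin.snocEquiv, Units.smul_def]
  rw [sum_congr rfl h1, sum_const, card_erase_of_mem (mem_univ _), card_univ, ZMod.card,
    nsmul_eq_mul, Nat.cast_sub (Fact.out : p.Prime).one_le, CharP.cast_eq_zero]
  simp [Fin.snocEquiv, sub_eq_add_neg]

lemma lin_snoc {m : ℕ} (v : Fin m → ZMod p) (c : ZMod p) :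
    lin F (Fin.snoc v c : Fin (m + 1) → ZMod p) =
      monomial m (algebraMap (ZMod p) F c) + lin F v := by
  simp [lin, Fin.sum_univ_castSucc, add_comm]

lemma pr_smul {m : ℕ} (t : Multiset F) (c : ZMod p) (u : Fin m → ZMod p) :
    pr t (lin F (c • u)) = algebraMap (ZMod p) F c ^ t.card * pr t (lin F u) := by
  have : ∀ τ, (lin F (c • u)).eval τ = algebraMap (ZMod p) F c * (lin F u).eval τ := by
    intro τ
    simp [lin, eval_finsetSum, mul_sum, mul_assoc]
  simp [pr, this, Multiset.prod_map_mul]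

lemma second_sum [CharP F p] {I : ℕ} {t : Multiset F} (h : t.card + 1 = (p - 1) * (I + 1)) :
    ∑ v : Fin (I + 1) → ZMod p, algebraMap (ZMod p) F (v (Fin.last I)) * pr t (mon F v) =
      - S p I t := by
  have hp := (Fact.out : p.Prime).two_le
  have hom : ∀ {m : ℕ} (i : Fin m) (c : ZMod p) (u : Fin m → ZMod p), c ≠ 0 →
      algebraMap (ZMod p) F ((c • u) i) * pr t (lin F (c • u)) =
        algebraMap (ZMod p) F (u i) * pr t (lin F u) := by
    intro m i c u hc
    have : algebraMap (ZMod p) F c ^ (t.card + 1) = 1 := by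
      rw [h, pow_mul, ← map_pow, ZMod.pow_card_sub_one_eq_one hc, map_one, one_pow]
    rw [pr_smul, Pi.smul_apply, smul_eq_mul, map_mul]
    linear_combination (algebraMap (ZMod p) F (u i) * pr t (lin F u)) * this
  have h0 := sum_vanish (p := p) (J := I + 2) 0 t (MvPolynomial.X (Fin.last I).castSucc) (by
    rw [MvPolynomial.totalDegree_X, add_comm, h]
    exact Nat.mul_lt_mul_of_pos_left (by omega) (by omega))
  simp only [MvPolynomial.eval_X, zero_add] at h0
  rw [hom_sum _ (hom (Fin.last I).castSucc)] at h0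
  simp only [Fin.snoc_castSucc, lin_snoc, map_zero, map_one, zero_add] at h0
  rw [hom_sum _ (hom (Fin.last I))] at h0
  simp only [Fin.snoc_last, lin_snoc, map_zero, map_one, zero_mul, one_mul, sum_const_zero,
    monomial_one_right_eq_X_pow] at h0
  simp only [S, mon]
  linear_combination -h0

/-- `S` as a polynomial in one extra point. -/
noncomputable def PS (p : ℕ) [Fact p.Prime] [Algebra (ZMod p) F] (J : ℕ) (t : Multiset F) :
    F[X] := ∑ v : Fin J → ZMod p, C (pr t (mon F v)) * mon F v

lemma eval_PS (J : ℕ) (t : Multiset F) (τ : F) : (PS p J t).eval τ = S p J (τ ::ₘ t) := by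
  simp [PS, S, eval_finsetSum, pr_cons, mul_comm]

lemma coeff_lin {J : ℕ} (v : Fin J → ZMod p) {k : ℕ} (hk : J ≤ k) : (lin F v).coeff k = 0 := by
  rw [lin, finsetSum_coeff]
  refine sum_eq_zero fun j _ => ?_
  rw [coeff_monomial, if_neg (by have := j.2; omega)]

lemma coeff_PS_gt (J : ℕ) (t : Multiset F) {k : ℕ} (hk : J < k) : (PS p J t).coeff k = 0 := by
  rw [PS, finsetSum_coeff]
  refine sum_eq_zero fun v _ => ?_
  rw [coeff_C_mul, mon, coeff_add, coeff_lin v hk.le, coeff_X_pow, if_neg hk.ne']
  simp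

lemma coeff_PS_top (J : ℕ) (t : Multiset F) : (PS p J t).coeff J = S p J t := by
  rw [PS, finsetSum_coeff, S]
  refine sum_congr rfl fun v _ => ?_
  rw [coeff_C_mul, mon, coeff_add, coeff_lin v le_rfl, coeff_X_pow, if_pos rfl]
  simp

lemma coeff_PS_second [CharP F p] {I : ℕ} {t : Multiset F}
    (h : t.card + 1 = (p - 1) * (I + 1)) : (PS p (I + 1) t).coeff I = - S p I t := by
  rw [← second_sum h, PS, finsetSum_coeff]
  refine sum_congr rfl fun v _ => ?_
  rw [coeff_C_mul, mul_comm]
  congr 1
  rw [mon, coeff_add, coeff_X_pow, if_neg (by omega), zero_add, lin, finsetSum_coeff,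
    Fin.sum_univ_castSucc, sum_eq_zero, zero_add]
  · simp
  · intro j _
    rw [coeff_monomial, if_neg (by have := j.2; simp; omega)]

lemma eval_mon_pow [CharP F p] {J : ℕ} (v : Fin J → ZMod p) (τ : F) :
    (mon F v).eval (τ ^ p) = (mon F v).eval τ ^ p := by
  have h : ∀ c : ZMod p, algebraMap (ZMod p) F c ^ p = algebraMap (ZMod p) F c := by
    intro c
    rw [← map_pow, ZMod.pow_card]
  simp only [mon, lin, eval_add, eval_pow, eval_X, eval_finsetSum, eval_monomial]
  rw [add_pow_char, sum_pow_char]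
  simp only [mul_pow, h, ← pow_mul, mul_comm]

lemma S_frob [CharP F p] (J : ℕ) (τ : F) (t : Multiset F) :
    S p J (Multiset.replicate p τ + t) = S p J (τ ^ p ::ₘ t) := by
  refine sum_congr rfl fun v _ => ?_
  rw [pr_cons, eval_mon_pow]
  simp [pr]

end Pool.Agent.Lib.MP_53226a_nt.H17
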