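import Mathlib

/-! Wronskians of exact polynomials in characteristic `p`. -/

namespace Pool.Agent.Lib.MP_53226a_nt.H17

open Polynomial Finset Matrix

variable {F : Type*} [Field F] {p ρ : ℕ}

/-- The coefficients at the exponents congruent to `-1` modulo `p` vanish. -/
def InY (p : ℕ) (y : F[X]) : Prop := ∀ m, y.coeff (p * m + (p - 1)) = 0

lemma InY.taylor [Fact p.Prime] [CharP F p] {y : F[X]} (h : InY p y) (θ : F) :
    (taylor θ y).coeff (p - 1) = 0 := by
  have hp := (Fact.out : p.Prime).two_le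
  have : hasseDeriv (p - 1) y = 0 := by
    ext k
    rw [hasseDeriv_coeff, coeff_zero]
    by_cases h1 : (k + (p - 1)) % p = p - 1
    · rw [← Nat.div_add_mod (k + (p - 1)) p, h1, h, mul_zero]
    · have h2 := Choose.choose_modEq_choose_mod_mul_choose_div_nat (n := k + (p - 1))
        (k := p - 1) (p := p)
      have h3 := Nat.mod_lt (k + (p - 1)) (show 0 < p by omega)
      rw [Nat.mod_eq_of_lt (show p - 1 < p by omega),
        Nat.choose_eq_zero_of_lt (show (k + (p - 1)) % p < p - 1 by omega), zero_mul] at h2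
      rw [(CharP.cast_eq_zero_iff F p _).2 (Nat.modEq_zero_iff_dvd.1 h2), zero_mul]
  rw [taylor_coeff, this, eval_zero]

lemma dvd_iff_taylor (θ : F) (b : ℕ) (f : F[X]) : (X - C θ) ^ b ∣ f ↔ X ^ b ∣ taylor θ f := by
  rw [← map_dvd_iff (taylorEquiv θ)]
  change taylor θ _ ∣ taylor θ f ↔ _
  rw [taylor_pow, map_sub, taylor_X, taylor_C, add_sub_cancel_right]

/-- The Wronskian. -/
noncomputable def Wr (y : Fin ρ → F[X]) : F[X] :=
  det (Matrix.of fun (m e : Fin ρ) => derivative^[m] (y e))

/-- The Wronskian coefficient of a family of monomials. -/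
noncomputable def Vd (F : Type*) [Field F] (a : Fin ρ → ℕ) : F :=
  det (Matrix.of fun (m e : Fin ρ) => ((a e).descFactorial m : F))

lemma X_pow_mul_der (y : F[X]) (m : ℕ) {N : ℕ} (h : y.natDegree < N) :
    X ^ m * derivative^[m] y =
      ∑ a ∈ range N, C (y.coeff a * (a.descFactorial m : F)) * X ^ a := by
  ext k
  simp only [finsetSum_coeff, coeff_C_mul_X_pow, sum_ite_eq, mem_range]
  rw [coeff_X_pow_mul', coeff_iterate_derivative]
  by_cases hk : k < N
  · rw [if_pos hk]
    split_ifs with h1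
    · rw [Nat.sub_add_cancel h1, nsmul_eq_mul, mul_comm]
    · rw [Nat.descFactorial_eq_zero_iff_lt.2 (by omega)]
      simp
  · rw [if_neg hk]
    split_ifs with h1
    · rw [Nat.sub_add_cancel h1, coeff_eq_zero_of_natDegree_lt (by omega), smul_zero]
    · rfl

lemma Wr_expand (y : Fin ρ → F[X]) {N : ℕ} (h : ∀ e, (y e).natDegree < N) :
    X ^ (∑ m : Fin ρ, (m : ℕ)) * Wr y = ∑ a ∈ Fintype.piFinset (fun _ : Fin ρ => range N),
      C ((∏ e, (y e).coeff (a e)) * Vd F a) * X ^ (∑ e, a e) := by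
  rw [← prod_pow_eq_pow_sum, Wr, ← det_mul_column, det_apply']
  simp only [of_apply, X_pow_mul_der _ _ (h _), prod_univ_sum, mul_sum]
  rw [sum_comm]
  refine sum_congr rfl fun a _ => ?_
  simp only [Vd, det_apply', of_apply, mul_sum, map_sum, sum_mul]
  refine sum_congr rfl fun σ _ => ?_
  simp only [prod_mul_distrib, prod_pow_eq_pow_sum, map_mul, map_prod, map_intCast]
  ring

lemma exists_bound (y : Fin ρ → F[X]) : ∃ N, ∀ e, (y e).natDegree < N :=
  ⟨∑ e, (y e).natDegree + 1, fun e => Nat.lt_succ_of_le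
    (single_le_sum (f := fun e => (y e).natDegree) (fun _ _ => Nat.zero_le _) (mem_univ e))⟩

lemma X_pow_dvd_Wr (y : Fin ρ → F[X]) (B : ℕ) (h : ∀ a : Fin ρ → ℕ, Function.Injective a →
    (∀ e, (y e).coeff (a e) ≠ 0) → ∑ m : Fin ρ, (m : ℕ) + B ≤ ∑ e, a e) : X ^ B ∣ Wr y := by
  obtain ⟨N, hN⟩ := exists_bound y
  rw [← mul_dvd_mul_iff_left (pow_ne_zero (∑ m : Fin ρ, (m : ℕ)) X_ne_zero), Wr_expand y hN,
    ← pow_add]
  refine dvd_sum fun a _ => ?_
  by_cases h1 : Function.Injective a
  · by_cases h2 : ∀ e, (y e).coeff (a e) ≠ 0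
    · exact Dvd.dvd.mul_left (pow_dvd_pow _ (h a h1 h2)) _
    · push Not at h2
      obtain ⟨e, he⟩ := h2
      rw [prod_eq_zero (mem_univ e) he]
      simp
  · obtain ⟨i, j, h2, h3⟩ := Function.not_injective_iff.1 h1
    rw [Vd, det_zero_of_column_eq h3 (fun k => by simp [h2])]
    simp

lemma Wr_ne (y : Fin ρ → F[X]) (h0 : ∀ e, y e ≠ 0)
    (hi : Function.Injective fun e => ((y e).natDegree : F)) :
    Wr y ≠ 0 ∧ (Wr y).natDegree ≤ ∑ e, (y e).natDegree := by
  obtain ⟨N, hN⟩ := exists_bound y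
  have key : ∀ a : Fin ρ → ℕ, (∏ e, (y e).coeff (a e)) ≠ 0 → ∀ e, a e ≤ (y e).natDegree :=
    fun a ha e => le_natDegree_of_ne_zero (prod_ne_zero_iff.1 ha e (mem_univ e))
  have hV : Vd F (fun e => (y e).natDegree) ≠ 0 := by
    have := det_eval_matrixOfPolynomials_eq_det_vandermonde (fun e => ((y e).natDegree : F))
      (fun i => descPochhammer F i) (fun i => descPochhammer_natDegree F i)
      (fun i => monic_descPochhammer F i)
    simp only [descPochhammer_eval_eq_descFactorial] at this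
    rw [Vd, ← det_transpose]
    exact this ▸ det_vandermonde_ne_zero_iff.2 hi
  have h1 : Wr y ≠ 0 := by
    intro h
    have := congrArg (coeff · (∑ e, (y e).natDegree)) (Wr_expand y hN)
    simp only [h, mul_zero, coeff_zero, finsetSum_coeff, coeff_C_mul_X_pow] at this
    rw [sum_eq_single (fun e => (y e).natDegree), if_pos rfl] at this
    · exact mul_ne_zero (prod_ne_zero_iff.2 fun e _ => leadingCoeff_ne_zero.2 (h0 e)) hV this.symm
    · intro a _ ha
      split_ifs with h2
      · by_contra h3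
        exact ha (funext fun e => (sum_eq_sum_iff_of_le fun e _ =>
          key a (left_ne_zero_of_mul h3) e).1 h2.symm e (mem_univ e))
      · rfl
    · intro h
      exact absurd (Fintype.mem_piFinset.2 fun e => mem_range.2 (hN e)) h
  refine ⟨h1, (natDegree_le_of_dvd (dvd_mul_left _ (X ^ (∑ m : Fin ρ, (m : ℕ))))
    (mul_ne_zero (pow_ne_zero _ X_ne_zero) h1)).trans ?_⟩
  rw [Wr_expand y hN]
  refine natDegree_sum_le_of_forall_le _ _ fun a _ => ?_
  by_cases h2 : (∏ e, (y e).coeff (a e)) = 0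
  · simp [h2]
  · exact (natDegree_C_mul_X_pow_le _ _).trans (sum_le_sum fun e _ => key a h2 e)

lemma taylor_Wr (θ : F) (y : Fin ρ → F[X]) : taylor θ (Wr y) = Wr fun e => taylor θ (y e) := by
  have h : ∀ (m : ℕ) (f : F[X]), taylor θ (derivative^[m] f) = derivative^[m] (taylor θ f) := by
    intro m
    induction m with
    | zero => intro f; rfl
    | succ m ih =>
      intro f
      rw [Function.iterate_succ_apply, Function.iterate_succ_apply, ih]
      simp [taylor_apply, derivative_comp]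
  refine ((taylorAlgHom θ).map_det _).trans ?_
  rw [Wr]
  congr 1
  ext1 m e
  exact h _ _

lemma local_dvd [Fact p.Prime] [CharP F p] (θ : F) (y : Fin ρ → F[X]) (hy : ∀ e, InY p (y e))
    (b : Fin ρ → ℕ) (hb : ∀ e, (X - C θ) ^ b e ∣ y e) (B : ℕ)
    (h : ∀ a : Fin ρ → ℕ, Function.Injective a → (∀ e, b e ≤ a e ∧ a e ≠ p - 1) →
      ∑ m : Fin ρ, (m : ℕ) + B ≤ ∑ e, a e) : (X - C θ) ^ B ∣ Wr y := by
  rw [dvd_iff_taylor, taylor_Wr]
  refine X_pow_dvd_Wr _ _ fun a ha h1 => h a ha fun e => ⟨?_, fun h2 => h1 e ?_⟩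
  · by_contra h2
    exact h1 e (X_pow_dvd_iff.1 ((dvd_iff_taylor _ _ _).1 (hb e)) _ (by omega))
  · rw [h2, (hy e).taylor]

lemma sum_ge (n b : ℕ) (hb : b ≤ n) (A : Finset ℕ) : (∀ a ∈ A, b ≤ a ∧ a ≠ n) →
    ∑ i ∈ range A.card, i + A.card * b + (A.card + b - n) ≤ ∑ a ∈ A, a := by
  induction A using Finset.induction_on_max with
  | empty => intro _; simpa using Nat.sub_eq_zero_of_le hb
  | insert a A ha ih =>
    intro h
    have h1 : a ∉ A := fun h => (ha a h).false
    have h2 := ih fun x hx => h x (mem_insert_of_mem hx)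
    have h3 := h a (mem_insert_self _ _)
    have h4 : A.card ≤ ((Ico b a).erase n).card := card_le_card fun x hx =>
      mem_erase.2 ⟨(h x (mem_insert_of_mem hx)).2,
        mem_Ico.2 ⟨(h x (mem_insert_of_mem hx)).1, ha x hx⟩⟩
    rw [card_erase_eq_ite, Nat.card_Ico] at h4
    simp only [mem_Ico] at h4
    rw [card_insert_of_notMem h1, sum_insert h1, sum_range_succ, add_one_mul]
    split_ifs at h4 <;> omega

lemma local_zero [Fact p.Prime] [CharP F p] (θ : F) (y : Fin ρ → F[X]) (hy : ∀ e, InY p (y e))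
    {b : ℕ} (hb : b ≤ p - 1) (hd : ∀ e, (X - C θ) ^ b ∣ y e) :
    (X - C θ) ^ (ρ * b + (ρ + b - (p - 1))) ∣ Wr y := by
  refine local_dvd θ y hy (fun _ => b) hd _ fun a ha h => ?_
  have := sum_ge _ b hb (univ.image a) (by simpa using h)
  rw [card_image_of_injective _ ha, card_univ, Fintype.card_fin,
    sum_image fun _ _ _ _ h => ha h] at this
  rw [Fin.sum_univ_eq_sum_range (fun i => i)]
  omega

lemma der_mul {r : F[X]} (hr : derivative r = 0) (m : ℕ) (y : F[X]) :
    derivative^[m] (r * y) = r * derivative^[m] y := by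
  induction m generalizing y with
  | zero => rfl
  | succ m ih => simp [Function.iterate_succ_apply, hr, ih]

lemma local_one [Fact p.Prime] [CharP F p] (θ : F) (y : Fin (ρ + 1) → F[X])
    (hy : ∀ e, InY p (y e)) {b c : ℕ} (hb : b + 1 ≤ p - 1) (hc : c ≤ b)
    (hd : ∀ e, (X - C θ) ^ (b + 1) ∣ y e) {z : F[X]} (hz : InY p z) (hz1 : (X - C θ) ^ c ∣ z)
    (hz2 : ¬ (X - C θ) ^ (c + 1) ∣ z) (q : Fin (ρ + 1) → F[X])
    (hq : (X - C θ) ^ p * z = ∑ e, expand F p (q e) * y e) :
    (X - C θ) ^ (p + (c + ρ * b + (ρ + (b + 1) - (p - 1)))) ∣ Wr y := by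
  obtain ⟨e0, he0⟩ : ∃ e0, (expand F p (q e0)).eval θ ≠ 0 := by
    by_contra h
    push Not at h
    apply hz2
    rw [← mul_dvd_mul_iff_left (pow_ne_zero p (X_sub_C_ne_zero θ)), hq]
    refine dvd_sum fun e _ => mul_dvd_mul ?_ ((pow_dvd_pow _ (by omega)).trans (hd e))
    have h1 : X - C (θ ^ p) ∣ q e := dvd_iff_isRoot.2 (by simpa using h e)
    have := map_dvd (expand F p) h1
    rwa [map_sub, expand_X, expand_C, map_pow, ← sub_pow_char] at this
  have hder : ∀ f : F[X], derivative (expand F p f) = 0 := fun f => by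
    simp [derivative_expand]
  have h1 : expand F p (q e0) * Wr y = (X - C θ) ^ p * Wr (Function.update y e0 z) := by
    rw [Wr, Wr, ← smul_eq_mul, ← det_updateCol_sum _ e0 (fun e => expand F p (q e)),
      ← updateCol_eq_self (Matrix.of fun (m e : Fin (ρ + 1)) =>
        derivative^[m] (Function.update y e0 z e)) e0, ← det_updateCol_smul]
    congr 1
    ext1 m e
    by_cases he : e = e0
    · subst he
      simp only [updateCol_self, of_apply, smul_eq_mul, Pi.smul_apply, Function.update_self,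
        ← der_mul (hder _)]
      rw [← der_mul (by simp [derivative_pow]), hq, iterate_derivative_sum]
    · simp [updateCol_ne he, Function.update_of_ne he]
  have h2 : (X - C θ) ^ (c + ρ * b + (ρ + (b + 1) - (p - 1))) ∣ Wr (Function.update y e0 z) := by
    refine local_dvd θ _ (fun e => ?_) (Function.update (fun _ => b + 1) e0 c) (fun e => ?_) _
      fun a ha h => ?_
    · by_cases he : e = e0
      · simpa [he] using hz
      · simpa [he] using hy e
    · by_cases he : e = e0
      · simpa [he] using hz1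
      · simpa [he] using hd e
    · have := sum_ge _ (b + 1) hb ((univ.erase e0).image a) (by
        intro x hx
        obtain ⟨e, he, rfl⟩ := mem_image.1 hx
        simpa [(mem_erase.1 he).1] using h e)
      rw [card_image_of_injective _ ha, card_erase_of_mem (mem_univ _), card_univ,
        Fintype.card_fin, sum_image fun _ _ _ _ h => ha h, Nat.add_sub_cancel, mul_add_one] at this
      have h3 : c ≤ a e0 := by simpa using (h e0).1
      rw [Fin.sum_univ_eq_sum_range (fun i => i), sum_range_succ,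
        ← add_sum_erase _ _ (mem_univ e0)]
      omega
  refine IsCoprime.dvd_of_dvd_mul_left (y := expand F p (q e0)) (IsCoprime.pow_left ?_) ?_
  · exact (irreducible_X_sub_C θ).coprime_iff_not_dvd.2 fun h => he0 (dvd_iff_isRoot.1 h)
  · rw [h1, pow_add]
    exact mul_dvd_mul_left _ h2

end Pool.Agent.Lib.MP_53226a_nt.H17
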