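import Pool.Agent.Lib.MP_53226a_nt.H61M

/-! For most primes `q` all but boundedly many primes `p` of a finite set have at least
`q^(1-ε)` odd characters modulo `q` with a `p`-indivisible value `L(χ,0)`. -/

namespace Pool.Agent.Lib.MP_53226a_nt.H61

open Finset Filter Pool.Agent.Lib.MP_0a06fe_nt.RT

lemma numer {ε δ n L x t H c a : ℝ} (hε : 0 < ε) (hδ : 0 < δ) (hn : 1 ≤ n) (hL : 1 ≤ L)
    (hx : 0 ≤ x) (ht : 1 ≤ t) (hH : 1 ≤ H) (hH' : H ≤ 180 * n ^ 3 * L) (hc : 0 ≤ c)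
    (h1 : (4 + c) * 32400 * n ^ 9 / δ * L ^ 3 ≤ t) (h2 : 6000 * a ≤ δ)
    (h3 : 172800000 ≤ ε * δ * n) (h4 : 1116000 ≤ δ * n) :
    x * t⁻¹ + x * t⁻¹ + x * (H * t⁻¹) + x * (H ^ 2 * (t ^ 3)⁻¹) + x * (c / t) +
      6000 * x / (n ^ 3 * L) * a +
      6000 * x / (n ^ 3 * L) * (2 * (30 * (n ^ 2 * L))) / (15 / 2 * ε * n ^ 3 * L) +
      2000 * x / (n ^ 3 * L) ^ 2 * (18 * (1 + 30 * (n ^ 2 * L))) +
      6000 * x / (n ^ 2 * L) * (200 * H / (n ^ 2 * L) * (2 * (3 * L))) / (15 / 2 * ε * n ^ 3 * L) ≤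
      5 * δ * (x / (n ^ 3 * L)) := by
  have hX : 0 ≤ x / (n ^ 3 * L) := by positivity
  have e1 : x * t⁻¹ + x * t⁻¹ + x * (H * t⁻¹) + x * (H ^ 2 * (t ^ 3)⁻¹) + x * (c / t) ≤
      δ * (x / (n ^ 3 * L)) := by
    have a1 : (t ^ 3)⁻¹ ≤ t⁻¹ := inv_anti₀ (by positivity) (le_self_pow₀ ht (by norm_num))
    have a2 : 1 ≤ H ^ 2 := one_le_pow₀ hH
    have a3 : H ≤ H ^ 2 := le_self_pow₀ hH (by norm_num)
    calc _ ≤ x * t⁻¹ + x * t⁻¹ + x * (H * t⁻¹) + x * (H ^ 2 * t⁻¹) + x * (c / t) := by gcongr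
      _ = x * (2 + H + H ^ 2 + c) / t := by ring
      _ ≤ x * ((4 + c) * (180 * n ^ 3 * L) ^ 2) / ((4 + c) * 32400 * n ^ 9 / δ * L ^ 3) := by
          have a4 : H ^ 2 ≤ (180 * n ^ 3 * L) ^ 2 := by gcongr
          gcongr
          nlinarith
      _ = _ := by field_simp; ring
  have e5 : 6000 * x / (n ^ 3 * L) * a ≤ δ * (x / (n ^ 3 * L)) :=
    le_of_eq_of_le (by ring) (mul_le_mul_of_nonneg_right h2 hX)
  have e6 : 6000 * x / (n ^ 3 * L) * (2 * (30 * (n ^ 2 * L))) / (15 / 2 * ε * n ^ 3 * L) ≤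
      δ * (x / (n ^ 3 * L)) := by
    refine le_of_eq_of_le (b := 48000 / (ε * n) * (x / (n ^ 3 * L))) (by field_simp; ring)
      (mul_le_mul_of_nonneg_right ?_ hX)
    rw [div_le_iff₀ (by positivity)]
    linarith
  have e7 : 2000 * x / (n ^ 3 * L) ^ 2 * (18 * (1 + 30 * (n ^ 2 * L))) ≤
      δ * (x / (n ^ 3 * L)) := by
    have a1 : 1 ≤ n ^ 2 * L := one_le_mul_of_one_le_of_one_le (one_le_pow₀ hn) hL
    calc _ ≤ 2000 * x / (n ^ 3 * L) ^ 2 * (18 * (n ^ 2 * L + 30 * (n ^ 2 * L))) := by gcongr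
      _ = 1116000 / n * (x / (n ^ 3 * L)) := by field_simp; ring
      _ ≤ _ := mul_le_mul_of_nonneg_right (by rwa [div_le_iff₀ (by positivity)]) hX
  have e8 : 6000 * x / (n ^ 2 * L) * (200 * H / (n ^ 2 * L) * (2 * (3 * L))) /
      (15 / 2 * ε * n ^ 3 * L) ≤ δ * (x / (n ^ 3 * L)) := by
    calc _ ≤ 6000 * x / (n ^ 2 * L) * (200 * (180 * n ^ 3 * L) / (n ^ 2 * L) * (2 * (3 * L))) /
          (15 / 2 * ε * n ^ 3 * L) := by gcongr
      _ = 172800000 / (ε * n) * (x / (n ^ 3 * L)) := by field_simp; ring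
      _ ≤ _ := mul_le_mul_of_nonneg_right (by rw [div_le_iff₀ (by positivity)]; linarith) hX
  linarith

lemma pi_low {x : ℕ} (hx : 100 ≤ x) : x / (2 * Real.log x) ≤ Nat.primeCounting x := by
  refine le_trans ?_ (Chebyshev.pi_ge x)
  have h1 : (100 : ℝ) ≤ x := by exact_mod_cast hx
  have h2 : 0 < Real.log x := Real.log_pos (by linarith)
  have h3 : Real.log ((x + 1) / 16) ≤ (x + 1) / 16 - 1 := Real.log_le_sub_one_of_pos (by linarith)
  rw [Real.log_div (by linarith) (by norm_num), show (16 : ℝ) = 2 ^ 4 by norm_num,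
    Real.log_pow] at h3
  rw [← div_div]
  refine div_le_div_of_nonneg_right ?_ h2.le
  have h4 := Real.log_two_gt_d9
  have h5 := Real.log_two_lt_d9
  push_cast at h3
  nlinarith

theorem most_q :
    ∀ ε : ℝ, 0 < ε → ∃ C : ℕ, ∀ A : Finset ℕ, (∀ p ∈ A, p.Prime ∧ p ≠ 2) →
      ∀ᶠ x : ℕ in Filter.atTop,
        (({q : ℕ | q.Prime ∧ q ≤ x ∧
            C < ({p : ℕ | p ∈ A ∧ ∃ P : Ideal (integralClosure ℤ ℂ), P.IsMaximal ∧
              (p : integralClosure ℤ ℂ) ∈ P ∧ (Zero.N q P : ℝ) < (q : ℝ) ^ (1 - ε)} : Set ℕ).ncard}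
          : Set ℕ).ncard : ℝ) ≤ ε * (Nat.primeCounting x : ℝ) := by
  intro ε hε
  set δ := ε / 1200 with hδ
  have hδ0 : 0 < δ := by positivity
  obtain ⟨n, hn⟩ := exists_nat_ge (172800000 / (ε * δ) + 1116000 / δ + 2)
  have p1 : 0 < 172800000 / (ε * δ) := by positivity
  have p2 : 0 < 1116000 / δ := by positivity
  have hn2 : 2 ≤ n := by exact_mod_cast (by linarith : (2 : ℝ) ≤ n)
  have hg : 3 ≤ n ^ 2 := by nlinarith
  have hκ : n ^ 2 ≤ n ^ 3 := Nat.pow_le_pow_right (by omega) (by norm_num)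
  obtain ⟨K, hK⟩ : ∃ K, K + 1 = 60 * n ^ 3 := ⟨60 * n ^ 3 - 1, by omega⟩
  refine ⟨(K + 1) ^ 3, fun A hA => ?_⟩
  obtain ⟨c, hc0, hc⟩ := gm_sum A (fun p hp => (hA p hp).1) (K + 1) (by omega)
  obtain ⟨v, hv⟩ := exists_nat_ge (6000 * #A / δ + 1)
  have p3 : (0 : ℝ) ≤ 6000 * #A / δ := by positivity
  set Z := A.sup id + 1 with hZ
  obtain ⟨t₀, ht₀⟩ := eventually_atTop.1 ((ev_LL_pow ((4 + c) * 32400 * n ^ 9 / δ) 3 one_pos).and
    ((ev_LL (2 / ε)).and (eventually_ge_atTop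
      (100 + Z + Z ^ v + (2 * (Z ^ v * 2 ^ (K + 1))) ^ (Z ^ v * 2 ^ (K + 1))))))
  filter_upwards [eventually_ge_atTop (t₀ ^ (K + 1))] with x hx
  obtain ⟨t, ht, hx1, hx2⟩ : ∃ t, t₀ ≤ t ∧ t ^ (K + 1) ≤ x ∧ x < (t + 1) ^ (K + 1) :=
    ⟨Nat.nthRoot (K + 1) x, (Nat.le_nthRoot_iff (by omega)).2 hx,
      Nat.pow_nthRoot_le (Or.inl (by omega)), Nat.lt_pow_nthRoot_add_one (by omega) x⟩
  obtain ⟨b1, b2, b3⟩ := ht₀ t ht
  have ht0 : 0 < t := by omega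
  have ht' : (100 : ℝ) ≤ t := by exact_mod_cast (by omega : 100 ≤ t)
  have hL := (LL_bounds (W := t) (by omega)).1
  have hn' : (1 : ℝ) ≤ n := by linarith
  have hK' : (K : ℝ) + 1 = 60 * n ^ 3 := by exact_mod_cast hK
  have hκ' : (1 : ℝ) ≤ n ^ 3 := one_le_pow₀ hn'
  have hx0 : 100 ≤ x := le_trans (by omega) ((Nat.le_self_pow (by omega) t).trans hx1)
  have hlog : Real.log x ≤ 120 * n ^ 3 * LL t := by
    have h1 : x ≤ t ^ (2 * (K + 1)) := by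
      rw [pow_mul]
      exact hx2.le.trans (Nat.pow_le_pow_left (by nlinarith [show 2 ≤ t by omega]) _)
    refine (Real.log_le_log (by exact_mod_cast (by omega)) (Nat.cast_le.2 h1)).trans_eq ?_
    push_cast
    rw [Real.log_pow, LL]
    push_cast
    rw [hK']
    ring
  have hfin : Set.Finite {q : ℕ | q.Prime ∧ q ≤ x ∧ (K + 1) ^ 3 < (low ε A q).ncard} :=
    (Set.finite_Iic x).subset fun q hq => hq.2.1
  have h1 := cover (ε := ε) (θ := 15 / 2 * ε * n ^ 3 * LL t) (K := K) (V := t ^ n ^ 2)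
    (W := t ^ n ^ 3) (v := v) (Z := Z)
    (fun p hp => ⟨(hA p hp).1, (hA p hp).2, (le_sup (f := id) hp).trans (Nat.le_succ _)⟩)
    (by omega) (by omega) (by omega) (Nat.pow_le_pow_right ht0 hg) (Nat.pow_le_pow_right ht0 hκ)
    (by rw [← pow_succ]; exact Nat.pow_le_pow_right ht0 (by omega))
    (by rw [← pow_mul, ← pow_mul, ← pow_add]; exact (Nat.pow_le_pow_right ht0 (by omega)).trans hx1)
    hx1 hx2 (by exact_mod_cast (by linarith : (1 : ℝ) ≤ v)) (by omega) (by omega) (by positivity) hε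
    (by
      rw [div_le_iff₀ hε] at b2
      push_cast
      rw [hK', show (K : ℝ) = 60 * n ^ 3 - 1 by linarith]
      nlinarith) (hc t x ht0 hx2) hfin.toFinset fun q hq => hfin.mem_toFinset.1 hq
  have hLL : ∀ k : ℕ, LL (t ^ k) = k * LL t := fun k => by
    rw [LL, LL, Nat.cast_pow, Real.log_pow]
  have hHH : HH ((t ^ n ^ 2) ^ 30) = 1 + LL ((t ^ n ^ 2) ^ 30) := rfl
  rw [hHH, ← pow_mul, hLL, hLL, hLL, hLL, ← Set.ncard_eq_toFinset_card _ hfin] at h1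
  push_cast at h1
  have h2 := numer (x := x) (t := t) (H := HH x) (a := #A * ((2 : ℝ) ^ v)⁻¹) hε hδ0 hn' hL
    x.cast_nonneg (by linarith) (one_le_HH x) (by rw [HH]; nlinarith) hc0
    (by rwa [Real.rpow_one] at b1) (by
      have h3 : (v : ℝ) ≤ 2 ^ v := by exact_mod_cast Nat.lt_two_pow_self.le
      rw [← div_eq_mul_inv, ← mul_div_assoc, div_le_iff₀ (by positivity), ← div_le_iff₀' hδ0]
      linarith)
    (by rw [← div_le_iff₀' (by positivity)]; linarith) (by rw [← div_le_iff₀' hδ0]; linarith)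
  have h3 : x / (2 * (120 * n ^ 3 * LL t)) ≤ x / (2 * Real.log x) := by
    have : 0 < Real.log x := Real.log_pos (by exact_mod_cast (by omega))
    gcongr
  calc _ ≤ _ := h1
    _ ≤ 5 * δ * (x / (n ^ 3 * LL t)) := le_of_eq_of_le (by ring) h2
    _ = ε * (x / (2 * (120 * n ^ 3 * LL t))) := by rw [hδ]; ring
    _ ≤ _ := mul_le_mul_of_nonneg_left (h3.trans (pi_low hx0)) hε.le

end Pool.Agent.Lib.MP_53226a_nt.H61
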