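import Mathlib

/-! The order of `p` modulo the product of the large prime divisors of `q - 1`. -/

open Finset ArithmeticFunction

namespace Pool.Agent.Lib.MP_53226a_nt.H61

/-- The prime divisors of `n` above `U`. -/
def Lg (U n : ℕ) : Finset ℕ := n.primeFactors.filter fun l => U < l

/-- The logarithmic weight of the prime power divisors of `n` up to `U`. -/
noncomputable def R1 (U n : ℕ) : ℝ := ∑ d ∈ Icc 1 U with d ∣ n, Λ d

lemma mem_Lg {U n l : ℕ} : l ∈ Lg U n ↔ l.Prime ∧ l ∣ n ∧ n ≠ 0 ∧ U < l := by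
  rw [Lg, mem_filter, Nat.mem_primeFactors, and_assoc, and_assoc]

lemma R1_nonneg (U n : ℕ) : 0 ≤ R1 U n := sum_nonneg fun _ _ => vonMangoldt_nonneg

lemma log_split {n t U : ℕ} (hn : n ≠ 0) (hU : t ^ 3 ≤ U) (h : ∀ a, t < a → ¬ a ^ 2 ∣ n) :
    Real.log n ≤ ∑ l ∈ Lg U n, Real.log l + R1 U n := by
  rw [← vonMangoldt_sum, ← sum_filter_ne_zero,
    sum_congr rfl fun l hl => (vonMangoldt_apply_prime (mem_Lg.1 hl).1).symm, R1,
    ← sum_union_inter]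
  refine le_trans (sum_le_sum_of_subset_of_nonneg (fun d hd => ?_) fun _ _ _ => vonMangoldt_nonneg)
    (le_add_of_nonneg_right (sum_nonneg fun _ _ => vonMangoldt_nonneg))
  obtain ⟨h1, h2⟩ := mem_filter.1 hd
  have h3 := Nat.dvd_of_mem_divisors h1
  rcases le_or_gt d U with h4 | h4
  · exact mem_union_right _ (mem_filter.2 ⟨mem_Icc.2 ⟨Nat.pos_of_mem_divisors h1, h4⟩, h3⟩)
  · obtain ⟨p, k, hp, hk, rfl⟩ := (isPrimePow_nat_iff d).1 (vonMangoldt_ne_zero_iff.1 h2)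
    obtain rfl : k = 1 := by
      by_contra h5
      refine h (p ^ (k / 2)) (lt_of_pow_lt_pow_left₀ 3 (Nat.zero_le _) (hU.trans_lt (h4.trans_le ?_)))
        (dvd_trans ?_ h3)
      · rw [← pow_mul]
        exact Nat.pow_le_pow_right hp.pos (by omega)
      · rw [← pow_mul]
        exact pow_dvd_pow p (by omega)
    rw [pow_one] at h3 h4 ⊢
    exact mem_union_left _ (mem_Lg.2 ⟨hp, h3, hn, h4⟩)

lemma card_Lg {n t U K : ℕ} (hU : t ≤ U) (h : n < (t + 1) ^ K) : #(Lg U n) ≤ K := by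
  rcases eq_or_ne n 0 with rfl | hn
  · simp [Lg]
  have h1 : (t + 1) ^ #(Lg U n) ≤ n :=
    (pow_card_le_prod _ _ _ fun l hl => Nat.succ_le_of_lt (hU.trans_lt (mem_Lg.1 hl).2.2.2)).trans
      (Nat.le_of_dvd (Nat.pos_of_ne_zero hn) ((prod_dvd_prod_of_subset _ _ _
        (filter_subset _ _)).trans (Nat.prod_primeFactors_dvd n)))
  by_contra h2
  have := Nat.pow_le_pow_right (Nat.succ_pos t) (not_le.1 h2).le
  simp only [Nat.succ_eq_add_one] at this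
  omega

/-- If every large prime `r` dividing `l - 1` divides the order of `p` modulo `l`, the order of `p`
modulo the product of the large `l` is large. -/
lemma log_ord {n t U K p : ℕ} (hn : n ≠ 0) (hU : t ^ 3 ≤ U) (hK : #(Lg U n) ≤ K)
    (h1 : ∀ a, t < a → ¬ a ^ 2 ∣ n) (h2 : ∀ l ∈ Lg U n, ∀ a, t < a → ¬ a ^ 2 ∣ l - 1)
    (h3 : ∀ l ∈ Lg U n, ∀ l' ∈ Lg U n, ∀ r, t ^ 3 < r → r ∣ l - 1 → r ∣ l' - 1 → l = l')
    (hp : p.Prime) (hpU : p ≤ U)
    (h4 : ∀ l ∈ Lg U n, ∀ r ∈ Lg (t ^ 3) (l - 1), r ∣ orderOf (p : ZMod l)) :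
    0 < orderOf (p : ZMod (∏ l ∈ Lg U n, l)) ∧
      Real.log n ≤ Real.log (orderOf (p : ZMod (∏ l ∈ Lg U n, l)) : ℕ) + R1 U n +
        ∑ l ∈ Lg U n, R1 (t ^ 3) (l - 1) + K := by
  set D := ∏ l ∈ Lg U n, l with hD
  have hcop : p.Coprime D := Nat.Coprime.prod_right fun l hl =>
    (Nat.coprime_primes hp (mem_Lg.1 hl).1).2 (hpU.trans_lt (mem_Lg.1 hl).2.2.2).ne
  have hD0 : 0 < D := prod_pos fun l hl => (mem_Lg.1 hl).1.pos
  have ho : 0 < orderOf (p : ZMod D) := by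
    refine (isOfFinOrder_iff_pow_eq_one.2 ⟨D.totient, Nat.totient_pos.2 hD0, ?_⟩).orderOf_pos
    rw [← Nat.cast_pow, ← Nat.cast_one, ZMod.natCast_eq_natCast_iff]
    exact Nat.ModEq.pow_totient hcop
  have hdis : (Lg U n : Set ℕ).PairwiseDisjoint fun l => Lg (t ^ 3) (l - 1) :=
    fun l hl l' hl' hne => disjoint_left.2 fun r hr hr' =>
      hne (h3 l hl l' hl' r (mem_Lg.1 hr).2.2.2 (mem_Lg.1 hr).2.1 (mem_Lg.1 hr').2.1)
  have hdvd : ∏ r ∈ (Lg U n).biUnion fun l => Lg (t ^ 3) (l - 1), r ∣ orderOf (p : ZMod D) := by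
    refine prod_primes_dvd _ (fun r hr => ?_) fun r hr => ?_
    · obtain ⟨l, -, hr⟩ := mem_biUnion.1 hr
      exact (mem_Lg.1 hr).1.prime
    · obtain ⟨l, hl, hr⟩ := mem_biUnion.1 hr
      refine (h4 l hl r hr).trans ?_
      rw [← map_natCast (ZMod.castHom (dvd_prod_of_mem (fun l => l) hl) (ZMod l)) p]
      exact orderOf_map_dvd (ZMod.castHom (dvd_prod_of_mem (fun l => l) hl) (ZMod l)).toMonoidHom _
  have h5 : ∑ l ∈ Lg U n, ∑ r ∈ Lg (t ^ 3) (l - 1), Real.log r ≤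
      Real.log (orderOf (p : ZMod D) : ℕ) := by
    have hpos : ∀ r ∈ (Lg U n).biUnion fun l => Lg (t ^ 3) (l - 1), 0 < r := fun r hr => by
      obtain ⟨l, -, hr⟩ := mem_biUnion.1 hr
      exact (mem_Lg.1 hr).1.pos
    rw [← sum_biUnion hdis, ← Real.log_prod fun r hr => by exact_mod_cast (hpos r hr).ne',
      ← Nat.cast_prod]
    exact Real.log_le_log (by exact_mod_cast prod_pos hpos)
      (by exact_mod_cast Nat.le_of_dvd ho hdvd)
  have h6 : ∑ l ∈ Lg U n, Real.log l ≤ ∑ l ∈ Lg U n,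
      (∑ r ∈ Lg (t ^ 3) (l - 1), Real.log r + R1 (t ^ 3) (l - 1) + 1) := sum_le_sum fun l hl => by
    have h7 := (mem_Lg.1 hl).1.two_le
    have h8 := log_split (n := l - 1) (by omega) le_rfl (h2 l hl)
    have h9 : Real.log l ≤ Real.log (2 * (l - 1 : ℕ)) :=
      Real.log_le_log (by exact_mod_cast (by omega)) (by exact_mod_cast (by omega))
    rw [Real.log_mul two_ne_zero (by exact_mod_cast (by omega))] at h9
    linarith [Real.log_two_lt_d9]
  rw [sum_add_distrib, sum_add_distrib, sum_const, nsmul_eq_mul, mul_one] at h6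
  have h7 : (#(Lg U n) : ℝ) ≤ K := by exact_mod_cast hK
  exact ⟨ho, by linarith [log_split hn hU h1]⟩

/-- Few members of `A` miss one of the large primes `r`. -/
lemma card_miss {n t U K : ℕ} (ht : t ≤ t ^ 3) (hU : t ^ 3 ≤ U) (h : n < (t + 1) ^ K)
    (A : Finset ℕ) (h4 : ∀ l ∈ Lg U n, ∀ r ∈ Lg (t ^ 3) (l - 1),
      #(A.filter fun p : ℕ => ¬ r ∣ orderOf (p : ZMod l)) < K) (S : Finset ℕ) (hS : ∀ p ∈ S, p ∈ A ∧
      ¬ ∀ l ∈ Lg U n, ∀ r ∈ Lg (t ^ 3) (l - 1), r ∣ orderOf (p : ZMod l)) : #S ≤ K ^ 3 := by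
  have h1 : S ⊆ (Lg U n).biUnion fun l => (Lg (t ^ 3) (l - 1)).biUnion fun r =>
      A.filter fun p : ℕ => ¬ r ∣ orderOf (p : ZMod l) := fun p hp => by
    obtain ⟨h1, h2⟩ := hS p hp
    push Not at h2
    obtain ⟨l, hl, r, hr, h2⟩ := h2
    exact mem_biUnion.2 ⟨l, hl, mem_biUnion.2 ⟨r, hr, mem_filter.2 ⟨h1, h2⟩⟩⟩
  refine (card_le_card h1).trans ((card_biUnion_le_card_mul _ _ (K * K) fun l hl => ?_).trans ?_)
  · refine (card_biUnion_le_card_mul _ _ K fun r hr => (h4 l hl r hr).le).trans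
      (Nat.mul_le_mul_right _ (card_Lg ht ?_))
    obtain ⟨-, h2, h3, -⟩ := mem_Lg.1 hl
    have := Nat.le_of_dvd (Nat.pos_of_ne_zero h3) h2
    omega
  · rw [show K ^ 3 = K * (K * K) by ring]
    exact Nat.mul_le_mul_right _ (card_Lg (ht.trans hU) h)

end Pool.Agent.Lib.MP_53226a_nt.H61
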