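import Pool.Agent.Lib.MP_53226a_nt.H61S
import Pool.Agent.Lib.MP_53226a_nt.H61D

/-! The exceptional sets of primes. -/

open Finset ArithmeticFunction

namespace Pool.Agent.Lib.MP_53226a_nt.H61

open Pool.Agent.Lib.MP_0a06fe_nt Pool.Agent.Lib.MP_0a06fe_nt.RT

lemma card_ub {κ : Type} (T : Finset ℕ) (I : Finset κ) (R : κ → ℕ → Prop)
    [∀ k i, Decidable (R k i)] (h : ∀ i ∈ T, ∃ k ∈ I, R k i) :
    (#T : ℝ) ≤ ∑ k ∈ I, (#(T.filter (R k)) : ℝ) := by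
  simpa using union_bound T I (fun _ => 1) R (fun _ _ => zero_le_one) h

lemma cnt_via {κ : Type} {x : ℕ} (T : Finset ℕ) (I : Finset κ) (m : κ → ℕ)
    (h : ∀ q ∈ T, 2 ≤ q ∧ q ≤ x ∧ ∃ k ∈ I, m k ∣ q - 1) :
    (#T : ℝ) ≤ x * ∑ k ∈ I, (m k : ℝ)⁻¹ := by
  rw [mul_sum]
  refine (card_ub T I (fun k q => m k ∣ q - 1) fun q hq => (h q hq).2.2).trans
    (sum_le_sum fun k _ => cnt_dvd _ fun q hq => ?_)
  obtain ⟨h1, h2⟩ := mem_filter.1 hq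
  exact ⟨(h q h1).1, (h q h1).2.1, h2⟩

lemma sq_tail {t x : ℕ} (ht : 1 ≤ t) : ∑ a ∈ Ioc t x, ((a ^ 2 : ℕ) : ℝ)⁻¹ ≤ (t : ℝ)⁻¹ := by
  push_cast
  exact sum_inv_sq_le _ ht fun a ha => (mem_Ioc.1 ha).1

lemma mem_Ioc_sq {t x a q : ℕ} (h1 : 2 ≤ q) (h2 : q ≤ x) (h3 : t < a) (h4 : a ^ 2 ∣ q - 1) :
    a ∈ Ioc t x := by
  have := Nat.le_of_dvd (by omega) ((dvd_pow_self a two_ne_zero).trans h4)
  exact mem_Ioc.2 ⟨h3, by omega⟩

lemma E1 {t x : ℕ} (ht : 1 ≤ t) (T : Finset ℕ)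
    (h : ∀ q ∈ T, 2 ≤ q ∧ q ≤ x ∧ ∃ a, t < a ∧ a ^ 2 ∣ q - 1) : (#T : ℝ) ≤ x * (t : ℝ)⁻¹ :=
  (cnt_via T (Ioc t x) (· ^ 2) fun q hq => by
    obtain ⟨h1, h2, a, h3, h4⟩ := h q hq
    exact ⟨h1, h2, a, mem_Ioc_sq h1 h2 h3 h4, h4⟩).trans
    (mul_le_mul_of_nonneg_left (sq_tail ht) x.cast_nonneg)

lemma E2 {t x : ℕ} (ht : 1 ≤ t) (T : Finset ℕ)
    (h : ∀ q ∈ T, 2 ≤ q ∧ q ≤ x ∧ ∃ l, 2 ≤ l ∧ l ∣ q - 1 ∧ ∃ a, t < a ∧ a ^ 2 ∣ l - 1) :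
    (#T : ℝ) ≤ x * (HH x * (t : ℝ)⁻¹) := by
  set S := (Icc 2 x).filter fun l => ∃ a ∈ Ioc t x, a ^ 2 ∣ l - 1
  refine (cnt_via T S id fun q hq => ?_).trans (mul_le_mul_of_nonneg_left ?_ x.cast_nonneg)
  · obtain ⟨h1, h2, l, h3, h4, a, h5, h6⟩ := h q hq
    have h7 : l ≤ x := by have := Nat.le_of_dvd (by omega) h4; omega
    exact ⟨h1, h2, l, mem_filter.2 ⟨mem_Icc.2 ⟨h3, h7⟩, a, mem_Ioc_sq h3 h7 h5 h6, h6⟩, h4⟩
  · refine (union_bound S (Ioc t x) _ (fun a l => a ^ 2 ∣ l - 1) (fun _ _ => by positivity)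
      fun l hl => (mem_filter.1 hl).2).trans (le_trans (sum_le_sum fun a ha => hm_dvd (x := x)
        (Nat.one_le_pow 2 _ (ht.trans (mem_Ioc.1 ha).1.le)) _ fun l hl => ?_) ?_)
    · obtain ⟨h1, h2⟩ := mem_filter.1 hl
      exact ⟨(mem_Icc.1 (mem_filter.1 h1).1).1, (mem_Icc.1 (mem_filter.1 h1).1).2, h2⟩
    · rw [← mul_sum]
      exact mul_le_mul_of_nonneg_left (sq_tail ht) (by linarith [one_le_HH x])

lemma E3 {y x : ℕ} (hy : 1 ≤ y) (T : Finset ℕ)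
    (h : ∀ q ∈ T, 2 ≤ q ∧ q ≤ x ∧ ∃ l l' r, l.Prime ∧ l'.Prime ∧ l ≠ l' ∧ l ∣ q - 1 ∧ l' ∣ q - 1 ∧
      y < r ∧ r ∣ l - 1 ∧ r ∣ l' - 1) : (#T : ℝ) ≤ x * (HH x ^ 2 * (y : ℝ)⁻¹) := by
  set S := fun r => (Icc 2 x).filter fun l => r ∣ l - 1
  refine (cnt_via T ((Ioc y x).sigma fun r => S r ×ˢ S r) (fun k => k.2.1 * k.2.2)
    fun q hq => ?_).trans (mul_le_mul_of_nonneg_left ?_ x.cast_nonneg)
  · obtain ⟨h1, h2, l, l', r, h3, h4, h5, h6, h7, h8, h9, h10⟩ := h q hq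
    have e1 : l ≤ x := by have := Nat.le_of_dvd (by omega) h6; omega
    have e2 : l' ≤ x := by have := Nat.le_of_dvd (by omega) h7; omega
    have e3 : r ≤ x := by have := Nat.le_of_dvd (by have := h3.two_le; omega) h9; omega
    exact ⟨h1, h2, ⟨r, l, l'⟩, mem_sigma.2 ⟨mem_Ioc.2 ⟨h8, e3⟩, mem_product.2
      ⟨mem_filter.2 ⟨mem_Icc.2 ⟨h3.two_le, e1⟩, h9⟩, mem_filter.2 ⟨mem_Icc.2 ⟨h4.two_le, e2⟩, h10⟩⟩⟩,
      ((Nat.coprime_primes h3 h4).2 h5).mul_dvd_of_dvd_of_dvd h6 h7⟩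
  · rw [sum_sigma]
    refine le_trans (sum_le_sum fun r hr => ?_) (le_trans (mul_sum _ _ _).symm.le
      (mul_le_mul_of_nonneg_left (sq_tail (x := x) hy) (sq_nonneg _)))
    have h1 := hm_dvd (x := x) (hy.trans (mem_Ioc.1 hr).1.le) (S r) fun l hl =>
      ⟨(mem_Icc.1 (mem_filter.1 hl).1).1, (mem_Icc.1 (mem_filter.1 hl).1).2, (mem_filter.1 hl).2⟩
    simp only [Nat.cast_mul, mul_inv, sum_product, ← sum_mul_sum, sq]
    exact (mul_self_le_mul_self (sum_nonneg fun _ _ => by positivity) h1).trans_eq (by ring)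

lemma E5 {W x v : ℕ} (hW : 16 ≤ W) (hv : 1 ≤ v) (A : Finset ℕ)
    (hA : ∀ p ∈ A, p.Prime ∧ p ^ v * W ^ 30 ≤ x) (T : Finset ℕ)
    (h : ∀ q ∈ T, q.Prime ∧ W < q ∧ q ≤ x ∧ ∃ p ∈ A, p ^ v ∣ q - 1) :
    (#T : ℝ) ≤ 6000 * x / LL W * (#A * ((2 : ℝ) ^ v)⁻¹) := by
  have := (LL_bounds hW).1
  refine (card_ub T A (fun p q => p ^ v ∣ q - 1) fun q hq => (h q hq).2.2.2).trans ?_
  rw [mul_left_comm, ← nsmul_eq_mul]
  refine sum_le_card_nsmul _ _ _ fun p hp => (bt_count hW ((hA p hp).1.isPrimePow.pow (by omega))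
    (hA p hp).2 _ fun q hq => ?_).trans (mul_le_mul_of_nonneg_left (inv_anti₀ (by positivity) ?_)
      (by positivity))
  · obtain ⟨h1, h2⟩ := mem_filter.1 hq
    exact ⟨(h q h1).1, (h q h1).2.1, (h q h1).2.2.1, h2⟩
  · exact_mod_cast Nat.pow_le_pow_left (hA p hp).1.two_le v

lemma E6 {W U x : ℕ} {θ : ℝ} (hθ : 0 < θ) (hW : 16 ≤ W) (hx : U * W ^ 30 ≤ x) (T : Finset ℕ)
    (h : ∀ q ∈ T, q.Prime ∧ W < q ∧ q ≤ x ∧ θ ≤ R1 U (q - 1)) :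
    (#T : ℝ) ≤ 6000 * x / LL W * (2 * LL U) / θ := by
  have := (LL_bounds hW).1
  have h1 := markov T (fun _ => 1) (fun q => R1 U (q - 1)) hθ (fun _ _ => zero_le_one)
    fun q hq => (h q hq).2.2.2
  rw [sum_const, nsmul_eq_mul, mul_one] at h1
  refine h1.trans (div_le_div_of_nonneg_right ?_ hθ.le)
  simp only [R1]
  rw [moment_eq _ _ _ _ fun d q => d ∣ q - 1]
  refine le_trans ?_ (mul_le_mul_of_nonneg_left (sum_Lam U) (by positivity))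
  rw [mul_sum]
  refine sum_le_sum fun d hd => ?_
  by_cases h0 : Λ d = 0
  · simp [h0]
  · rw [sum_const, nsmul_eq_mul, mul_one, mul_left_comm]
    refine mul_le_mul_of_nonneg_left (bt_count hW (vonMangoldt_ne_zero_iff.1 h0)
      ((Nat.mul_le_mul_right _ (mem_Icc.1 hd).2).trans hx) _ fun q hq => ?_) vonMangoldt_nonneg
    obtain ⟨h1, h2⟩ := mem_filter.1 hq
    exact ⟨(h q h1).1, (h q h1).2.1, (h q h1).2.2.1, h2⟩

lemma E7 {W U x : ℕ} (hW : 16 ≤ W) (hx : U * W ^ 30 ≤ x) (T : Finset ℕ)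
    (h : ∀ q ∈ T, q.Prime ∧ W < q ∧ q ≤ x ∧ ∃ l, l.Prime ∧ l ∣ q - 1 ∧ x < l * U) :
    (#T : ℝ) ≤ 2000 * x / LL W ^ 2 * (18 * HH U) := by
  have := (LL_bounds hW).1
  refine (card_ub T (Icc 1 U) (fun m q => m ∣ q - 1 ∧ ((q - 1) / m).Prime ∧ W < (q - 1) / m)
    fun q hq => ?_).trans (le_trans ?_ (mul_le_mul_of_nonneg_left (sum_exp_sr U) (by positivity)))
  · obtain ⟨h1, h2, h3, l, h4, ⟨m, h5⟩, h6⟩ := h q hq
    have h7 : 0 < m := Nat.pos_of_ne_zero fun e => by rw [e] at h5; omega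
    have h8 : (q - 1) / m = l := by rw [h5, Nat.mul_div_cancel _ h7]
    have h9 : W ^ 30 < l := lt_of_mul_lt_mul_left (a := U) (by rw [mul_comm U l]; omega)
      (Nat.zero_le _)
    refine ⟨m, mem_Icc.2 ⟨h7, (lt_of_mul_lt_mul_left (a := l) (by omega) (Nat.zero_le _)).le⟩,
      h5 ▸ dvd_mul_left _ _, h8 ▸ h4, h8 ▸ (Nat.le_self_pow (by norm_num) W).trans_lt h9⟩
  · rw [mul_sum]
    refine sum_le_sum fun m hm => (cnt_sieve hW (mem_Icc.1 hm).1 {0} Subset.rfl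
      ((Nat.mul_le_mul_right _ (mem_Icc.1 hm).2).trans hx) _ fun q hq => ?_).trans_eq ?_
    · obtain ⟨h1, h2⟩ := mem_filter.1 hq
      exact ⟨(h q h1).1, (h q h1).2.1, (h q h1).2.2.1, h2.1, fun _ => h2.2⟩
    · rw [card_singleton]
      ring

lemma E8 {V y x : ℕ} {θ : ℝ} (hθ : 0 < θ) (hV : 16 ≤ V) (hy : y ≤ V) (T : Finset ℕ)
    (h : ∀ q ∈ T, q.Prime ∧ V < q ∧ q ≤ x ∧ (∀ l ∈ Lg (V ^ 30) (q - 1), l * V ^ 30 ≤ x) ∧
      θ ≤ ∑ l ∈ Lg (V ^ 30) (q - 1), R1 y (l - 1)) :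
    (#T : ℝ) ≤ 6000 * x / LL V * (200 * HH x / LL V * (2 * LL y)) / θ := by
  have := (LL_bounds hV).1
  have hH := one_le_HH x
  set S := (Icc 1 x).filter fun l => l.Prime ∧ V ^ 30 < l ∧ l * V ^ 30 ≤ x
  have h1 := markov T (fun _ => 1) (fun q => ∑ l ∈ S with l ∣ q - 1, R1 y (l - 1)) hθ
    (fun _ _ => zero_le_one) fun q hq => (h q hq).2.2.2.2.trans
      (sum_le_sum_of_subset_of_nonneg (fun l hl => by
        obtain ⟨a, b, c, d⟩ := mem_Lg.1 hl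
        have e := (h q hq).2.2.2.1 l hl
        exact mem_filter.2 ⟨mem_filter.2 ⟨mem_Icc.2 ⟨a.pos,
          (Nat.le_mul_of_pos_right l (by positivity)).trans e⟩, a, d, e⟩, b⟩)
        fun _ _ _ => R1_nonneg _ _)
  rw [sum_const, nsmul_eq_mul, mul_one] at h1
  refine h1.trans (div_le_div_of_nonneg_right ?_ hθ.le)
  rw [moment_eq _ _ _ _ fun l q => l ∣ q - 1]
  calc _ ≤ 6000 * x / LL V * ∑ l ∈ S, (l : ℝ)⁻¹ * R1 y (l - 1) := by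
        rw [mul_sum]
        refine sum_le_sum fun l hl => ?_
        obtain ⟨-, a, -, b⟩ := mem_filter.1 hl
        rw [sum_const, nsmul_eq_mul, mul_one, mul_comm, ← mul_assoc]
        refine mul_le_mul_of_nonneg_right (bt_count hV a.isPrimePow b _ fun q hq => ?_)
          (R1_nonneg _ _)
        obtain ⟨h1, h2⟩ := mem_filter.1 hq
        exact ⟨(h q h1).1, (h q h1).2.1, (h q h1).2.2.1, h2⟩
    _ ≤ _ := by
        refine mul_le_mul_of_nonneg_left ?_ (by positivity)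
        simp only [R1]
        rw [moment_eq _ _ _ _ fun d l => d ∣ l - 1]
        refine le_trans ?_ (mul_le_mul_of_nonneg_left (sum_Lam y) (by positivity))
        rw [mul_sum]
        refine sum_le_sum fun d hd => ?_
        by_cases h0 : Λ d = 0
        · simp [h0]
        · rw [mul_left_comm]
          refine mul_le_mul_of_nonneg_left (bt_sum hV (vonMangoldt_ne_zero_iff.1 h0)
            ((mem_Icc.1 hd).2.trans hy) _ fun l hl => ?_) vonMangoldt_nonneg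
          obtain ⟨h1, h2⟩ := mem_filter.1 hl
          obtain ⟨a, b, c, -⟩ := mem_filter.1 h1
          exact ⟨b, c, (mem_Icc.1 a).2, h2⟩

end Pool.Agent.Lib.MP_53226a_nt.H61
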