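import Pool.Agent.Lib.MP_53226a_nt.ZeroDefs

/-! Double counting: from few exceptional `p` for most `q` to most `q` for all but few `p`. -/

namespace Pool.Agent.Lib.MP_53226a_nt.H61

open Finset Filter

open Classical in
theorem density_of_uniform (Adm : ℕ → Prop) (Good : ℕ → ℕ → Prop) (Q : ℕ → Finset ℕ) {ε : ℝ}
    (hε : 0 < ε) (C : ℕ)
    (h : ∀ A : Finset ℕ, (∀ p ∈ A, Adm p) → ∀ᶠ x in atTop,
      (((Q x).filter fun q => C < (A.filter fun p => ¬ Good p q).card).card : ℝ)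
        ≤ ε * (Q x).card) :
    ∃ E : Finset ℕ, (E.card : ℝ) ≤ C / ε ∧ ∀ p, Adm p → p ∉ E → ∃ᶠ x in atTop,
      (1 - 2 * ε) * (Q x).card ≤ (((Q x).filter fun q => Good p q).card : ℝ) := by
  set B : Set ℕ := {p | Adm p ∧ ∀ᶠ x in atTop,
    (((Q x).filter fun q => Good p q).card : ℝ) < (1 - 2 * ε) * (Q x).card} with hB
  have key : ∀ A : Finset ℕ, (A : Set ℕ) ⊆ B → (A.card : ℝ) ≤ C / ε := by
    intro A hA
    rcases A.eq_empty_or_nonempty with rfl | ⟨p0, hp0⟩
    · simp only [card_empty, Nat.cast_zero]; positivity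
    obtain ⟨x, h1, h2⟩ := ((h A fun p hp => (hA hp).1).and
      ((eventually_all_finset A).2 fun p hp => (hA hp).2)).exists
    have hQ : (0 : ℝ) < (Q x).card := by
      by_contra h0
      have h3 : ((Q x).card : ℝ) = 0 := le_antisymm (not_lt.1 h0) (Nat.cast_nonneg _)
      have := h2 p0 hp0
      rw [h3, mul_zero] at this
      exact absurd this (not_lt.2 (Nat.cast_nonneg _))
    have h4 : ∑ p ∈ A, ((Q x).filter fun q => ¬ Good p q).card
        = ∑ q ∈ Q x, (A.filter fun p => ¬ Good p q).card := by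
      simp only [card_filter]
      exact sum_comm
    have h5 : ∑ q ∈ Q x, (A.filter fun p => ¬ Good p q).card ≤ (Q x).card * C +
        ((Q x).filter fun q => C < (A.filter fun p => ¬ Good p q).card).card * A.card := by
      rw [← sum_filter_add_sum_filter_not (Q x) fun q => C < (A.filter fun p => ¬ Good p q).card,
        add_comm]
      refine add_le_add ?_ ?_
      · refine (sum_le_card_nsmul _ _ C fun q hq => not_lt.1 (mem_filter.1 hq).2).trans ?_
        exact Nat.mul_le_mul_right _ (card_filter_le _ _)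
      · exact sum_le_card_nsmul _ _ _ fun q _ => card_filter_le _ _
    have h6 : (A.card : ℝ) * (2 * ε * (Q x).card)
        ≤ ∑ p ∈ A, (((Q x).filter fun q => ¬ Good p q).card : ℝ) := by
      rw [← nsmul_eq_mul]
      refine card_nsmul_le_sum _ _ _ fun p hp => ?_
      have h7 : (((Q x).filter fun q => Good p q).card : ℝ) +
          ((Q x).filter fun q => ¬ Good p q).card = (Q x).card := by
        exact_mod_cast card_filter_add_card_filter_not (s := Q x) fun q => Good p q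
      have := h2 p hp
      linarith
    rw [← Nat.cast_sum, h4] at h6
    have h8 : ((∑ q ∈ Q x, (A.filter fun p => ¬ Good p q).card : ℕ) : ℝ) ≤ (Q x).card * C +
        ((Q x).filter fun q => C < (A.filter fun p => ¬ Good p q).card).card * A.card := by
      exact_mod_cast h5
    have h9 := mul_le_mul_of_nonneg_right h1 (Nat.cast_nonneg (α := ℝ) A.card)
    rw [le_div_iff₀ hε]
    refine le_of_mul_le_mul_right ?_ hQ
    nlinarith
  have hfin : B.Finite := by
    by_contra hinf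
    obtain ⟨A, hA, hc⟩ := Set.Infinite.exists_subset_card_eq hinf (⌈(C : ℝ) / ε⌉₊ + 1)
    have := key A hA
    rw [hc] at this
    push_cast at this
    linarith [Nat.le_ceil ((C : ℝ) / ε)]
  refine ⟨hfin.toFinset, key _ (by simp), fun p hp hE => ?_⟩
  rw [Set.Finite.mem_toFinset] at hE
  by_contra hcon
  rw [not_frequently] at hcon
  exact hE ⟨hp, hcon.mono fun x hx => not_le.1 hx⟩

theorem fixed_p (hS : ∀ ε : ℝ, 0 < ε → ∃ C : ℕ, ∀ A : Finset ℕ, (∀ p ∈ A, p.Prime ∧ p ≠ 2) →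
      ∀ᶠ x : ℕ in Filter.atTop, (({q : ℕ | q.Prime ∧ q ≤ x ∧ C < ({p : ℕ | p ∈ A ∧
        ∃ P : Ideal (integralClosure ℤ ℂ), P.IsMaximal ∧ (p : integralClosure ℤ ℂ) ∈ P ∧
          (Zero.N q P : ℝ) < (q : ℝ) ^ (1 - ε)} : Set ℕ).ncard} : Set ℕ).ncard : ℝ)
        ≤ ε * (Nat.primeCounting x : ℝ)) (ε : ℝ) (hε : 0 < ε) :
    ∃ E : Finset ℕ, ∀ p : ℕ, p.Prime → p ≠ 2 → p ∉ E → ∃ᶠ x : ℕ in Filter.atTop,
      (1 - ε) * (Nat.primeCounting x : ℝ) ≤ (({q : ℕ | q.Prime ∧ q ≤ x ∧
        ∀ P : Ideal (integralClosure ℤ ℂ), P.IsMaximal → (p : integralClosure ℤ ℂ) ∈ P →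
          (q : ℝ) ^ (1 - ε) ≤ Zero.N q P} : Set ℕ).ncard : ℝ) := by
  classical
  obtain ⟨C, hC⟩ := hS (ε / 2) (half_pos hε)
  have hQ : ∀ x, ((range (x + 1)).filter Nat.Prime).card = Nat.primeCounting x := fun x => by
    rw [Nat.primeCounting, Nat.primeCounting', Nat.count_eq_card_filter_range]
  obtain ⟨E, -, hE⟩ := density_of_uniform (fun p => p.Prime ∧ p ≠ 2)
    (fun p q => ∀ P : Ideal (integralClosure ℤ ℂ), P.IsMaximal → (p : integralClosure ℤ ℂ) ∈ P →
      (q : ℝ) ^ (1 - ε / 2) ≤ Zero.N q P)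
    (fun x => (range (x + 1)).filter Nat.Prime) (half_pos hε) C (fun A hA => (hC A hA).mono
      fun x hx => by
        rw [hQ]
        refine le_trans (le_of_eq ?_) hx
        rw [← Set.ncard_coe_finset]
        congr 2
        ext q
        simp only [coe_filter, mem_filter, mem_range, Set.mem_ofPred_eq, Nat.lt_succ_iff]
        rw [← Set.ncard_coe_finset, and_comm (a := q ≤ x), and_assoc]
        refine and_congr_right fun _ => and_congr_right fun _ => ?_
        congr! 2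
        ext p
        simp only [coe_filter, Set.mem_ofPred_eq, not_forall, not_le, exists_prop])
  refine ⟨E, fun p hp hp2 hpE => (hE p ⟨hp, hp2⟩ hpE).mono fun x hx => ?_⟩
  rw [hQ, mul_div_cancel₀ _ two_ne_zero] at hx
  refine hx.trans ?_
  rw [← Set.ncard_coe_finset]
  refine Nat.cast_le.2 (Set.ncard_le_ncard (fun q hq => ?_)
    ((Set.finite_Iic x).subset fun q hq => hq.2.1))
  simp only [coe_filter, mem_filter, mem_range, Set.mem_ofPred_eq, Nat.lt_succ_iff] at hq
  refine ⟨hq.1.2, hq.1.1, fun P h1 h2 => le_trans ?_ (hq.2 P h1 h2)⟩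
  exact Real.rpow_le_rpow_of_exponent_le (by exact_mod_cast hq.1.2.one_le) (by linarith)

open Classical in
theorem scale_of_uniform (Adm : ℕ → Prop) (Good : ℕ → ℕ → Prop) (Q : ℕ → Finset ℕ) {ε : ℝ}
    (hε : 0 < ε) (C : ℕ)
    (h : ∀ A : Finset ℕ, (∀ p ∈ A, Adm p) → ∀ᶠ x in atTop,
      (((Q x).filter fun q => C < (A.filter fun p => ¬ Good p q).card).card : ℝ)
        ≤ ε * (Q x).card) (A : Finset ℕ) (hA : ∀ p ∈ A, Adm p) :
    ∀ᶠ x in atTop, (A.filter fun p => 2 * ε * (Q x).card <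
      (((Q x).filter fun q => ¬ Good p q).card : ℝ)).card ≤ ⌈(C : ℝ) / ε⌉₊ := by
  filter_upwards [(eventually_all_finset A.powerset).2 fun B hB =>
    h B fun p hp => hA p (mem_powerset.1 hB hp)] with x hx
  set B := A.filter fun p => 2 * ε * (Q x).card < (((Q x).filter fun q => ¬ Good p q).card : ℝ)
    with hB
  have h1 := hx B (mem_powerset.2 (filter_subset _ _))
  rcases B.eq_empty_or_nonempty with h0 | ⟨p0, hp0⟩
  · rw [h0]; exact Nat.zero_le _
  have hQ : (0 : ℝ) < (Q x).card := by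
    have h2 := (mem_filter.1 hp0).2
    have h3 : (((Q x).filter fun q => ¬ Good p0 q).card : ℝ) ≤ (Q x).card := by
      exact_mod_cast card_filter_le _ _
    have : 0 ≤ 2 * ε * ((Q x).card : ℝ) := by positivity
    linarith
  have h4 : ∑ p ∈ B, ((Q x).filter fun q => ¬ Good p q).card
      = ∑ q ∈ Q x, (B.filter fun p => ¬ Good p q).card := by
    simp only [card_filter]
    exact sum_comm
  have h5 : ∑ q ∈ Q x, (B.filter fun p => ¬ Good p q).card ≤ (Q x).card * C +
      ((Q x).filter fun q => C < (B.filter fun p => ¬ Good p q).card).card * B.card := by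
    rw [← sum_filter_add_sum_filter_not (Q x) fun q => C < (B.filter fun p => ¬ Good p q).card,
      add_comm]
    refine add_le_add ?_ ?_
    · refine (sum_le_card_nsmul _ _ C fun q hq => not_lt.1 (mem_filter.1 hq).2).trans ?_
      exact Nat.mul_le_mul_right _ (card_filter_le _ _)
    · exact sum_le_card_nsmul _ _ _ fun q _ => card_filter_le _ _
  have h6 : (B.card : ℝ) * (2 * ε * (Q x).card)
      ≤ ∑ p ∈ B, (((Q x).filter fun q => ¬ Good p q).card : ℝ) := by
    rw [← nsmul_eq_mul]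
    exact card_nsmul_le_sum _ _ _ fun p hp => (mem_filter.1 hp).2.le
  rw [← Nat.cast_sum, h4] at h6
  have h8 : ((∑ q ∈ Q x, (B.filter fun p => ¬ Good p q).card : ℕ) : ℝ) ≤ (Q x).card * C +
      ((Q x).filter fun q => C < (B.filter fun p => ¬ Good p q).card).card * B.card := by
    exact_mod_cast h5
  have h9 := mul_le_mul_of_nonneg_right h1 (Nat.cast_nonneg (α := ℝ) B.card)
  have h10 : (B.card : ℝ) ≤ C / ε := by
    rw [le_div_iff₀ hε]
    refine le_of_mul_le_mul_right ?_ hQ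
    nlinarith
  exact_mod_cast h10.trans (Nat.le_ceil _)

theorem scale_p (hS : ∀ ε : ℝ, 0 < ε → ∃ C : ℕ, ∀ A : Finset ℕ, (∀ p ∈ A, p.Prime ∧ p ≠ 2) →
      ∀ᶠ x : ℕ in Filter.atTop, (({q : ℕ | q.Prime ∧ q ≤ x ∧ C < ({p : ℕ | p ∈ A ∧
        ∃ P : Ideal (integralClosure ℤ ℂ), P.IsMaximal ∧ (p : integralClosure ℤ ℂ) ∈ P ∧
          (Zero.N q P : ℝ) < (q : ℝ) ^ (1 - ε)} : Set ℕ).ncard} : Set ℕ).ncard : ℝ)
        ≤ ε * (Nat.primeCounting x : ℝ)) (ε : ℝ) (hε : 0 < ε) :
    ∃ C : ℕ, ∀ A : Finset ℕ, (∀ p ∈ A, p.Prime ∧ p ≠ 2) → ∀ᶠ x : ℕ in Filter.atTop,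
      ({p : ℕ | p ∈ A ∧ ε * (Nat.primeCounting x : ℝ) < (({q : ℕ | q.Prime ∧ q ≤ x ∧
        ∃ P : Ideal (integralClosure ℤ ℂ), P.IsMaximal ∧ (p : integralClosure ℤ ℂ) ∈ P ∧
          (Zero.N q P : ℝ) < (q : ℝ) ^ (1 - ε)} : Set ℕ).ncard : ℝ)} : Set ℕ).ncard ≤ C := by
  classical
  obtain ⟨C, hC⟩ := hS (ε / 2) (half_pos hε)
  have hQ : ∀ x, ((range (x + 1)).filter Nat.Prime).card = Nat.primeCounting x := fun x => by
    rw [Nat.primeCounting, Nat.primeCounting', Nat.count_eq_card_filter_range]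
  refine ⟨⌈(C : ℝ) / (ε / 2)⌉₊, fun A hA => ?_⟩
  refine (scale_of_uniform (fun p => p.Prime ∧ p ≠ 2)
    (fun p q => ∀ P : Ideal (integralClosure ℤ ℂ), P.IsMaximal → (p : integralClosure ℤ ℂ) ∈ P →
      (q : ℝ) ^ (1 - ε / 2) ≤ Zero.N q P)
    (fun x => (range (x + 1)).filter Nat.Prime) (half_pos hε) C (fun A hA => (hC A hA).mono
      fun x hx => by
        rw [hQ]
        refine le_trans (le_of_eq ?_) hx
        rw [← Set.ncard_coe_finset]
        congr 2
        ext q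
        simp only [coe_filter, mem_filter, mem_range, Set.mem_ofPred_eq, Nat.lt_succ_iff]
        rw [← Set.ncard_coe_finset, and_comm (a := q ≤ x), and_assoc]
        refine and_congr_right fun _ => and_congr_right fun _ => ?_
        congr! 2
        ext p
        simp only [coe_filter, Set.mem_ofPred_eq, not_forall, not_le, exists_prop]) A hA).mono
    fun x hx => le_trans ?_ hx
  rw [← Set.ncard_coe_finset]
  refine Set.ncard_le_ncard (fun p hp => ?_) (finite_toSet _)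
  rw [mem_coe, mem_filter, hQ, mul_div_cancel₀ _ two_ne_zero, ← Set.ncard_coe_finset]
  refine ⟨hp.1, hp.2.trans_le (Nat.cast_le.2 (Set.ncard_le_ncard (fun q hq => ?_)
    (finite_toSet _)))⟩
  obtain ⟨h1, h2, P, h3, h4, h5⟩ := hq
  simp only [coe_filter, mem_filter, mem_range, Set.mem_ofPred_eq, Nat.lt_succ_iff]
  refine ⟨⟨h2, h1⟩, fun h6 => absurd (h6 P h3 h4) (not_le.2 (h5.trans_le ?_))⟩
  exact Real.rpow_le_rpow_of_exponent_le (by exact_mod_cast h1.one_le) (by linarith)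

end Pool.Agent.Lib.MP_53226a_nt.H61
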