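import Mathlib

/-! The counting argument of Gupta and Murty. -/

namespace Pool.Agent.Lib.MP_53226a_nt.H61

open Finset

open Classical in
/-- Primes `l < (t+1)^K` modulo which `K` members of `A` lie in a group of exponent below
`l / t^3`. -/
noncomputable def gmBad (A : Finset ℕ) (K t : ℕ) : Finset ℕ :=
  (range ((t + 1) ^ K)).filter fun l => l.Prime ∧ l ∉ A ∧
    ∃ B ⊆ A, B.card = K ∧ ∃ m, 0 < m ∧ m * t ^ 3 < l ∧ ∀ p ∈ B, (p : ZMod l) ^ m = 1

lemma prod_pow_inj {B : Finset ℕ} (hB : ∀ p ∈ B, p.Prime) {e e' : B → ℕ}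
    (h : ∏ p : B, p.1 ^ e p = ∏ p : B, p.1 ^ e' p) : e = e' := by
  classical
  have key : ∀ (f : B → ℕ) (p0 : B), (∏ p : B, p.1 ^ f p).factorization p0.1 = f p0 := by
    intro f p0
    rw [Nat.factorization_prod (fun p _ => pow_ne_zero _ (hB p.1 p.2).ne_zero), Finsupp.finsetSum_apply,
      sum_eq_single p0]
    · rw [(hB p0.1 p0.2).factorization_pow, Finsupp.single_eq_same]
    · intro p _ hne
      rw [(hB p.1 p.2).factorization_pow, Finsupp.single_eq_of_ne]
      exact fun h => hne (Subtype.ext h.symm)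
    · intro h; exact absurd (mem_univ _) h
  funext p
  rw [← key e p, ← key e' p, h]

/-- the difference of two products of prime powers -/
def gmDiff (B : Finset ℕ) (T : ℕ) (e : B → Fin (2 * T + 1)) : ℕ :=
  ((∏ p : B, (p.1 : ℤ) ^ (e p).1) - ∏ p : B, (p.1 : ℤ) ^ T).natAbs

lemma gm_pigeon {l m T : ℕ} (hl : l.Prime) {B : Finset ℕ} (hB : ∀ p ∈ B, p.Prime)
    (hm : 0 < m) (hT : m < (T + 1) ^ B.card) (h : ∀ p ∈ B, (p : ZMod l) ^ m = 1) :
    ∃ e : B → Fin (2 * T + 1), gmDiff B T e ≠ 0 ∧ l ∣ gmDiff B T e := by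
  classical
  have : Fact l.Prime := ⟨hl⟩
  obtain ⟨a, -, b, -, hne, hab⟩ := exists_ne_map_eq_of_card_lt_of_maps_to
    (s := (univ : Finset (B → Fin (T + 1)))) (t := (Polynomial.nthRoots m (1 : ZMod l)).toFinset)
    (f := fun a => ∏ p : B, (p.1 : ZMod l) ^ (a p).1)
    (by
      rw [card_univ, Fintype.card_fun, Fintype.card_fin, Fintype.card_coe]
      exact lt_of_le_of_lt
        ((Multiset.toFinset_card_le _).trans (Polynomial.card_nthRoots m (1 : ZMod l))) hT)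
    (by
      intro a _
      rw [mem_coe, Multiset.mem_toFinset, Polynomial.mem_nthRoots hm, ← prod_pow]
      exact prod_eq_one fun p _ => by rw [← pow_mul, mul_comm, pow_mul, h p.1 p.2, one_pow])
  refine ⟨fun p => ⟨(a p).1 + (T - (b p).1), by have := (a p).2; omega⟩, ?_, ?_⟩
  · rw [gmDiff, Int.natAbs_ne_zero, sub_ne_zero]
    intro h1
    have h2 : ∏ p : B, p.1 ^ ((a p).1 + (T - (b p).1)) = ∏ p : B, p.1 ^ T := by exact_mod_cast h1
    have h3 := prod_pow_inj hB h2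
    apply hne
    funext p
    have h4 := congrFun h3 p
    have := (b p).2
    apply Fin.ext
    omega
  · rw [gmDiff, ← Int.natCast_dvd, ← ZMod.intCast_zmod_eq_zero_iff_dvd]
    push_cast
    simp only [pow_add, prod_mul_distrib]
    rw [hab, ← prod_mul_distrib, sub_eq_zero]
    refine prod_congr rfl fun p _ => ?_
    rw [← pow_add]
    congr 1
    have := (b p).2
    omega

lemma gmDiff_card {B : Finset ℕ} {M T : ℕ} (hM : ∀ p ∈ B, p ≤ 2 ^ M) (e : B → Fin (2 * T + 1))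
    (h0 : gmDiff B T e ≠ 0) : (gmDiff B T e).primeFactors.card ≤ 2 * T * B.card * M := by
  have h1 : ∀ f : B → ℕ, (∀ p, f p ≤ 2 * T) → ∏ p : B, p.1 ^ f p ≤ 2 ^ (2 * T * B.card * M) := by
    intro f hf
    calc ∏ p : B, p.1 ^ f p ≤ ∏ _p : B, (2 ^ M) ^ (2 * T) := prod_le_prod' fun p _ =>
          (Nat.pow_le_pow_left (hM p.1 p.2) _).trans (Nat.pow_le_pow_right (by positivity) (hf p))
      _ = _ := by
          rw [prod_const, card_univ, Fintype.card_coe, ← pow_mul, ← pow_mul]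
          congr 1
          ring
  have h2 := h1 (fun p => (e p).1) fun p => by have := (e p).2; omega
  have h3 := h1 (fun _ => T) fun _ => by omega
  have h4 : gmDiff B T e ≤ 2 ^ (2 * T * B.card * M) := by
    have e1 : (∏ p : B, (p.1 : ℤ) ^ (e p).1) = ((∏ p : B, p.1 ^ (e p).1 : ℕ) : ℤ) := by push_cast; rfl
    have e2 : (∏ p : B, (p.1 : ℤ) ^ T) = ((∏ p : B, p.1 ^ T : ℕ) : ℤ) := by push_cast; rfl
    rw [gmDiff, e1, e2]
    omega
  have h5 : 2 ^ (gmDiff B T e).primeFactors.card ≤ gmDiff B T e :=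
    (pow_card_le_prod _ (fun p => p) 2 fun p hp => (Nat.prime_of_mem_primeFactors hp).two_le).trans
      (Nat.le_of_dvd (Nat.pos_of_ne_zero h0) (Nat.prod_primeFactors_dvd _))
  exact (Nat.pow_le_pow_iff_right (by norm_num)).1 (h5.trans h4)

lemma sum_biUnion_le {ι α : Type*} [DecidableEq α] (s : Finset ι) (t : ι → Finset α) (f : α → ℝ)
    (hf : ∀ a, 0 ≤ f a) : ∑ a ∈ s.biUnion t, f a ≤ ∑ i ∈ s, ∑ a ∈ t i, f a := by
  classical
  induction s using Finset.induction_on with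
  | empty => simp
  | insert i s hi ih =>
    rw [biUnion_insert, sum_insert hi]
    have := sum_union_inter (s₁ := t i) (s₂ := s.biUnion t) (f := f)
    have h2 : 0 ≤ ∑ a ∈ t i ∩ s.biUnion t, f a := sum_nonneg fun a _ => hf a
    linarith

/-- The reciprocals of the bad primes have sum `O(1/t)`. -/
theorem gmBad_sum {A : Finset ℕ} (hA : ∀ p ∈ A, p.Prime) {K t M : ℕ} (hK : 0 < K) (ht : 0 < t)
    (hM : ∀ p ∈ A, p ≤ 2 ^ M) :
    ∑ l ∈ gmBad A K t, (1 : ℝ) / l ≤ (2 ^ A.card * 3 ^ K * (2 * K * M) : ℕ) / t := by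
  classical
  set F : Finset ℕ → ℕ → Finset ℕ := fun B T => (univ : Finset (B → Fin (2 * T + 1))).biUnion
    fun e => (gmDiff B T e).primeFactors.filter fun l => T ^ K * t ^ 3 < l with hF
  have hsub : gmBad A K t ⊆ (A.powerset.filter fun B => B.card = K).biUnion fun B =>
      (Icc 1 t).biUnion fun T => F B T := by
    intro l hl
    obtain ⟨h1, hp, hlA, B, hB, hc, m, hm, hml, h⟩ := mem_filter.1 hl
    rw [mem_range] at h1
    have hex : ∃ T, m < (T + 1) ^ K := ⟨m, lt_of_lt_of_le (Nat.lt_succ_self m)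
      (Nat.le_self_pow hK.ne' _)⟩
    have hml' : m < l := lt_of_le_of_lt (Nat.le_mul_of_pos_right _ (by positivity)) hml
    have hT1 : Nat.find hex ≤ t := Nat.find_min' hex (hml'.trans h1)
    have hT0 : 1 ≤ Nat.find hex := by
      rw [Nat.le_find_iff]
      intro n hn
      obtain rfl : n = 0 := by omega
      simp only [zero_add, one_pow]
      omega
    have hT2 : Nat.find hex ^ K ≤ m := by
      have := Nat.find_min hex (m := Nat.find hex - 1) (by omega)
      rwa [Nat.sub_add_cancel hT0, not_lt] at this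
    obtain ⟨e, he0, he⟩ := gm_pigeon (T := Nat.find hex) hp (fun p hp => hA p (hB hp))
      hm (hc ▸ Nat.find_spec hex) h
    refine mem_biUnion.2 ⟨B, mem_filter.2 ⟨mem_powerset.2 hB, hc⟩,
      mem_biUnion.2 ⟨_, mem_Icc.2 ⟨hT0, hT1⟩, mem_biUnion.2 ⟨e, mem_univ _, mem_filter.2
        ⟨Nat.mem_primeFactors.2 ⟨hp, he, he0⟩, ?_⟩⟩⟩⟩
    exact lt_of_le_of_lt (Nat.mul_le_mul_right _ hT2) hml
  have htR : (0 : ℝ) < t := by exact_mod_cast ht
  have hFB : ∀ B ∈ A.powerset.filter fun B => B.card = K, ∀ T ∈ Icc 1 t,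
      ∑ l ∈ F B T, (1 : ℝ) / l ≤ 3 ^ K * (2 * K * M) / t ^ 2 := by
    intro B hB T hT
    obtain ⟨hB, hc⟩ := mem_filter.1 hB
    obtain ⟨hT0, hT1⟩ := mem_Icc.1 hT
    have hTR : (1 : ℝ) ≤ T := by exact_mod_cast hT0
    have hTt : (T : ℝ) ≤ t := by exact_mod_cast hT1
    refine (sum_biUnion_le _ _ _ fun a => by positivity).trans ?_
    have h1 : ∀ e : B → Fin (2 * T + 1),
        ∑ l ∈ (gmDiff B T e).primeFactors.filter fun l => T ^ K * t ^ 3 < l, (1 : ℝ) / l
          ≤ (2 * t * K * M) * (1 / (T ^ K * t ^ 3)) := by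
      intro e
      refine (sum_le_card_nsmul _ _ (1 / ((T : ℝ) ^ K * t ^ 3)) fun l hl => ?_).trans ?_
      · have : ((T ^ K * t ^ 3 : ℕ) : ℝ) ≤ l := by exact_mod_cast (mem_filter.1 hl).2.le
        push_cast at this
        exact one_div_le_one_div_of_le (by positivity) this
      · rw [nsmul_eq_mul]
        refine mul_le_mul_of_nonneg_right ?_ (by positivity)
        have h2 : ((gmDiff B T e).primeFactors.filter fun l => T ^ K * t ^ 3 < l).card
            ≤ 2 * t * K * M := by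
          refine (card_filter_le _ _).trans ?_
          by_cases h0 : gmDiff B T e = 0
          · simp [h0]
          · refine (gmDiff_card (fun p hp => hM p (mem_powerset.1 hB hp)) e h0).trans ?_
            rw [hc]
            gcongr
        exact_mod_cast h2
    refine (sum_le_sum fun e _ => h1 e).trans ?_
    rw [sum_const, card_univ, Fintype.card_fun, Fintype.card_fin, Fintype.card_coe, hc,
      nsmul_eq_mul]
    push_cast
    have h3 : (2 * (T : ℝ) + 1) ^ K ≤ (3 * T) ^ K := pow_le_pow_left₀ (by positivity) (by linarith) K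
    refine (mul_le_mul_of_nonneg_right h3 (by positivity)).trans (le_of_eq ?_)
    rw [mul_pow]
    field_simp
  refine (sum_le_sum_of_subset_of_nonneg hsub fun _ _ _ => by positivity).trans ?_
  refine (sum_biUnion_le _ _ _ fun a => by positivity).trans ?_
  refine (sum_le_card_nsmul _ _ ((3 : ℝ) ^ K * (2 * K * M) / t) fun B hB => ?_).trans ?_
  · refine (sum_biUnion_le _ _ _ fun a => by positivity).trans ?_
    refine (sum_le_card_nsmul _ _ _ (hFB B hB)).trans (le_of_eq ?_)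
    rw [Nat.card_Icc, Nat.add_sub_cancel, nsmul_eq_mul]
    field_simp
  · rw [nsmul_eq_mul]
    have h4 : ((A.powerset.filter fun B => B.card = K).card : ℝ) ≤ 2 ^ A.card := by
      exact_mod_cast (card_filter_le _ _).trans (card_powerset A).le
    refine (mul_le_mul_of_nonneg_right h4 (by positivity)).trans (le_of_eq ?_)
    push_cast
    ring

/-- At a prime `l` that is not bad, fewer than `K` members of `A` have order prime to `r`. -/
theorem gm_few {A : Finset ℕ} (hA : ∀ p ∈ A, p.Prime) {K t l r : ℕ} (hl : l.Prime)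
    (hlt : l < (t + 1) ^ K) (hlA : l ∉ A) (hb : l ∉ gmBad A K t) (hr : r.Prime) (hrl : r ∣ l - 1)
    (hrt : t ^ 3 < r) : (A.filter fun p : ℕ => ¬ r ∣ orderOf (p : ZMod l)).card < K := by
  classical
  have : Fact l.Prime := ⟨hl⟩
  by_contra hcon
  obtain ⟨B, hB, hc⟩ := exists_subset_card_eq (not_lt.1 hcon)
  obtain ⟨m, hm⟩ := hrl
  have h2 := hl.two_le
  have hm0 : 0 < m := Nat.pos_of_ne_zero (by rintro rfl; omega)
  refine hb (mem_filter.2 ⟨mem_range.2 hlt, hl, hlA, B, hB.trans (filter_subset _ _), hc, m, hm0,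
    ?_, fun p hp => ?_⟩)
  · have := Nat.mul_lt_mul_of_pos_left hrt hm0
    rw [mul_comm m r] at this
    omega
  · obtain ⟨hpA, hp⟩ := mem_filter.1 (hB hp)
    have hp0 : (p : ZMod l) ≠ 0 := by
      rw [Ne, ZMod.natCast_eq_zero_iff, Nat.prime_dvd_prime_iff_eq hl (hA p hpA)]
      rintro rfl
      exact hlA hpA
    have h3 := orderOf_dvd_of_pow_eq_one (ZMod.pow_card_sub_one_eq_one hp0)
    rw [hm] at h3
    exact orderOf_dvd_iff_pow_eq_one.1
      (((Nat.Prime.coprime_iff_not_dvd hr).2 hp).symm.dvd_of_dvd_mul_left h3)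

/-- All but `|L| J K` members `p` of `A` have order modulo `∏ L` at least the product of the
primes `r > t^3` dividing some `l - 1`. -/
theorem gm_order {A : Finset ℕ} (hA : ∀ p ∈ A, p.Prime) {K t J : ℕ} (L : Finset ℕ)
    (hL : ∀ l ∈ L, l.Prime ∧ l < (t + 1) ^ K ∧ l ∉ A ∧ l ∉ gmBad A K t) (R : ℕ → Finset ℕ)
    (hR : ∀ l ∈ L, (R l).card ≤ J ∧ ∀ r ∈ R l, r.Prime ∧ r ∣ l - 1 ∧ t ^ 3 < r) :
    ∃ X : Finset ℕ, X.card ≤ L.card * (J * K) ∧ ∀ p ∈ A, p ∉ X → ∀ e, 0 < e →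
      e < ∏ r ∈ L.biUnion R, r → ¬ (∏ l ∈ L, l) ∣ p ^ e - 1 := by
  classical
  refine ⟨L.biUnion fun l => (R l).biUnion fun r =>
    A.filter fun p : ℕ => ¬ r ∣ orderOf (p : ZMod l), ?_, ?_⟩
  · refine card_biUnion_le_card_mul _ _ _ fun l hl => ?_
    obtain ⟨h1, h2, h3, h4⟩ := hL l hl
    refine (card_biUnion_le_card_mul _ _ K fun r hr => ?_).trans
      (Nat.mul_le_mul_right _ (hR l hl).1)
    obtain ⟨h5, h6, h7⟩ := (hR l hl).2 r hr
    exact (gm_few hA h1 h2 h3 h4 h5 h6 h7).le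
  · intro p hp hX e he0 he hd
    refine absurd (Nat.le_of_dvd he0 (Finset.prod_primes_dvd e ?_ ?_)) (not_le.2 he)
    · intro r hr
      obtain ⟨l, hl, hr⟩ := mem_biUnion.1 hr
      exact ((hR l hl).2 r hr).1.prime
    · intro r hr
      obtain ⟨l, hl, hr⟩ := mem_biUnion.1 hr
      have h1 : r ∣ orderOf (p : ZMod l) := by
        by_contra h
        exact hX (mem_biUnion.2 ⟨l, hl, mem_biUnion.2 ⟨r, hr, mem_filter.2 ⟨hp, h⟩⟩⟩)
      refine h1.trans (orderOf_dvd_of_pow_eq_one ?_)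
      have h2 := (ZMod.natCast_eq_zero_iff _ _).2 ((dvd_prod_of_mem (fun l => l) hl).trans hd)
      rw [Nat.cast_sub (Nat.one_le_pow _ _ (hA p hp).pos)] at h2
      push_cast at h2
      exact sub_eq_zero.1 h2

theorem gm_sum (A : Finset ℕ) (hA : ∀ p ∈ A, p.Prime) (K : ℕ) (hK : 1 ≤ K) :
    ∃ c : ℝ, 0 ≤ c ∧ ∀ t x : ℕ, 1 ≤ t → x < (t + 1) ^ K → ∀ T : Finset ℕ,
      (∀ l ∈ T, l.Prime ∧ l ≤ x ∧ l ∉ A ∧ ∃ r, r.Prime ∧ t ^ 3 < r ∧ r ∣ l - 1 ∧
        K ≤ (A.filter fun p : ℕ => ¬ r ∣ orderOf (p : ZMod l)).card) →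
      ∑ l ∈ T, (l : ℝ)⁻¹ ≤ c / t := by
  refine ⟨(2 ^ A.card * 3 ^ K * (2 * K * A.sup id) : ℕ), Nat.cast_nonneg _, ?_⟩
  intro t x ht hx T hT
  refine le_trans ?_ (gmBad_sum hA hK ht (M := A.sup id) fun p hp =>
    (le_sup (f := id) hp).trans Nat.lt_two_pow_self.le)
  simp only [one_div]
  refine sum_le_sum_of_subset_of_nonneg (fun l hl => ?_) fun _ _ _ => by positivity
  obtain ⟨h1, h2, h3, r, h4, h5, h6, h7⟩ := hT l hl
  by_contra hb
  exact absurd (gm_few hA h1 (lt_of_le_of_lt h2 hx) h3 hb h4 h6 h5) (not_lt.2 h7)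

end Pool.Agent.Lib.MP_53226a_nt.H61
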