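import Pool.Agent.Lib.MP_53226a_nt.H61O
import Pool.Agent.Lib.MP_53226a_nt.H61E
import Pool.Agent.Lib.MP_53226a_nt.H61G

/-! Assembly: outside the exceptional sets few primes `p` have a small count. -/

open Finset Filter

namespace Pool.Agent.Lib.MP_53226a_nt.H61

open Pool.Agent.Lib.MP_0a06fe_nt Pool.Agent.Lib.MP_0a06fe_nt.RT

/-- The members of `A` with a small count at `q`. -/
def low (ε : ℝ) (A : Finset ℕ) (q : ℕ) : Set ℕ :=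
  {p | p ∈ A ∧ ∃ P : Ideal (integralClosure ℤ ℂ), P.IsMaximal ∧
    (p : integralClosure ℤ ℂ) ∈ P ∧ (Zero.N q P : ℝ) < (q : ℝ) ^ (1 - ε)}

lemma good {ε : ℝ} {A : Finset ℕ} {K t U q v Z : ℕ} (hA : ∀ p ∈ A, p.Prime ∧ p ≠ 2 ∧ p ≤ Z)
    (hZ0 : 0 < Z) (hZ : Z ≤ t) (ht : 2 ≤ t) (hU : t ^ 3 ≤ U) (hq : q.Prime) (htq : t < q)
    (hqK : q < (t + 1) ^ K) (hw : (2 * (Z ^ v * 2 ^ K)) ^ (Z ^ v * 2 ^ K) < q)
    (h1 : ∀ a, t < a → ¬ a ^ 2 ∣ q - 1) (h2 : ∀ l ∈ Lg U (q - 1), ∀ a, t < a → ¬ a ^ 2 ∣ l - 1)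
    (h3 : ∀ l ∈ Lg U (q - 1), ∀ l' ∈ Lg U (q - 1), ∀ r, t ^ 3 < r → r ∣ l - 1 → r ∣ l' - 1 → l = l')
    (h4 : ∀ l ∈ Lg U (q - 1), ∀ r ∈ Lg (t ^ 3) (l - 1),
      #(A.filter fun p : ℕ => ¬ r ∣ orderOf (p : ZMod l)) < K)
    (h5 : ∀ p ∈ A, ¬ p ^ v ∣ q - 1)
    (h6 : R1 U (q - 1) + ∑ l ∈ Lg U (q - 1), R1 (t ^ 3) (l - 1) + K + 1 ≤ ε * Real.log q) :
    (low ε A q).ncard ≤ K ^ 3 := by
  have hfin : (low ε A q).Finite := A.finite_toSet.subset fun p hp => hp.1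
  have ht3 : t ≤ t ^ 3 := Nat.le_self_pow (by norm_num) t
  have hq1 : q - 1 ≠ 0 := by omega
  rw [Set.ncard_eq_toFinset_card _ hfin]
  refine card_miss ht3 hU (by omega) A h4 _ fun p hp => ?_
  obtain ⟨hp, P, hP, hpP, hlt⟩ := hfin.mem_toFinset.1 hp
  refine ⟨hp, fun h7 => hlt.not_ge ?_⟩
  obtain ⟨a1, a2, a3⟩ := hA p hp
  have hK := card_Lg (n := q - 1) (K := K) (ht3.trans hU) (by omega)
  obtain ⟨h8, h9⟩ := log_ord hq1 hU hK h1 h2 h3 a1 (by omega) h7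
  have hv : (q - 1).factorization p ≤ v := by
    by_contra h
    exact h5 p hp ((a1.pow_dvd_iff_le_factorization hq1).2 (not_le.1 h).le)
  have hw' : p ^ (q - 1).factorization p * 2 ^ #(Lg U (q - 1)) ≤ Z ^ v * 2 ^ K :=
    Nat.mul_le_mul ((Nat.pow_le_pow_left a3 _).trans (Nat.pow_le_pow_right hZ0 hv))
      (Nat.pow_le_pow_right two_pos hK)
  have h10 := orbit a1 a2 hq (by omega) (Nat.ordProj_dvd _ p)
    (Nat.pow_succ_factorization_not_dvd hq1 a1) (Lg U (q - 1)) (fun l hl => by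
      obtain ⟨b1, b2, -, b3⟩ := mem_Lg.1 hl
      exact ⟨b1, by omega, by omega, b2⟩)
    (lt_of_le_of_lt ((Nat.pow_le_pow_left (Nat.mul_le_mul_left 2 hw') _).trans
      (Nat.pow_le_pow_right (by positivity) hw')) hw) P hP hpP
  have h11 : Real.log q ≤ Real.log (2 * (q - 1 : ℕ)) :=
    Real.log_le_log (by exact_mod_cast hq.pos) (by exact_mod_cast (by omega))
  rw [Real.log_mul two_ne_zero (by exact_mod_cast hq1)] at h11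
  refine le_trans ?_ (Nat.cast_le.2 h10)
  rw [Real.rpow_def_of_pos (by exact_mod_cast hq.pos),
    ← Real.le_log_iff_exp_le (by exact_mod_cast h8)]
  linarith [Real.log_two_lt_d9]

/-- Every subset of `S` whose members have the property `P` has at most `a` elements. -/
def Bd (S : Finset ℕ) (P : ℕ → Prop) (a : ℝ) : Prop := ∀ T ⊆ S, (∀ q ∈ T, P q) → (#T : ℝ) ≤ a

lemma Bd.or {S : Finset ℕ} {P Q : ℕ → Prop} {a b : ℝ} (h : Bd S P a) (h' : Bd S Q b) :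
    Bd S (fun q => P q ∨ Q q) (a + b) := fun T hT hP => by
  classical
  have h1 := h _ ((filter_subset P T).trans hT) fun q hq => (mem_filter.1 hq).2
  have h2 := h' _ ((filter_subset (fun q => ¬ P q) T).trans hT) fun q hq =>
    (hP q (mem_filter.1 hq).1).resolve_left (mem_filter.1 hq).2
  rw [← card_filter_add_card_filter_not P]
  push_cast
  linarith

lemma cover {ε θ : ℝ} {A : Finset ℕ} {K t V W x v Z : ℕ} {c : ℝ}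
    (hA : ∀ p ∈ A, p.Prime ∧ p ≠ 2 ∧ p ≤ Z) (hZ0 : 0 < Z) (hZ : Z ≤ t) (ht : 16 ≤ t)
    (hV : t ^ 3 ≤ V) (hW : V ≤ W) (hWK : W * t ≤ t ^ K) (hx : V ^ 30 * W ^ 30 ≤ x)
    (hx1 : t ^ (K + 1) ≤ x) (hx2 : x < (t + 1) ^ (K + 1)) (hv : 1 ≤ v) (hZv : Z ^ v ≤ t)
    (hw : (2 * (Z ^ v * 2 ^ (K + 1))) ^ (Z ^ v * 2 ^ (K + 1)) ≤ t) (hθ : 0 < θ)
    (hε : 0 < ε) (hθ' : 2 * θ + (K + 1 : ℕ) + 1 ≤ ε * (K * LL t))
    (hc : ∀ T : Finset ℕ, (∀ l ∈ T, l.Prime ∧ l ≤ x ∧ l ∉ A ∧ ∃ r, r.Prime ∧ t ^ 3 < r ∧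
      r ∣ l - 1 ∧ K + 1 ≤ (A.filter fun p : ℕ => ¬ r ∣ orderOf (p : ZMod l)).card) →
      ∑ l ∈ T, (l : ℝ)⁻¹ ≤ c / t)
    (T : Finset ℕ) (hT : ∀ q ∈ T, q.Prime ∧ q ≤ x ∧ (K + 1) ^ 3 < (low ε A q).ncard) :
    (#T : ℝ) ≤ x * (t : ℝ)⁻¹ + x * (t : ℝ)⁻¹ + x * (HH x * (t : ℝ)⁻¹) +
      x * (HH x ^ 2 * ((t ^ 3 : ℕ) : ℝ)⁻¹) + x * (c / t) +
      6000 * x / LL W * (#A * ((2 : ℝ) ^ v)⁻¹) + 6000 * x / LL W * (2 * LL (V ^ 30)) / θ +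
      2000 * x / LL W ^ 2 * (18 * HH (V ^ 30)) +
      6000 * x / LL V * (200 * HH x / LL V * (2 * LL (t ^ 3))) / θ := by
  classical
  have ht3 : t ≤ t ^ 3 := Nat.le_self_pow (by norm_num) t
  have hVU : V ≤ V ^ 30 := Nat.le_self_pow (by norm_num) V
  have hWt : W ≤ t ^ K := (Nat.le_mul_of_pos_right W (by omega)).trans hWK
  set U := V ^ 30 with hU
  set G := (Icc 1 x).filter fun l => l.Prime ∧ l ∉ A ∧ ∃ r, r.Prime ∧ t ^ 3 < r ∧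
    r ∣ l - 1 ∧ K + 1 ≤ (A.filter fun p : ℕ => ¬ r ∣ orderOf (p : ZMod l)).card with hG
  have e0 : Bd T (· ≤ t ^ K) (x * (t : ℝ)⁻¹) := fun S hS h => by
    rw [← div_eq_mul_inv, le_div_iff₀ (by exact_mod_cast (by omega))]
    have h1 : #S ≤ #(Icc 1 (t ^ K)) := card_le_card fun q hq =>
      mem_Icc.2 ⟨(hT q (hS hq)).1.pos, h q hq⟩
    rw [Nat.card_Icc, Nat.add_sub_cancel] at h1
    exact_mod_cast (Nat.mul_le_mul_right t h1).trans ((pow_succ t K).symm.le.trans hx1)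
  have e1 : Bd T (fun q => ∃ a, t < a ∧ a ^ 2 ∣ q - 1) _ := fun S hS h =>
    E1 (x := x) (show 1 ≤ t by omega) S fun q hq =>
      ⟨(hT q (hS hq)).1.two_le, (hT q (hS hq)).2.1, h q hq⟩
  have e2 : Bd T (fun q => ∃ l, 2 ≤ l ∧ l ∣ q - 1 ∧ ∃ a, t < a ∧ a ^ 2 ∣ l - 1) _ := fun S hS h =>
    E2 (x := x) (show 1 ≤ t by omega) S fun q hq =>
      ⟨(hT q (hS hq)).1.two_le, (hT q (hS hq)).2.1, h q hq⟩
  have e3 : Bd T (fun q => ∃ l l' r, l.Prime ∧ l'.Prime ∧ l ≠ l' ∧ l ∣ q - 1 ∧ l' ∣ q - 1 ∧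
      t ^ 3 < r ∧ r ∣ l - 1 ∧ r ∣ l' - 1) _ := fun S hS h =>
    E3 (x := x) (show 1 ≤ t ^ 3 by omega) S fun q hq =>
      ⟨(hT q (hS hq)).1.two_le, (hT q (hS hq)).2.1, h q hq⟩
  have e4 : Bd T (fun q => ∃ l ∈ G, l ∣ q - 1) _ := fun S hS h =>
    (cnt_via (x := x) S G id fun q hq =>
      ⟨(hT q (hS hq)).1.two_le, (hT q (hS hq)).2.1, h q hq⟩).trans
      (mul_le_mul_of_nonneg_left (hc G fun l hl =>
        ⟨(mem_filter.1 hl).2.1, (mem_Icc.1 (mem_filter.1 hl).1).2, (mem_filter.1 hl).2.2⟩)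
        x.cast_nonneg)
  have e5 : Bd T (fun q => W < q ∧ ∃ p ∈ A, p ^ v ∣ q - 1) _ := fun S hS h =>
    E5 (W := W) (x := x) (by omega) hv A (fun p hp => ⟨(hA p hp).1, (Nat.mul_le_mul_right _
      ((Nat.pow_le_pow_left (hA p hp).2.2 v).trans (by omega))).trans hx⟩) S fun q hq =>
      ⟨(hT q (hS hq)).1, (h q hq).1, (hT q (hS hq)).2.1, (h q hq).2⟩
  have e6 : Bd T (fun q => W < q ∧ θ ≤ R1 U (q - 1)) _ := fun S hS h =>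
    E6 (W := W) hθ (by omega) hx S fun q hq =>
      ⟨(hT q (hS hq)).1, (h q hq).1, (hT q (hS hq)).2.1, (h q hq).2⟩
  have e7 : Bd T (fun q => W < q ∧ ∃ l, l.Prime ∧ l ∣ q - 1 ∧ x < l * U) _ := fun S hS h =>
    E7 (W := W) (by omega) hx S fun q hq =>
      ⟨(hT q (hS hq)).1, (h q hq).1, (hT q (hS hq)).2.1, (h q hq).2⟩
  have e8 : Bd T (fun q => V < q ∧ (∀ l ∈ Lg U (q - 1), l * U ≤ x) ∧
      θ ≤ ∑ l ∈ Lg U (q - 1), R1 (t ^ 3) (l - 1)) _ := fun S hS h =>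
    E8 (V := V) (x := x) hθ (by omega) hV S fun q hq =>
      ⟨(hT q (hS hq)).1, (h q hq).1, (hT q (hS hq)).2.1, (h q hq).2⟩
  refine ((((((((e0.or e1).or e2).or e3).or e4).or e5).or e6).or e7).or e8) T Subset.rfl
    fun q hq => ?_
  by_contra hne
  simp only [not_or] at hne
  obtain ⟨⟨⟨⟨⟨⟨⟨⟨n0, n1⟩, n2⟩, n3⟩, n4⟩, n5⟩, n6⟩, n7⟩, n8⟩ := hne
  obtain ⟨a1, a2, a5⟩ := hT q hq
  have a3 := not_le.1 n0
  have a4 : t < q := (Nat.le_mul_of_pos_left t (by omega)).trans_lt (hWK.trans_lt a3)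
  have a6 : W < q := hWt.trans_lt a3
  refine a5.not_ge (good hA hZ0 hZ (by omega) (hV.trans hVU) a1 a4
    (a2.trans_lt hx2) (hw.trans_lt a4) (fun a h h' => n1 ⟨a, h, h'⟩)
    (fun l hl a h h' => n2 ⟨l, (mem_Lg.1 hl).1.two_le, (mem_Lg.1 hl).2.1, a, h, h'⟩)
    (fun l hl l' hl' r h h' h'' => by_contra fun hne => n3 ⟨l, l', r, (mem_Lg.1 hl).1,
      (mem_Lg.1 hl').1, hne, (mem_Lg.1 hl).2.1, (mem_Lg.1 hl').2.1, h, h', h''⟩)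
    (fun l hl r hr => not_le.1 fun h => n4 ⟨l, ?_, (mem_Lg.1 hl).2.1⟩)
    (fun p hp h => n5 ⟨a6, p, hp, h⟩) ?_)
  · obtain ⟨b1, b2, b3, b4⟩ := mem_Lg.1 hl
    have := Nat.le_of_dvd (Nat.pos_of_ne_zero b3) b2
    exact mem_filter.2 ⟨mem_Icc.2 ⟨b1.pos, by omega⟩, b1, fun h => by
      have := (hA l h).2.2
      omega, r, (mem_Lg.1 hr).1, (mem_Lg.1 hr).2.2.2, (mem_Lg.1 hr).2.1, h⟩
  · have b0 : ¬ θ ≤ R1 U (q - 1) := fun h => n6 ⟨a6, h⟩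
    have b1 : ¬ θ ≤ ∑ l ∈ Lg U (q - 1), R1 (t ^ 3) (l - 1) := fun h => n8 ⟨hW.trans_lt a6,
      fun l hl => not_lt.1 fun h' => n7 ⟨a6, l, (mem_Lg.1 hl).1, (mem_Lg.1 hl).2.1, h'⟩, h⟩
    have b2 : K * LL t ≤ Real.log q := by
      rw [LL, ← Real.log_pow]
      exact Real.log_le_log (by positivity) (by exact_mod_cast a3.le)
    have b3 := mul_le_mul_of_nonneg_left b2 hε.le
    linarith

end Pool.Agent.Lib.MP_53226a_nt.H61
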