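import Mathlib

namespace Pool.Agent.Lib.MP_53226a_nt.Zero

/-- The number of odd Dirichlet characters modulo `q` whose value
`L(χ,0) = -(1/q) ∑ k χ(k)` is a unit at the ideal `P` of the ring of algebraic integers. -/
noncomputable def N (q : ℕ) (P : Ideal (integralClosure ℤ ℂ)) : ℕ :=
  ({χ : DirichletCharacter ℂ q | χ (-1 : ZMod q) = -1 ∧
    ∃ a b : integralClosure ℤ ℂ, a ∉ P ∧ b ∉ P ∧
      (b : ℂ) * (-(1 / (q : ℂ)) * ∑ k ∈ Finset.Ico 1 q, (k : ℂ) * χ (k : ZMod q)) = (a : ℂ)}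
    : Set (DirichletCharacter ℂ q)).ncard

end Pool.Agent.Lib.MP_53226a_nt.Zero
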