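import Pool.Agent.Lib.MP_53226a_nt.H61W
import Pool.Agent.Lib.MP_53226a_nt.ZeroDefs
import Pool.Agent.Results.MP_53226a_nt.TwoThirds

/-! A unit character that is primitive at given primes, and its Frobenius orbit. -/

open Finset

namespace Pool.Agent.Lib.MP_53226a_nt.H61

open Pool.Agent.Results.MP_53226a_nt.TwoThirds

/-- The values of a character as algebraic integers. -/
noncomputable def ch {q : ℕ} [Fact q.Prime] (χ : DirichletCharacter ℂ q) (x : ZMod q) : O :=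
  ⟨χ x, integral_chi χ x⟩

/-- The first moment of a character as an algebraic integer. -/
noncomputable def Bs {q : ℕ} [Fact q.Prime] (χ : DirichletCharacter ℂ q) : O :=
  ∑ b : ZMod q, (b.val : O) * ch χ b

lemma Bs_coe {q : ℕ} [Fact q.Prime] (χ : DirichletCharacter ℂ q) :
    (Bs χ : ℂ) = ∑ b : ZMod q, (b.val : ℂ) * χ b := by
  simp only [Bs, ch]
  push_cast
  rfl

open Classical in
lemma four_avg {q n d : ℕ} [Fact q.Prime] (hn : 0 < n) (hd : q - 1 = n * d) {h : ZMod q}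
    (hh : h ^ n = 1) {ι : Type} [Fintype ι] (g : ι → ZMod q) (x : ZMod q) :
    (d : ℂ) * ∑ i : Fin n × Finset ι, (∏ _l ∈ i.2, (-1 : ℂ)) *
        ((x * (h ^ (i.1 : ℕ) * ∏ l ∈ i.2, g l)).val : ℂ) =
      ∑ χ : DirichletCharacter ℂ q, χ x⁻¹ *
        if χ h⁻¹ = 1 then (∏ l, (1 - χ (g l)⁻¹)) * ∑ b : ZMod q, (b.val : ℂ) * χ b else 0 := by
  refine mul_left_cancel₀ (show (n : ℂ) ≠ 0 by exact_mod_cast hn.ne') ?_
  rw [← mul_assoc, ← Nat.cast_mul, ← hd, mul_sum]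
  simp only [mul_left_comm ((q - 1 : ℕ) : ℂ), Pool.Agent.Results.MP_53226a_nt.TwoThirds.fourier]
  rw [sum_congr rfl fun i _ => mul_sum _ _ _, sum_comm, mul_sum]
  refine sum_congr rfl fun χ _ => ?_
  have h1 : ∏ l, (1 - χ (g l)⁻¹) = ∑ T : Finset ι, (∏ _l ∈ T, (-1 : ℂ)) * ∏ l ∈ T, χ (g l)⁻¹ := by
    simp only [sub_eq_add_neg, prod_one_add, powerset_univ, ← prod_mul_distrib, neg_one_mul]
  have h2 : ∑ j : Fin n, χ h⁻¹ ^ (j : ℕ) = if χ h⁻¹ = 1 then (n : ℂ) else 0 := by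
    split_ifs with h1
    · simp [h1]
    · rw [Fin.sum_univ_eq_sum_range (fun j => χ h⁻¹ ^ j), geom_sum_eq h1, ← map_pow, inv_pow, hh]
      simp
  generalize ∑ b : ZMod q, (b.val : ℂ) * χ b = B
  simp only [mul_inv, map_mul, ← inv_pow, map_pow, ← prod_inv_distrib, map_prod]
  rw [Fintype.sum_prod_type]
  calc _ = χ x⁻¹ * (∑ j : Fin n, χ h⁻¹ ^ (j : ℕ)) * (∏ l, (1 - χ (g l)⁻¹)) * B := by
        rw [h1, mul_sum _ _ (χ x⁻¹), sum_mul, sum_mul]
        refine sum_congr rfl fun j _ => ?_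
        rw [mul_sum, sum_mul]
        exact sum_congr rfl fun T _ => by ring
    _ = _ := by
        rw [h2]
        split_ifs <;> ring

lemma prods_inj {q n : ℕ} [Fact q.Prime] (hq3 : 3 ≤ q) (hn : Odd n) {h : ZMod q}
    (hh : IsPrimitiveRoot h n) (L : Finset ℕ) (hL : ∀ l ∈ L, l.Prime ∧ l ≠ 2 ∧ ¬ l ∣ n)
    (g : L → ZMod q) (hg : ∀ l : L, IsPrimitiveRoot (g l) l) (i j : Fin n × Finset L)
    (e : h ^ (i.1 : ℕ) * ∏ l ∈ i.2, g l = h ^ (j.1 : ℕ) * ∏ l ∈ j.2, g l ∨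
      h ^ (i.1 : ℕ) * ∏ l ∈ i.2, g l = -(h ^ (j.1 : ℕ) * ∏ l ∈ j.2, g l)) : i = j := by
  classical
  have hp : ∀ l : L, (l : ℕ).Prime := fun l => (hL l l.2).1
  have key : ∀ (S : Finset L) (k : Fin n × Finset L),
      (h ^ (k.1 : ℕ) * ∏ l ∈ k.2, g l) ^ (n * ∏ l ∈ S, (l : ℕ)) =
        ∏ l ∈ k.2 \ S, g l ^ (n * ∏ l ∈ S, (l : ℕ)) := fun S k => by
    rw [mul_pow, ← pow_mul, mul_left_comm, pow_mul, hh.pow_eq_one, one_pow, one_mul, ← prod_pow]
    refine (prod_subset sdiff_subset fun l h1 h2 => ?_).symm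
    have h3 : l ∈ S := by simpa [h1] using h2
    exact ((hg l).pow_eq_one_iff_dvd _).2 ((dvd_prod_of_mem _ h3).mul_left n)
  rcases e with e | e
  · have hT : i.2 = j.2 := by
      have h4 : ∀ (l : L) (k : Fin n × Finset L),
          (h ^ (k.1 : ℕ) * ∏ l ∈ k.2, g l) ^ (n * ∏ l ∈ univ.erase l, (l : ℕ)) = 1 ↔ l ∉ k.2 := by
        intro l k
        rw [key]
        by_cases hl : l ∈ k.2
        · have h5 : k.2 \ univ.erase l = {l} := by
            ext a
            simp only [mem_sdiff, mem_erase, mem_univ, and_true, not_not, mem_singleton]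
            exact ⟨fun h => h.2, fun h => ⟨h ▸ hl, h⟩⟩
          rw [h5, prod_singleton, (hg l).pow_eq_one_iff_dvd, (hp l).dvd_mul,
            (hp l).prime.dvd_finsetProd_iff]
          simp only [hl, not_true, iff_false, not_or, not_exists, not_and]
          exact ⟨(hL l l.2).2.2, fun a ha h6 => ne_of_mem_erase ha
            (Subtype.ext ((Nat.prime_dvd_prime_iff_eq (hp l) (hp a)).1 h6).symm)⟩
        · have h5 : k.2 \ univ.erase l = ∅ := by
            ext a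
            simp only [mem_sdiff, mem_erase, mem_univ, and_true, not_not, notMem_empty, iff_false,
              not_and]
            exact fun h h' => hl (h' ▸ h)
          simp only [h5, prod_empty, hl, not_false_iff]
      ext l
      rw [← not_iff_not, ← h4 l i, ← h4 l j, e]
    refine Prod.ext (Fin.ext ?_) hT
    rw [hT] at e
    exact hh.pow_inj i.1.2 j.1.2 (mul_right_cancel₀
      (prod_ne_zero_iff.2 fun l _ => (hg l).ne_zero (hp l).ne_zero) e)
  · exfalso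
    have h1 := key univ i
    have hodd : Odd (n * ∏ l : L, (l : ℕ)) :=
      hn.mul (prod_induction _ Odd (fun _ _ => Odd.mul) odd_one fun l _ =>
        (hp l).odd_of_ne_two (hL l l.2).2.1)
    rw [e, hodd.neg_pow, key] at h1
    simp only [sdiff_eq_empty_iff_subset.2 (subset_univ _), prod_empty] at h1
    have h2 : ((2 : ℕ) : ZMod q) = 0 := by push_cast; linear_combination -h1
    rw [ZMod.natCast_eq_zero_iff] at h2
    have := Nat.le_of_dvd two_pos h2
    omega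

lemma exists_unit {q n d : ℕ} [Fact q.Prime] (hn : Odd n) (hd : q - 1 = n * d)
    {K : Type} [Field K] (π : O →+* K) {ζ : K} (hζ : IsPrimitiveRoot ζ q) (hq0 : (q : K) ≠ 0)
    (hd0 : (d : K) ≠ 0) {h : ZMod q} (hh : IsPrimitiveRoot h n) (L : Finset ℕ)
    (hL : ∀ l ∈ L, l.Prime ∧ l ≠ 2 ∧ ¬ l ∣ n) (g : L → ZMod q)
    (hg : ∀ l : L, IsPrimitiveRoot (g l) l)
    (hw : (2 * (n * 2 ^ #L)) ^ (n * 2 ^ #L) < q) :
    ∃ χ : DirichletCharacter ℂ q, χ (-1) = -1 ∧ π (Bs χ) ≠ 0 ∧ ∀ l, χ (g l)⁻¹ ≠ 1 := by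
  classical
  have hn0 := hn.pos
  have hq3 : 3 ≤ q := by
    have h1 : 0 < n * 2 ^ #L := by positivity
    have := Nat.le_self_pow h1.ne' (2 * (n * 2 ^ #L))
    omega
  by_contra hne
  push Not at hne
  set A : DirichletCharacter ℂ q → O := fun χ =>
    if χ h⁻¹ = 1 then (∏ l, (1 - ch χ (g l)⁻¹)) * Bs χ else 0 with hA
  have hF : ∀ x : ZMod q, (d : O) * ∑ i : Fin n × Finset L, (∏ _l ∈ i.2, (-1 : O)) *
      ((x * (h ^ (i.1 : ℕ) * ∏ l ∈ i.2, g l)).val : O) = ∑ χ, ch χ x⁻¹ * A χ := fun x => by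
    apply Subtype.ext
    have := four_avg hn0 hd hh.pow_eq_one g x
    simp only [← Bs_coe] at this
    simp only [hA]
    push_cast [apply_ite (fun a : O => (a : ℂ))]
    exact this
  have hA0 : ∀ χ, χ ≠ 1 → π (A χ) = 0 := fun χ h1 => by
    simp only [hA]
    split_ifs
    · rw [map_mul, mul_eq_zero]
      rcases DirichletCharacter.even_or_odd χ with hev | hodd
      · right
        rw [show Bs χ = 0 from Subtype.ext ((Bs_coe χ).trans (even_zero χ h1 hev)), map_zero]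
      · refine or_iff_not_imp_right.2 fun hB => ?_
        obtain ⟨l, hl⟩ := hne χ hodd hB
        rw [prod_eq_zero (mem_univ l), map_zero]
        exact sub_eq_zero.2 (Subtype.ext hl.symm)
    · exact map_zero π
  have key := indep_few hζ hq0 (fun i : Fin n × Finset L => h ^ (i.1 : ℕ) * ∏ l ∈ i.2, g l)
    (fun i => mul_ne_zero (pow_ne_zero _ (hh.ne_zero hn0.ne'))
      (prod_ne_zero_iff.2 fun l _ => (hg l).ne_zero (hL l l.2).1.ne_zero))
    (prods_inj hq3 hn hh L hL g hg)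
    (by simpa only [Fintype.card_prod, Fintype.card_fin, Fintype.card_finset, Fintype.card_coe]
      using hw) hq3 (fun i => ∏ _l ∈ i.2, (-1 : K)) ((d : K)⁻¹ * π (A 1)) (fun x hx => ?_)
    (⟨0, hn0⟩, ∅)
  · simp at key
  · have h1 := congrArg π (hF x)
    rw [map_sum, sum_eq_single (1 : DirichletCharacter ℂ q)
      (fun χ _ h2 => by rw [map_mul, hA0 χ h2, mul_zero]) (fun h => absurd (mem_univ _) h),
      show ch 1 x⁻¹ = 1 from Subtype.ext (MulChar.one_apply (inv_ne_zero hx).isUnit), one_mul] at h1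
    rw [← h1]
    simp only [map_mul, map_sum, map_prod, map_neg, map_one, map_natCast]
    rw [inv_mul_cancel_left₀ hd0]

lemma frob {p q : ℕ} [Fact q.Prime] [Fact p.Prime] {K : Type} [Field K] [CharP K p]
    (π : O →+* K) (χ : DirichletCharacter ℂ q) (j : ℕ) :
    π (Bs (χ ^ p ^ j)) = π (Bs χ) ^ p ^ j := by
  have hp : p.Prime := Fact.out
  rw [← iterateFrobenius_def, Bs, Bs, map_sum, map_sum, map_sum]
  refine sum_congr rfl fun b _ => ?_
  rw [map_mul, map_mul, map_mul, map_natCast, map_natCast, iterateFrobenius_def, ← map_pow]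
  congr 2
  exact Subtype.ext (MulChar.pow_apply' χ (pow_pos hp.pos j).ne' b)

/-- The count is at least the order of `p` modulo a product of few primes dividing `q - 1`. -/
theorem orbit {p q v : ℕ} (hp : p.Prime) (hp2 : p ≠ 2) (hq : q.Prime) (hqp : q ≠ p)
    (hv : p ^ v ∣ q - 1) (hv' : ¬ p ^ (v + 1) ∣ q - 1) (L : Finset ℕ)
    (hL : ∀ l ∈ L, l.Prime ∧ l ≠ 2 ∧ l ≠ p ∧ l ∣ q - 1)
    (hw : (2 * (p ^ v * 2 ^ #L)) ^ (p ^ v * 2 ^ #L) < q)
    (P : Ideal (integralClosure ℤ ℂ)) (hP : P.IsMaximal) (hpP : (p : integralClosure ℤ ℂ) ∈ P) :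
    orderOf (p : ZMod (∏ l ∈ L, l)) ≤ Zero.N q P := by
  classical
  have : Fact q.Prime := ⟨hq⟩
  have : Fact p.Prime := ⟨hp⟩
  obtain ⟨d, hd⟩ := hv
  have hpd : ¬ p ∣ d := fun h => hv' (by rw [hd, pow_succ]; exact Nat.mul_dvd_mul_left _ h)
  let : Field (O ⧸ P) := Ideal.Quotient.field P
  set π : O →+* AlgebraicClosure (O ⧸ P) := (algebraMap (O ⧸ P) _).comp (Ideal.Quotient.mk P)
  have hπ : ∀ a, π a = 0 ↔ a ∈ P := fun a => by
    rw [RingHom.comp_apply, map_eq_zero, Ideal.Quotient.eq_zero_iff_mem]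
  have hne : ∀ a : ℕ, ¬ p ∣ a → (a : AlgebraicClosure (O ⧸ P)) ≠ 0 := fun a ha => by
    rw [← map_natCast π, Ne, hπ]
    exact notMem_of_coprime ((Nat.Prime.coprime_iff_not_dvd hp).2 ha) P hP hpP
  have hq0 := hne q fun h => hqp ((Nat.prime_dvd_prime_iff_eq hp hq).1 h).symm
  have : CharP (AlgebraicClosure (O ⧸ P)) p :=
    (CharP.charP_iff_prime_eq_zero hp).2 (by rw [← map_natCast π, hπ]; exact hpP)
  have : NeZero (q : AlgebraicClosure (O ⧸ P)) := ⟨hq0⟩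
  obtain ⟨ζ, hζ⟩ := HasEnoughRootsOfUnity.exists_primitiveRoot (AlgebraicClosure (O ⧸ P)) q
  obtain ⟨γ, hγ⟩ := HasEnoughRootsOfUnity.exists_primitiveRoot (ZMod q) (q - 1)
  have hq1 : 0 < q - 1 := by have := hq.two_le; omega
  have hodd : ∀ j, Odd (p ^ j) := fun j => (hp.odd_of_ne_two hp2).pow
  have hg : ∀ l : L, IsPrimitiveRoot (γ ^ ((q - 1) / l)) l := fun l =>
    hγ.pow hq1 (Nat.div_mul_cancel (hL l l.2).2.2.2).symm
  obtain ⟨χ, h1, h2, h3⟩ := exists_unit (hodd v) hd π hζ hq0 (hne d hpd)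
    (hγ.pow hq1 (hd.trans (mul_comm _ _))) L (fun l hl => ⟨(hL l hl).1, (hL l hl).2.1, fun h =>
      (hL l hl).2.2.1 ((Nat.prime_dvd_prime_iff_eq (hL l hl).1 hp).1
        ((hL l hl).1.dvd_of_dvd_pow h))⟩) _ hg hw
  have hpow : ∀ j x, (χ ^ p ^ j) x = χ x ^ p ^ j := fun j x =>
    MulChar.pow_apply' χ (pow_pos hp.pos j).ne' x
  rw [← card_range (orderOf _), ← Set.ncard_coe_finset]
  refine Set.ncard_le_ncard_of_injOn (fun j => χ ^ p ^ j) (fun j _ => ?_) (fun i hi j hj e => ?_)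
    (Set.toFinite _)
  · refine ⟨by rw [hpow, h1, (hodd j).neg_one_pow], -Bs (χ ^ p ^ j), (q : O), fun h => ?_,
      by rwa [← hπ, map_natCast], ?_⟩
    · rw [P.neg_mem_iff, ← hπ, frob] at h
      exact h2 (pow_eq_zero_iff (hodd j).pos.ne' |>.1 h)
    · have hq0 : (q : ℂ) ≠ 0 := by exact_mod_cast hq.ne_zero
      push_cast
      rw [Bs_coe, sum_eq]
      field_simp
  · refine pow_injOn_Iio_orderOf (mem_range.1 hi) (mem_range.1 hj) ?_
    simp only
    rw [← Nat.cast_pow, ← Nat.cast_pow, ZMod.natCast_eq_natCast_iff, Nat.modEq_iff_dvd,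
      Nat.cast_prod]
    refine prod_dvd_of_coprime (fun a ha b hb hab => Nat.isCoprime_iff_coprime.2
      ((Nat.coprime_primes (hL a ha).1 (hL b hb).1).2 hab)) fun l hl => ?_
    have : Fact l.Prime := ⟨(hL l hl).1⟩
    have h6 : χ (γ ^ ((q - 1) / l))⁻¹ ^ l = 1 := by
      rw [← map_pow, (hg ⟨l, hl⟩).inv.pow_eq_one, map_one]
    have h5 := congrArg (fun ψ : DirichletCharacter ℂ q => ψ (γ ^ ((q - 1) / l))⁻¹) e
    simp only [hpow] at h5
    have h7 := (isOfFinOrder_iff_pow_eq_one.2 ⟨l, (hL l hl).1.pos, h6⟩).pow_eq_pow_iff_modEq.1 h5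
    rwa [orderOf_eq_prime h6 (h3 ⟨l, hl⟩), Nat.modEq_iff_dvd] at h7

end Pool.Agent.Lib.MP_53226a_nt.H61
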