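import Pool.Agent.Lib.MP_0a06fe_nt.RT.Sieve

/-! Upper bounds for primes in progressions and for prime pairs; elementary sums. -/

open Finset ArithmeticFunction

namespace Pool.Agent.Lib.MP_53226a_nt.H61

open Pool.Agent.Lib.MP_0a06fe_nt Pool.Agent.Lib.MP_0a06fe_nt.RT

/-- Sum of the reciprocals of the prime divisors. -/
noncomputable def sr (d : ℕ) : ℝ := ∑ l ∈ d.primeFactors, (l : ℝ)⁻¹

lemma one_le_exp_sr (d : ℕ) : 1 ≤ Real.exp (sr d) :=
  Real.one_le_exp (sum_nonneg fun _ _ => by positivity)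

lemma exp_sr_le {d : ℕ} (h : IsPrimePow d) : Real.exp (sr d) ≤ 3 := by
  obtain ⟨p, k, hp, hk, rfl⟩ := (isPrimePow_nat_iff d).1 h
  rw [sr, Nat.primeFactors_prime_pow hk.ne' hp, sum_singleton]
  have h1 : (1 : ℝ) ≤ p := by exact_mod_cast hp.one_le
  exact (Real.exp_le_exp.2 (inv_le_one_of_one_le₀ h1)).trans (by linarith [Real.exp_one_lt_d9])

lemma exists_rho {l d : ℕ} (hl : l.Prime) (h : ¬ l ∣ d) :
    ∃ r, r < l ∧ r ≠ 0 ∧ ∀ k, k % l = r → l ∣ d * k + 1 := by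
  have : Fact l.Prime := ⟨hl⟩
  have hd : (d : ZMod l) ≠ 0 := by rwa [Ne, ZMod.natCast_eq_zero_iff]
  refine ⟨(-(d : ZMod l)⁻¹).val, ZMod.val_lt _, ?_, fun k hk => ?_⟩
  · rw [Ne, ZMod.val_eq_zero, neg_eq_zero]
    exact inv_ne_zero hd
  · rw [← ZMod.natCast_eq_zero_iff]
    push_cast
    rw [← ZMod.natCast_mod k, hk, ZMod.natCast_zmod_val, mul_neg, mul_inv_cancel₀ hd,
      neg_add_cancel]

lemma ap_sieve {W d A B : ℕ} (hW : 16 ≤ W) (hd : 1 ≤ d) (hAB : A ≤ B) (Z : Finset ℕ)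
    (hZ : Z ⊆ {0}) (f : ℕ → ℝ) (hf : ∀ n, A ≤ n → f (n + 1) ≤ f n) (hf0 : ∀ n, 0 ≤ f n)
    (T : Finset ℕ) (hT : ∀ k ∈ T, A ≤ k ∧ k < B ∧ (d * k + 1).Prime ∧ W < d * k + 1 ∧
      (0 ∈ Z → k.Prime ∧ W < k)) :
    ∑ n ∈ T, f n ≤ 2 * ((Real.exp 3 / LL W) ^ (#Z + 1) * Real.exp (sr d)) * ∑ n ∈ Ico A B, f n +
      2 * (W : ℝ) ^ 28 * f A := by
  classical
  have hch : ∀ l : ℕ, ∃ r, l.Prime → ¬ l ∣ d → r < l ∧ r ≠ 0 ∧ ∀ k, k % l = r → l ∣ d * k + 1 :=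
    fun l => by
      by_cases h : l.Prime ∧ ¬ l ∣ d
      · exact (exists_rho h.1 h.2).imp fun r hr _ _ => hr
      · exact ⟨0, fun h1 h2 => absurd ⟨h1, h2⟩ h⟩
  choose ρ hρ using hch
  set Q := W.primesLE.filter fun l => 5 ≤ l with hQ
  have hQ' : ∀ l ∈ Q, l.Prime ∧ 5 ≤ l ∧ l ≤ W := fun l hl =>
    ⟨(Nat.mem_primesLE.1 (mem_filter.1 hl).1).2, (mem_filter.1 hl).2,
      (Nat.mem_primesLE.1 (mem_filter.1 hl).1).1⟩
  have hZ0 : ∀ z ∈ Z, z = 0 := fun z hz => mem_singleton.1 (hZ hz)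
  have hZ1 : #Z ≤ 1 := card_le_card hZ
  have hc : ∀ l ∈ Q, #(if l ∣ d then Z else insert (ρ l) Z) = #Z + if l ∣ d then 0 else 1 :=
    fun l hl => by
      split_ifs with h
      · rfl
      · exact card_insert_of_notMem fun h1 => (hρ l (hQ' l hl).1 h).2.1 (hZ0 _ h1)
  refine (gen_sieve hW Q hQ' (fun l => if l ∣ d then Z else insert (ρ l) Z) (fun l hl => ⟨?_, ?_⟩)
    hAB f hf hf0 T fun k hk => ⟨(hT k hk).1, (hT k hk).2.1, fun l hl => ?_⟩).trans ?_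
  · have h0 : Z ⊆ range l := fun z hz => mem_range.2 (hZ0 z hz ▸ (hQ' l hl).1.pos)
    split_ifs with h
    · exact h0
    · exact insert_subset (mem_range.2 (hρ l (hQ' l hl).1 h).1) h0
  · rw [hc l hl]
    split_ifs <;> omega
  · obtain ⟨-, -, h1, h2, h3⟩ := hT k hk
    obtain ⟨h4, -, h5⟩ := hQ' l hl
    have h0 : k % l ∉ Z := fun h => by
      obtain ⟨h6, h7⟩ := h3 (hZ0 _ h ▸ h)
      have := (Nat.prime_dvd_prime_iff_eq h4 h6).1 (Nat.dvd_of_mod_eq_zero (hZ0 _ h))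
      omega
    split_ifs with h
    · exact h0
    · rw [mem_insert, not_or]
      refine ⟨fun h6 => ?_, h0⟩
      have := (Nat.prime_dvd_prime_iff_eq h4 h1).1 ((hρ l h4 h).2.2 k h6)
      omega
  · have h1 : ((#Z + 1 : ℕ) : ℝ) * ∑ l ∈ Q, (l : ℝ)⁻¹ ≤
        ∑ l ∈ Q, (#(if l ∣ d then Z else insert (ρ l) Z) : ℝ) / l + sr d := by
      have h2 : ∑ l ∈ Q with l ∣ d, (l : ℝ)⁻¹ ≤ sr d :=
        sum_le_sum_of_subset_of_nonneg (fun l hl => Nat.mem_primeFactors.2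
          ⟨(hQ' l (mem_filter.1 hl).1).1, (mem_filter.1 hl).2, by omega⟩) fun _ _ _ => by positivity
      refine le_trans (le_of_eq ?_) (add_le_add_right h2 _)
      rw [sum_filter (· ∣ d), ← sum_add_distrib, mul_sum]
      refine sum_congr rfl fun l hl => ?_
      rw [hc l hl]
      split_ifs <;> push_cast <;> ring
    have h2 : Real.exp (-∑ l ∈ Q, (#(if l ∣ d then Z else insert (ρ l) Z) : ℝ) / l) ≤
        (Real.exp 3 / LL W) ^ (#Z + 1) * Real.exp (sr d) := by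
      refine le_trans ?_ (mul_le_mul_of_nonneg_right (pow_le_pow_left₀ (Real.exp_pos _).le
        (exp_neg_primes hW) _) (Real.exp_pos _).le)
      rw [← Real.exp_nat_mul, ← Real.exp_add]
      exact Real.exp_le_exp.2 (by linarith)
    have h3 : 0 ≤ ∑ n ∈ Ico A B, f n := sum_nonneg fun n _ => hf0 n
    gcongr

lemma LL_bounds {W : ℕ} (hW : 16 ≤ W) : 1 ≤ LL W ∧ LL W ≤ W :=
  ⟨one_le_LL_Asy (by omega), Real.log_le_self W.cast_nonneg⟩

lemma cnt_sieve {W d x : ℕ} (hW : 16 ≤ W) (hd : 1 ≤ d) (Z : Finset ℕ) (hZ : Z ⊆ {0})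
    (hx : d * W ^ 30 ≤ x) (T : Finset ℕ) (hT : ∀ q ∈ T, q.Prime ∧ W < q ∧ q ≤ x ∧ d ∣ q - 1 ∧
      (0 ∈ Z → ((q - 1) / d).Prime ∧ W < (q - 1) / d)) :
    (#T : ℝ) ≤ 2000 * Real.exp (sr d) * x / (d * LL W ^ (#Z + 1)) := by
  have he : ∀ q ∈ T, d * ((q - 1) / d) + 1 = q := fun q hq => by
    have := (hT q hq).1.pos
    rw [Nat.mul_div_cancel' (hT q hq).2.2.2.1]
    omega
  have h1 := ap_sieve hW hd (Nat.zero_le (x / d + 1)) Z hZ (fun _ => 1) (fun _ _ => le_rfl)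
    (fun _ => zero_le_one) (T.image fun q => (q - 1) / d) fun k hk => by
      obtain ⟨q, hq, rfl⟩ := mem_image.1 hk
      rw [he q hq]
      exact ⟨Nat.zero_le _, Nat.lt_succ_of_le (Nat.div_le_div_right
        (by have := (hT q hq).2.2.1; omega)), (hT q hq).1, (hT q hq).2.1, (hT q hq).2.2.2.2⟩
  rw [sum_const, sum_const, card_image_of_injOn fun a ha b hb e => by
    rw [← he a ha, ← he b hb]; exact congrArg (d * · + 1) e] at h1
  simp only [nsmul_eq_mul, mul_one, Nat.card_Ico, Nat.sub_zero] at h1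
  obtain ⟨h2, h3⟩ := LL_bounds hW
  have hZ1 : #Z ≤ 1 := card_le_card hZ
  have hd' : (0 : ℝ) < d := by exact_mod_cast hd
  have hW' : (16 : ℝ) ≤ W := by exact_mod_cast hW
  have h4 : (W : ℝ) ^ 30 ≤ x / d := by
    rw [le_div_iff₀' hd']
    exact_mod_cast hx
  have h5 : ((x / d + 1 : ℕ) : ℝ) ≤ 2 * (x / d) := by
    have h6 : ((x / d : ℕ) : ℝ) ≤ x / d := Nat.cast_div_le
    have h7 : (1 : ℝ) ≤ W ^ 30 := one_le_pow₀ (by linarith)
    push_cast
    linarith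
  have h6 : Real.exp 3 ^ (#Z + 1) ≤ 441 := by
    have h7 : Real.exp 3 ≤ 21 := by
      rw [show (3 : ℝ) = (3 : ℕ) * 1 by norm_num, Real.exp_nat_mul]
      exact (pow_le_pow_left₀ (Real.exp_pos _).le Real.exp_one_lt_d9.le 3).trans (by norm_num)
    exact (pow_le_pow_left₀ (Real.exp_pos _).le h7 _).trans
      ((pow_le_pow_right₀ (by norm_num) (show #Z + 1 ≤ 2 by omega)).trans (by norm_num))
  have h7 : LL W ^ (#Z + 1) * W ^ 28 ≤ x / d := by
    refine le_trans ?_ h4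
    rw [show 30 = 2 + 28 from rfl, pow_add (W : ℝ)]
    exact mul_le_mul_of_nonneg_right ((pow_le_pow_left₀ (by linarith) h3 _).trans
      (pow_le_pow_right₀ (by linarith) (by omega))) (by positivity)
  have h8 := one_le_exp_sr d
  have h9 : 0 < LL W ^ (#Z + 1) := by positivity
  rw [div_pow] at h1
  rw [mul_comm (d : ℝ), ← div_div, div_right_comm, mul_div_assoc, le_div_iff₀ h9]
  generalize LL W ^ (#Z + 1) = s at *
  have h10 : 0 ≤ (x : ℝ) / d := by positivity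
  generalize (x : ℝ) / d = y at *
  calc _ ≤ (2 * (441 / s * Real.exp (sr d)) * (2 * y) + 2 * W ^ 28) * s := by
        refine mul_le_mul_of_nonneg_right (h1.trans ?_) h9.le
        gcongr
    _ = 1764 * Real.exp (sr d) * y + 2 * (s * W ^ 28) := by field_simp; ring
    _ ≤ _ := by nlinarith

/-- Primes in a progression with a prime power modulus. -/
lemma bt_count {W d x : ℕ} (hW : 16 ≤ W) (hd : IsPrimePow d) (hx : d * W ^ 30 ≤ x)
    (T : Finset ℕ) (hT : ∀ q ∈ T, q.Prime ∧ W < q ∧ q ≤ x ∧ d ∣ q - 1) :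
    (#T : ℝ) ≤ 6000 * x / LL W * (d : ℝ)⁻¹ := by
  have h1 := cnt_sieve hW hd.one_lt.le ∅ (empty_subset _) hx T fun q hq =>
    ⟨(hT q hq).1, (hT q hq).2.1, (hT q hq).2.2.1, (hT q hq).2.2.2, fun h => absurd h (by simp)⟩
  have h2 := exp_sr_le hd
  have h3 := (LL_bounds hW).1
  rw [card_empty, zero_add, pow_one] at h1
  calc _ ≤ _ := h1
    _ ≤ 2000 * 3 * x / (d * LL W) := by gcongr
    _ = _ := by ring

/-- The same with harmonic weights. -/
lemma bt_sum {V d x : ℕ} (hV : 16 ≤ V) (hd : IsPrimePow d) (hdV : d ≤ V)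
    (T : Finset ℕ) (hT : ∀ l ∈ T, l.Prime ∧ V ^ 30 < l ∧ l ≤ x ∧ d ∣ l - 1) :
    ∑ l ∈ T, (l : ℝ)⁻¹ ≤ 200 * HH x / LL V * (d : ℝ)⁻¹ := by
  obtain ⟨h2, h3⟩ := LL_bounds hV
  have hH := one_le_HH x
  rcases T.eq_empty_or_nonempty with rfl | ⟨l₀, hl₀⟩
  · rw [sum_empty]; positivity
  have hd0 := hd.pos
  have hd' : (0 : ℝ) < d := by exact_mod_cast hd0
  have hV' : (16 : ℝ) ≤ V := by exact_mod_cast hV
  have he : ∀ q ∈ T, d * ((q - 1) / d) + 1 = q := fun q hq => by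
    have := (hT q hq).1.pos
    rw [Nat.mul_div_cancel' (hT q hq).2.2.2]
    omega
  have hk : ∀ q ∈ T, V ^ 29 ≤ (q - 1) / d ∧ (q - 1) / d < x + 1 := fun q hq => by
    obtain ⟨-, a, b, -⟩ := hT q hq
    refine ⟨(Nat.le_div_iff_mul_le hd0).2 ?_, Nat.lt_succ_of_le ((Nat.div_le_self _ _).trans ?_)⟩
    · exact (Nat.mul_le_mul_left _ hdV).trans (by rw [← pow_succ]; exact Nat.le_sub_one_of_lt a)
    · omega
  have hA : 0 < V ^ 29 := by positivity
  have h1 := ap_sieve hV hd0 ((hk l₀ hl₀).1.trans (hk l₀ hl₀).2.le) ∅ (empty_subset _)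
    (fun k => (k : ℝ)⁻¹) (fun n hn => inv_anti₀ (by exact_mod_cast hA.trans_le hn) (by simp))
    (fun _ => by positivity) (T.image fun q => (q - 1) / d) fun k hk' => by
      obtain ⟨q, hq, rfl⟩ := mem_image.1 hk'
      rw [he q hq]
      exact ⟨(hk q hq).1, (hk q hq).2, (hT q hq).1,
        (Nat.le_self_pow (by norm_num) V).trans_lt (hT q hq).2.1, fun h => absurd h (by simp)⟩
  rw [sum_image fun a ha b hb e => by
    rw [← he a ha, ← he b hb]; exact congrArg (d * · + 1) e, card_empty, zero_add, pow_one] at h1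
  have h4 := sum_inv_le (x := x) (Ico (V ^ 29) (x + 1)) fun n hn => by
    have := (mem_Ico.1 hn).2
    omega
  have h5 := exp_sr_le hd
  have h7 : Real.exp 3 ≤ 21 := by
    rw [show (3 : ℝ) = (3 : ℕ) * 1 by norm_num, Real.exp_nat_mul]
    exact (pow_le_pow_left₀ (Real.exp_pos _).le Real.exp_one_lt_d9.le 3).trans (by norm_num)
  have h6 : 2 * (V : ℝ) ^ 28 * ((V ^ 29 : ℕ) : ℝ)⁻¹ ≤ 2 * HH x / LL V := by
    rw [show 2 * (V : ℝ) ^ 28 * ((V ^ 29 : ℕ) : ℝ)⁻¹ = 2 * 1 / V by push_cast; field_simp]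
    gcongr
  calc _ ≤ ∑ q ∈ T, (((q - 1) / d : ℕ) : ℝ)⁻¹ * (d : ℝ)⁻¹ := sum_le_sum fun q hq => by
        rw [← mul_inv, ← Nat.cast_mul, mul_comm]
        have h8 := he q hq
        have h9 := Nat.mul_pos hd0 (hA.trans_le (hk q hq).1)
        exact inv_anti₀ (by exact_mod_cast h9) (by exact_mod_cast (by omega))
    _ ≤ (2 * (21 / LL V * 3) * HH x + 2 * HH x / LL V) * (d : ℝ)⁻¹ := by
        rw [← sum_mul]
        refine mul_le_mul_of_nonneg_right (h1.trans (add_le_add ?_ h6)) (by positivity)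
        gcongr
    _ = 128 * HH x / LL V * (d : ℝ)⁻¹ := by ring
    _ ≤ _ := by gcongr; norm_num

lemma exp_sr_le_sum {m : ℕ} (hm : 1 ≤ m) :
    Real.exp (sr m) ≤ 9 * ∑ e ∈ m.divisors, (e : ℝ)⁻¹ := by
  have h1 : ∀ u : ℝ, 0 ≤ u → Real.exp u ≤ Real.exp (u ^ 2) * (1 + u) := fun u hu => by
    have h2 := Real.add_one_le_exp (u ^ 2 - u)
    have h3 := Real.exp_pos u
    rw [show Real.exp (u ^ 2) = Real.exp u * Real.exp (u ^ 2 - u) by rw [← Real.exp_add]; ring_nf,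
      mul_assoc]
    refine le_mul_of_one_le_right h3.le ?_
    nlinarith [pow_nonneg hu 3]
  have h2 : ∏ l ∈ m.primeFactors, (1 + (l : ℝ)⁻¹) ≤ ∑ e ∈ m.divisors, (e : ℝ)⁻¹ := by
    have hp : ∀ T ∈ m.primeFactors.powerset, ∀ l ∈ T, l.Prime := fun T hT l hl =>
      Nat.prime_of_mem_primeFactors (mem_powerset.1 hT hl)
    rw [prod_one_add]
    calc _ = ∑ e ∈ m.primeFactors.powerset.image (fun T => ∏ l ∈ T, l), (e : ℝ)⁻¹ := by
          rw [sum_image fun a ha b hb e => by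
            rw [← Nat.primeFactors_prod (hp a ha), ← Nat.primeFactors_prod (hp b hb)]
            exact congrArg Nat.primeFactors e]
          exact sum_congr rfl fun T _ => by rw [Nat.cast_prod, prod_inv_distrib]
      _ ≤ _ := sum_le_sum_of_subset_of_nonneg (fun e he => by
          obtain ⟨T, hT, rfl⟩ := mem_image.1 he
          exact Nat.mem_divisors.2 ⟨(prod_dvd_prod_of_subset _ _ _ (mem_powerset.1 hT)).trans
            (Nat.prod_primeFactors_dvd m), by omega⟩) fun _ _ _ => by positivity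
  have h3 : Real.exp (∑ l ∈ m.primeFactors, ((l : ℝ) ^ 2)⁻¹) ≤ 9 := by
    refine (Real.exp_le_exp.2 (sum_inv_sq_two _)).trans ?_
    rw [show (2 : ℝ) = (2 : ℕ) * 1 by norm_num, Real.exp_nat_mul]
    exact (pow_le_pow_left₀ (Real.exp_pos _).le Real.exp_one_lt_d9.le 2).trans (by norm_num)
  calc _ = ∏ l ∈ m.primeFactors, Real.exp (l : ℝ)⁻¹ := Real.exp_sum _ _
    _ ≤ ∏ l ∈ m.primeFactors, Real.exp (((l : ℝ) ^ 2)⁻¹) * (1 + (l : ℝ)⁻¹) :=
        prod_le_prod (fun _ _ => (Real.exp_pos _).le) fun l _ => by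
          rw [← inv_pow]; exact h1 _ (by positivity)
    _ ≤ _ := by
        rw [prod_mul_distrib, ← Real.exp_sum]
        exact mul_le_mul h3 h2 (prod_nonneg fun _ _ => by positivity) (by norm_num)

lemma sum_exp_sr (M : ℕ) : ∑ m ∈ Icc 1 M, (m : ℝ)⁻¹ * Real.exp (sr m) ≤ 18 * HH M := by
  have hH := one_le_HH M
  calc _ ≤ ∑ m ∈ Icc 1 M, 9 * ((m : ℝ)⁻¹ * ∑ e ∈ Icc 1 M with e ∣ m, (e : ℝ)⁻¹) :=
        sum_le_sum fun m hm => by
          obtain ⟨h1, h2⟩ := mem_Icc.1 hm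
          rw [mul_left_comm]
          refine mul_le_mul_of_nonneg_left ((exp_sr_le_sum h1).trans ?_) (by positivity)
          refine mul_le_mul_of_nonneg_left (sum_le_sum_of_subset_of_nonneg (fun e he => ?_)
            fun _ _ _ => by positivity) (by norm_num)
          exact mem_filter.2 ⟨mem_Icc.2 ⟨Nat.pos_of_mem_divisors he,
            (Nat.divisor_le he).trans h2⟩, Nat.dvd_of_mem_divisors he⟩
    _ = 9 * ∑ e ∈ Icc 1 M, (e : ℝ)⁻¹ * ∑ m ∈ Icc 1 M with e ∣ m, (m : ℝ)⁻¹ := by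
        rw [← mul_sum, moment_eq _ _ _ _ fun e m => e ∣ m]
    _ ≤ 9 * ∑ e ∈ Icc 1 M, ((e : ℝ) ^ 2)⁻¹ * HH M := by
        refine mul_le_mul_of_nonneg_left (sum_le_sum fun e he => ?_) (by norm_num)
        refine (mul_le_mul_of_nonneg_left (sum_inv_dvd (x := M) (mem_Icc.1 he).1 _ fun m hm =>
          ⟨(mem_Icc.1 (mem_filter.1 hm).1).2, (mem_filter.1 hm).2⟩) (by positivity)).trans_eq ?_
        ring
    _ ≤ _ := by
        rw [← sum_mul]
        nlinarith [sum_inv_sq_two (Icc 1 M)]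

lemma sum_Lam (U : ℕ) : ∑ d ∈ Icc 1 U, Λ d * (d : ℝ)⁻¹ ≤ 2 * LL U := by
  rcases U.eq_zero_or_pos with rfl | hU
  · simp [LL]
  have hU' : (0 : ℝ) < U := by exact_mod_cast hU
  refine le_of_mul_le_mul_left ?_ hU'
  calc _ ≤ ∑ d ∈ Icc 1 U, 2 * (Λ d * ∑ n ∈ Icc 1 U with d ∣ n, (1 : ℝ)) := by
        rw [mul_sum]
        refine sum_le_sum fun d hd => ?_
        obtain ⟨h1, h2⟩ := mem_Icc.1 hd
        rw [sum_const, nsmul_eq_mul, mul_one, show Icc 1 U = Ioc 0 U from rfl,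
          Nat.Ioc_filter_dvd_card_eq_div, mul_left_comm, mul_left_comm 2]
        refine mul_le_mul_of_nonneg_left ?_ vonMangoldt_nonneg
        have h3 := Nat.div_pos h2 h1
        have h4 := Nat.lt_mul_div_succ U h1
        rw [← div_eq_mul_inv, div_le_iff₀ (by exact_mod_cast h1)]
        exact_mod_cast (by nlinarith : U ≤ 2 * (U / d) * d)
    _ = 2 * ∑ n ∈ Icc 1 U, 1 * ∑ d ∈ Icc 1 U with d ∣ n, Λ d := by
        rw [← mul_sum, moment_eq _ _ _ _ fun d n => d ∣ n]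
    _ ≤ 2 * ∑ _n ∈ Icc 1 U, LL U := by
        refine mul_le_mul_of_nonneg_left (sum_le_sum fun n hn => ?_) (by norm_num)
        obtain ⟨h1, h2⟩ := mem_Icc.1 hn
        rw [one_mul]
        refine le_trans (sum_le_sum_of_subset_of_nonneg (t := n.divisors) (fun d hd =>
          Nat.mem_divisors.2 ⟨(mem_filter.1 hd).2, by omega⟩) fun _ _ _ => vonMangoldt_nonneg) ?_
        rw [vonMangoldt_sum]
        exact Real.log_le_log (by exact_mod_cast h1) (by exact_mod_cast h2)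
    _ = _ := by
        rw [sum_const, Nat.card_Icc, nsmul_eq_mul, Nat.add_sub_cancel]
        ring

lemma cnt_dvd {x d : ℕ} (T : Finset ℕ) (hT : ∀ q ∈ T, 2 ≤ q ∧ q ≤ x ∧ d ∣ q - 1) :
    (#T : ℝ) ≤ x * (d : ℝ)⁻¹ := by
  rw [← div_eq_mul_inv]
  refine le_trans ?_ Nat.cast_div_le
  rw [← Nat.Ioc_filter_dvd_card_eq_div]
  refine Nat.cast_le.2 (card_le_card_of_injOn (· - 1) (fun q hq => ?_) fun a ha b hb e => ?_)
  · obtain ⟨h1, h2, h3⟩ := hT q hq
    exact mem_coe.2 (mem_filter.2 ⟨mem_Ioc.2 ⟨Nat.sub_pos_of_lt h1, (Nat.sub_le q 1).trans h2⟩, h3⟩)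
  · have := (hT a ha).1
    have := (hT b hb).1
    simp only at e
    omega

lemma hm_dvd {x d : ℕ} (hd : 1 ≤ d) (T : Finset ℕ) (hT : ∀ q ∈ T, 2 ≤ q ∧ q ≤ x ∧ d ∣ q - 1) :
    ∑ q ∈ T, (q : ℝ)⁻¹ ≤ HH x * (d : ℝ)⁻¹ := by
  have h1 := sum_inv_dvd (x := x) hd (T.image (· - 1)) fun n hn => by
    obtain ⟨q, hq, rfl⟩ := mem_image.1 hn
    exact ⟨by have := (hT q hq).2.1; omega, (hT q hq).2.2⟩
  rw [sum_image fun a ha b hb e => by
    have := (hT a ha).1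
    have := (hT b hb).1
    omega] at h1
  refine le_trans (sum_le_sum fun q hq => ?_) h1
  have := (hT q hq).1
  exact inv_anti₀ (by exact_mod_cast (by omega)) (by exact_mod_cast (by omega))

end Pool.Agent.Lib.MP_53226a_nt.H61
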