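import Mathlib

/-! Few translates of the least residue function modulo a large prime are independent. -/

open Finset Polynomial

namespace Pool.Agent.Lib.MP_53226a_nt.H61

lemma saw_sum {K : Type} [Field K] (η : K) (n : ℕ) :
    (∑ j ∈ range n, (j : K) * η ^ j) * (η - 1) =
      n * η ^ n - (∑ j ∈ range n, η ^ j) - η ^ n + 1 := by
  induction n with
  | zero => simp
  | succ n ih =>
    rw [sum_range_succ, sum_range_succ, add_mul, ih]
    push_cast
    ring

lemma sum_val {M : Type} [AddCommMonoid M] {q : ℕ} [NeZero q] (F : ℕ → M) :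
    ∑ b : ZMod q, F b.val = ∑ j ∈ range q, F j := by
  refine sum_bij (fun b _ => b.val) (fun b _ => mem_range.2 (ZMod.val_lt b))
    (fun a _ b _ h => ZMod.val_injective q h) (fun j hj => ?_) (fun _ _ => rfl)
  exact ⟨(j : ZMod q), mem_univ _, ZMod.val_cast_of_lt (mem_range.1 hj)⟩

lemma dft {K : Type} [Field K] {q b : ℕ} [Fact q.Prime] {η : K} (hη : IsPrimitiveRoot η q)
    (hb : 0 < b) (hbq : b < q) :
    (∑ y : ZMod q, (((y * (b : ZMod q)⁻¹).val : ℕ) : K) * η ^ y.val) * (η ^ b - 1) = q := by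
  have hq : q.Prime := Fact.out
  have hb0 : (b : ZMod q) ≠ 0 := by
    rw [Ne, ZMod.natCast_eq_zero_iff]
    exact Nat.not_dvd_of_pos_of_lt hb hbq
  have h1 : IsPrimitiveRoot (η ^ b) q :=
    hη.pow_of_coprime b (Nat.coprime_of_lt_prime hb.ne' hbq hq).symm
  rw [← Equiv.sum_comp (Equiv.mulRight₀ (b : ZMod q) hb0)]
  have h2 : ∀ z : ZMod q, (((Equiv.mulRight₀ (b : ZMod q) hb0 z * (b : ZMod q)⁻¹).val : ℕ) : K) *
      η ^ (Equiv.mulRight₀ (b : ZMod q) hb0 z).val = (z.val : K) * (η ^ b) ^ z.val := by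
    intro z
    simp only [Equiv.mulRight₀_apply, mul_inv_cancel_right₀ hb0]
    rw [ZMod.val_mul, ZMod.val_cast_of_lt hbq, ← pow_mul, mul_comm b,
      ← pow_eq_pow_mod _ hη.pow_eq_one]
  simp only [h2]
  rw [sum_val (fun j => (j : K) * (η ^ b) ^ j), saw_sum, h1.geom_sum_eq_zero hq.one_lt,
    h1.pow_eq_one]
  ring

lemma indep_int {K : Type} [Field K] {q : ℕ} [Fact q.Prime] {ζ : K} (hζ : IsPrimitiveRoot ζ q)
    (hq0 : (q : K) ≠ 0) {ι : Type} (S : Finset ι) (β : ι → ℕ) (hβ : ∀ i ∈ S, 0 < β i)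
    (hinj : Set.InjOn β S) (hs : ∑ i ∈ S, β i + 1 < q) (c : ι → K) (κ : K)
    (h : ∀ y : ZMod q, y ≠ 0 → ∑ i ∈ S, c i * (((y * (β i : ZMod q)⁻¹).val : ℕ) : K) = κ) :
    ∀ i ∈ S, c i = 0 := by
  classical
  have hq : q.Prime := Fact.out
  by_contra hne
  push Not at hne
  obtain ⟨i₀, hi₀, hmin⟩ := exists_min_image (S.filter fun i => c i ≠ 0) β
    (hne.imp fun i hi => mem_filter.2 hi)
  obtain ⟨hi₀, hc₀⟩ := mem_filter.1 hi₀
  have hlt : ∀ i ∈ S, β i < q := fun i hi => by
    have := single_le_sum (f := β) (fun _ _ => Nat.zero_le _) hi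
    omega
  set f : ι → K[X] := fun i => X ^ β i - C 1 with hf
  have hm : ∀ i ∈ S, (f i).Monic := fun i hi => monic_X_pow_sub_C 1 (hβ i hi).ne'
  have hdeg : ∀ T ⊆ S, (∏ i ∈ T, f i).Monic ∧ (∏ i ∈ T, f i).natDegree = ∑ i ∈ T, β i :=
    fun T hT => ⟨monic_prod_of_monic _ _ fun i hi => hm i (hT hi), by
      rw [natDegree_prod_of_monic _ _ fun i hi => hm i (hT hi)]
      exact sum_congr rfl fun i _ => natDegree_X_pow_sub_C⟩
  have hdeg' : ∀ i ∈ S, (∏ j ∈ S.erase i, f j).natDegree + β i = ∑ j ∈ S, β j := fun i hi => by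
    rw [(hdeg _ (erase_subset i S)).2, sum_erase_add _ _ hi]
  set F : K[X] := ∑ i ∈ S, C (c i * q) * ∏ j ∈ S.erase i, f j + C κ * ∏ j ∈ S, f j with hF
  have hF0 : F = 0 := by
    refine eq_zero_of_natDegree_lt_card_of_eval_eq_zero' F (primitiveRoots q K) (fun η hη => ?_) ?_
    · have hη := (mem_primitiveRoots hq.pos).1 hη
      have h1 : ∑ y : ZMod q, (∑ i ∈ S, c i * (((y * (β i : ZMod q)⁻¹).val : ℕ) : K)) * η ^ y.val =
          -κ := by
        have h2 : ∑ y : ZMod q, η ^ y.val = 0 := by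
          rw [sum_val (fun j => η ^ j), hη.geom_sum_eq_zero hq.one_lt]
        rw [← add_sum_erase _ _ (mem_univ (0 : ZMod q))] at h2 ⊢
        rw [sum_congr (s₁ := univ.erase (0 : ZMod q)) (g := fun y => κ * η ^ y.val) rfl
          fun y hy => by rw [h y (ne_of_mem_erase hy)], ← mul_sum]
        simp only [zero_mul, ZMod.val_zero, Nat.cast_zero, mul_zero, sum_const_zero, pow_zero,
          zero_add] at h2 ⊢
        linear_combination κ * h2
      simp only [sum_mul] at h1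
      rw [sum_comm] at h1
      have h3 : ∀ i ∈ S, c i * q * ∏ j ∈ S.erase i, (η ^ β j - 1) =
          (∑ y : ZMod q, c i * (((y * (β i : ZMod q)⁻¹).val : ℕ) : K) * η ^ y.val) *
            ∏ j ∈ S, (η ^ β j - 1) := fun i hi => by
        rw [← mul_prod_erase _ _ hi, ← dft hη (hβ i hi) (hlt i hi)]
        simp only [mul_assoc, ← mul_sum]
      simp only [hF, hf, eval_add, eval_mul, eval_finsetSum, eval_prod, eval_C, eval_sub,
        eval_pow, eval_X]
      rw [sum_congr rfl h3, ← sum_mul, h1]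
      ring
    · rw [hζ.card_primitiveRoots, Nat.totient_prime hq]
      refine lt_of_le_of_lt (b := ∑ i ∈ S, β i) ?_ (by omega)
      refine (natDegree_add_le _ _).trans (max_le ?_ ?_)
      · refine natDegree_sum_le_of_forall_le _ _ fun i hi => (natDegree_C_mul_le _ _).trans ?_
        have := hdeg' i hi
        omega
      · exact (natDegree_C_mul_le _ _).trans (hdeg S Subset.rfl).2.le
  have hκ : κ = 0 := by
    have h1 := congrArg (fun G : K[X] => G.coeff (∑ i ∈ S, β i)) hF0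
    simp only [hF, coeff_add, finsetSum_coeff, coeff_C_mul, coeff_zero] at h1
    rw [sum_eq_zero fun i hi => by
      rw [coeff_eq_zero_of_natDegree_lt (by have := hdeg' i hi; have := hβ i hi; omega), mul_zero],
      ← (hdeg S Subset.rfl).2, (hdeg S Subset.rfl).1.coeff_natDegree] at h1
    simpa using h1
  have h1 := congrArg (fun G : K[X] => G.coeff (∏ j ∈ S.erase i₀, f j).natDegree) hF0
  simp only [hF, coeff_add, finsetSum_coeff, coeff_C_mul, coeff_zero, hκ, zero_mul,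
    add_zero] at h1
  rw [sum_eq_single i₀ (fun i hi hii => ?_) (fun h => absurd hi₀ h),
    (hdeg _ (erase_subset i₀ S)).1.coeff_natDegree, mul_one] at h1
  · exact mul_ne_zero hc₀ hq0 h1
  · by_cases hc : c i = 0
    · simp [hc]
    · have h2 := hmin i (mem_filter.2 ⟨hi, hc⟩)
      have h3 : β i₀ ≠ β i := fun e => hii (hinj hi hi₀ e.symm)
      rw [coeff_eq_zero_of_natDegree_lt (by
        have := hdeg' i hi; have := hdeg' i₀ hi₀; omega), mul_zero]

lemma dirichlet {q M : ℕ} [Fact q.Prime] {ι : Type} [Fintype ι] (u : ι → ZMod q) (hM : 0 < M)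
    (h : M ^ Fintype.card ι < q) :
    ∃ t : ZMod q, t ≠ 0 ∧ ∀ i, ∃ b : ℕ, b * M < q ∧
      ((b : ZMod q) = t * u i ∨ (b : ZMod q) = -(t * u i)) := by
  classical
  have hq : q.Prime := Fact.out
  obtain ⟨s, s', hne, he⟩ := Fintype.exists_ne_map_eq_of_card_lt
    (fun (s : ZMod q) (i : ι) => (⟨(s * u i).val * M / q, by
      rw [Nat.div_lt_iff_lt_mul hq.pos, mul_comm M]
      exact Nat.mul_lt_mul_of_pos_right (ZMod.val_lt _) hM⟩ : Fin M))
    (by rwa [Fintype.card_fun, Fintype.card_fin, ZMod.card])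
  refine ⟨s - s', sub_ne_zero.2 hne, fun i => ?_⟩
  have h1 : (s * u i).val * M / q = (s' * u i).val * M / q := congrArg Fin.val (congrFun he i)
  have h2 := Nat.div_add_mod ((s * u i).val * M) q
  have h3 := Nat.div_add_mod ((s' * u i).val * M) q
  have h4 := Nat.mod_lt ((s * u i).val * M) hq.pos
  have h5 := Nat.mod_lt ((s' * u i).val * M) hq.pos
  rw [h1] at h2
  rcases le_total (s' * u i).val (s * u i).val with h6 | h6
  · refine ⟨(s * u i).val - (s' * u i).val, by rw [Nat.sub_mul]; omega, Or.inl ?_⟩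
    rw [Nat.cast_sub h6, ZMod.natCast_zmod_val, ZMod.natCast_zmod_val]
    ring
  · refine ⟨(s' * u i).val - (s * u i).val, by rw [Nat.sub_mul]; omega, Or.inr ?_⟩
    rw [Nat.cast_sub h6, ZMod.natCast_zmod_val, ZMod.natCast_zmod_val]
    ring

/-- Residues that are distinct up to sign give independent translates modulo constants. -/
theorem indep_few {K : Type} [Field K] {q : ℕ} [Fact q.Prime] {ζ : K} (hζ : IsPrimitiveRoot ζ q)
    (hq0 : (q : K) ≠ 0) {ι : Type} [Fintype ι] (u : ι → ZMod q) (hu : ∀ i, u i ≠ 0)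
    (hu' : ∀ i j, u i = u j ∨ u i = -u j → i = j)
    (hw : (2 * Fintype.card ι) ^ Fintype.card ι < q) (hq3 : 3 ≤ q) (c : ι → K) (κ : K)
    (h : ∀ x : ZMod q, x ≠ 0 → ∑ i, c i * (((x * u i).val : ℕ) : K) = κ) (i₀ : ι) : c i₀ = 0 := by
  classical
  have hpos : 0 < Fintype.card ι := Fintype.card_pos_iff.2 ⟨i₀⟩
  obtain ⟨t, ht, hb⟩ := dirichlet (fun i => (u i)⁻¹) (M := 2 * Fintype.card ι) (by omega) hw
  choose b hb1 hb2 using hb
  have hb0 : ∀ i, 0 < b i := fun i => Nat.pos_of_ne_zero fun e => by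
    have h1 := hb2 i
    rw [e, Nat.cast_zero, eq_comm, eq_comm (a := (0 : ZMod q)), neg_eq_zero, or_self] at h1
    exact mul_ne_zero ht (inv_ne_zero (hu i)) h1
  have hs : 2 * ∑ i, b i < q := by
    refine lt_of_mul_lt_mul_right (a := Fintype.card ι) ?_ (Nat.zero_le _)
    have h1 := sum_lt_sum_of_nonempty (s := (univ : Finset ι)) ⟨i₀, mem_univ _⟩ fun i _ => hb1 i
    rw [← sum_mul, sum_const, card_univ, smul_eq_mul] at h1
    linarith
  have key := indep_int hζ hq0 univ b (fun i _ => hb0 i) (fun i _ j _ e => ?_) (by omega)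
    (fun i => if (b i : ZMod q) = t * (u i)⁻¹ then c i else -c i)
    (κ - ∑ i, if (b i : ZMod q) = t * (u i)⁻¹ then 0 else c i * q) (fun y hy => ?_) i₀ (mem_univ _)
  · split_ifs at key
    · exact key
    · exact neg_eq_zero.1 key
  · have e' : (b i : ZMod q) = b j := by rw [e]
    have h3 : ∀ a a' : ZMod q, t * a⁻¹ = t * a'⁻¹ → a = a' := fun a a' h =>
      inv_injective (mul_left_cancel₀ ht h)
    apply hu'
    rcases hb2 i with h1 | h1 <;> rcases hb2 j with h2 | h2 <;> rw [h1, h2] at e'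
    · exact Or.inl (h3 _ _ e')
    · exact Or.inr (h3 _ _ (by rw [e', inv_neg, mul_neg]))
    · exact Or.inr (h3 _ _ (by rw [inv_neg, mul_neg, ← e', neg_neg]))
    · exact Or.inl (h3 _ _ (neg_injective e'))
  · rw [← h (y * t⁻¹) (mul_ne_zero hy (inv_ne_zero ht)), ← sum_sub_distrib]
    refine sum_congr rfl fun i _ => ?_
    split_ifs with h1
    · rw [h1, mul_inv, inv_inv, mul_assoc, sub_zero]
    · have h2 : y * t⁻¹ * u i ≠ 0 := mul_ne_zero (mul_ne_zero hy (inv_ne_zero ht)) (hu i)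
      rw [(hb2 i).resolve_left h1, inv_neg, mul_inv, inv_inv, mul_neg, ← mul_assoc, ZMod.neg_val,
        if_neg h2, Nat.cast_sub (ZMod.val_lt _).le]
      ring

end Pool.Agent.Lib.MP_53226a_nt.H61
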