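import Pool.Agent.Lib.MP_53226a_nt.H7Rel

/-! Differences of two rows of the averaged residue matrix are indicators of hyperplanes. -/

set_option autoImplicit false

namespace Pool.Agent.Lib.MP_53226a_nt.H7

open Finset

/-- Sum of the least residues along the orbit of `h`. -/
def Fs (q P h : ℕ) (x : ZMod q) : ℤ := ∑ j ∈ range P, ((x * (h : ZMod q) ^ j).val : ℤ)

/-- The residue attached to an exponent vector. -/
def col (q h : ℕ) {m : ℕ} (ε : Fin m → ℕ) : ZMod q := ∑ i, (ε i : ZMod q) * (h : ZMod q) ^ (i : ℕ)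

lemma row {e n q h m : ℕ} (hq : 0 < q) {x : ℤ} {W : ℕ → ℚ} (hW : Lam e n q h x W)
    (ε : Fin m → ℕ) :
    Fs q ((e + 1) * n) h ((x : ZMod q) * col q h ε) =
      -q * ∑ j ∈ range ((e + 1) * n), ⌊∑ i, (ε i : ℚ) * W (j + i)⌋ := by
  have : NeZero q := ⟨hq.ne'⟩
  have hq' : (q : ℚ) ≠ 0 := by exact_mod_cast hq.ne'
  have h1 : ∀ j, ((((x : ZMod q) * col q h ε * (h : ZMod q) ^ j).val : ℤ) : ℚ) =
      q * ∑ i, (ε i : ℚ) * W (j + i) - q * (⌊∑ i, (ε i : ℚ) * W (j + i)⌋ : ℤ) := by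
    intro j
    set N : ℤ := x * (∑ i, (ε i : ℤ) * (h : ℤ) ^ (i : ℕ)) * (h : ℤ) ^ j with hN
    have h2 : (x : ZMod q) * col q h ε * (h : ZMod q) ^ j = (N : ZMod q) := by
      rw [hN, col]; push_cast; rfl
    have h3 : ∑ i, (ε i : ℚ) * W (j + i) - (N : ℚ) / q ∈ (⊥ : Subring ℚ) := by
      have : ∑ i, (ε i : ℚ) * W (j + i) - (N : ℚ) / q =
          ∑ i, (ε i : ℚ) * (W (j + i) - x * (h : ℚ) ^ (j + (i : ℕ)) / q) := by
        rw [hN]
        push_cast
        rw [mul_sum, sum_mul, sum_div, ← sum_sub_distrib]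
        refine sum_congr rfl fun i _ => ?_
        ring
      rw [this]
      exact sum_mem fun i _ => mul_mem (natCast_mem _ _) (hW.2 _)
    obtain ⟨z, hz⟩ := Subring.mem_bot.1 h3
    have h4 : ∑ i, (ε i : ℚ) * W (j + i) = (N : ℚ) / q + z := by linarith
    rw [h2, ZMod.val_intCast, h4, Int.floor_add_intCast, Int.floor_div_natCast, Int.floor_intCast,
      Int.emod_def]
    push_cast
    field_simp
    ring
  have h5 : ∑ j ∈ range ((e + 1) * n), ∑ i, (ε i : ℚ) * W (j + i) = 0 := by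
    rw [sum_comm]
    exact sum_eq_zero fun i _ => by rw [← mul_sum, hW.1.sum, mul_zero]
  have : ((Fs q ((e + 1) * n) h ((x : ZMod q) * col q h ε) : ℤ) : ℚ) =
      ((-q * ∑ j ∈ range ((e + 1) * n), ⌊∑ i, (ε i : ℚ) * W (j + i)⌋ : ℤ) : ℚ) := by
    rw [Fs, Int.cast_sum, sum_congr rfl fun j _ => h1 j, sum_sub_distrib, ← mul_sum, h5, ← mul_sum]
    push_cast
    ring
  exact_mod_cast this

lemma floor_near {p : ℕ} (hp : 0 < p) {z : ℤ} (hz : ¬ (p : ℤ) ∣ z) {u : ℚ}
    (hu : |u - z / p| < 1 / p) : ⌊u⌋ = z / p := by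
  have hp' : (0 : ℚ) < p := by exact_mod_cast hp
  have h1 := Int.mul_ediv_add_emod z p
  have h2 : 0 ≤ z % p := Int.emod_nonneg _ (by omega)
  have h3 : z % p < p := Int.emod_lt_of_pos _ (by omega)
  have h4 : z % p ≠ 0 := fun h => hz (Int.dvd_of_emod_eq_zero h)
  have h5 : (p : ℤ) * (z / p) + 1 ≤ z := by omega
  have h6 : z + 1 ≤ (p : ℤ) * (z / p) + p := by omega
  have h7 : (p : ℚ) * (z / p : ℤ) + 1 ≤ z := by exact_mod_cast h5
  have h8 : (z : ℚ) + 1 ≤ (p : ℚ) * (z / p : ℤ) + p := by exact_mod_cast h6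
  have h9 : |u * p - z| < 1 := by
    have : u * p - z = (u - z / p) * p := by field_simp
    rw [this, abs_mul, abs_of_pos hp']
    exact (lt_div_iff₀ hp').1 hu
  rw [abs_lt] at h9
  rw [Int.floor_eq_iff]
  constructor
  · refine le_of_mul_le_mul_right ?_ hp'
    linarith
  · refine lt_of_mul_lt_mul_right ?_ hp'.le
    linarith

lemma succ_ediv {D : ℕ} (hD : 0 < D) (a : ℤ) :
    (a + 1) / D - a / D = if (D : ℤ) ∣ a + 1 then 1 else 0 := by
  have hD' : (0 : ℤ) < D := by omega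
  have h1 := Int.mul_ediv_add_emod a D
  have h2 : 0 ≤ a % D := Int.emod_nonneg _ hD'.ne'
  have h3 : a % D < D := Int.emod_lt_of_pos _ hD'
  rcases lt_or_ge (a % D + 1) D with h | h
  · have := (Int.ediv_emod_unique hD' (a := a + 1) (r := a % D + 1) (q := a / D)).2
      ⟨by linarith, by omega, h⟩
    rw [if_neg fun hd => by have := Int.emod_eq_zero_of_dvd hd; omega, this.1, sub_self]
  · have := (Int.ediv_emod_unique hD' (a := a + 1) (r := 0) (q := a / D + 1)).2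
      ⟨by rw [mul_add]; omega, le_rfl, hD'⟩
    rw [if_pos (Int.dvd_of_emod_eq_zero this.2), this.1]
    ring

/-- The direction of the columns: value one at `0`, never an integer elsewhere. -/
lemma exists_psi {p n : ℕ} (hp : p.Prime) (hp2 : p ≠ 2) (hn : 0 < n) (hc : Cyc (p - 1) n) :
    ∃ Ψ, Rel (p - 1) n Ψ ∧ Ψ 0 = 1 ∧ (∀ j, |Ψ j| ≤ p) ∧
      ∀ j, 0 < j → j < p * n → ∃ z : ℤ, ¬ (p : ℤ) ∣ z ∧ Ψ j = z / p := by
  have h3 : 3 ≤ p := by have := hp.two_le; omega
  obtain ⟨e, rfl⟩ : ∃ e, p = e + 1 + 1 := ⟨p - 2, by omega⟩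
  rw [Nat.add_sub_cancel] at hc ⊢
  obtain ⟨Ψ, h1, h2⟩ := hc.1 fun i => if i = 0 then 1 else 1 / ((e + 1 + 1 : ℕ) : ℚ)
  have hp' : (1 : ℚ) ≤ (e + 1 + 1 : ℕ) := by exact_mod_cast hp.one_le
  refine ⟨Ψ, h1, by rw [h2 0 (by positivity), if_pos rfl], fun j => ?_, fun j j0 j1 => ?_⟩
  · refine (h1.bound (by omega) hn (s := 1) (fun i hi => ?_) j).trans (by push_cast; linarith)
    rw [h2 i hi]
    split_ifs
    · simp
    · rw [abs_of_pos (by positivity)]
      exact (div_le_one (by positivity)).2 hp'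
  rcases lt_or_ge j ((e + 1) * n) with h4 | h4
  · refine ⟨1, fun h => ?_, by rw [h2 j h4, if_neg j0.ne']; simp⟩
    have := Int.le_of_dvd one_pos h
    omega
  obtain ⟨a, rfl⟩ := Nat.exists_eq_add_of_le' h4
  have ha : a < n := by nlinarith
  have h5 : ∑ b ∈ range e, Ψ (a + (b + 1) * n) = e * (1 / ((e + 1 + 1 : ℕ) : ℚ)) := by
    rw [← nsmul_eq_mul, ← card_range e, ← sum_const, card_range]
    refine sum_congr rfl fun b hb => ?_
    have := Nat.mul_le_mul_right n (show b + 1 + 1 ≤ e + 1 by have := mem_range.1 hb; omega)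
    rw [Nat.succ_mul (b + 1)] at this
    rw [h2 _ (by omega), if_neg (by positivity)]
  rw [h1.step, sum_range_succ', h5, zero_mul, add_zero, h2 a (by nlinarith)]
  split_ifs
  · refine ⟨-(2 * e + 2), fun h => ?_, by push_cast; field_simp; ring⟩
    have h6 : ((e + 1 + 1 : ℕ) : ℤ) ∣ 2 := by
      have := dvd_add h (dvd_mul_left ((e + 1 + 1 : ℕ) : ℤ) 2)
      rwa [show -(2 * (e : ℤ) + 2) + 2 * ((e + 1 + 1 : ℕ) : ℤ) = 2 by push_cast; ring] at this
    have := Int.le_of_dvd two_pos h6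
    omega
  · refine ⟨-(e + 1), fun h => ?_, by push_cast; field_simp⟩
    have := Int.le_of_dvd (by omega) (dvd_neg.1 h)
    omega

lemma abs_sum_le {m : ℕ} (a f : Fin m → ℚ) {A B : ℚ} (ha : ∀ i, |a i| ≤ A) (hf : ∀ i, |f i| ≤ B) :
    |∑ i, a i * f i| ≤ m * (A * B) := by
  refine (abs_sum_le_sum_abs _ _).trans ?_
  have := sum_le_card_nsmul univ (fun i => |a i * f i|) (A * B) fun i _ => by
    rw [abs_mul]
    exact mul_le_mul (ha i) (hf i) (abs_nonneg _) ((abs_nonneg _).trans (ha i))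
  rwa [card_univ, Fintype.card_fin, nsmul_eq_mul] at this

theorem geo {p n j : ℕ} (hp : p.Prime) (hp2 : p ≠ 2) (hn : 0 < n) (hc : Cyc (p - 1) n)
    (hm : (p - 1) * n = j + 1) :
    ∃ M C : ℕ, 0 < M ∧ 0 < C ∧ ∀ q h L R D : ℕ, 0 < R → 0 < D → C * R * D ≤ L → L ^ (j + 1) < q →
      q ∣ ∑ b ∈ range p, h ^ (b * n) → ∀ c : Fin (j + 1) → ℤ, ∃ x x' : ZMod q,
        ∀ ε : Fin (j + 1) → ℕ, M * R ≤ ε 0 → ε 0 < M * R + R → (∀ i : Fin j, ε i.succ < R) →
          Fs q (p * n) h (x * col q h ε) - Fs q (p * n) h (x' * col q h ε) =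
            if (D : ℤ) ∣ ∑ i, ε i * c i + 1 then -(q : ℤ) else 0 := by
  have h3 : 3 ≤ p := by have := hp.two_le; omega
  obtain ⟨Ψ, hΨ, hΨ0, hΨb, hΨz⟩ := exists_psi hp hp2 hn hc
  refine ⟨32 * p ^ 3 * (j + 1), 16 * p ^ 4 * (j + 1) ^ 2 * (32 * p ^ 3 * (j + 1) + 1),
    by positivity, by positivity, ?_⟩
  intro q h L R D hR hD hL hq hd c
  have hL0 : 0 < L := lt_of_lt_of_le (by positivity) hL
  have hq0 : 0 < q := by omega
  have hpe : p - 1 + 1 = p := by omega
  obtain ⟨Cz, hC, hC0⟩ := hc.1 fun i => if h : i < j + 1 then (c ⟨i, h⟩ : ℚ) else 0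
  have hCi : ∀ i, ∃ z : ℤ, (z : ℚ) = Cz i := fun i => by
    have := hC.int hn (W' := fun _ => 0) (fun _ => by simp) (fun i hi => by
      rw [hC0 i hi, sub_zero, dif_pos (hm ▸ hi)]; exact intCast_mem _ _) i
    rw [sub_zero] at this
    exact Subring.mem_bot.1 this
  choose cz hcz using hCi
  have hcz0 : ∀ i : Fin (j + 1), cz i = c i := fun i => by
    have := hcz i
    rw [hC0 i (by rw [hm]; exact i.2), dif_pos i.2] at this
    exact_mod_cast this
  set M : ℕ := 32 * p ^ 3 * (j + 1) * R with hM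
  have hp' : (3 : ℚ) ≤ p := by exact_mod_cast h3
  have hR' : (0 : ℚ) < R := by exact_mod_cast hR
  have hD' : (0 : ℚ) < D := by exact_mod_cast hD
  have hL' : (0 : ℚ) < L := by exact_mod_cast hL0
  have hM' : (M : ℚ) = 32 * p ^ 3 * (j + 1) * R := by rw [hM]; push_cast; ring
  have hM0 : (0 : ℚ) < M := by rw [hM']; positivity
  have key : ∀ s : ℚ, |s| ≤ 2 → ∃ x : ZMod q, ∀ ε : Fin (j + 1) → ℕ, M ≤ ε 0 → ε 0 < M + R →
      (∀ i : Fin j, ε i.succ < R) → ∃ u : ℕ → ℚ, (∀ l, |u l - s * Ψ l| ≤ 1 / (8 * p ^ 2)) ∧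
        Fs q (p * n) h (x * col q h ε) =
          -q * ∑ l ∈ range (p * n), (∑ i, ε i * cz (l + i) + ⌊u l⌋) / D := by
    intro s hs
    have hY : Rel (p - 1) n fun l => (Cz l + s * Ψ l / M) / D := fun l => by
      rw [← sum_div, sum_add_distrib, ← sum_div, ← mul_sum, hC, hΨ]
      simp
    obtain ⟨x, W, hW, hE⟩ := approx hc (by omega) hn hL0 (hm ▸ hq) (hpe.symm ▸ hd) hY
    refine ⟨x, fun ε e1 e2 e3 => ⟨fun l => D * ∑ i, (ε i : ℚ) * W (l + i) -
      (∑ i, ε i * cz (l + i) : ℤ), fun l => ?_, ?_⟩⟩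
    · have hE' : ∀ l, |W l - (Cz l + s * Ψ l / M) / D| ≤ p * ((j + 1) * (p * (1 / L))) := fun l => by
        refine (hE l).trans ?_
        rw [hm]
        have : ((p - 1 : ℕ) : ℚ) ≤ p := by exact_mod_cast Nat.sub_le p 1
        push_cast
        gcongr
      have a1 : ∀ i, |(ε i : ℚ)| ≤ M + R := fun i => by
        rw [abs_of_nonneg (by positivity)]
        have : ε i ≤ M + R := by
          refine Fin.cases e2.le (fun i => ?_) i
          have := e3 i
          omega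
        exact_mod_cast this
      have a2 : ∀ i : Fin (j + 1), |(ε i : ℚ) - if i = 0 then (M : ℚ) else 0| ≤ R := fun i => by
        refine Fin.cases ?_ (fun i => ?_) i
        · have b1 : (M : ℚ) ≤ ε 0 := by exact_mod_cast e1
          have b2 : (ε 0 : ℚ) ≤ M + R := by exact_mod_cast e2.le
          rw [if_pos rfl, abs_of_nonneg (by linarith)]
          linarith
        · rw [if_neg (Fin.succ_ne_zero i), sub_zero, abs_of_nonneg (by positivity)]
          exact_mod_cast (e3 i).le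
      have b1 := abs_sum_le _ _ a1 fun i : Fin (j + 1) => hE' (l + i)
      have b2 := abs_sum_le _ _ a2 fun i : Fin (j + 1) => hΨb (l + i)
      have b3 : ∑ i : Fin (j + 1), ((ε i : ℚ) - if i = 0 then (M : ℚ) else 0) * Ψ (l + i) =
          ∑ i : Fin (j + 1), (ε i : ℚ) * Ψ (l + i) - M * Ψ l := by
        simp only [sub_mul, sum_sub_distrib, ite_mul, zero_mul, sum_ite_eq', mem_univ, if_true,
          Fin.val_zero, add_zero]
      have b4 : D * ∑ i, (ε i : ℚ) * W (l + i) - (∑ i, ε i * cz (l + i) : ℤ) - s * Ψ l =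
          D * ∑ i : Fin (j + 1), (ε i : ℚ) * (W (l + i) - (Cz (l + i) + s * Ψ (l + i) / M) / D) +
            s / M * ∑ i : Fin (j + 1), ((ε i : ℚ) - if i = 0 then (M : ℚ) else 0) * Ψ (l + i) := by
        rw [b3, mul_sub (s / M), ← add_sub_assoc]
        push_cast
        simp only [hcz, mul_sum]
        rw [← sum_sub_distrib, ← sum_add_distrib]
        congr 1
        · refine sum_congr rfl fun i _ => ?_
          field_simp
          ring
        · field_simp
      have hLq : (16 * p ^ 4 * (j + 1) ^ 2 * (32 * p ^ 3 * (j + 1) + 1) * R * D : ℚ) ≤ L := by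
        exact_mod_cast hL
      beta_reduce
      rw [b4]
      refine (abs_add_le _ _).trans ?_
      rw [abs_mul, abs_mul, abs_of_pos hD', abs_div, abs_of_pos hM0]
      push_cast at b1 b2
      have c1 : (D : ℚ) * ((j + 1) * ((M + R) * (p * ((j + 1) * (p * (1 / L)))))) ≤
          1 / (16 * p ^ 2) := by
        rw [le_div_iff₀ (by positivity), hM']
        refine le_trans (le_of_eq ?_) ((div_le_one hL').2 hLq)
        ring
      have c2 : (2 : ℚ) / M * ((j + 1) * (R * p)) = 1 / (16 * p ^ 2) := by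
        rw [hM']
        field_simp
        norm_num
      have c3 : |s| / M * |∑ i : Fin (j + 1), ((ε i : ℚ) - if i = 0 then (M : ℚ) else 0) * Ψ (l + i)|
          ≤ 2 / M * ((j + 1) * (R * p)) := by gcongr
      have c4 := mul_le_mul_of_nonneg_left b1 hD'.le
      have c5 : (1 : ℚ) / (8 * p ^ 2) = 1 / (16 * p ^ 2) + 1 / (16 * p ^ 2) := by
        field_simp
        norm_num
      linarith
    · have := row hq0 hW ε
      rw [hpe] at this
      rw [this]
      congr 1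
      refine sum_congr rfl fun l _ => ?_
      rw [← Int.floor_intCast_add, ← Int.floor_div_natCast]
      congr 1
      field_simp
      ring
  have hδ0 : (0 : ℚ) < 1 / (4 * p ^ 2) := by positivity
  have hδ1 : (1 : ℚ) / (4 * p ^ 2) ≤ 1 / 4 :=
    one_div_le_one_div_of_le (by norm_num) (by nlinarith)
  have hδ2 : (1 : ℚ) / (8 * p ^ 2) = 1 / (4 * p ^ 2) / 2 := by
    field_simp
    norm_num
  have hδ3 : (1 : ℚ) / (4 * p ^ 2) * p + 1 / (8 * p ^ 2) < 1 / p := by
    have : (1 : ℚ) / p - (1 / (4 * p ^ 2) * p + 1 / (8 * p ^ 2)) = (6 * p - 1) / (8 * p ^ 2) := by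
      field_simp
      ring
    have h2 : (0 : ℚ) < (6 * p - 1) / (8 * p ^ 2) := div_pos (by linarith) (by positivity)
    linarith
  obtain ⟨x, hx⟩ := key (1 + 1 / (4 * p ^ 2)) (by rw [abs_le]; constructor <;> linarith)
  obtain ⟨x', hx'⟩ := key (1 - 1 / (4 * p ^ 2)) (by rw [abs_le]; constructor <;> linarith)
  refine ⟨x, x', fun ε e1 e2 e3 => ?_⟩
  obtain ⟨u, hu, hF⟩ := hx ε e1 e2 e3
  obtain ⟨u', hu', hF'⟩ := hx' ε e1 e2 e3
  have f0 : ⌊u 0⌋ = 1 := by
    have := abs_le.1 (hu 0)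
    rw [hΨ0] at this
    rw [Int.floor_eq_iff]
    push_cast
    constructor <;> linarith [this.1, this.2]
  have f0' : ⌊u' 0⌋ = 0 := by
    have := abs_le.1 (hu' 0)
    rw [hΨ0] at this
    rw [Int.floor_eq_iff]
    push_cast
    constructor <;> linarith [this.1, this.2]
  have f1 : ∀ l, 0 < l → l < p * n → ⌊u l⌋ = ⌊u' l⌋ := fun l l0 l1 => by
    obtain ⟨z, hz, hz'⟩ := hΨz l l0 l1
    have b := abs_le.1 (show |1 / (4 * (p : ℚ) ^ 2) * Ψ l| ≤ 1 / (4 * (p : ℚ) ^ 2) * (p : ℚ) by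
      rw [abs_mul, abs_of_pos hδ0]
      exact mul_le_mul_of_nonneg_left (hΨb l) hδ0.le)
    have b1 := abs_le.1 (hu l)
    have b2 := abs_le.1 (hu' l)
    rw [floor_near hp.pos hz (u := u l), floor_near hp.pos hz (u := u' l)] <;>
      rw [← hz', abs_lt] <;> constructor <;> linarith [b.1, b.2, b1.1, b1.2, b2.1, b2.2]
  rw [hF, hF', ← mul_sub, ← sum_sub_distrib,
    sum_eq_single_of_mem 0 (mem_range.2 (Nat.mul_pos hp.pos hn)) fun l hl l0 => by
      rw [f1 l (Nat.pos_of_ne_zero l0) (mem_range.1 hl), sub_self],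
    f0, f0', add_zero, succ_ediv hD]
  simp only [zero_add, hcz0]
  split_ifs <;> simp

end Pool.Agent.Lib.MP_53226a_nt.H7
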