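import Pool.Agent.Lib.MP_53226a_nt.H7Van

/-! Choice of the parameters in the vanishing lemma. -/

set_option autoImplicit false

namespace Pool.Agent.Lib.MP_53226a_nt.H7

open Finset Filter

/-- The primes up to `x` other than `p`. -/
def primesTo (p x : ℕ) : Finset ℕ := ((range (x + 1)).filter Nat.Prime).erase p

lemma mem_primesTo {p x a : ℕ} : a ∈ primesTo p x ↔ a ≠ p ∧ a ≤ x ∧ a.Prime := by
  simp [primesTo]

lemma card_sq_le (T : Finset ℕ) :
    (T.card : ℝ) * (T.card - 3) ≤ 2 * ((∑ a ∈ T, (a - 1) : ℕ) : ℝ) := by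
  have h1 : ∑ i ∈ range T.card, i ≤ ∑ a ∈ T, a := by
    induction T using Finset.induction_on_max with
    | empty => simp
    | insert a s ha ih =>
      have h0 : a ∉ s := fun h => lt_irrefl _ (ha a h)
      have : s.card ≤ (range a).card := card_le_card fun x hx => mem_range.2 (ha x hx)
      rw [card_range] at this
      rw [card_insert_of_notMem h0, sum_range_succ, sum_insert h0]
      omega
  have h2 := Finset.sum_range_id_mul_two T.card
  have h3 : ∑ a ∈ T, a ≤ ∑ a ∈ T, (a - 1) + T.card := by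
    rw [card_eq_sum_ones, ← sum_add_distrib]
    exact sum_le_sum fun a _ => by omega
  have h4 : T.card * (T.card - 1) ≤ 2 * ∑ a ∈ T, (a - 1) + 2 * T.card := by omega
  rcases Nat.eq_zero_or_pos T.card with h | h
  · rw [h]; simp only [Nat.cast_zero, zero_mul]; positivity
  · have h5 : ((T.card * (T.card - 1) : ℕ) : ℝ) ≤ ((2 * ∑ a ∈ T, (a - 1) + 2 * T.card : ℕ) : ℝ) := by
      exact_mod_cast h4
    rw [Nat.cast_mul, Nat.cast_sub h, Nat.cast_add, Nat.cast_mul, Nat.cast_mul] at h5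
    push_cast at h5 ⊢
    linarith

lemma card_primesTo (p : ℕ) {x : ℕ} (hx : 16 ≤ x) :
    (x : ℝ) / (2 * Real.log x) - 1 ≤ (primesTo p x).card := by
  have h1 := Chebyshev.pi_ge x
  have hx' : (16 : ℝ) ≤ x := by exact_mod_cast hx
  have hl : 0 < Real.log x := Real.log_pos (by linarith)
  have h2 : Real.log ((x + 1) / 16) ≤ (x + 1) / 16 - 1 := Real.log_le_sub_one_of_pos (by positivity)
  rw [Real.log_div (by positivity) (by norm_num), show (16 : ℝ) = 2 ^ 4 by norm_num,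
    Real.log_pow] at h2
  have h3 := Real.log_two_gt_d9
  have h4 := Real.log_two_lt_d9
  have h5 : (x : ℝ) / (2 * Real.log x) ≤ (x * Real.log 2 - Real.log (x + 1)) / Real.log x := by
    rw [← div_div]
    refine div_le_div_of_nonneg_right ?_ hl.le
    push_cast at h2
    nlinarith
  have h6 : Nat.primeCounting x ≤ (primesTo p x).card + 1 := by
    rw [Nat.primeCounting, Nat.primeCounting', Nat.count_eq_card_filter_range]
    have := pred_card_le_card_erase (s := (range (x + 1)).filter Nat.Prime) (a := p)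
    exact Nat.sub_le_iff_le_add.1 (by unfold primesTo; convert this)
  have h7 : (Nat.primeCounting x : ℝ) ≤ (primesTo p x).card + 1 := by exact_mod_cast h6
  linarith

lemma sum_primesTo (p : ℕ) {κ : ℕ} (hκ : 1 ≤ κ) :
    ∀ᶠ n : ℕ in atTop, 2 * n ^ (2 * κ - 1) ≤ ∑ a ∈ primesTo p (n ^ κ), (a - 1) := by
  have hκ' : (1 : ℝ) ≤ κ := by exact_mod_cast hκ
  have h0 := (Real.isLittleO_pow_log_id_atTop (n := 2)).bound
    (c := 1 / (32 * (κ : ℝ) ^ 2)) (by positivity)
  filter_upwards [tendsto_natCast_atTop_atTop.eventually h0, eventually_ge_atTop 16] with n h1 h2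
  have hn : (16 : ℝ) ≤ n := by exact_mod_cast h2
  have hl : 1 ≤ Real.log n := by
    rw [Real.le_log_iff_exp_le (by linarith)]
    linarith [Real.exp_one_lt_d9]
  rw [Real.norm_of_nonneg (by positivity), id, Real.norm_of_nonneg (by positivity), one_div,
    ← div_eq_inv_mul, le_div_iff₀ (by positivity)] at h1
  have hx : n ≤ n ^ κ := Nat.le_self_pow (by omega) n
  have h3 := card_primesTo p (h2.trans hx)
  have h4 := card_sq_le (primesTo p (n ^ κ))
  rw [Nat.cast_pow, Real.log_pow] at h3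
  set c : ℝ := ((primesTo p (n ^ κ)).card : ℝ)
  set l : ℝ := κ * Real.log n with hl'
  have hl1 : 1 ≤ l := by nlinarith
  have h5 : 32 * l ^ 2 ≤ n := by rw [hl']; nlinarith
  have hx' : (n : ℝ) ≤ (n : ℝ) ^ κ := by exact_mod_cast hx
  set y : ℝ := (n : ℝ) ^ κ / (2 * l) with hy
  have hy2 : y * (2 * l) = (n : ℝ) ^ κ := div_mul_cancel₀ _ (by positivity)
  have hy1 : 16 ≤ y := by
    rw [hy, le_div_iff₀ (by positivity)]
    nlinarith
  have h6 : y ^ 2 / 2 ≤ c * (c - 3) := by nlinarith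
  have h7 : (n : ℝ) ^ (2 * κ - 1) * n = (y * (2 * l)) ^ 2 := by
    rw [hy2, ← pow_succ, ← pow_mul]; congr 1; omega
  have h8 : 8 * (n : ℝ) ^ (2 * κ - 1) ≤ y ^ 2 := by
    refine le_of_mul_le_mul_right ?_ (show (0 : ℝ) < n by linarith)
    rw [mul_assoc, h7]
    nlinarith [sq_nonneg y]
  have h9 : 2 * (n : ℝ) ^ (2 * κ - 1) ≤ ((∑ a ∈ primesTo p (n ^ κ), (a - 1) : ℕ) : ℝ) := by
    linarith
  exact_mod_cast h9

lemma primesTo_ne {F : Type} [Field F] {p : ℕ} (hF : ∀ a : ℕ, a.Prime → a ≠ p → (a : F) ≠ 0)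
    (x : ℕ) : ∀ a ∈ primesTo p x, a.Prime ∧ (a : F) ≠ 0 := fun a ha =>
  ⟨(mem_primesTo.1 ha).2.2, hF a (mem_primesTo.1 ha).2.2 (mem_primesTo.1 ha).1⟩

theorem van_pow (p : ℕ) {r δ : ℕ} (hδ : 1 ≤ δ) (hδr : δ ≤ r) (j : ℕ) :
    ∀ a : ℕ, r ≤ a → (2 * r - 2 * δ + 7 : ℝ) ≤ (2 / 3) ^ j * (2 * r - a + 6) →
      ∀ᶠ n : ℕ in atTop, ∀ (F : Type) [Field F] [IsAlgClosed F],
        (∀ a : ℕ, a.Prime → a ≠ p → (a : F) ≠ 0) →
          Van F (primesTo p (n ^ δ)) j (n ^ a) (n ^ r) := by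
  induction j with
  | zero =>
    intro a _ h
    have h1 : a + 1 ≤ 2 * δ := by
      have : (a : ℝ) + 1 ≤ 2 * δ := by rw [pow_zero] at h; linarith
      exact_mod_cast this
    filter_upwards [sum_primesTo p hδ, eventually_ge_atTop 1] with n h2 h3 F _ _ hF
    refine van_zero (primesTo_ne hF _) (le_trans ?_ h2)
    have := Nat.pow_le_pow_right h3 (show a ≤ 2 * δ - 1 by omega)
    omega
  | succ j ih =>
    intro a hra h
    have hδr' : (δ : ℝ) ≤ r := by exact_mod_cast hδr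
    have ht0 : (0 : ℝ) < (2 / 3) ^ j := by positivity
    have ht1 : ((2 : ℝ) / 3) ^ (j + 1) ≤ 1 := pow_le_one₀ (by norm_num) (by norm_num)
    have ha : a + 1 ≤ 2 * r := by
      have h0 : (0 : ℝ) < (2 / 3) ^ (j + 1) := by positivity
      have : (a : ℝ) + 1 ≤ 2 * r := by
        by_contra hc
        nlinarith
      exact_mod_cast this
    obtain ⟨κ, hκ1, hκ2, hκ3⟩ : ∃ κ, 1 ≤ κ ∧ 3 * κ + a ≤ 2 * r + 3 ∧ 2 * r + 1 ≤ 3 * κ + a :=
      ⟨(2 * r - a + 3) / 3, by omega, by omega, by omega⟩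
    have hκ2' : 3 * (κ : ℝ) + a ≤ 2 * r + 3 := by exact_mod_cast hκ2
    have h1 := ih (a + κ + 1) (by omega) (h.trans (by
      rw [pow_succ, mul_assoc]
      refine mul_le_mul_of_nonneg_left ?_ ht0.le
      push_cast
      linarith))
    filter_upwards [h1, sum_primesTo p hκ1, eventually_ge_atTop 3] with n h2 h3 h4 F _ _ hF
    refine van_succ (T := primesTo p (n ^ κ)) (Ka := n ^ κ) (Kb := n ^ (a + κ - r))
      (primesTo_ne hF _) (fun a ha => (mem_primesTo.1 ha).2.1) ?_ ((h2 F hF).mono ?_)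
    · have h5 : ∑ a ∈ primesTo p (n ^ κ), (a - 1) ≤ ∑ a ∈ primesTo p (n ^ κ), a :=
        sum_le_sum fun a _ => Nat.sub_le _ _
      refine le_trans ?_ (Nat.mul_le_mul_left _ (h3.trans h5))
      rw [mul_left_comm, ← pow_add]
      exact Nat.mul_le_mul_left _ (Nat.pow_le_pow_right (by omega) (by omega))
    · rw [← pow_add, ← pow_add, show r + (a + κ - r) = a + κ by omega, pow_succ]
      have : 1 ≤ n ^ (a + κ) := Nat.one_le_pow _ _ (by omega)
      nlinarith

end Pool.Agent.Lib.MP_53226a_nt.H7
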