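import Pool.Agent.Lib.MP_53226a_nt.H7Num
import Pool.Agent.Lib.MP_53226a_nt.H7Geo

/-! A function on a box whose sums over all hyperplane sections vanish is zero; independence of
the columns. -/

set_option autoImplicit false

namespace Pool.Agent.Lib.MP_53226a_nt.H7

open Finset

variable {F : Type} [Field F]

lemma coeff_zero_of_eval [Infinite F] {σ ι : Type} [Fintype σ] [Fintype ι] (e : ι → σ → ℕ)
    (he : Function.Injective e) (g : ι → F) (h : ∀ x : σ → F, ∑ i, g i * ∏ l, x l ^ e i l = 0)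
    (i : ι) : g i = 0 := by
  classical
  have h1 : ∑ i, MvPolynomial.monomial (Finsupp.equivFunOnFinite.symm (e i)) (g i) = 0 := by
    refine MvPolynomial.funext fun x => ?_
    rw [map_sum, map_zero, ← h x]
    refine sum_congr rfl fun i _ => ?_
    rw [MvPolynomial.eval_monomial, Finsupp.prod_fintype _ _ fun _ => pow_zero _]
    rfl
  have h2 := congrArg (MvPolynomial.coeff (Finsupp.equivFunOnFinite.symm (e i))) h1
  rw [MvPolynomial.coeff_sum, sum_eq_single_of_mem i (mem_univ i) fun b _ hb => by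
    rw [MvPolynomial.coeff_monomial, if_neg fun hc =>
      hb (he (Finsupp.equivFunOnFinite.symm.injective hc))]] at h2
  simpa using h2

lemma const_on_grid [IsAlgClosed F] {D : ℕ} (hD : D.Prime) (hDF : (D : F) ≠ 0) {σ ι : Type}
    [Fintype σ] [Fintype ι] (ε : ι → σ → ℕ) (g : ι → F)
    (hg : ∀ c : σ → ℤ, ∑ i, g i * (if (D : ℤ) ∣ ∑ l, ε i l * c l + 1 then 1 else 0) = 0)
    (x : σ → F) (hx : ∀ l, x l ^ D = 1) : ∑ i, g i * ∏ l, x l ^ ε i l = ∑ i, g i := by
  classical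
  have : Fact D.Prime := ⟨hD⟩
  obtain ⟨ω, hω⟩ := exists_prim hDF
  choose c _ hc using fun l => hω.eq_pow_of_pow_eq_one (hx l)
  set t : ι → ZMod D := fun i => ((∑ l, ε i l * c l : ℕ) : ZMod D) with ht
  have h1 : ∀ i, ∏ l, x l ^ ε i l = ω ^ (t i).val := fun i => by
    rw [ht, ZMod.val_natCast, ← pow_eq_pow_mod _ hω.pow_eq_one, ← prod_pow_eq_pow_sum]
    exact prod_congr rfl fun l _ => by rw [← hc, ← pow_mul, mul_comm]
  have h2 : ∀ a : ZMod D, a ≠ 0 → ∑ i ∈ univ.filter (fun i => t i = a), g i = 0 := fun a ha => by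
    rw [sum_filter]
    refine Eq.trans (sum_congr rfl fun i _ => ?_) (hg fun l => ((-a⁻¹).val : ℤ) * c l)
    rw [mul_ite, mul_one, mul_zero]
    refine if_congr ?_ rfl rfl
    rw [← ZMod.intCast_zmod_eq_zero_iff_dvd]
    have : ((∑ l, (ε i l : ℤ) * (((-a⁻¹).val : ℤ) * c l) + 1 : ℤ) : ZMod D) = -a⁻¹ * (t i - a) := by
      rw [ht, mul_sub, neg_mul a⁻¹ a, inv_mul_cancel₀ ha]
      push_cast
      rw [mul_sum, ZMod.natCast_val, ZMod.cast_id', id, sub_neg_eq_add]
      congr 1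
      exact sum_congr rfl fun l _ => by ring
    rw [this, mul_eq_zero, sub_eq_zero, neg_eq_zero, inv_eq_zero, or_iff_right ha]
  rw [← sub_eq_zero, ← sum_sub_distrib, ← sum_fiberwise (s := univ) (g := t)]
  refine sum_eq_zero fun a _ => ?_
  rw [sum_congr rfl (g := fun i => g i * (ω ^ a.val - 1)) fun i hi => by
    rw [h1, (mem_filter.1 hi).2]; ring, ← sum_mul]
  by_cases ha : a = 0
  · simp [ha]
  · rw [h2 a ha, zero_mul]

theorem radon [IsAlgClosed F] {S : Finset ℕ} (hS : ∀ D ∈ S, D.Prime ∧ (D : F) ≠ 0) {j A R : ℕ}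
    (hA : 0 < A) (hR : 0 < R) (hV : Van F S j A R) {ι : Type} [Fintype ι]
    (ε : ι → Fin (j + 1) → ℕ) (hinj : Function.Injective ε) (h0 : ∀ i, ε i 0 < A)
    (h1 : ∀ i (l : Fin j), ε i l.succ < R) (hne : ∀ i, ε i ≠ 0) (g : ι → F)
    (hg : ∀ D ∈ S, ∀ c : Fin (j + 1) → ℤ,
      ∑ i, g i * (if (D : ℤ) ∣ ∑ l, ε i l * c l + 1 then 1 else 0) = 0) (i : ι) : g i = 0 := by
  set e : Option ι → Fin (j + 1) → ℕ := fun o => o.elim 0 ε with he
  set G : Option ι → F := fun o => o.elim (-∑ i, g i) g with hG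
  have key := hV (Option ι) G (fun o => e o 0) (fun o l => e o l.succ)
    (fun o => by cases o; exacts [hA, h0 _]) (fun o l => by cases o; exacts [hR, h1 _ _])
    (fun D hD x y hx hy => by
      have := const_on_grid (hS D hD).1 (hS D hD).2 ε g (hg D hD) (Fin.cons x y)
        fun l => Fin.cases hx hy l
      simp only [Fin.prod_univ_succ, Fin.cons_zero, Fin.cons_succ, ← mul_assoc] at this
      rw [Fintype.sum_option]
      simp [he, hG, this])
  refine coeff_zero_of_eval e ?_ G (fun x => ?_) (some i)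
  · rintro (_ | a) (_ | b) h
    · rfl
    · exact absurd h.symm (hne b)
    · exact absurd h (hne a)
    · exact congrArg some (hinj h)
  · simpa only [Fin.prod_univ_succ, mul_assoc] using key (x 0) fun l => x l.succ

/-- The exponent vectors of the columns. -/
def ex {j R : ℕ} (B : ℕ) (σ : Fin (j + 1) → Fin R) (i : Fin (j + 1)) : ℕ :=
  σ i + if i = 0 then B else 0

theorem indep {p n j : ℕ} (hp : p.Prime) (hp2 : p ≠ 2) (hn : 0 < n) (hc : Cyc (p - 1) n)
    (hm : (p - 1) * n = j + 1) :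
    ∃ M C : ℕ, ∀ (F : Type) [Field F] [IsAlgClosed F], (∀ a : ℕ, a.Prime → a ≠ p → (a : F) ≠ 0) →
      ∀ q h R X A : ℕ, (q : F) ≠ 0 → 0 < R → M * R ≤ A → (C * R * X) ^ (j + 1) < q →
        q ∣ ∑ b ∈ range p, h ^ (b * n) → Van F (primesTo p X) j A R →
        ∃ y : (Fin (j + 1) → Fin R) → ZMod q,
          LinearIndependent F fun σ (x : ZMod q) => (Fs q (p * n) h (x * y σ) : F) := by
  obtain ⟨M, C, hM, hC, H⟩ := geo hp hp2 hn hc hm
  refine ⟨M + 1, C, fun F _ _ hF q h R X A hq hR hA hL hd hV =>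
    ⟨fun σ => col q h (ex (M * R) σ), Fintype.linearIndependent_iff.2 fun g hg => ?_⟩⟩
  rw [add_mul, one_mul] at hA
  have e0 : ∀ σ : Fin (j + 1) → Fin R, ex (M * R) σ 0 = σ 0 + M * R := fun σ => by simp [ex]
  have e1 : ∀ (σ : Fin (j + 1) → Fin R) (l : Fin j), ex (M * R) σ l.succ = σ l.succ :=
    fun σ l => by simp [ex]
  have hMR := Nat.mul_pos hM hR
  refine radon (primesTo_ne hF X) (by omega) hR hV (ex (M * R)) (fun a b hab => ?_) (fun σ => ?_)
    (fun σ l => ?_) (fun σ h0 => ?_) g fun D hD c => ?_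
  · exact funext fun i => Fin.ext (Nat.add_right_cancel (congrFun hab i))
  · have := (σ 0).2
    rw [e0]; omega
  · rw [e1]; exact (σ _).2
  · have := congrFun h0 0
    rw [e0, Pi.zero_apply] at this
    omega
  obtain ⟨_, hD1, hD2⟩ := mem_primesTo.1 hD
  obtain ⟨x, x', hx⟩ := H q h _ R D hR hD2.pos (Nat.mul_le_mul_left _ hD1) hL hd c
  have a1 := congrFun hg x
  have a2 := congrFun hg x'
  simp only [Finset.sum_apply, Pi.smul_apply, smul_eq_mul, Pi.zero_apply] at a1 a2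
  refine mul_left_cancel₀ (neg_ne_zero.2 hq) ?_
  rw [mul_zero]
  refine Eq.trans ?_ (sub_eq_zero.2 (a1.trans a2.symm))
  rw [← sum_sub_distrib, mul_sum]
  refine sum_congr rfl fun σ _ => ?_
  have := (σ 0).2
  rw [← mul_sub, ← Int.cast_sub, hx (ex (M * R) σ) (by rw [e0]; omega) (by rw [e0]; omega)
    fun l => by rw [e1]; exact (σ _).2]
  split_ifs <;> simp [mul_comm]

end Pool.Agent.Lib.MP_53226a_nt.H7
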