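import Mathlib

/-! Sequences killed by a cyclotomic polynomial of prime power order, and approximation by the
lattice of residues. -/

set_option autoImplicit false

namespace Pool.Agent.Lib.MP_53226a_nt.H7

open Finset Polynomial

/-- The cyclotomic relation. -/
def Rel (e n : ℕ) (W : ℕ → ℚ) : Prop := ∀ j, ∑ b ∈ range (e + 1), W (j + b * n) = 0

variable {e n : ℕ} {W : ℕ → ℚ}

lemma Rel.step (h : Rel e n W) (j : ℕ) : W (j + e * n) = -∑ b ∈ range e, W (j + b * n) := by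
  have := h j
  rw [sum_range_succ] at this
  linarith

lemma Rel.periodic (h : Rel e n W) : Function.Periodic W ((e + 1) * n) := by
  intro j
  have h1 := h (j + n)
  have h2 := h j
  rw [sum_range_succ] at h1
  rw [sum_range_succ'] at h2
  have h3 : ∑ b ∈ range e, W (j + n + b * n) = ∑ b ∈ range e, W (j + (b + 1) * n) :=
    sum_congr rfl fun b _ => by congr 1; ring
  rw [h3, show j + n + e * n = j + (e + 1) * n by ring] at h1
  rw [zero_mul, add_zero] at h2
  linarith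

lemma Rel.bound (h : Rel e n W) (he : 1 ≤ e) (hn : 0 < n) {s : ℚ}
    (hs : ∀ i, i < e * n → |W i| ≤ s) (j : ℕ) : |W j| ≤ e * s := by
  have h0 : 0 ≤ s := (abs_nonneg _).trans (hs 0 (Nat.mul_pos he hn))
  have he' : (1 : ℚ) ≤ e := by exact_mod_cast he
  rw [← h.periodic.map_mod_nat j]
  have hj : j % ((e + 1) * n) < (e + 1) * n := Nat.mod_lt _ (by positivity)
  generalize j % ((e + 1) * n) = i at hj
  rcases lt_or_ge i (e * n) with h1 | h1
  · exact (hs i h1).trans (by nlinarith)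
  · obtain ⟨a, rfl⟩ := Nat.exists_eq_add_of_le' h1
    have ha : a < n := by nlinarith
    rw [h.step, abs_neg]
    refine (abs_sum_le_sum_abs _ _).trans ?_
    have := sum_le_card_nsmul (range e) (fun b => |W (a + b * n)|) s fun b hb => hs _ (by
      have := Nat.mul_le_mul_right n (Nat.succ_le_of_lt (mem_range.1 hb))
      rw [Nat.succ_mul] at this
      omega)
    simpa using this

lemma Rel.int (h : Rel e n W) (hn : 0 < n) {W' : ℕ → ℚ}
    (h' : ∀ j, ∑ b ∈ range (e + 1), W' (j + b * n) ∈ (⊥ : Subring ℚ))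
    (h0 : ∀ i, i < e * n → W i - W' i ∈ (⊥ : Subring ℚ)) (j : ℕ) :
    W j - W' j ∈ (⊥ : Subring ℚ) := by
  induction j using Nat.strong_induction_on with
  | _ j ih =>
    rcases lt_or_ge j (e * n) with h1 | h1
    · exact h0 j h1
    · obtain ⟨a, rfl⟩ := Nat.exists_eq_add_of_le' h1
      have : W (a + e * n) - W' (a + e * n) =
          -(∑ b ∈ range e, (W (a + b * n) - W' (a + b * n))) -
            ∑ b ∈ range (e + 1), W' (a + b * n) := by
        rw [h.step, sum_range_succ, sum_sub_distrib]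
        ring
      rw [this]
      refine sub_mem (neg_mem (sum_mem fun b hb => ih _ ?_)) (h' a)
      have := Nat.mul_lt_mul_of_pos_right (mem_range.1 hb) hn
      omega

lemma sum_range_mul' (f : ℕ → ℚ) (c n : ℕ) :
    ∑ j ∈ range (c * n), f j = ∑ a ∈ range n, ∑ b ∈ range c, f (a + b * n) := by
  induction c with
  | zero => simp
  | succ c ih =>
    rw [Nat.succ_mul, sum_range_add, ih, ← sum_add_distrib]
    refine sum_congr rfl fun a _ => ?_
    rw [sum_range_succ, add_comm a]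

lemma Rel.sum (h : Rel e n W) (i : ℕ) : ∑ j ∈ range ((e + 1) * n), W (j + i) = 0 := by
  rw [sum_range_mul' (fun j => W (j + i))]
  refine sum_eq_zero fun a _ => ?_
  rw [← h (a + i)]
  exact sum_congr rfl fun b _ => by congr 1; ring

lemma Rel.sub {W' : ℕ → ℚ} (h : Rel e n W) (h' : Rel e n W') : Rel e n fun j => W j - W' j := by
  intro j
  rw [sum_sub_distrib, h, h', sub_zero]

lemma Rel.comb (h : Rel e n W) (m : ℕ) (a : ℕ → ℚ) :
    Rel e n fun j => ∑ l ∈ range m, a l * W (l + j) := by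
  intro j
  rw [sum_comm]
  refine sum_eq_zero fun l _ => ?_
  rw [← mul_sum]
  have := h (l + j)
  simp only [add_assoc] at this
  rw [this, mul_zero]

/-- Extension of initial values, and cyclicity of every nonzero solution. -/
def Cyc (e n : ℕ) : Prop :=
  (∀ y : ℕ → ℚ, ∃ W, Rel e n W ∧ ∀ i, i < e * n → W i = y i) ∧
  ∀ v, Rel e n v → v 0 ≠ 0 → ∀ y : ℕ → ℚ, ∃ a : ℕ → ℚ,
    ∀ i, i < e * n → y i = ∑ l ∈ range (e * n), a l * v (l + i)

lemma cyc_of_powerBasis {K : Type} [Field K] [Algebra ℚ K] (pb : PowerBasis ℚ K) (he : 1 ≤ e)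
    (hn : 0 < n) (hdim : pb.dim = e * n) (hζ : ∑ b ∈ range (e + 1), pb.gen ^ (b * n) = 0) :
    Cyc e n := by
  have hrel : ∀ φ : K →ₗ[ℚ] ℚ, Rel e n fun j => φ (pb.gen ^ j) := fun φ j => by
    rw [← map_sum]
    simp only [pow_add]
    rw [← mul_sum, hζ, mul_zero, map_zero]
  have hext : ∀ y : ℕ → ℚ, ∃ φ : K →ₗ[ℚ] ℚ, ∀ i, i < e * n → φ (pb.gen ^ i) = y i := fun y =>
    ⟨pb.basis.constr ℚ fun i => y i, fun i hi => by
      have := pb.basis.constr_basis ℚ (fun i => y i) ⟨i, hdim ▸ hi⟩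
      rwa [pb.basis_eq_pow] at this⟩
  refine ⟨fun y => ?_, fun v hv h0 y => ?_⟩
  · obtain ⟨φ, hφ⟩ := hext y
    exact ⟨_, hrel φ, hφ⟩
  obtain ⟨φ, hφ⟩ := hext v
  have hall : ∀ j, φ (pb.gen ^ j) = v j := fun j => by
    have := ((hrel φ).sub hv).bound he hn (s := 0) (fun i hi => by simp [hφ i hi]) j
    rw [mul_zero, abs_nonpos_iff, sub_eq_zero] at this
    exact this
  let T : K →ₗ[ℚ] (Fin pb.dim → ℚ) :=
    LinearMap.pi fun i => φ ∘ₗ LinearMap.mulRight ℚ (pb.gen ^ (i : ℕ))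
  have hT : ∀ a i, T a i = φ (a * pb.gen ^ (i : ℕ)) := fun a i => rfl
  have hinj : Function.Injective T := by
    rw [injective_iff_map_eq_zero]
    intro a ha
    by_contra h
    have h1 : φ ∘ₗ LinearMap.mulLeft ℚ a = 0 := pb.basis.ext fun i => by
      have := congrFun ha i
      rw [hT] at this
      simpa [pb.basis_eq_pow] using this
    have h2 := LinearMap.congr_fun h1 a⁻¹
    have h3 := hall 0
    simp only [LinearMap.comp_apply, LinearMap.mulLeft_apply, mul_inv_cancel₀ h,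
      LinearMap.zero_apply] at h2
    rw [pow_zero, h2] at h3
    exact h0 h3.symm
  have := pb.finite
  have hsurj := (LinearMap.injective_iff_surjective_of_finrank_eq_finrank
    (by rw [pb.finrank, Module.finrank_fin_fun])).1 hinj
  obtain ⟨a, ha⟩ := hsurj fun i => y i
  refine ⟨fun l => if h : l < pb.dim then pb.basis.repr a ⟨l, h⟩ else 0, fun i hi => ?_⟩
  have h1 := congrFun ha ⟨i, hdim ▸ hi⟩
  rw [hT, ← pb.basis.sum_repr a, sum_mul, map_sum] at h1
  rw [← hdim, sum_range, ← show _ = y i from h1]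
  refine sum_congr rfl fun l _ => ?_
  beta_reduce
  rw [dif_pos l.2, pb.basis_eq_pow, smul_mul_assoc, map_smul, ← pow_add, hall, smul_eq_mul]

theorem cyc_prime_pow {p : ℕ} (hp : p.Prime) (k : ℕ) : Cyc (p - 1) (p ^ k) := by
  have hpos : 0 < p ^ (k + 1) := pow_pos hp.pos _
  have : Fact (Irreducible (cyclotomic (p ^ (k + 1)) ℚ)) := ⟨cyclotomic.irreducible_rat hpos⟩
  refine cyc_of_powerBasis (AdjoinRoot.powerBasis (cyclotomic_ne_zero (p ^ (k + 1)) ℚ))
    (by have := hp.two_le; omega) (pow_pos hp.pos _) ?_ ?_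
  · rw [AdjoinRoot.powerBasis_dim, natDegree_cyclotomic, Nat.totient_prime_pow_succ hp, mul_comm]
  · have h1 : aeval (AdjoinRoot.root (cyclotomic (p ^ (k + 1)) ℚ))
        (∑ i ∈ range p, ((X : ℚ[X]) ^ p ^ k) ^ i) = 0 := by
      rw [← cyclotomic_prime_pow_eq_geom_sum hp]
      exact AdjoinRoot.eval₂_root _
    rw [AdjoinRoot.powerBasis_gen, Nat.sub_add_cancel hp.one_le, ← h1, map_sum]
    refine sum_congr rfl fun b _ => ?_
    rw [map_pow, map_pow, aeval_X, ← pow_mul, mul_comm]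

/-- `W` lifts the sequence `x h^j / q` modulo one. -/
def Lam (e n q h : ℕ) (x : ℤ) (W : ℕ → ℚ) : Prop :=
  Rel e n W ∧ ∀ j, W j - x * (h : ℚ) ^ j / q ∈ (⊥ : Subring ℚ)

theorem exists_short (hc : Cyc e n) (he : 1 ≤ e) (hn : 0 < n) {q h L : ℕ} (hL : 0 < L)
    (hq : L ^ (e * n) < q) (hd : q ∣ ∑ b ∈ range (e + 1), h ^ (b * n)) :
    ∃ x v, Lam e n q h x v ∧ v 0 ≠ 0 ∧ ∀ j, |v j| ≤ e * (1 / L) := by
  have hq0 : 0 < q := by omega
  have hq' : (0 : ℚ) < q := by exact_mod_cast hq0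
  have hL' : (0 : ℚ) < L := by exact_mod_cast hL
  obtain ⟨x, x', hne, hf⟩ := Fintype.exists_ne_map_eq_of_card_lt
    (fun (x : Fin q) (i : Fin (e * n)) => (⟨L * (x * h ^ (i : ℕ) % q) / q, by
      rw [Nat.div_lt_iff_lt_mul hq0]
      exact Nat.mul_lt_mul_of_pos_left (Nat.mod_lt _ hq0) hL⟩ : Fin L)) (by simpa using hq)
  obtain ⟨v, hv, hv0⟩ := hc.1 fun i => (((x * h ^ i % q : ℕ) : ℚ) - (x' * h ^ i % q : ℕ)) / q
  have hmod : ∀ N : ℕ, ((N % q : ℕ) : ℚ) / q = N / q - (N / q : ℕ) := fun N => by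
    have : ((q * (N / q) + N % q : ℕ) : ℚ) = N := by rw [Nat.div_add_mod]
    rw [Nat.cast_add, Nat.cast_mul] at this
    field_simp
    linarith
  refine ⟨(x : ℕ) - (x' : ℕ), v, ⟨hv, hv.int hn (fun j => ?_) fun i hi => ?_⟩, ?_,
    hv.bound he hn fun i hi => ?_⟩
  · obtain ⟨c, hc⟩ := hd
    have h1 : ∑ b ∈ range (e + 1), (h : ℚ) ^ (b * n) = q * c := by exact_mod_cast hc
    have : ∑ b ∈ range (e + 1), (((x : ℕ) - (x' : ℕ) : ℤ) : ℚ) * (h : ℚ) ^ (j + b * n) / q =
        (((x : ℕ) - (x' : ℕ) : ℤ) : ℚ) * (h : ℚ) ^ j * c := by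
      simp only [pow_add, ← mul_assoc]
      rw [← sum_div, ← mul_sum, h1]
      field_simp
    rw [this]
    exact mul_mem (mul_mem (intCast_mem _ _) (pow_mem (natCast_mem _ _) _)) (natCast_mem _ _)
  · have : v i - (((x : ℕ) - (x' : ℕ) : ℤ) : ℚ) * (h : ℚ) ^ i / q =
        ((x' * h ^ i / q : ℕ) : ℚ) - (x * h ^ i / q : ℕ) := by
      rw [hv0 i hi, sub_div, hmod, hmod, Nat.cast_mul, Nat.cast_mul, Nat.cast_pow, Int.cast_sub,
        Int.cast_natCast, Int.cast_natCast]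
      ring
    rw [this]
    exact sub_mem (natCast_mem _ _) (natCast_mem _ _)
  · rw [hv0 0 (Nat.mul_pos he hn), pow_zero, mul_one, mul_one, Nat.mod_eq_of_lt x.2,
      Nat.mod_eq_of_lt x'.2]
    refine div_ne_zero (sub_ne_zero.2 fun h => hne (Fin.ext ?_)) hq'.ne'
    exact_mod_cast h
  · have h1 : L * (x * h ^ i % q) / q = L * (x' * h ^ i % q) / q :=
      congrArg Fin.val (congrFun hf ⟨i, hi⟩)
    rw [hv0 i hi]
    generalize x * h ^ i % q = r at h1 ⊢
    generalize x' * h ^ i % q = r' at h1 ⊢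
    have a1 := Nat.div_add_mod (L * r) q
    have a2 := Nat.div_add_mod (L * r') q
    have a3 := Nat.mod_lt (L * r) hq0
    have a4 := Nat.mod_lt (L * r') hq0
    rw [h1] at a1
    have b1 : L * r ≤ L * r' + q := by omega
    have b2 : L * r' ≤ L * r + q := by omega
    have c1 : (L : ℚ) * r ≤ L * r' + q := by exact_mod_cast b1
    have c2 : (L : ℚ) * r' ≤ L * r + q := by exact_mod_cast b2
    rw [abs_div, abs_of_pos hq', div_le_div_iff₀ hq' hL', ← abs_of_pos hL', ← abs_mul, abs_le]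
    constructor <;> linarith

theorem approx (hc : Cyc e n) (he : 1 ≤ e) (hn : 0 < n) {q h L : ℕ} (hL : 0 < L)
    (hq : L ^ (e * n) < q) (hd : q ∣ ∑ b ∈ range (e + 1), h ^ (b * n)) {Y : ℕ → ℚ}
    (hY : Rel e n Y) :
    ∃ x W, Lam e n q h x W ∧ ∀ j, |W j - Y j| ≤ e * ((e * n : ℕ) * (e * (1 / L))) := by
  obtain ⟨x, v, hv, hv0, hvb⟩ := exists_short hc he hn hL hq hd
  obtain ⟨a, ha⟩ := hc.2 v hv.1 hv0 Y
  have hW := hv.1.comb (e * n) fun l => (round (a l) : ℤ)
  refine ⟨x * ∑ l ∈ range (e * n), round (a l) * (h : ℤ) ^ l, _, ⟨hW, fun j => ?_⟩,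
    (hW.sub hY).bound he hn fun i hi => ?_⟩
  · have : ∑ l ∈ range (e * n), ((round (a l) : ℤ) : ℚ) * v (l + j) -
        ((x * ∑ l ∈ range (e * n), round (a l) * (h : ℤ) ^ l : ℤ) : ℚ) * (h : ℚ) ^ j / q =
        ∑ l ∈ range (e * n), ((round (a l) : ℤ) : ℚ) * (v (l + j) - x * (h : ℚ) ^ (l + j) / q) := by
      push_cast
      rw [mul_sum, sum_mul, sum_div, ← sum_sub_distrib]
      refine sum_congr rfl fun l _ => ?_
      ring
    rw [this]
    exact sum_mem fun l _ => mul_mem (intCast_mem _ _) (hv.2 _)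
  · rw [ha i hi, ← sum_sub_distrib]
    refine (abs_sum_le_sum_abs _ _).trans ?_
    have := sum_le_card_nsmul (range (e * n))
      (fun l => |((round (a l) : ℤ) : ℚ) * v (l + i) - a l * v (l + i)|) (e * (1 / L)) fun l _ => by
        rw [← sub_mul, abs_mul, abs_sub_comm]
        have h1 := abs_sub_round (a l)
        have h2 := hvb (l + i)
        have h3 := abs_nonneg (v (l + i))
        nlinarith
    rwa [card_range, nsmul_eq_mul] at this

end Pool.Agent.Lib.MP_53226a_nt.H7
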