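import Mathlib

/-! Polynomial functions that vanish on many grids of roots of unity vanish identically. -/

set_option autoImplicit false

namespace Pool.Agent.Lib.MP_53226a_nt.H7

open Finset Polynomial

variable {F : Type} [Field F]

lemma zero_of_roots {ι : Type} [Fintype ι] (g : ι → F) (u : ι → ℕ) {A : ℕ} (hu : ∀ i, u i < A)
    (T : Finset F) (hT : A ≤ T.card) (h : ∀ x ∈ T, ∑ i, g i * x ^ u i = 0) (x : F) :
    ∑ i, g i * x ^ u i = 0 := by
  have he : ∀ x : F, (∑ i, C (g i) * X ^ u i : F[X]).eval x = ∑ i, g i * x ^ u i := by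
    intro x
    simp [eval_finsetSum]
  have hd : (∑ i, C (g i) * X ^ u i : F[X]) ∈ degreeLT F A := by
    refine Submodule.sum_mem _ fun i _ => mem_degreeLT.2 ?_
    exact (degree_C_mul_X_pow_le _ _).trans_lt (by exact_mod_cast hu i)
  have := eq_zero_of_degree_lt_of_eval_finset_eq_zero T
    ((mem_degreeLT.1 hd).trans_le (by exact_mod_cast hT)) (fun x hx => (he x).trans (h x hx))
  rw [← he, this, eval_zero]

lemma zero_of_cofinite [Infinite F] {ι : Type} [Fintype ι] (g : ι → F) (u : ι → ℕ) (S : Set F)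
    (hS : S.Finite) (h : ∀ x, x ∉ S → ∑ i, g i * x ^ u i = 0) (x : F) :
    ∑ i, g i * x ^ u i = 0 := by
  obtain ⟨T, h1, h2⟩ := hS.infinite_compl.exists_subset_card_eq (univ.sup u + 1)
  exact zero_of_roots g u (A := univ.sup u + 1)
    (fun i => Nat.lt_succ_of_le (le_sup (f := u) (mem_univ i))) T h2.ge (fun x hx => h x (h1 hx)) x

/-- A polynomial function of degree below `A` in one variable and below `R` in `j` further
variables that vanishes on the grids of `D`-th roots of unity, `D` in `S`, vanishes. -/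
def Van (F : Type) [Field F] (S : Finset ℕ) (j A R : ℕ) : Prop :=
  ∀ (ι : Type) [Fintype ι] (g : ι → F) (u : ι → ℕ) (w : ι → Fin j → ℕ),
    (∀ i, u i < A) → (∀ i l, w i l < R) →
    (∀ D ∈ S, ∀ (x : F) (y : Fin j → F), x ^ D = 1 → (∀ l, y l ^ D = 1) →
      ∑ i, g i * x ^ u i * ∏ l, y l ^ w i l = 0) →
    ∀ (x : F) (y : Fin j → F), ∑ i, g i * x ^ u i * ∏ l, y l ^ w i l = 0

lemma Van.mono {S : Finset ℕ} {j A A' R : ℕ} (h : Van F S j A R) (hA : A' ≤ A) :
    Van F S j A' R :=
  fun ι _ g u w hu hw => h ι g u w (fun i => (hu i).trans_le hA) hw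

lemma exists_prim [IsAlgClosed F] {a : ℕ} (ha : (a : F) ≠ 0) : ∃ ζ : F, IsPrimitiveRoot ζ a := by
  have : NeZero (a : F) := ⟨ha⟩
  exact HasEnoughRootsOfUnity.exists_primitiveRoot F a

theorem van_zero [IsAlgClosed F] {S : Finset ℕ} (hS : ∀ D ∈ S, D.Prime ∧ (D : F) ≠ 0) {A R : ℕ}
    (hA : A ≤ ∑ D ∈ S, (D - 1)) : Van F S 0 A R := by
  classical
  intro ι _ g u w hu _ h x y
  simp only [univ_eq_empty, prod_empty, mul_one] at h ⊢
  refine zero_of_roots g u hu (S.biUnion fun D => primitiveRoots D F) ?_ (fun z hz => ?_) x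
  · rw [card_biUnion fun a _ b _ hab => IsPrimitiveRoot.disjoint hab]
    refine hA.trans (le_of_eq (sum_congr rfl fun D hD => ?_))
    obtain ⟨ζ, hζ⟩ := exists_prim (hS D hD).2
    rw [hζ.card_primitiveRoots, Nat.totient_prime (hS D hD).1]
  · obtain ⟨D, hD, hz⟩ := mem_biUnion.1 hz
    exact h D hD z y ((mem_primitiveRoots (hS D hD).1.pos).1 hz).pow_eq_one fun l => l.elim0

lemma two_mul_card_not_dvd {a : ℕ} (ha : 2 ≤ a) (K : ℕ) :
    K ≤ 2 * ((Ioc 0 K).filter fun b => ¬ a ∣ b).card := by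
  have h1 := Nat.Ioc_filter_dvd_card_eq_div K a
  have h2 := card_filter_add_card_filter_not (s := Ioc 0 K) (fun b => a ∣ b)
  rw [h1, Nat.card_Ioc] at h2
  have h3 : K / a ≤ K / 2 := Nat.div_le_div_left ha (by norm_num)
  omega

theorem van_succ [IsAlgClosed F] {S T : Finset ℕ} (hT : ∀ a ∈ T, a.Prime ∧ (a : F) ≠ 0)
    {j A R Ka Kb : ℕ} (hKa : ∀ a ∈ T, a ≤ Ka) (hR : 2 * R ≤ Kb * ∑ a ∈ T, a)
    (ih : Van F S j (A * Ka + R * Kb + 1) R) : Van F S (j + 1) A R := by
  classical
  intro ι _ g u w hu hw h x y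
  have hA : ∀ a b, a ≤ Ka → b ≤ Kb → ∀ s : F,
      ∑ i, (g i * (s ^ a) ^ u i * ∏ l : Fin j, y l.succ ^ w i l.succ) * (s ^ b) ^ w i 0 = 0 := by
    intro a b ha hb s
    have := ih ι g (fun i => a * u i + b * w i 0) (fun i l => w i l.succ)
      (fun i => by
        have h1 := Nat.mul_le_mul ha (hu i).le
        have h2 := Nat.mul_le_mul hb (hw i 0).le
        rw [mul_comm A, mul_comm R]
        omega)
      (fun i l => hw i _)
      (fun D hD x y hx hy => by
        have := h D hD (x ^ a) (Fin.cons (x ^ b) y) (by rw [← pow_mul, mul_comm, pow_mul, hx, one_pow])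
          (fun l => by
            refine Fin.cases ?_ (fun l => ?_) l
            · rw [Fin.cons_zero, ← pow_mul, mul_comm, pow_mul, hx, one_pow]
            · rw [Fin.cons_succ, hy])
        refine Eq.trans (sum_congr rfl fun i _ => ?_) this
        rw [Fin.prod_univ_succ]
        simp only [Fin.cons_zero, Fin.cons_succ]
        ring)
      s (fun l => y l.succ)
    refine Eq.trans (sum_congr rfl fun i _ => ?_) this
    ring
  have hζ : ∀ a : ℕ, ∃ ζ : F, a ∈ T → IsPrimitiveRoot ζ a := fun a => by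
    by_cases ha : a ∈ T
    · exact (exists_prim (hT a ha).2).imp fun _ h _ => h
    · exact ⟨0, fun h => absurd h ha⟩
  choose ζ hζ using hζ
  have hfin : ({0} ∪ ⋃ n ∈ Ioc 0 (Ka * Kb), {x : F | x ^ n = 1} : Set F).Finite := by
    refine (Set.finite_singleton _).union (Set.Finite.biUnion (Finset.finite_toSet _) fun n hn => ?_)
    have hn0 : 0 < n := (mem_Ioc.1 hn).1
    refine ((nthRootsFinset n (1 : F)).finite_toSet).subset fun x hx => ?_
    exact (mem_nthRootsFinset hn0 _).2 hx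
  have hB := zero_of_cofinite (fun i => g i * ∏ l, y l ^ w i l) u _ hfin (fun x hx => ?_) x
  · refine Eq.trans (sum_congr rfl fun i _ => ?_) hB
    ring
  simp only [Set.mem_union, Set.mem_singleton_iff, Set.mem_iUnion, Set.mem_ofPred_eq, not_or,
    not_exists, mem_Ioc] at hx
  obtain ⟨hx0, hx1⟩ := hx
  have hinj : ∀ n n', n ≤ Ka * Kb → n' ≤ Ka * Kb → x ^ n = x ^ n' → n = n' := by
    intro n n' h1 h2 h3
    wlog hlt : n ≤ n' generalizing n n'
    · exact (this n' n h2 h1 h3.symm (by omega)).symm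
    obtain ⟨c, rfl⟩ := Nat.exists_eq_add_of_le hlt
    by_contra hc
    refine hx1 c ⟨by omega, by omega⟩ ?_
    rw [pow_add] at h3
    exact (mul_left_cancel₀ (pow_ne_zero n hx0) (by rw [mul_one]; exact h3)).symm
  have hs : ∀ a : ℕ, ∃ s : F, a ∈ T → s ^ a = x := fun a => by
    by_cases ha : a ∈ T
    · exact (IsAlgClosed.exists_pow_nat_eq x (hT a ha).1.pos).imp fun _ h _ => h
    · exact ⟨0, fun h => absurd h ha⟩
  choose s hs using hs
  have hroot : ∀ a ∈ T, ∀ i, (ζ a ^ i * s a) ^ a = x := fun a ha i => by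
    rw [mul_pow, ← pow_mul, mul_comm i, pow_mul, (hζ a ha).pow_eq_one, one_pow, one_mul, hs a ha]
  set I : Finset (Σ _ : ℕ, ℕ × ℕ) :=
    T.sigma fun a => ((Ioc 0 Kb).filter fun b => ¬ a ∣ b) ×ˢ range a with hI
  have hcard : R ≤ (I.image fun z => (ζ z.1 ^ z.2.2 * s z.1) ^ z.2.1).card := by
    rw [card_image_of_injOn, hI, card_sigma]
    · refine Nat.le_of_mul_le_mul_left (hR.trans ?_) two_pos
      rw [mul_sum, mul_sum]
      refine sum_le_sum fun a ha => ?_
      rw [card_product, card_range, ← mul_assoc]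
      exact Nat.mul_le_mul_right _ (two_mul_card_not_dvd (hT a ha).1.two_le Kb)
    · rintro ⟨a, b, i⟩ h1 ⟨a', b', i'⟩ h2 h3
      simp only [hI, coe_sigma, Set.mem_sigma_iff, mem_coe, mem_product, mem_filter, mem_Ioc,
        mem_range] at h1 h2 h3
      obtain ⟨ha, ⟨⟨-, hb⟩, hab⟩, hi⟩ := h1
      obtain ⟨ha', ⟨⟨-, hb'⟩, hab'⟩, hi'⟩ := h2
      have e1 : a' * b = a * b' := by
        refine hinj _ _ (Nat.mul_le_mul (hKa _ ha') hb) (Nat.mul_le_mul (hKa _ ha) hb') ?_
        calc x ^ (a' * b) = ((ζ a ^ i * s a) ^ b) ^ (a * a') := by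
              rw [← hroot a ha i, ← pow_mul, ← pow_mul]; congr 1; ring
          _ = x ^ (a * b') := by
              rw [h3, ← hroot a' ha' i', ← pow_mul, ← pow_mul]; congr 1; ring
      have e2 : a = a' := by
        have : a ∣ a' * b := ⟨b', e1⟩
        rcases (hT a ha).1.dvd_mul.1 this with h | h
        · exact (Nat.prime_dvd_prime_iff_eq (hT a ha).1 (hT a' ha').1).1 h
        · exact absurd h hab
      subst e2
      have e3 : b = b' := Nat.eq_of_mul_eq_mul_left (hT a ha).1.pos e1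
      subst e3
      have hs0 : s a ≠ 0 := fun h0 => hx0 (by rw [← hs a ha, h0, zero_pow (hT a ha).1.ne_zero])
      rw [mul_pow, mul_pow] at h3
      have h4 := mul_right_cancel₀ (pow_ne_zero b hs0) h3
      have hp := (hζ a ha).pow_of_coprime b (((hT a ha).1.coprime_iff_not_dvd).2 hab).symm
      have e4 : i = i' := hp.pow_inj hi hi' (by
        rw [← pow_mul, ← pow_mul, mul_comm b, mul_comm b, pow_mul, pow_mul, h4])
      rw [e4]
  have := zero_of_roots (fun i => g i * x ^ u i * ∏ l : Fin j, y l.succ ^ w i l.succ)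
    (fun i => w i 0) (fun i => hw i 0) _ hcard (fun z hz => by
      obtain ⟨⟨a, b, i⟩, h1, rfl⟩ := mem_image.1 hz
      simp only [hI, mem_sigma, mem_product, mem_filter, mem_Ioc] at h1
      have := hA a b (hKa a h1.1) h1.2.1.1.2 (ζ a ^ i * s a)
      rwa [hroot a h1.1] at this) (y 0)
  refine Eq.trans (sum_congr rfl fun i _ => ?_) this
  rw [Fin.prod_univ_succ]
  ring

end Pool.Agent.Lib.MP_53226a_nt.H7
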