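import Pool.Agent.Lib.MP_53226a_nt.H86Tay
import Pool.Agent.Lib.MP_53226a_nt.H7Geo
import Pool.Agent.Results.MP_53226a_nt.TwoThirds

/-! The rank of the averaged least residue function is at most the number of odd characters whose
value `L(χ,0)` has small valuation. -/

namespace Pool.Agent.Lib.MP_53226a_nt.H86

open Polynomial Finset Pool.Agent.Results.MP_53226a_nt.TwoThirds Pool.Agent.Lib.MP_53226a_nt.H7

lemma sum_pow {q : ℕ} [Fact q.Prime] {g : ZMod q} (hg : IsPrimitiveRoot g (q - 1)) {M : Type}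
    [AddCommMonoid M] (F : ZMod q → M) (h0 : F 0 = 0) :
    ∑ i ∈ range (q - 1), F (g ^ i) = ∑ b, F b := by
  classical
  have : NeZero (q - 1) := ⟨by have := (Fact.out : q.Prime).two_le; omega⟩
  rw [← sum_image (f := F) hg.injOn_pow]
  refine sum_subset (subset_univ _) fun b _ hb => ?_
  by_contra h
  obtain ⟨i, h1, h2⟩ := hg.eq_pow_of_pow_eq_one
    (ZMod.pow_card_sub_one_eq_one (a := b) fun h1 => h (h1 ▸ h0))
  exact hb (mem_image.2 ⟨i, mem_range.2 h1, h2⟩)

lemma exists_chi {q : ℕ} [Fact q.Prime] {g : ZMod q} (hg : IsPrimitiveRoot g (q - 1)) {ω : ℂ}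
    (hω : ω ^ (q - 1) = 1) : ∃ χ : DirichletCharacter ℂ q, χ g = ω := by
  have h0 : q - 1 ≠ 0 := by have := (Fact.out : q.Prime).two_le; omega
  have : NeZero (q - 1) := ⟨h0⟩
  have h1 : Units.ofPowEqOne ω _ hω h0 ∈ rootsOfUnity (Fintype.card (ZMod q)ˣ) ℂ := by
    rw [mem_rootsOfUnity', ZMod.card_units]; exact hω
  have h2 : ∀ x, x ∈ Subgroup.zpowers (hg.isUnit h0).unit := fun x => by
    obtain ⟨i, -, h2⟩ := hg.eq_pow_of_pow_eq_one (ZMod.pow_card_sub_one_eq_one x.ne_zero)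
    exact ⟨i, Units.ext (by simpa using h2)⟩
  exact ⟨_, MulChar.ofRootOfUnity_spec h1 h2⟩

lemma pow_dvd_prime {O : Type} [CommRing O] [IsDomain O] {p k : ℕ} (hp : p.Prime) {ξ : O}
    (hξ : IsPrimitiveRoot ξ (p ^ (k + 1))) : (ξ - 1) ^ Nat.totient (p ^ (k + 1)) ∣ (p : O) := by
  have : Fact p.Prime := ⟨hp⟩
  have : NeZero (p ^ (k + 1)) := ⟨pow_ne_zero _ hp.ne_zero⟩
  rw [← eval_one_cyclotomic_prime_pow (R := O) k, cyclotomic_eq_prod_X_sub_primitiveRoots hξ,
    eval_prod, ← hξ.card_primitiveRoots, ← prod_const]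
  refine prod_dvd_prod_of_dvd _ _ fun μ hμ => ?_
  obtain ⟨i, -, rfl⟩ := hξ.eq_pow_of_pow_eq_one
    ((mem_primitiveRoots (pow_pos hp.pos _)).1 hμ).pow_eq_one
  rw [eval_sub, eval_X, eval_C, ← dvd_neg, neg_sub]
  exact sub_one_dvd_pow_sub_one ξ i

/-- The generating polynomial of the least residues of the powers of `g`. -/
noncomputable def Th {q : ℕ} (g : ZMod q) : ℤ[X] :=
  ∑ i ∈ range (q - 1), monomial i ((g ^ i).val : ℤ)

theorem rank_le {p q j s : ℕ} [Fact q.Prime] (hd : q - 1 = s * (p * p ^ j)) {K : Type} [Field K]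
    {γ : ZMod q} (hγ : IsPrimitiveRoot γ (q - 1)) {h : ℕ} (hh : (h : ZMod q) = γ ^ s) {E : K[X]}
    (hE : E.Monic) (hdvd : X ^ s - 1 ∣ E * (Th γ⁻¹).map (Int.castRingHom K)) {ι : Type}
    [Fintype ι] (y : ι → ZMod q)
    (hli : LinearIndependent K fun i (x : ZMod q) => (Fs q (p * p ^ j) h (x * y i) : K)) :
    Fintype.card ι ≤ E.natDegree := by
  classical
  have : NeZero (q - 1) := ⟨by have := (Fact.out : q.Prime).two_le; omega⟩
  set T : Module.End K (ZMod q → K) := LinearMap.funLeft K K (· * γ) with hT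
  have hTn : ∀ n φ x, (T ^ n) φ x = φ (x * γ ^ n) := fun n => by
    induction n with
    | zero => simp
    | succ n ih =>
      intro φ x
      rw [pow_succ, Module.End.mul_apply, ih, pow_succ, ← mul_assoc]; rfl
  have h1 : aeval T ((Th γ⁻¹).map (Int.castRingHom K)) (Pi.single 1 1) = fun x => (x.val : K) := by
    funext x
    simp only [Th, Polynomial.map_sum, map_monomial, map_sum, aeval_monomial, LinearMap.sum_apply,
      Finset.sum_apply, Module.End.mul_apply, Module.algebraMap_end_apply, Pi.smul_apply, hTn,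
      smul_eq_mul, eq_intCast, Int.cast_natCast]
    have := sum_pow hγ.inv (fun b => (b.val : K) * (Pi.single 1 1 : ZMod q → K) (x * b⁻¹)) (by simp)
    simp only [inv_pow, inv_inv] at this ⊢
    rw [this, sum_eq_single x (fun b _ hb => ?_) (by simp)]
    · by_cases hx : x = 0 <;> simp [hx]
    · by_cases h0 : b = 0
      · simp [h0]
      · rw [Pi.single_eq_of_ne fun h2 => hb ((mul_inv_eq_one₀ h0).1 h2).symm, mul_zero]
  have h2 : aeval T (∑ i ∈ range (p * p ^ j), (X ^ s : K[X]) ^ i) (fun x => (x.val : K))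
      = fun x => (Fs q (p * p ^ j) h x : K) := by
    funext x
    simp only [map_sum, ← pow_mul, map_pow, aeval_X, LinearMap.sum_apply, Finset.sum_apply, hTn, Fs,
      hh, Int.cast_sum, Int.cast_natCast]
  have y0 : ∀ i, ∃ e, γ ^ e = y i := fun i => by
    obtain ⟨e, -, he⟩ := hγ.eq_pow_of_pow_eq_one (ZMod.pow_card_sub_one_eq_one (a := y i)
      fun h0 => hli.ne_zero i (by funext x; simp [h0, Fs]))
    exact ⟨e, he⟩
  choose e he using y0
  refine card_le_of_aeval T (fun x => (Fs q (p * p ^ j) h x : K)) hE ?_ e (by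
    have : (fun i => (T ^ e i) fun x => (Fs q (p * p ^ j) h x : K)) = fun i (x : ZMod q) =>
        (Fs q (p * p ^ j) h (x * y i) : K) := funext fun i => funext fun x => by rw [hTn, he]
    rw [this]; exact hli)
  obtain ⟨C, hC⟩ := hdvd
  have h3 : E * ((∑ i ∈ range (p * p ^ j), (X ^ s : K[X]) ^ i) * (Th γ⁻¹).map (Int.castRingHom K))
      = C * (X ^ (q - 1) - 1) := by
    rw [mul_left_comm, hC, ← mul_assoc, geom_sum_mul, ← pow_mul, ← hd, mul_comm]
  rw [← h2, ← h1, ← Module.End.mul_apply, ← Module.End.mul_apply, ← map_mul, ← map_mul, mul_assoc,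
    h3, map_mul, Module.End.mul_apply, map_sub, map_pow, aeval_X, map_one]
  have h4 : (T ^ (q - 1) - 1) (Pi.single 1 1) = 0 := by
    funext x
    simp [hTn, hγ.pow_eq_one]
  rw [h4, map_zero]

theorem dvd_of_small {p q j k : ℕ} (hp : p.Prime) (hp2 : p ≠ 2) [Fact q.Prime] (P : Ideal O)
    (hP : P.IsMaximal) (hpP : (p : O) ∈ P) {K : Type} [Field K] (π : O →+* K)
    (hπ : ∀ a, π a = 0 ↔ a ∈ P) {g : ZMod q} (hg : IsPrimitiveRoot g (q - 1)) {m : ℕ}
    (hm : ¬ p ∣ m) {η ξ : O} (hη : η ^ m = 1) (hξ : IsPrimitiveRoot ξ (p ^ (j + k + 1)))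
    {χ : DirichletCharacter ℂ q} (hχ : χ g = (η * ξ : O)) {a b : O} (hb : b ∉ P)
    (hab : (b : ℂ) * (-(1 / (q : ℂ)) * ∑ i ∈ Finset.Ico 1 q, (i : ℂ) * χ (i : ZMod q)) ^
      Nat.totient (p ^ (j + 1)) = p * a) :
    (X - C (π η)) ^ p ^ k ∣ (Th g).map (Int.castRingHom K) := by
  have hP' := hP.isPrime
  have : Fact p.Prime := ⟨hp⟩
  have hq0 : (q : ℂ) ≠ 0 := by exact_mod_cast (Fact.out : q.Prime).ne_zero
  have m0 : 0 < m := Nat.pos_of_ne_zero fun h => hm (h ▸ dvd_zero p)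
  set B := ((Th g).map (Int.castRingHom O)).eval (η * (ξ - 1) + η) with hB
  have hBc : (B : ℂ) = ∑ i ∈ Finset.Ico 1 q, (i : ℂ) * χ (i : ZMod q) := by
    rw [← sum_eq, ← sum_pow hg (fun b => (b.val : ℂ) * χ b) (by simp), hB,
      show η * (ξ - 1) + η = η * ξ by ring]
    simp only [Th, Polynomial.map_sum, map_monomial, eval_finsetSum, eval_monomial, map_pow, hχ,
      eq_intCast]
    push_cast
    rfl
  have w0 : ξ - 1 ≠ 0 := sub_ne_zero.2 (hξ.ne_one (Nat.one_lt_pow (by omega) hp.one_lt))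
  have hw := pow_dvd_prime hp hξ
  have hφ : Nat.totient (p ^ (j + k + 1)) = p ^ k * Nat.totient (p ^ (j + 1)) := by
    rw [Nat.totient_prime_pow_succ hp, Nat.totient_prime_pow_succ hp]; ring
  obtain ⟨n, hn⟩ : ∃ n, Nat.totient (p ^ (j + 1)) = n + 1 :=
    Nat.exists_eq_add_one.2 (Nat.totient_pos.2 (pow_pos hp.pos _))
  rw [hφ, hn] at hw
  rw [hn, ← hBc] at hab
  have hwP : ξ - 1 ∈ P := by
    have : CharP K p := (CharP.charP_iff_prime_eq_zero hp).2 (by rw [← map_natCast π, hπ]; exact hpP)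
    rw [← hπ, ← pow_eq_zero_iff (pow_ne_zero (j + k + 1) hp.ne_zero), map_sub, sub_pow_char_pow,
      ← map_pow, hξ.pow_eq_one, map_one, one_pow, sub_self]
  have hdv : (ξ - 1) ^ p ^ k ∣ b * B := by
    obtain ⟨u, hu⟩ := hw
    have w1 : (((ξ - 1) ^ p ^ k : O) : ℂ) ≠ 0 := fun h => pow_ne_zero _ w0 (Subtype.ext h)
    have h1 : ((b * B : O) / ((ξ - 1) ^ p ^ k : O) : ℂ) ^ (n + 1)
        = (b ^ n * (-q) ^ (n + 1) * u * a : O) := by
      have h2 : (p : ℂ) = ((ξ - 1) ^ p ^ k : O) ^ (n + 1) * u := by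
        rw [pow_mul] at hu
        exact_mod_cast congrArg Subtype.val hu
      have h3 : (B : ℂ) = -q * (-(1 / q) * B) := by field_simp
      rw [div_pow, div_eq_iff (pow_ne_zero _ w1)]
      rw [h2] at hab
      generalize ((ξ - 1) ^ p ^ k : O) = W at *
      push_cast
      rw [h3, mul_pow, mul_pow]
      linear_combination (b : ℂ) ^ n * (-q) ^ (n + 1) * hab
    have h2 : IsIntegral ℤ ((b * B : O) / ((ξ - 1) ^ p ^ k : O) : ℂ) :=
      IsIntegral.of_pow n.succ_pos (h1 ▸ Subtype.prop _)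
    exact ⟨⟨_, h2⟩, Subtype.ext (mul_div_cancel₀ _ w1).symm⟩
  have hfix : η ^ p ^ m.totient = η := by
    rw [pow_eq_pow_mod _ hη, Nat.ModEq.pow_totient ((Nat.Prime.coprime_iff_not_dvd hp).2 hm),
      ← pow_eq_pow_mod _ hη, pow_one]
  have hηP : η ∉ P := fun h => hP'.one_notMem (hη ▸ P.pow_mem_of_mem h _ m0)
  have key := taylor_mem P hp hp2 (Nat.totient_pos.2 m0).ne' hfix hηP w0 hwP
    ((pow_dvd_pow _ (Nat.le_mul_of_pos_right _ n.succ_pos)).trans hw) (Th g) hb hdv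
  obtain ⟨D, hD⟩ : X ^ p ^ k ∣ taylor (π η) ((Th g).map (Int.castRingHom K)) := by
    rw [X_pow_dvd_iff]
    intro i hi
    rw [← RingHom.ext_int (π.comp (Int.castRingHom O)) (Int.castRingHom K), ← Polynomial.map_map,
      ← map_taylor, coeff_map, hπ]
    exact key i hi
  refine ⟨taylor (-π η) D, ?_⟩
  have := congrArg (taylor (-π η)) hD
  rwa [taylor_taylor, neg_add_cancel, taylor_zero, taylor_mul, taylor_pow, taylor_X, C_neg,
    ← sub_eq_add_neg] at this

lemma exists_root {n : ℕ} (hn : 0 < n) : ∃ η : O, IsPrimitiveRoot η n :=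
  ⟨⟨_, (Complex.isPrimitiveRoot_exp n hn.ne').isIntegral hn⟩,
    IsPrimitiveRoot.coe_submonoidClass_iff.1 (Complex.isPrimitiveRoot_exp n hn.ne')⟩

theorem card_le_small {p q j k m : ℕ} (hp : p.Prime) (hp2 : p ≠ 2) [Fact q.Prime]
    (hd : q - 1 = p ^ (j + k + 1) * m) (hm : ¬ p ∣ m) (P : Ideal O) (hP : P.IsMaximal)
    (hpP : (p : O) ∈ P) {K : Type} [Field K] (π : O →+* K) (hπ : ∀ a, π a = 0 ↔ a ∈ P)
    {γ : ZMod q} (hγ : IsPrimitiveRoot γ (q - 1)) {h : ℕ} (hh : (h : ZMod q) = γ ^ (m * p ^ k))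
    {ι : Type} [Fintype ι] (y : ι → ZMod q)
    (hli : LinearIndependent K fun i (x : ZMod q) => (Fs q (p * p ^ j) h (x * y i) : K)) :
    Fintype.card ι ≤ ({χ : DirichletCharacter ℂ q |
      χ (-1 : ZMod q) = -1 ∧ ¬ ∃ a b : integralClosure ℤ ℂ, b ∉ P ∧
        (b : ℂ) * (-(1 / (q : ℂ)) * ∑ i ∈ Finset.Ico 1 q, (i : ℂ) * χ (i : ZMod q)) ^
          Nat.totient (p ^ (j + 1)) = p * a} : Set (DirichletCharacter ℂ q)).ncard := by
  classical
  have : Fact p.Prime := ⟨hp⟩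
  have : CharP K p := (CharP.charP_iff_prime_eq_zero hp).2 (by rw [← map_natCast π, hπ]; exact hpP)
  have m0 : 0 < m := Nat.pos_of_ne_zero fun h => hm (h ▸ dvd_zero p)
  have n0 : 0 < p ^ (j + k + 1) := pow_pos hp.pos _
  have : NeZero (m : K) := ⟨fun h => hm ((CharP.cast_eq_zero_iff K p m).1 h)⟩
  obtain ⟨η, hη⟩ := exists_root m0
  obtain ⟨ζ, hζ⟩ := exists_root n0
  have hη' : IsPrimitiveRoot (π η) m := by
    rw [← isRoot_cyclotomic_iff, ← map_cyclotomic m π]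
    exact (hη.isRoot_cyclotomic m0).map
  set Θ := (Th γ⁻¹).map (Int.castRingHom K) with hΘ
  set G := (range m).filter fun t => ¬ (X - C (π η ^ t)) ^ p ^ k ∣ Θ with hG
  have h1 := rank_le (p := p) (j := j) (s := m * p ^ k) (by rw [hd]; ring) hγ hh
    (E := ∏ t ∈ G, (X - C (π η ^ t)) ^ p ^ k)
    (monic_prod_of_monic _ _ fun t _ => (monic_X_sub_C _).pow _) (by
      have h2 := X_pow_sub_C_eq_prod hη' m0 (one_pow m)
      simp only [mul_one, C_1] at h2
      rw [pow_mul, ← one_pow (p ^ k), ← sub_pow_char_pow, h2, ← prod_pow,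
        ← prod_filter_mul_prod_filter_not _ fun t => ¬ (X - C (π η ^ t)) ^ p ^ k ∣ Θ]
      refine mul_dvd_mul_left _ (Finset.prod_dvd_of_coprime (fun a ha b hb hab => ?_)
        fun t ht => not_not.1 (mem_filter.1 ht).2)
      exact (isCoprime_X_sub_C_of_isUnit_sub (sub_ne_zero.2 fun h => hab (hη'.pow_inj
        (mem_range.1 (mem_filter.1 ha).1) (mem_range.1 (mem_filter.1 hb).1) h)).isUnit).pow)
    y hli
  rw [natDegree_prod_of_monic _ _ fun t _ => (monic_X_sub_C _).pow _] at h1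
  simp only [natDegree_pow, natDegree_X_sub_C, mul_one, sum_const, smul_eq_mul] at h1
  have ex : ∀ z : ℕ × O, ∃ χ : DirichletCharacter ℂ q,
      z.2 ^ p ^ (j + k + 1) = 1 → χ γ⁻¹ = (η ^ z.1 * z.2 : O) := fun z => by
    by_cases hz : z.2 ^ p ^ (j + k + 1) = 1
    · have h2 : (η ^ z.1 * z.2) ^ (q - 1) = 1 := by
        rw [hd, mul_pow, pow_mul z.2, hz, ← pow_mul, ← mul_assoc, mul_comm _ m, pow_mul,
          hη.pow_eq_one, one_pow, one_pow, one_mul]
      obtain ⟨χ, hχ⟩ := exists_chi hγ.inv (ω := (η ^ z.1 * z.2 : O))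
        (by exact_mod_cast congrArg Subtype.val h2)
      exact ⟨χ, fun _ => hχ⟩
    · exact ⟨1, fun h => absurd h hz⟩
  choose c hc using ex
  have red : ∀ ξ : O, ξ ^ p ^ (j + k + 1) = 1 → π ξ = 1 := fun ξ hξ => by
    rw [← sub_eq_zero, ← pow_eq_zero_iff n0.ne', sub_pow_char_pow, ← map_pow, hξ, map_one, one_pow,
      sub_self]
  refine h1.trans (le_trans (b := (G ×ˢ primitiveRoots (p ^ (j + k + 1)) O).card) ?_ ?_)
  · rw [card_product, hζ.card_primitiveRoots, Nat.totient_prime_pow_succ hp]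
    exact Nat.mul_le_mul_left _ ((Nat.pow_le_pow_right hp.pos (by omega)).trans
      (Nat.le_mul_of_pos_right _ (by have := hp.two_le; omega)))
  · rw [← Set.ncard_coe_finset]
    refine Set.ncard_le_ncard_of_injOn c (fun z hz => ?_) (fun z hz z' hz' e => ?_)
      (Set.toFinite _)
    · obtain ⟨z1, z2⟩ := mem_product.1 (mem_coe.1 hz)
      have z3 := (mem_primitiveRoots n0).1 z2
      have e1 : (η ^ z.1) ^ m = 1 := by rw [← pow_mul, mul_comm, pow_mul, hη.pow_eq_one, one_pow]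
      have nd : ¬ ∃ a b : integralClosure ℤ ℂ, b ∉ P ∧ (b : ℂ) * (-(1 / (q : ℂ)) *
          ∑ i ∈ Finset.Ico 1 q, (i : ℂ) * c z (i : ZMod q)) ^ Nat.totient (p ^ (j + 1)) = p * a :=
        fun ⟨a, b, hb, hab⟩ => (mem_filter.1 z1).2 (map_pow π η _ ▸
          dvd_of_small hp hp2 P hP hpP π hπ hγ.inv hm e1 z3 (hc z z3.pow_eq_one) hb hab)
      refine ⟨(DirichletCharacter.even_or_odd (c z)).resolve_left fun hev => nd
        ⟨0, 1, hP.isPrime.one_notMem, ?_⟩, nd⟩
      rw [← sum_eq, even_zero _ (fun h0 => ?_) hev]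
      · simp [(Nat.totient_pos.2 (pow_pos hp.pos (j + 1))).ne']
      have e2 := hc z z3.pow_eq_one
      rw [h0, MulChar.one_apply (hγ.inv.isUnit (by rw [hd]; positivity))] at e2
      have e3 : η ^ z.1 * z.2 = 1 := Subtype.ext e2.symm
      have e4 : z.2 ^ m = 1 := by rw [← one_mul (z.2 ^ m), ← e1, ← mul_pow, e3, e1, one_pow]
      exact hm ((dvd_pow_self p (by omega)).trans (z3.dvd_of_pow_eq_one m e4))
    · obtain ⟨z1, z2⟩ := mem_product.1 (mem_coe.1 hz)
      obtain ⟨z3, z4⟩ := mem_product.1 (mem_coe.1 hz')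
      have z5 := ((mem_primitiveRoots n0).1 z2).pow_eq_one
      have z6 := ((mem_primitiveRoots n0).1 z4).pow_eq_one
      have e1 : η ^ z.1 * z.2 = η ^ z'.1 * z'.2 :=
        Subtype.ext ((hc z z5).symm.trans (e ▸ hc z' z6))
      have e2 := congrArg π e1
      rw [map_mul, map_mul, red _ z5, red _ z6, mul_one, mul_one, map_pow, map_pow] at e2
      have e3 := hη'.pow_inj (mem_range.1 (mem_filter.1 z1).1) (mem_range.1 (mem_filter.1 z3).1) e2
      rw [e3] at e1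
      exact Prod.ext e3 (mul_left_cancel₀ (pow_ne_zero _ (hη.ne_zero m0.ne')) e1)

end Pool.Agent.Lib.MP_53226a_nt.H86
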