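import Mathlib

/-! Circular units of prime level and their signs at the real places. -/

namespace Pool.Agent.Lib.MP_53226a_nt.H86

open NumberField Real

variable {K : Type} [Field K] {q : ℕ}

/-- The quotient of `z ^ a - z ^ (-a)` by `z - z ^ (-1)`. -/
noncomputable def xi (z : K) (a : ℕ) : K := (z ^ a - z⁻¹ ^ a) / (z - z⁻¹)

lemma sub_ne {z : K} (hz : IsPrimitiveRoot z q) (h : 2 < q) : z - z⁻¹ ≠ 0 := by
  intro h0
  have z0 : z ≠ 0 := hz.ne_zero (by omega)
  refine hz.pow_ne_one_of_pos_of_lt two_ne_zero h ?_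
  rw [sq]
  nth_rewrite 2 [sub_eq_zero.1 h0]
  exact mul_inv_cancel₀ z0

lemma xi_int {z : K} (hz : IsPrimitiveRoot z q) (h : 2 < q) (a : ℕ) : IsIntegral ℤ (xi z a) := by
  have e : xi z a = ∑ i ∈ Finset.range a, z ^ i * z⁻¹ ^ (a - 1 - i) := by
    rw [xi, ← geom_sum₂_mul, mul_div_cancel_right₀ _ (sub_ne hz h)]
  rw [e]
  exact IsIntegral.sum _ fun i _ => ((hz.isIntegral (by omega)).pow _).mul
    ((hz.inv.isIntegral (by omega)).pow _)

lemma xi_mem {z : K} (hz : IsPrimitiveRoot z q) (h : 2 < q) (a : ℕ) :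
    xi z a ∈ maximalRealSubfield K := by
  intro φ
  have h1 : star (φ z) = (φ z)⁻¹ :=
    (Complex.inv_eq_conj ((hz.map_of_injective φ.injective).norm'_eq_one (by omega))).symm
  simp only [xi, map_div₀, map_sub, map_pow, map_inv₀, star_div₀, star_sub, star_pow, star_inv₀,
    h1, inv_inv]
  rw [← neg_div_neg_eq, neg_sub, neg_sub]

/-- The same quotient as a real algebraic integer. -/
noncomputable def xo {z : K} (hz : IsPrimitiveRoot z q) (h : 2 < q) (a : ℕ) :
    𝓞 (maximalRealSubfield K) :=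
  ⟨⟨xi z a, xi_mem hz h a⟩, (isIntegral_algHom_iff (maximalRealSubfield K).subtype.toIntAlgHom
    Subtype.val_injective).1 (xi_int hz h a)⟩

lemma exists_unit {z : K} (hz : IsPrimitiveRoot z q) (h : 2 < q) {a : ℕ} (ha : a.Coprime q) :
    ∃ u : (𝓞 (maximalRealSubfield K))ˣ,
      (((u : 𝓞 (maximalRealSubfield K)) : maximalRealSubfield K) : K) * (z - z⁻¹)
        = z ^ a - z⁻¹ ^ a := by
  have h1 := hz.pow_of_coprime a ha
  obtain ⟨b, -, hb⟩ := Nat.exists_mul_mod_eq_one_of_coprime ha (by omega)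
  have e : (z ^ a) ^ b = z := by
    rw [← pow_mul, ← Nat.div_add_mod (a * b) q, hb, pow_add, pow_mul, hz.pow_eq_one, one_pow,
      one_mul, pow_one]
  have n1 := sub_ne hz h
  have n2 := sub_ne h1 h
  refine ⟨Units.mkOfMulEqOne (xo hz h a) (xo h1 h b) ?_, ?_⟩
  · refine Subtype.ext (Subtype.ext ?_)
    show xi z a * xi (z ^ a) b = 1
    rw [xi, xi, inv_pow (z ^ a), e, inv_pow]
    rw [div_mul_div_cancel₀ n1, div_self n2]
  · show xi z a * _ = _
    rw [xi, div_mul_cancel₀ _ n1]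

/-- The sign of a real number, written additively. -/
noncomputable def sg (t : ℝ) : ZMod 2 := if t < 0 then 1 else 0

lemma sg_mul {s t : ℝ} (hs : s ≠ 0) (ht : t ≠ 0) : sg (s * t) = sg s + sg t := by
  unfold sg
  rcases hs.lt_or_gt with a | a <;> rcases ht.lt_or_gt with b | b
  · rw [if_neg (mul_pos_of_neg_of_neg a b).not_gt, if_pos a, if_pos b]; rfl
  · rw [if_pos (mul_neg_of_neg_of_pos a b), if_pos a, if_neg b.not_gt]; rfl
  · rw [if_pos (mul_neg_of_pos_of_neg a b), if_neg a.not_gt, if_pos b]; rfl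
  · rw [if_neg (mul_pos a b).not_gt, if_neg a.not_gt, if_neg b.not_gt]; rfl

lemma sg_congr {s t : ℝ} (h : SignType.sign s = SignType.sign t) : sg s = sg t := by
  unfold sg
  simp only [← sign_eq_neg_one_iff, h]

lemma sg_prod {ι : Type} (T : Finset ι) (f : ι → ℝ) (h : ∀ i, f i ≠ 0) :
    sg (∏ i ∈ T, f i) = ∑ i ∈ T, sg (f i) := by
  classical
  induction T using Finset.induction_on with
  | empty => simp [sg]
  | insert i T hi ih =>
    rw [Finset.prod_insert hi, Finset.sum_insert hi,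
      sg_mul (h i) (Finset.prod_ne_zero_iff.2 fun j _ => h j), ih]

lemma sin_sign (hq : q.Prime) (h : 2 < q) {n : ℕ} (hn : ¬q ∣ n) :
    sin (2 * π * (n / q)) ≠ 0 ∧
      sg (sin (2 * π * (n / q))) = ((((2 * n : ℕ) : ZMod q).val : ℕ) : ZMod 2) := by
  have q0 : (0 : ℝ) < q := by exact_mod_cast hq.pos
  set r := n % q with hr
  have r0 : 0 < r := Nat.pos_of_ne_zero fun h0 => hn (Nat.dvd_of_mod_eq_zero h0)
  have r1 : r < q := Nat.mod_lt _ hq.pos
  have e1 : sin (2 * π * (n / q)) = sin (2 * π * (r / q)) := by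
    have : (n : ℝ) = q * (n / q : ℕ) + r := by exact_mod_cast (Nat.div_add_mod n q).symm
    rw [← sin_add_nat_mul_two_pi (2 * π * (r / q)) (n / q)]
    congr 1
    rw [this]; field_simp; ring
  have e2 : ((2 * n : ℕ) : ZMod q).val = 2 * r % q := by
    rw [ZMod.val_natCast, hr, Nat.mul_mod_mod]
  have ho := hq.eq_two_or_odd.resolve_left (by omega)
  have r0' : (0 : ℝ) < r := by exact_mod_cast r0
  have r1' : (r : ℝ) < q := by exact_mod_cast r1
  rw [e1, e2]
  rcases Nat.lt_or_ge (2 * r) q with a | a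
  · have a' : 2 * (r : ℝ) < q := by exact_mod_cast a
    have p : 0 < sin (2 * π * (r / q)) := sin_pos_of_pos_of_lt_pi (by positivity) (by
      have : 2 * ((r : ℝ) / q) < 1 := by rw [← mul_div_assoc, div_lt_one q0]; exact a'
      nlinarith [pi_pos])
    refine ⟨p.ne', ?_⟩
    rw [sg, if_neg p.not_gt, Nat.mod_eq_of_lt a, eq_comm, ZMod.natCast_eq_zero_iff]
    exact Nat.dvd_mul_right 2 r
  · have a' : (q : ℝ) < 2 * r := by exact_mod_cast (show q < 2 * r by omega)
    have p : sin (2 * π * (r / q)) < 0 := by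
      rw [← sin_sub_two_pi]
      have h1 : (r : ℝ) / q < 1 := (div_lt_one q0).2 r1'
      have h2 : 1 < 2 * ((r : ℝ) / q) := by rw [← mul_div_assoc, one_lt_div q0]; exact a'
      exact sin_neg_of_neg_of_neg_pi_lt (by nlinarith [pi_pos]) (by nlinarith [pi_pos])
    refine ⟨p.ne, ?_⟩
    rw [sg, if_pos p, Nat.mod_eq_sub_mod a, Nat.mod_eq_of_lt (by omega), eq_comm,
      ZMod.natCast_eq_one_iff_odd, Nat.odd_iff]
    omega

lemma exp_sub (t : ℝ) (a : ℕ) :
    Complex.exp (t * Complex.I) ^ a - (Complex.exp (t * Complex.I))⁻¹ ^ a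
      = 2 * Complex.I * (sin (a * t) : ℝ) := by
  rw [← Complex.exp_neg, ← Complex.exp_nat_mul, ← Complex.exp_nat_mul, Complex.ofReal_sin,
    Complex.sin]
  push_cast
  have e1 : (a : ℂ) * (t * Complex.I) = a * t * Complex.I := by ring
  have e2 : (a : ℂ) * -(t * Complex.I) = -(a * t) * Complex.I := by ring
  rw [e1, e2]
  linear_combination (Complex.exp (a * t * Complex.I) - Complex.exp (-(a * t) * Complex.I)) *
    Complex.I_mul_I

/-- The real place attached to a residue `y` and the values of the circular units there. -/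
lemma exists_place [NumberField K] (hq : q.Prime) [IsCyclotomicExtension {q} ℚ K] {z : K}
    (hz : IsPrimitiveRoot z q) {y : ℕ} (hy : y.Coprime q) :
    ∃ σ : maximalRealSubfield K →+* ℝ, ∀ (x : maximalRealSubfield K) (a : ℕ),
      (x : K) * (z - z⁻¹) = z ^ a - z⁻¹ ^ a →
        σ x * sin (2 * π * (y / q)) = sin (2 * π * ((a * y : ℕ) / q)) := by
  have : NeZero q := ⟨hq.ne_zero⟩
  have hirr := Polynomial.cyclotomic.irreducible_rat hq.pos
  set φ := (hz.embeddingsEquivPrimitiveRoots ℂ hirr).symm ⟨_, (mem_primitiveRoots hq.pos).2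
    (Complex.isPrimitiveRoot_exp_of_coprime y q hq.ne_zero hy)⟩ with hφ
  have e : φ z = Complex.exp ((2 * π * (y / q) : ℝ) * Complex.I) := by
    rw [← hz.embeddingsEquivPrimitiveRoots_apply_coe ℂ hirr, hφ, Equiv.apply_symm_apply]
    push_cast
    ring_nf
  have hr : ComplexEmbedding.IsReal (φ.toRingHom.comp (maximalRealSubfield K).subtype) :=
    RingHom.ext fun x => x.2 φ.toRingHom
  refine ⟨hr.embedding, fun x a hx => ?_⟩
  have h1 := congrArg φ hx
  have h2 := exp_sub (2 * π * (y / q)) 1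
  simp only [pow_one, Nat.cast_one, one_mul] at h2
  rw [map_mul, map_sub, map_sub, map_pow, map_pow, map_inv₀, e, h2, exp_sub] at h1
  have h3 : (hr.embedding x : ℂ) = φ x := hr.coe_embedding_apply x
  have e3 : (a : ℝ) * (2 * π * (y / q)) = 2 * π * ((a * y : ℕ) / q) := by push_cast; ring
  rw [e3, ← h3] at h1
  have h4 : (2 * Complex.I : ℂ) ≠ 0 := mul_ne_zero two_ne_zero Complex.I_ne_zero
  apply Complex.ofReal_injective
  apply mul_left_cancel₀ h4
  rw [Complex.ofReal_mul, ← h1]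
  ring

end Pool.Agent.Lib.MP_53226a_nt.H86
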