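import Mathlib

/-! Taylor coefficients at roots of unity of order prime to `p`, and ranks of shifted functions. -/

namespace Pool.Agent.Lib.MP_53226a_nt.H86

open Polynomial Finset

/-- The elements fixed modulo `p` by the `f`-th power of Frobenius. -/
def fixedMod (O : Type) [CommRing O] {p : ℕ} (hp : p.Prime) (hp2 : p ≠ 2) (f : ℕ) : Subring O where
  carrier := {x | (p : O) ∣ x ^ p ^ f - x}
  mul_mem' := fun {x y} hx hy => by
    have : (x * y) ^ p ^ f - x * y = x ^ p ^ f * (y ^ p ^ f - y) + y * (x ^ p ^ f - x) := by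
      rw [mul_pow]; ring
    exact (dvd_add (Dvd.dvd.mul_left hy _) (Dvd.dvd.mul_left hx _)).trans this.symm.dvd
  one_mem' := by simp
  add_mem' := fun {x y} hx hy => by
    obtain ⟨r, hr⟩ := exists_add_pow_prime_pow_eq hp x y f
    have : (x + y) ^ p ^ f - (x + y) = (x ^ p ^ f - x) + (y ^ p ^ f - y) + p * (x * y * r) := by
      rw [hr]; ring
    exact (dvd_add (dvd_add hx hy) (dvd_mul_right _ _)).trans this.symm.dvd
  zero_mem' := by simp [hp.ne_zero]
  neg_mem' := fun {x} hx => by
    have : (-x) ^ p ^ f - -x = -(x ^ p ^ f - x) := by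
      rw [(hp.odd_of_ne_two hp2).pow.neg_pow]; ring
    exact (dvd_neg.2 hx).trans this.symm.dvd

theorem taylor_mem {O : Type} [CommRing O] [IsDomain O] (P : Ideal O) [hP : P.IsPrime] {p : ℕ}
    (hp : p.Prime) (hp2 : p ≠ 2) {f : ℕ} (hf : f ≠ 0) {η w : O} (hη : η ^ p ^ f = η)
    (hηP : η ∉ P) (hw0 : w ≠ 0) (hwP : w ∈ P) {s : ℕ} (hs : w ^ s ∣ (p : O)) (A : ℤ[X]) {b : O}
    (hb : b ∉ P) (h : w ^ s ∣ b * (A.map (Int.castRingHom O)).eval (η * w + η)) (i : ℕ)
    (hi : i < s) : (taylor η (A.map (Int.castRingHom O))).coeff i ∈ P := by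
  set τ := taylor η (A.map (Int.castRingHom O)) with hτ
  set ι := algebraMap O (Localization.AtPrime P) with hι
  have loc : ∀ {u x c : O}, c ∉ P → u ∣ c * x → ι u ∣ ι x := fun {u x c} hc hd => by
    have h1 := map_dvd ι hd
    rwa [map_mul, ((IsLocalization.AtPrime.isUnit_to_map_iff _ P c).2 hc).dvd_mul_left] at h1
  have fix : ∀ l, (p : O) ∣ τ.coeff l ^ p ^ f - τ.coeff l := fun l => by
    have h0 : η ∈ fixedMod O hp hp2 f := (dvd_zero _).trans (sub_eq_zero.2 hη).symm.dvd
    have h1 : _ = τ := (map_taylor (A.map (Int.castRingHom (fixedMod O hp hp2 f))) ⟨η, h0⟩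
      (fixedMod O hp hp2 f).subtype).trans (by
        rw [Polynomial.map_map, RingHom.ext_int (RingHom.comp _ _) (Int.castRingHom O)]; rfl)
    have h2 : τ.coeff l ∈ fixedMod O hp hp2 f := by
      rw [← h1, coeff_map]
      exact Subtype.prop _
    exact h2
  have w0 : ι w ≠ 0 := fun h0 => hw0 (IsLocalization.injective _ P.primeCompl_le_nonZeroDivisors
    (h0.trans (map_zero _).symm))
  induction i using Nat.strong_induction_on with
  | _ i ih =>
    have h1 : ι (w ^ (i + 1)) ∣ ι (τ.eval (η * w)) := by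
      rw [hτ, taylor_eval]
      exact loc hb ((pow_dvd_pow w hi).trans h)
    rw [eval_eq_sum_range' (n := τ.natDegree + i + 1) (by omega),
      ← add_sum_erase _ _ (mem_range.2 (show i < _ by omega)), map_add, map_sum,
      dvd_add_left (dvd_sum fun l hl => ?_)] at h1
    · rw [mul_pow, ← mul_assoc, map_mul, pow_succ', map_mul, map_pow,
        mul_dvd_mul_iff_right (pow_ne_zero i w0)] at h1
      have h2 := Ideal.mem_of_dvd _ h1
        ((IsLocalization.AtPrime.to_map_mem_maximal_iff (Localization.AtPrime P) P w).2 hwP)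
      rw [IsLocalization.AtPrime.to_map_mem_maximal_iff _ P] at h2
      exact (hP.mem_or_mem h2).resolve_right fun h3 => hηP (hP.mem_of_pow_mem _ h3)
    · rcases (ne_of_mem_erase hl).lt_or_gt with h2 | h2
      · have h3 := ih l h2 (by omega)
        obtain ⟨N, hN⟩ : ∃ N, p ^ f = N + 1 + 1 :=
          ⟨p ^ f - 2, by have := Nat.one_lt_pow hf hp.one_lt; omega⟩
        have h4 : τ.coeff l ^ (N + 1) - 1 ∉ P := fun h4 => hP.one_notMem (by
          simpa using P.sub_mem (P.pow_mem_of_mem h3 _ N.succ_pos) h4)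
        rw [map_mul]
        refine Dvd.dvd.mul_right (loc h4 (((pow_dvd_pow w hi).trans hs).trans ?_)) _
        rw [sub_mul, one_mul, ← pow_succ, ← hN]
        exact fix l
      · refine map_dvd ι (Dvd.dvd.mul_left ?_ _)
        rw [mul_pow]
        exact (pow_dvd_pow w h2).mul_left _

theorem card_le_of_aeval {K V : Type} [Field K] [AddCommGroup V] [Module K V] (T : Module.End K V)
    (v : V) {E : K[X]} (hE : E.Monic) (h : aeval T E v = 0) {ι : Type} [Fintype ι] (e : ι → ℕ)
    (hli : LinearIndependent K fun i => (T ^ e i) v) : Fintype.card ι ≤ E.natDegree := by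
  classical
  set Z := (range E.natDegree).image fun l => (T ^ l) v with hZ
  have mem : ∀ n, (T ^ n) v ∈ Submodule.span K (Z : Set V) := fun n => by
    have h1 : (T ^ n) v = aeval T (X ^ n %ₘ E) v := by
      have h2 := congrArg (fun A => aeval T A v) (modByMonic_add_div (X ^ n) E)
      simp only [map_add, mul_comm E, map_mul, map_pow, aeval_X, LinearMap.add_apply,
        Module.End.mul_apply, h, map_zero, add_zero] at h2
      exact h2.symm
    rw [h1]
    by_cases h0 : X ^ n %ₘ E = 0
    · simp [h0]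
    rw [aeval_eq_sum_range' (natDegree_lt_natDegree h0 (degree_modByMonic_lt _ hE)),
      LinearMap.sum_apply]
    exact Submodule.sum_mem _ fun l hl => Submodule.smul_mem _ _
      (Submodule.subset_span (mem_coe.2 (mem_image_of_mem _ hl)))
  have h2 : LinearIndependent K fun i => (⟨_, mem (e i)⟩ : Submodule.span K (Z : Set V)) :=
    LinearIndependent.of_comp (Submodule.subtype _) hli
  exact h2.fintype_card_le_finrank.trans ((finrank_span_finset_le_card Z).trans
    (card_image_le.trans (card_range _).le))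

end Pool.Agent.Lib.MP_53226a_nt.H86
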