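import Pool.Agent.Lib.MP_53226a_nt.H91W
import Pool.Agent.Results.MP_53226a_nt.TwoThirds

/-! Some odd character with a `p`-indivisible value `L(χ,0)` is non-trivial at a given short list
of primes dividing `q - 1`; its Frobenius orbit bounds the number of such characters from below. -/

namespace Pool.Agent.Lib.MP_53226a_nt

open Pool.Agent.Results.MP_53226a_nt.TwoThirds Finset

open Classical in
lemma fourier_sub {q N d : ℕ} [Fact q.Prime] (hN : 0 < N) (hd : q - 1 = N * d) {h : ZMod q}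
    (hh : h ^ N = 1) (x : ZMod q) :
    (d : ℂ) * ∑ j ∈ range N, ((x * h ^ j).val : ℂ) =
      ∑ χ ∈ univ.filter (fun χ : DirichletCharacter ℂ q => χ h⁻¹ = 1),
        χ x⁻¹ * ∑ b : ZMod q, (b.val : ℂ) * χ b := by
  refine mul_left_cancel₀ (show (N : ℂ) ≠ 0 by exact_mod_cast hN.ne') ?_
  rw [← mul_assoc, ← Nat.cast_mul, ← hd, mul_sum]
  simp only [Pool.Agent.Results.MP_53226a_nt.TwoThirds.fourier]
  rw [sum_comm, sum_filter, mul_sum]
  refine sum_congr rfl fun χ _ => ?_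
  simp only [mul_inv, map_mul, ← inv_pow, map_pow]
  rw [← sum_mul, ← mul_sum]
  split_ifs with h1
  · simp only [h1, one_pow, sum_const, card_range, nsmul_eq_mul]
    ring
  · rw [geom_sum_eq h1, ← map_pow, inv_pow, hh]
    simp

open Classical in
lemma fourier_op {q N d : ℕ} [Fact q.Prime] (hN : 0 < N) (hd : q - 1 = N * d) {h : ZMod q}
    (hh : h ^ N = 1) (L : Finset ℕ) (g : ℕ → ZMod q) (x : ZMod q) :
    (d : ℂ) * ∑ S ∈ L.powerset, (-1) ^ S.card *
        ∑ j ∈ range N, ((x * (∏ l ∈ S, g l) * h ^ j).val : ℂ) =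
      ∑ χ ∈ univ.filter (fun χ : DirichletCharacter ℂ q => χ h⁻¹ = 1),
        χ x⁻¹ * (∑ b : ZMod q, (b.val : ℂ) * χ b) * ∏ l ∈ L, (1 - χ (g l)⁻¹) := by
  rw [mul_sum]
  simp only [mul_left_comm (d : ℂ), fourier_sub hN hd hh]
  simp only [mul_sum (univ.filter _)]
  rw [sum_comm]
  refine sum_congr rfl fun χ _ => ?_
  simp only [sub_eq_add_neg]
  rw [prod_one_add, mul_sum]
  refine sum_congr rfl fun S _ => ?_
  rw [prod_neg, mul_inv, map_mul, ← prod_inv_distrib, map_prod]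
  ring

lemma word_eq_one {q p v : ℕ} [Fact q.Prime] (hp : p.Prime) {h : ZMod q}
    (hh : IsPrimitiveRoot h (p ^ v)) {L : Finset ℕ} (hL : ∀ l ∈ L, l.Prime ∧ l ≠ p)
    {g : ℕ → ZMod q} (hg : ∀ l ∈ L, IsPrimitiveRoot (g l) l) {S : Finset ℕ} (hS : S ⊆ L) {j : ℕ}
    (hj : j < p ^ v) (e : (∏ l ∈ S, g l) * h ^ j = 1) : S = ∅ ∧ j = 0 := by
  have h1 : S = ∅ := by
    by_contra hne
    obtain ⟨l, hl⟩ := nonempty_iff_ne_empty.2 hne
    have e2 : ((∏ l ∈ S, g l) * h ^ j) ^ (p ^ v * ∏ m ∈ S.erase l, m) = 1 := by rw [e, one_pow]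
    have e3 : (h ^ j) ^ (p ^ v * ∏ m ∈ S.erase l, m) = 1 := by
      rw [← pow_mul, mul_left_comm, pow_mul, hh.pow_eq_one, one_pow]
    have e4 : ∏ m ∈ S.erase l, g m ^ (p ^ v * ∏ m ∈ S.erase l, m) = 1 := prod_eq_one fun m hm =>
      ((hg m (hS (mem_erase.1 hm).2)).pow_eq_one_iff_dvd _).2
        (Dvd.dvd.mul_left (dvd_prod_of_mem (fun m => m) hm) _)
    rw [mul_pow, e3, mul_one, ← mul_prod_erase S g hl, mul_pow, ← prod_pow (S.erase l), e4,
      mul_one] at e2
    · have h2 := (hg l (hS hl)).dvd_of_pow_eq_one _ e2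
      have hl' := hL l (hS hl)
      rcases (Nat.Prime.dvd_mul hl'.1).1 h2 with h3 | h3
      · exact hl'.2 ((Nat.prime_dvd_prime_iff_eq hl'.1 hp).1 (hl'.1.dvd_of_dvd_pow h3))
      · obtain ⟨m, hm, h4⟩ := (Prime.dvd_finsetProd_iff hl'.1.prime _).1 h3
        exact (mem_erase.1 hm).1
          ((Nat.prime_dvd_prime_iff_eq hl'.1 (hL m (hS (mem_erase.1 hm).2)).1).1 h4).symm
  refine ⟨h1, ?_⟩
  rw [h1, prod_empty, one_mul] at e
  exact Nat.eq_zero_of_dvd_of_lt (hh.dvd_of_pow_eq_one _ e) hj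

theorem orbit_aux {p q v : ℕ} (hp : p.Prime) (hp2 : p ≠ 2) (hq : q.Prime) (hpq : q ≠ p)
    (hv0 : p ^ v ∣ q - 1) (hv : ¬ p ^ (v + 1) ∣ q - 1) (L : Finset ℕ)
    (hL : ∀ l ∈ L, l.Prime ∧ l ≠ 2 ∧ l ≠ p ∧ l ∣ q - 1)
    (hw : (2 * (p ^ v * 2 ^ L.card)) ^ (p ^ v * 2 ^ L.card) < q)
    (P : Ideal (integralClosure ℤ ℂ)) (hP : P.IsMaximal) (hpP : (p : integralClosure ℤ ℂ) ∈ P)
    {K : Type} [Field K] (π : O →+* K) (hπ : ∀ a, π a = 0 ↔ a ∈ P) (n : ℕ)
    (hn : ∀ e, 0 < e → e < n → ¬ (∏ l ∈ L, l) ∣ p ^ e - 1) :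
    n ≤ ({χ : DirichletCharacter ℂ q |
      χ (-1 : ZMod q) = -1 ∧ ∃ a b : integralClosure ℤ ℂ, a ∉ P ∧ b ∉ P ∧
        (b : ℂ) * (-(1 / (q : ℂ)) * ∑ k ∈ Finset.Ico 1 q, (k : ℂ) * χ (k : ZMod q)) = (a : ℂ)}
      : Set (DirichletCharacter ℂ q)).ncard := by
  classical
  have : Fact q.Prime := ⟨hq⟩
  have : Fact p.Prime := ⟨hp⟩
  obtain ⟨d, hd⟩ := hv0
  have hpd : ¬ p ∣ d := fun h => hv (by rw [hd, pow_succ]; exact Nat.mul_dvd_mul_left _ h)
  have hqP : (q : O) ∉ P := notMem_of_coprime ((Nat.coprime_primes hp hq).2 hpq.symm) P hP hpP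
  have hqk : (q : K) ≠ 0 := by
    rw [← map_natCast π, Ne, hπ]; exact hqP
  have hdk : (d : K) ≠ 0 := by
    rw [← map_natCast π, Ne, hπ]
    exact notMem_of_coprime ((Nat.Prime.coprime_iff_not_dvd hp).2 hpd) P hP hpP
  have : CharP K p := (CharP.charP_iff_prime_eq_zero hp).2 (by rw [← map_natCast π, hπ]; exact hpP)
  have hq0 : 0 < q - 1 := by have := hq.two_le; omega
  have hN : 0 < p ^ v := pow_pos hp.pos v
  obtain ⟨ζ, hζ⟩ := HasEnoughRootsOfUnity.exists_primitiveRoot (ZMod q) (q - 1)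
  have hh : IsPrimitiveRoot (ζ ^ d) (p ^ v) := hζ.pow hq0 (by rw [hd, mul_comm])
  generalize ζ ^ d = h at hh
  set g : ℕ → ZMod q := fun l => ζ ^ ((q - 1) / l) with hgdef
  have hg : ∀ l ∈ L, IsPrimitiveRoot (g l) l := fun l hl =>
    hζ.pow hq0 (Nat.div_mul_cancel (hL l hl).2.2.2).symm
  set ch : DirichletCharacter ℂ q → ZMod q → O := fun χ x => ⟨χ x, integral_chi χ x⟩ with hch
  set Bs : DirichletCharacter ℂ q → O := fun χ => ∑ b : ZMod q, (b.val : O) * ch χ b with hBs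
  have hBc : ∀ χ, (Bs χ : ℂ) = ∑ b : ZMod q, (b.val : ℂ) * χ b := by
    intro χ
    simp only [hBs, hch]
    push_cast
    rfl
  have hfrob : ∀ χ, π (Bs (χ ^ p)) = π (Bs χ) ^ p := by
    intro χ
    simp only [hBs, map_sum, map_mul, map_natCast]
    rw [sum_pow_char]
    apply Finset.sum_congr rfl
    intro b _
    have e1 : ch (χ ^ p) b = ch χ b ^ p := by
      apply Subtype.ext
      simp only [hch]
      push_cast
      exact MulChar.pow_apply' χ hp.ne_zero b
    have e2 : ((b.val : ℕ) : K) ^ p = (b.val : K) := map_natCast (frobenius K p) b.val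
    rw [e1, map_pow, mul_pow, e2]
  have hfrob' : ∀ (n : ℕ) χ, Bs χ ∉ P → Bs (χ ^ p ^ n) ∉ P := by
    intro n χ h
    induction n with
    | zero => simpa using h
    | succ n ih =>
      rw [pow_succ, pow_mul, ← hπ, hfrob]
      exact pow_ne_zero _ fun h0 => ih ((hπ _).1 h0)
  have hex : ∃ χ : DirichletCharacter ℂ q, χ (-1) = -1 ∧ Bs χ ∉ P ∧ ∀ l ∈ L, χ (g l)⁻¹ ≠ 1 := by
    by_contra hcon
    push Not at hcon
    set I := L.powerset ×ˢ range (p ^ v) with hI
    set u : Finset ℕ × ℕ → ZMod q := fun i => (∏ l ∈ i.1, g l) * h ^ i.2 with hu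
    have hodd : Odd (p ^ v * ∏ l ∈ L, l) :=
      ((hp.odd_of_ne_two hp2).pow).mul (prod_induction _ Odd (fun _ _ => Odd.mul) odd_one
        fun l hl => (hL l hl).1.odd_of_ne_two (hL l hl).2.1)
    have hu1 : ∀ y ∈ I.image u, y ^ (p ^ v * ∏ l ∈ L, l) = 1 := by
      intro y hy
      obtain ⟨i, hi, rfl⟩ := mem_image.1 hy
      have hi1 := mem_powerset.1 (mem_product.1 hi).1
      simp only [hu]
      have e3 : (h ^ i.2) ^ (p ^ v * ∏ l ∈ L, l) = 1 := by
        rw [← pow_mul, mul_left_comm, pow_mul, hh.pow_eq_one, one_pow]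
      rw [mul_pow, e3, mul_one, ← prod_pow i.1]
      exact prod_eq_one fun m hm => ((hg m (hi1 hm)).pow_eq_one_iff_dvd _).2
        (Dvd.dvd.mul_left (dvd_prod_of_mem (fun m => m) (hi1 hm)) _)
    have hcard : (I.image u).card ≤ p ^ v * 2 ^ L.card := by
      refine card_image_le.trans ?_
      rw [hI, card_product, card_powerset, card_range, mul_comm]
    have hpos : 0 < p ^ v * 2 ^ L.card := by positivity
    have hq2 : (2 : ZMod q) ≠ 0 := by
      have h1 : 2 * (p ^ v * 2 ^ L.card) ≤ _ := Nat.le_self_pow hpos.ne' _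
      intro h2
      have := Nat.le_of_dvd two_pos ((ZMod.natCast_eq_zero_iff 2 q).1 (by exact_mod_cast h2))
      omega
    have hmem : ((∅, 0) : Finset ℕ × ℕ) ∈ I := mem_product.2 ⟨empty_mem_powerset _, mem_range.2 hN⟩
    have key := few_const hqk (I.image u)
      (fun y hy h0 => by
        have := hu1 y hy
        rw [h0, zero_pow hodd.pos.ne'] at this
        exact zero_ne_one this)
      (fun y hy hy' => by
        have := hu1 _ hy'
        rw [hodd.neg_pow, hu1 y hy] at this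
        exact hq2 (by linear_combination -this))
      (lt_of_le_of_lt ((Nat.pow_le_pow_left (Nat.mul_le_mul_left 2 hcard) _).trans
        (Nat.pow_le_pow_right (by omega) hcard)) hw)
      (fun y => ∑ i ∈ I.filter fun i => u i = y, (-1) ^ i.1.card)
      ((d : K)⁻¹ * π (Bs 1 * ∏ l ∈ L, (1 - ch 1 (g l)⁻¹)))
      (by
        intro x hx
        have h1 : (d : O) * ∑ S ∈ L.powerset, (-1) ^ S.card *
            ∑ j ∈ range (p ^ v), ((x * (∏ l ∈ S, g l) * h ^ j).val : O) =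
            ∑ χ ∈ univ.filter (fun χ : DirichletCharacter ℂ q => χ h⁻¹ = 1),
              ch χ x⁻¹ * Bs χ * ∏ l ∈ L, (1 - ch χ (g l)⁻¹) := by
          apply Subtype.ext
          have := fourier_op hN hd hh.pow_eq_one L g x
          simp only [← hBc] at this
          push_cast at this ⊢
          exact this
        have h2 := congrArg π h1
        rw [map_sum π _ (univ.filter _), sum_eq_single (1 : DirichletCharacter ℂ q)] at h2
        · have e1 : ch 1 x⁻¹ = 1 :=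
            Subtype.ext (MulChar.one_apply (Ne.isUnit (inv_ne_zero hx)))
          rw [e1, one_mul] at h2
          rw [← h2, map_mul, map_natCast, inv_mul_cancel_left₀ hdk]
          simp only [map_sum, map_mul, map_pow, map_neg, map_one, map_natCast, mul_sum, sum_mul]
          rw [← sum_product' (f := fun S j =>
            (-1 : K) ^ S.card * (((x * (∏ l ∈ S, g l) * h ^ j).val : ℕ) : K)),
            ← sum_fiberwise_of_maps_to (s := I) (t := I.image u) (g := u)
              (fun i hi => mem_image_of_mem u hi)]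
          refine sum_congr rfl fun y _ => sum_congr rfl fun i hi => ?_
          rw [← (mem_filter.1 hi).2, mul_assoc]
        · intro χ _ h1
          rcases DirichletCharacter.even_or_odd χ with hev | hodd
          · have : Bs χ = 0 := by
              apply Subtype.ext
              rw [hBc]
              exact even_zero χ h1 hev
            rw [this, mul_zero, zero_mul, map_zero]
          · by_cases hB : Bs χ ∈ P
            · rw [map_mul, map_mul, (hπ _).2 hB, mul_zero, zero_mul]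
            · obtain ⟨l, hl, h3⟩ := hcon χ hodd hB
              have : ch χ (g l)⁻¹ = 1 := Subtype.ext h3
              rw [prod_eq_zero hl (by rw [this, sub_self]), mul_zero, map_zero]
        · intro h3
          exfalso
          apply h3
          rw [mem_filter]
          exact ⟨mem_univ _, MulChar.one_apply (Ne.isUnit (inv_ne_zero (hh.ne_zero hN.ne')))⟩)
      _ (mem_image_of_mem u hmem)
    rw [sum_eq_single ((∅, 0) : Finset ℕ × ℕ)] at key
    · simp at key
    · intro i hi hne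
      obtain ⟨hi1, hi2⟩ := mem_filter.1 hi
      obtain ⟨h1, h2⟩ := word_eq_one hp hh (fun l hl => ⟨(hL l hl).1, (hL l hl).2.2.1⟩) hg
        (mem_powerset.1 (mem_product.1 hi1).1) (mem_range.1 (mem_product.1 hi1).2)
        (by simpa [hu] using hi2)
      exact absurd (Prod.ext h1 h2) hne
    · intro h1
      exact absurd (mem_filter.2 ⟨hmem, rfl⟩ : _ ∈ I.filter fun i => u i = u (∅, 0)) h1
  obtain ⟨χ, hodd, hB, hχ⟩ := hex
  have hdvd : ∀ t, χ ^ t = 1 → ∀ l ∈ L, l ∣ t := by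
    intro t ht l hl
    have : Fact l.Prime := ⟨(hL l hl).1⟩
    have hne : (g l)⁻¹ ≠ 0 := inv_ne_zero ((hg l hl).ne_zero (hL l hl).1.ne_zero)
    rcases Nat.eq_zero_or_pos t with rfl | ht0
    · exact dvd_zero _
    have h1 : χ (g l)⁻¹ ^ t = 1 := by
      rw [← MulChar.pow_apply' χ ht0.ne', ht, MulChar.one_apply (Ne.isUnit hne)]
    have h2 : χ (g l)⁻¹ ^ l = 1 := by
      rw [← map_pow, inv_pow, (hg l hl).pow_eq_one, inv_one, map_one]
    rw [← orderOf_eq_prime h2 (hχ l hl)]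
    exact orderOf_dvd_of_pow_eq_one h1
  have key : ∀ e e' : ℕ, χ ^ p ^ e = χ ^ p ^ (e + e') → (∏ l ∈ L, l) ∣ p ^ e' - 1 := by
    intro e e' h1
    have h2 : p ^ (e + e') = p ^ e + p ^ e * (p ^ e' - 1) := by
      have : 1 ≤ p ^ e' := Nat.one_le_pow _ _ hp.pos
      rw [pow_add, ← mul_one_add, Nat.add_sub_cancel' this]
    rw [h2, pow_add, left_eq_mul] at h1
    refine Finset.prod_primes_dvd _ (fun l hl => (hL l hl).1.prime) fun l hl => ?_
    refine Nat.Coprime.dvd_of_dvd_mul_left ?_ (hdvd _ h1 l hl)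
    exact Nat.Coprime.pow_right _ ((Nat.coprime_primes (hL l hl).1 hp).2 (hL l hl).2.2.1)
  rw [← card_range n, ← Set.ncard_coe_finset]
  refine Set.ncard_le_ncard_of_injOn (fun e => χ ^ p ^ e) (fun e _ => ?_) ?_ (Set.toFinite _)
  · refine ⟨?_, -Bs (χ ^ p ^ e), (q : O), fun h => hfrob' e χ hB (P.neg_mem_iff.1 h), hqP, ?_⟩
    · rw [MulChar.pow_apply' χ (pow_pos hp.pos e).ne', hodd,
        ((hp.odd_of_ne_two hp2).pow).neg_one_pow]
    · have hq0 : (q : ℂ) ≠ 0 := by exact_mod_cast hq.ne_zero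
      push_cast
      rw [hBc, sum_eq]
      field_simp
  · intro e he e' he' h1
    simp only [coe_range, Set.mem_Iio] at he he'
    by_contra hne
    rcases lt_or_gt_of_ne hne with hlt | hlt
    · obtain ⟨c, rfl⟩ := Nat.exists_eq_add_of_le hlt.le
      exact hn c (by omega) (by omega) (key e c h1)
    · obtain ⟨c, rfl⟩ := Nat.exists_eq_add_of_le hlt.le
      exact hn c (by omega) (by omega) (key e' c h1.symm)

/-- Theorem O. If no `e` with `0 < e < n` has `p ^ e ≡ 1` modulo the product of the primes in `L`,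
then at least `n` odd characters have a `p`-indivisible value. -/
theorem orbit_bound {p q v : ℕ} (hp : p.Prime) (hp2 : p ≠ 2) (hq : q.Prime) (hpq : q ≠ p)
    (hv : ¬ p ^ (v + 1) ∣ q - 1) (L : Finset ℕ)
    (hL : ∀ l ∈ L, l.Prime ∧ l ≠ 2 ∧ l ≠ p ∧ l ∣ q - 1)
    (hw : (2 * (p ^ v * 2 ^ L.card)) ^ (p ^ v * 2 ^ L.card) < q)
    (P : Ideal (integralClosure ℤ ℂ)) (hP : P.IsMaximal) (hpP : (p : integralClosure ℤ ℂ) ∈ P)
    (n : ℕ) (hn : ∀ e, 0 < e → e < n → ¬ (∏ l ∈ L, l) ∣ p ^ e - 1) :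
    n ≤ ({χ : DirichletCharacter ℂ q |
      χ (-1 : ZMod q) = -1 ∧ ∃ a b : integralClosure ℤ ℂ, a ∉ P ∧ b ∉ P ∧
        (b : ℂ) * (-(1 / (q : ℂ)) * ∑ k ∈ Finset.Ico 1 q, (k : ℂ) * χ (k : ZMod q)) = (a : ℂ)}
      : Set (DirichletCharacter ℂ q)).ncard := by
  classical
  have hex : ∃ v, ¬ p ^ (v + 1) ∣ q - 1 := ⟨v, hv⟩
  have h1 : Nat.find hex ≤ v := Nat.find_min' hex hv
  have h2 : p ^ Nat.find hex ∣ q - 1 := by
    rcases Nat.eq_zero_or_pos (Nat.find hex) with h | h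
    · rw [h, pow_zero]; exact one_dvd _
    · have := Nat.find_min hex (m := Nat.find hex - 1) (by omega)
      rwa [Nat.sub_add_cancel h, not_not] at this
  have h3 : p ^ Nat.find hex * 2 ^ L.card ≤ p ^ v * 2 ^ L.card :=
    Nat.mul_le_mul_right _ (Nat.pow_le_pow_right hp.pos h1)
  have h4 : 0 < p ^ v * 2 ^ L.card := Nat.mul_pos (pow_pos hp.pos _) (by positivity)
  exact @orbit_aux p q _ hp hp2 hq hpq h2 (Nat.find_spec hex) L hL
    (lt_of_le_of_lt ((Nat.pow_le_pow_left (Nat.mul_le_mul_left 2 h3) _).trans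
      (Nat.pow_le_pow_right (by omega) h3)) hw) P hP hpP (O ⧸ P) (Ideal.Quotient.field P)
    (Ideal.Quotient.mk P) (fun _ => Ideal.Quotient.eq_zero_iff_mem) n hn

end Pool.Agent.Lib.MP_53226a_nt
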