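import Mathlib

/-! Frobenius orbits of odd characters modulo a prime `q = 2^i M + 1`. -/

namespace Pool.Agent.Lib.MP_53226a_nt

lemma two_pow_dvd_of_pow_eq_one {q i M r : ℕ} [Fact q.Prime] (hM : q - 1 = 2 ^ i * M)
    (h4 : 4 ∣ M) {χ : DirichletCharacter ℂ q} (hodd : χ (-1) = -1) (h : χ ^ (M * r) = 1) :
    2 ^ i ∣ r := by
  have hq : q.Prime := Fact.out
  by_contra hnd
  have hr0 : r ≠ 0 := by rintro rfl; exact hnd (dvd_zero _)
  have hM0 : M ≠ 0 := by
    rintro rfl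
    have := hq.two_le
    omega
  obtain ⟨s, r', hr', rfl⟩ := Nat.exists_eq_two_pow_mul_odd hr0
  have hs : s < i := by
    by_contra hs
    exact hnd ((pow_dvd_pow 2 (not_lt.1 hs)).mul_right _)
  obtain ⟨d, rfl⟩ := Nat.exists_eq_add_of_lt hs
  have hq2 : q / 2 = 2 ^ (s + d) * M := by
    have := hq.two_le
    rw [pow_succ] at hM
    have e : 2 ^ (s + d) * 2 * M = 2 * (2 ^ (s + d) * M) := by ring
    omega
  have hne : q ≠ 2 := by
    rintro rfl
    obtain ⟨c, rfl⟩ := h4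
    have : 2 ∣ 2 ^ (s + d + 1) * (4 * c) := Dvd.dvd.mul_left ⟨2 * c, by ring⟩ _
    omega
  obtain ⟨x, hx⟩ := FiniteField.exists_nonsquare (F := ZMod q) (by rw [ZMod.ringChar_zmod_n]; exact hne)
  have hx0 : x ≠ 0 := by rintro rfl; exact hx IsSquare.zero
  have hx1 : x ^ (q / 2) = -1 := by
    rcases ZMod.pow_div_two_eq_neg_one_or_one q hx0 with h1 | h1
    · exact absurd ((ZMod.euler_criterion q hx0).2 h1) hx
    · exact h1
  have h1 : χ x ^ (M * (2 ^ s * r')) = 1 := by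
    rw [← MulChar.pow_apply' χ (Nat.mul_ne_zero hM0 hr0), h, MulChar.one_apply (Ne.isUnit hx0)]
  have h2 : χ x ^ (q / 2) = -1 := by rw [← map_pow, hx1, hodd]
  have h3 : (χ x ^ (q / 2)) ^ r' = (χ x ^ (M * (2 ^ s * r'))) ^ 2 ^ d := by
    rw [← pow_mul, ← pow_mul, hq2]
    congr 1
    ring
  rw [h1, h2, hr'.neg_one_pow, one_pow] at h3
  norm_num at h3

lemma pow_eq_one_add {M u : ℕ} (hM0 : M ≠ 0) (h4 : 4 ∣ M) (hu : Odd u) (d : ℕ) :
    ∃ r, (1 + M * u) ^ d = 1 + M * r ∧ ∀ i, 2 ^ i ∣ r → 2 ^ i ∣ d := by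
  have h1 : M ∣ (1 + M * u) ^ d - 1 := by
    have := Nat.sub_dvd_pow_sub_pow (1 + M * u) 1 d
    rw [one_pow, Nat.add_sub_cancel_left] at this
    exact (dvd_mul_right _ _).trans this
  obtain ⟨r, hr⟩ := h1
  have h2 : 1 ≤ (1 + M * u) ^ d := Nat.one_le_pow _ _ (by omega)
  have h3 : (1 + M * u) ^ d = 1 + M * r := by omega
  refine ⟨r, h3, fun i hi => ?_⟩
  have h5 := Int.two_pow_sub_pow' (x := ((1 + M * u : ℕ) : ℤ)) (y := 1) d
    (by push_cast; rw [add_sub_cancel_left]; exact (Int.natCast_dvd_natCast.2 h4).mul_right _)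
    (by
      obtain ⟨c, rfl⟩ := h4
      push_cast
      intro h
      have : (2 : ℤ) ∣ 4 * c * u := ⟨2 * c * u, by ring⟩
      omega)
  have e1 : ((1 + M * u : ℕ) : ℤ) ^ d - 1 ^ d = (M : ℤ) * r := by
    rw [← Nat.cast_pow, h3]; push_cast; ring
  have e2 : ((1 + M * u : ℕ) : ℤ) - 1 = (M : ℤ) * u := by push_cast; ring
  have hu0 : emultiplicity (2 : ℤ) (u : ℤ) = 0 := by
    rw [emultiplicity_eq_zero]
    intro h
    have : 2 ∣ u := Int.natCast_dvd_natCast.1 h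
    exact (Nat.not_even_iff_odd.2 hu) (even_iff_two_dvd.2 this)
  rw [e1, e2, emultiplicity_mul Int.prime_two, emultiplicity_mul Int.prime_two, hu0, add_zero] at h5
  have hfin : emultiplicity (2 : ℤ) (M : ℤ) ≠ ⊤ := by
    rw [← finiteMultiplicity_iff_emultiplicity_ne_top, Int.finiteMultiplicity_iff]
    exact ⟨by norm_num, by exact_mod_cast hM0⟩
  have h6 : emultiplicity (2 : ℤ) (r : ℤ) = emultiplicity (2 : ℤ) (d : ℤ) :=
    WithTop.add_left_cancel hfin h5
  have h7 : (2 : ℤ) ^ i ∣ (r : ℤ) := by exact_mod_cast hi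
  rw [pow_dvd_iff_le_emultiplicity, h6, ← pow_dvd_iff_le_emultiplicity] at h7
  exact_mod_cast h7

lemma orbit_inj {q i M u : ℕ} [Fact q.Prime] (hM : q - 1 = 2 ^ i * M) (h4 : 4 ∣ M) (hu : Odd u)
    {χ : DirichletCharacter ℂ q} (hodd : χ (-1) = -1) :
    Set.InjOn (fun e : ℕ => χ ^ (1 + M * u) ^ e) (Finset.range (2 ^ i) : Set ℕ) := by
  have hq : q.Prime := Fact.out
  have hM0 : M ≠ 0 := by
    rintro rfl
    have := hq.two_le
    omega
  have key : ∀ e d : ℕ, χ ^ (1 + M * u) ^ e = χ ^ (1 + M * u) ^ (e + d) → 2 ^ i ∣ d := by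
    intro e d h
    obtain ⟨r, hr, hd⟩ := pow_eq_one_add hM0 h4 hu d
    rw [pow_add, hr, mul_add, mul_one, pow_add, left_eq_mul,
      show (1 + M * u) ^ e * (M * r) = M * ((1 + M * u) ^ e * r) by ring] at h
    apply hd
    refine Nat.Coprime.dvd_of_dvd_mul_left ?_ (two_pow_dvd_of_pow_eq_one hM h4 hodd h)
    apply Nat.Coprime.pow
    rw [Nat.coprime_two_left]
    obtain ⟨c, rfl⟩ := h4
    exact ⟨2 * c * u, by ring⟩
  intro e he e' he' h
  simp only [Finset.coe_range, Set.mem_Iio] at he he'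
  rcases le_total e e' with hle | hle
  · obtain ⟨d, rfl⟩ := Nat.exists_eq_add_of_le hle
    have := Nat.eq_zero_of_dvd_of_lt (key e d h) (by omega)
    omega
  · obtain ⟨d, rfl⟩ := Nat.exists_eq_add_of_le hle
    have := Nat.eq_zero_of_dvd_of_lt (key e' d h.symm) (by omega)
    omega

lemma orbit_apply {q M u : ℕ} (hM0 : M ≠ 0) (h4 : 4 ∣ M) (hu : Odd u)
    (χ : DirichletCharacter ℂ q) (e : ℕ) {x : ZMod q} (hx : x ^ M = 1) :
    (χ ^ (1 + M * u) ^ e) x = χ x := by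
  obtain ⟨r, hr, -⟩ := pow_eq_one_add hM0 h4 hu e
  rw [hr, MulChar.pow_apply' χ (by omega), pow_add, pow_one, pow_mul, ← map_pow, hx, map_one,
    one_pow, mul_one]

/-- Among the integers `1, …, a w` there are `w` with the same `M`-th power modulo `q = aM + 1`. -/
lemma exists_rich {q a M w : ℕ} [Fact q.Prime] (hM : q - 1 = a * M) (hw : a * w < q) :
    ∃ T : Finset ℕ, T.card = w ∧ (∀ s ∈ T, 0 < s ∧ s ≤ a * w) ∧
      ∀ s ∈ T, ∀ t ∈ T, (s : ZMod q) ^ M = (t : ZMod q) ^ M := by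
  classical
  have hq : q.Prime := Fact.out
  have ha : 0 < a := by
    rcases Nat.eq_zero_or_pos a with rfl | h
    · have := hq.two_le
      omega
    · exact h
  obtain ⟨y, -, hy⟩ := Finset.exists_le_card_fiber_of_mul_le_card_of_maps_to
    (s := Finset.Icc 1 (a * w)) (t := (Polynomial.nthRoots a (1 : ZMod q)).toFinset)
    (f := fun s : ℕ => (s : ZMod q) ^ M) (n := w)
    (by
      intro s hs
      rw [Finset.mem_Icc] at hs
      rw [Multiset.mem_toFinset, Polynomial.mem_nthRoots ha, ← pow_mul, mul_comm, ← hM]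
      apply ZMod.pow_card_sub_one_eq_one
      rw [Ne, ZMod.natCast_eq_zero_iff]
      intro hd
      have := Nat.le_of_dvd (by omega) hd
      omega)
    ⟨1, by rw [Multiset.mem_toFinset, Polynomial.mem_nthRoots ha, one_pow]⟩
    (by
      rw [Nat.card_Icc, Nat.add_sub_cancel]
      exact Nat.mul_le_mul_right _
        ((Multiset.toFinset_card_le _).trans (Polynomial.card_nthRoots a (1 : ZMod q))))
  obtain ⟨T, hT, hc⟩ := Finset.exists_subset_card_eq hy
  refine ⟨T, hc, fun s hs => ?_, fun s hs t ht => ?_⟩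
  · have := Finset.mem_Icc.1 (Finset.mem_filter.1 (hT hs)).1
    omega
  · rw [(Finset.mem_filter.1 (hT hs)).2, (Finset.mem_filter.1 (hT ht)).2]

end Pool.Agent.Lib.MP_53226a_nt
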