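import Pool.Agent.Lib.MP_53226a_nt.Indep

/-! Independence of the functions `x ↦ (least residue of x / s modulo q)` for any set of positive
integers `s` whose sum is below `q - 1`. -/

namespace Pool.Agent.Lib.MP_53226a_nt

theorem indep_sparse {k : Type*} [Field k] {q : ℕ} [Fact q.Prime] (hk : (q : k) ≠ 0)
    (T : Finset ℕ) (hT : ∀ s ∈ T, 0 < s) (hsumT : ∑ s ∈ T, s + 2 ≤ q) :
    LinearIndependent k (fun s : T => fun x : ZMod q =>
      (((x * ((s.1 : ℕ) : ZMod q)⁻¹).val : ℕ) : k)) := by
  classical
  have hq : q.Prime := Fact.out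
  have hlt : ∀ s ∈ T, s < q := fun s hs => by
    have := Finset.single_le_sum (f := fun s : ℕ => s) (fun _ _ => Nat.zero_le _) hs
    omega
  rw [Fintype.linearIndependent_iff]
  intro c hc
  set c' : ℕ → k := fun y => if h : y ∈ T then c ⟨y, h⟩ else 0 with hc'
  have hsum : ∀ x : ZMod q, ∑ s ∈ T, c' s * (((x * (s : ZMod q)⁻¹).val : ℕ) : k) = 0 := by
    intro x
    have := congrFun hc x
    simp only [Finset.sum_apply, Pi.smul_apply, smul_eq_mul, Pi.zero_apply] at this
    rw [← this, ← Finset.sum_coe_sort]
    apply Finset.sum_congr rfl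
    intro y _
    simp [hc']
  have hex : ∀ s : ℕ, ∃ u : ℤ, 0 < s → s < q → (s : ℤ) ∣ q * u - 1 := by
    intro s
    by_cases h : 0 < s ∧ s < q
    · have : IsCoprime (q : ℤ) (s : ℤ) := by
        apply Nat.isCoprime_iff_coprime.2
        rw [Nat.Prime.coprime_iff_not_dvd hq]
        intro hd
        have := Nat.le_of_dvd h.1 hd
        omega
      obtain ⟨a, b, hab⟩ := this
      exact ⟨a, fun _ _ => ⟨-b, by linear_combination hab⟩⟩
    · exact ⟨0, fun h1 h2 => absurd ⟨h1, h2⟩ h⟩
  choose u hu using hex
  set g : ℕ → ℤ → ℤ := fun s a => gam q s (u s) a with hg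
  have hq0 : (0 : ℤ) < q := by exact_mod_cast hq.pos
  have hval : ∀ s ∈ T, ∀ a : ℤ, 0 ≤ a → a < 2 * q →
      (((((a : ZMod q) * (s : ZMod q)⁻¹).val : ℕ) : ℤ)) =
        g s a - (if (q : ℤ) ≤ a ∧ (s : ℤ) ∣ a - q then (q : ℤ) else 0) := by
    intro s hs a ha0 ha1
    apply gam_val (by exact_mod_cast hT s hs) hq0
      (hu s (hT s hs) (hlt s hs)) (by positivity) (by exact_mod_cast ZMod.val_lt _) _ ha0 ha1
    rw [← ZMod.intCast_zmod_eq_zero_iff_dvd]
    have hs0 : ((s : ℕ) : ZMod q) ≠ 0 := by
      rw [Ne, ZMod.natCast_eq_zero_iff]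
      intro hd
      have := Nat.le_of_dvd (hT s hs) hd
      have := hlt s hs
      omega
    push_cast
    rw [ZMod.natCast_zmod_val]
    field_simp
    ring
  have hTZ : ((∑ s ∈ T, s : ℕ) : ℤ) + 2 ≤ q := by exact_mod_cast hsumT
  set G : ℤ → k := fun a => ∑ s ∈ T, c' s * (g s a : k) with hG
  have hG0 : ∀ a : ℤ, 0 ≤ a → a < q → G a = 0 := by
    intro a ha0 ha1
    rw [← hsum (a : ZMod q)]
    apply Finset.sum_congr rfl
    intro s hs
    have := hval s hs a ha0 (by linarith)
    rw [if_neg (fun h => absurd h.1 (not_le.2 ha1)), sub_zero] at this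
    rw [← this]; simp
  have hGdiff : ∀ a, G (a + 1) - G a = 0 := by
    have := vanish_of_periodic T hT
      (fun s a => c' s * ((g s (a + 1) - g s a : ℤ) : k))
      (by
        intro s hs a
        have hp : (0 : ℤ) < s := by exact_mod_cast hT s hs
        have e1 : g s (a + s + 1) = g s (a + 1) + 1 := by
          simp only [hg]
          rw [← gam_add hp (hu s (hT s hs) (hlt s hs))]
          congr 1; ring
        have e2 : g s (a + s) = g s a + 1 := by
          simp only [hg]
          rw [← gam_add hp (hu s (hT s hs) (hlt s hs))]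
          congr 1; ring
        simp only
        rw [e1, e2]
        congr 2; ring) 0 (by
        intro a h1 h2
        have e1 := hG0 a h1 (by linarith)
        have e2 := hG0 (a + 1) (by linarith) (by linarith)
        simp only [hG] at e1 e2
        push_cast
        simp only [mul_sub, Finset.sum_sub_distrib]
        rw [e1, e2, sub_zero])
    intro a
    rw [← this a]
    push_cast
    simp only [hG, mul_sub, Finset.sum_sub_distrib]
  have hGall : ∀ a, G a = 0 := by
    have hper : Function.Periodic G ((1 : ℕ) : ℤ) := fun a => sub_eq_zero.1 (hGdiff a)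
    apply zero_of_periodic one_pos hper 0
    intro a h1 h2
    exact hG0 a h1 (by push_cast at h2; have := hq.two_le; omega)
  have hJ : ∀ m : ℕ, m < q → ∑ s ∈ T, c' s * (if s ∣ m then (1 : k) else 0) = 0 := by
    intro m hm
    have hm' : (m : ℤ) < q := by exact_mod_cast hm
    have e1 := hsum (((q : ℤ) + m : ℤ) : ZMod q)
    have e2 := hGall ((q : ℤ) + m)
    apply mul_left_cancel₀ hk
    have e3 := sub_eq_zero.2 (e2.trans e1.symm)
    rw [mul_zero]
    refine Eq.trans ?_ e3
    rw [hG, Finset.mul_sum, ← Finset.sum_sub_distrib]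
    apply Finset.sum_congr rfl
    intro s hs
    have := congrArg (fun z : ℤ => (z : k)) (hval s hs (q + m) (by positivity) (by linarith))
    simp only [Int.cast_natCast, le_add_iff_nonneg_right, Nat.cast_nonneg, true_and,
      add_sub_cancel_left, Int.natCast_dvd_natCast] at this
    rw [this]
    push_cast
    split_ifs <;> ring
  have hall : ∀ s, s ∈ T → c' s = 0 := by
    intro s
    induction s using Nat.strong_induction_on with
    | _ s ih =>
      intro hs
      have h := hJ s (hlt s hs)
      rw [Finset.sum_eq_single s] at h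
      · simpa using h
      · intro t ht hne
        by_cases hd : t ∣ s
        · rw [ih t (lt_of_le_of_ne (Nat.le_of_dvd (hT s hs) hd) hne) ht, zero_mul]
        · rw [if_neg hd, mul_zero]
      · intro h; exact absurd hs h
  rintro ⟨s, hs⟩
  simpa [hc', hs] using hall s hs

end Pool.Agent.Lib.MP_53226a_nt
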