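import Pool.Agent.Lib.MP_53226a_nt.Indep

/-! Translates of the least residue function with few terms are independent modulo constants. -/

namespace Pool.Agent.Lib.MP_53226a_nt

theorem sparse_const {k : Type*} [Field k] {q : ℕ} [Fact q.Prime] (hk : (q : k) ≠ 0)
    (T : Finset ℕ) (hT : ∀ s ∈ T, 0 < s) (hsumT : ∑ s ∈ T, s + 2 ≤ q) (c' : ℕ → k) (κ : k)
    (hsum : ∀ x : ZMod q, x ≠ 0 → ∑ s ∈ T, c' s * (((x * (s : ZMod q)⁻¹).val : ℕ) : k) = κ) :
    ∀ s ∈ T, c' s = 0 := by
  classical
  have hq : q.Prime := Fact.out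
  have hlt : ∀ s ∈ T, s < q := fun s hs => by
    have := Finset.single_le_sum (f := fun s : ℕ => s) (fun _ _ => Nat.zero_le _) hs
    omega
  have hex : ∀ s : ℕ, ∃ u : ℤ, 0 < s → s < q → (s : ℤ) ∣ q * u - 1 := by
    intro s
    by_cases h : 0 < s ∧ s < q
    · have : IsCoprime (q : ℤ) (s : ℤ) := by
        apply Nat.isCoprime_iff_coprime.2
        rw [Nat.Prime.coprime_iff_not_dvd hq]
        intro hd
        have := Nat.le_of_dvd h.1 hd
        omega
      obtain ⟨a, b, hab⟩ := this
      exact ⟨a, fun _ _ => ⟨-b, by linear_combination hab⟩⟩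
    · exact ⟨0, fun h1 h2 => absurd ⟨h1, h2⟩ h⟩
  choose u hu using hex
  set g : ℕ → ℤ → ℤ := fun s a => gam q s (u s) a with hg
  have hq0 : (0 : ℤ) < q := by exact_mod_cast hq.pos
  have hval : ∀ s ∈ T, ∀ a : ℤ, 0 ≤ a → a < 2 * q →
      (((((a : ZMod q) * (s : ZMod q)⁻¹).val : ℕ) : ℤ)) =
        g s a - (if (q : ℤ) ≤ a ∧ (s : ℤ) ∣ a - q then (q : ℤ) else 0) := by
    intro s hs a ha0 ha1
    apply gam_val (by exact_mod_cast hT s hs) hq0
      (hu s (hT s hs) (hlt s hs)) (by positivity) (by exact_mod_cast ZMod.val_lt _) _ ha0 ha1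
    rw [← ZMod.intCast_zmod_eq_zero_iff_dvd]
    have hs0 : ((s : ℕ) : ZMod q) ≠ 0 := by
      rw [Ne, ZMod.natCast_eq_zero_iff]
      intro hd
      have := Nat.le_of_dvd (hT s hs) hd
      have := hlt s hs
      omega
    push_cast
    rw [ZMod.natCast_zmod_val]
    field_simp
    ring
  have hTZ : ((∑ s ∈ T, s : ℕ) : ℤ) + 2 ≤ q := by exact_mod_cast hsumT
  have hnz : ∀ a : ℤ, 0 < a → a < q → (a : ZMod q) ≠ 0 := by
    intro a h0 h1 h
    have := Int.le_of_dvd h0 ((ZMod.intCast_zmod_eq_zero_iff_dvd a q).1 h)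
    omega
  set G : ℤ → k := fun a => ∑ s ∈ T, c' s * (g s a : k) with hG
  have hG0 : ∀ a : ℤ, 1 ≤ a → a < q → G a = κ := by
    intro a ha0 ha1
    rw [← hsum (a : ZMod q) (hnz a ha0 ha1)]
    apply Finset.sum_congr rfl
    intro s hs
    have := hval s hs a (by linarith) (by linarith)
    rw [if_neg (fun h => absurd h.1 (not_le.2 ha1)), sub_zero] at this
    rw [← this]; simp
  have hGdiff : ∀ a, G (a + 1) - G a = 0 := by
    have := vanish_of_periodic T hT
      (fun s a => c' s * ((g s (a + 1) - g s a : ℤ) : k))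
      (by
        intro s hs a
        have hp : (0 : ℤ) < s := by exact_mod_cast hT s hs
        have e1 : g s (a + s + 1) = g s (a + 1) + 1 := by
          simp only [hg]
          rw [← gam_add hp (hu s (hT s hs) (hlt s hs))]
          congr 1; ring
        have e2 : g s (a + s) = g s a + 1 := by
          simp only [hg]
          rw [← gam_add hp (hu s (hT s hs) (hlt s hs))]
          congr 1; ring
        simp only
        rw [e1, e2]
        congr 2; ring) 1 (by
        intro a h1 h2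
        have e1 := hG0 a h1 (by linarith)
        have e2 := hG0 (a + 1) (by linarith) (by linarith)
        simp only [hG] at e1 e2
        push_cast
        simp only [mul_sub, Finset.sum_sub_distrib]
        rw [e1, e2, sub_self])
    intro a
    rw [← this a]
    push_cast
    simp only [hG, mul_sub, Finset.sum_sub_distrib]
  have hGall : ∀ a, G a - κ = 0 := by
    have hper : Function.Periodic (fun a => G a - κ) ((1 : ℕ) : ℤ) := fun a => by
      simp only [Nat.cast_one, sub_eq_zero.1 (hGdiff a)]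
    apply zero_of_periodic one_pos hper 1
    intro a h1 h2
    exact sub_eq_zero.2 (hG0 a h1 (by push_cast at h2; have := hq.two_le; omega))
  have hJ : ∀ m : ℕ, 0 < m → m < q → ∑ s ∈ T, c' s * (if s ∣ m then (1 : k) else 0) = 0 := by
    intro m hm0 hm
    have hm' : (m : ℤ) < q := by exact_mod_cast hm
    have e1 := hsum (((q : ℤ) + m : ℤ) : ZMod q) (by
      have := hnz m (by exact_mod_cast hm0) hm'
      simpa using this)
    have e2 := sub_eq_zero.1 (hGall ((q : ℤ) + m))
    apply mul_left_cancel₀ hk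
    have e3 := sub_eq_zero.2 (e2.trans e1.symm)
    rw [mul_zero]
    refine Eq.trans ?_ e3
    rw [hG, Finset.mul_sum, ← Finset.sum_sub_distrib]
    apply Finset.sum_congr rfl
    intro s hs
    have := congrArg (fun z : ℤ => (z : k)) (hval s hs (q + m) (by positivity) (by linarith))
    simp only [Int.cast_natCast, le_add_iff_nonneg_right, Nat.cast_nonneg, true_and,
      add_sub_cancel_left, Int.natCast_dvd_natCast] at this
    rw [this]
    push_cast
    split_ifs <;> ring
  intro s
  induction s using Nat.strong_induction_on with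
  | _ s ih =>
    intro hs
    have h := hJ s (hT s hs) (hlt s hs)
    rw [Finset.sum_eq_single s] at h
    · simpa using h
    · intro t ht hne
      by_cases hd : t ∣ s
      · rw [ih t (lt_of_le_of_ne (Nat.le_of_dvd (hT s hs) hd) hne) ht, zero_mul]
      · rw [if_neg hd, mul_zero]
    · intro h; exact absurd hs h

/-- Dirichlet's simultaneous approximation modulo `q`. -/
lemma exists_dilate {q Q : ℕ} [Fact q.Prime] (hQ : 0 < Q) (U : Finset (ZMod q))
    (hU : Q ^ U.card < q) :
    ∃ τ : ZMod q, τ ≠ 0 ∧ ∃ b : ZMod q → ℤ, ∀ u ∈ U, (b u : ZMod q) = τ * u⁻¹ ∧ Q * |b u| < q := by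
  classical
  have hq : q.Prime := Fact.out
  obtain ⟨t, t', hne, h⟩ := Fintype.exists_ne_map_eq_of_card_lt
    (fun t : ZMod q => fun u : U => (⟨Q * (t * u.1⁻¹).val / q, by
      rw [Nat.div_lt_iff_lt_mul hq.pos]
      exact Nat.mul_lt_mul_of_pos_left (ZMod.val_lt _) hQ⟩ : Fin Q))
    (by simpa using hU)
  refine ⟨t - t', sub_ne_zero.2 hne, fun u => ((t * u⁻¹).val : ℤ) - ((t' * u⁻¹).val : ℤ),
    fun u hu => ⟨by push_cast; simp only [ZMod.natCast_zmod_val]; ring, ?_⟩⟩
  have h1 : Q * (t * u⁻¹).val / q = Q * (t' * u⁻¹).val / q := by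
    simpa using congrFun h ⟨u, hu⟩
  have h2 := Nat.div_add_mod (Q * (t * u⁻¹).val) q
  have h3 := Nat.div_add_mod (Q * (t' * u⁻¹).val) q
  have h4 := Nat.mod_lt (Q * (t * u⁻¹).val) hq.pos
  have h5 := Nat.mod_lt (Q * (t' * u⁻¹).val) hq.pos
  rw [h1] at h2
  have e : (Q : ℤ) * |((t * u⁻¹).val : ℤ) - ((t' * u⁻¹).val : ℤ)|
      = |((Q * (t * u⁻¹).val : ℕ) : ℤ) - ((Q * (t' * u⁻¹).val : ℕ) : ℤ)| := by
    push_cast
    rw [← mul_sub, abs_mul, Nat.abs_cast]
  rw [e, abs_lt]
  constructor <;> omega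

/-- Few translates, distinct up to sign, are independent modulo constants. -/
theorem few_const {k : Type*} [Field k] {q : ℕ} [Fact q.Prime] (hk : (q : k) ≠ 0)
    (U : Finset (ZMod q)) (h0 : ∀ u ∈ U, u ≠ 0) (hneg : ∀ u ∈ U, -u ∉ U)
    (hU : (2 * U.card) ^ U.card < q) (c : ZMod q → k) (κ : k)
    (hsum : ∀ x : ZMod q, x ≠ 0 → ∑ u ∈ U, c u * (((x * u).val : ℕ) : k) = κ) :
    ∀ u ∈ U, c u = 0 := by
  classical
  have hq : q.Prime := Fact.out
  intro u0 hu0
  have hw : 0 < U.card := Finset.card_pos.2 ⟨u0, hu0⟩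
  obtain ⟨τ, hτ, b, hb⟩ := exists_dilate (Q := 2 * U.card) (by omega) U hU
  have hb0 : ∀ u ∈ U, b u ≠ 0 := by
    intro u hu h
    have := (hb u hu).1
    rw [h, Int.cast_zero] at this
    exact mul_ne_zero hτ (inv_ne_zero (h0 u hu)) this.symm
  have hinj : ∀ u ∈ U, ∀ u' ∈ U, (b u).natAbs = (b u').natAbs → u = u' := by
    intro u hu u' hu' h
    rcases Int.natAbs_eq_natAbs_iff.1 h with h | h
    · have := (hb u hu).1
      rw [h, (hb u' hu').1] at this
      exact (inv_injective (mul_left_cancel₀ hτ this)).symm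
    · have := (hb u hu).1
      rw [h, Int.cast_neg, (hb u' hu').1, ← mul_neg, ← inv_neg] at this
      exact absurd (inv_injective (mul_left_cancel₀ hτ this) ▸ hu) (hneg u' hu')
  have hq3 : 3 ≤ q := by
    have : 2 * U.card ≤ (2 * U.card) ^ U.card := Nat.le_self_pow hw.ne' _
    omega
  have hS : ∑ s ∈ U.image (fun u => (b u).natAbs), s + 2 ≤ q := by
    rw [Finset.sum_image hinj]
    have h1 : ∑ u ∈ U, 2 * U.card * (b u).natAbs ≤ ∑ _u ∈ U, (q - 1) := by
      apply Finset.sum_le_sum
      intro u hu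
      have h2 := (hb u hu).2
      rw [Int.abs_eq_natAbs] at h2
      have : 2 * U.card * (b u).natAbs < q := by exact_mod_cast h2
      omega
    rw [← Finset.mul_sum, Finset.sum_const, smul_eq_mul, mul_comm 2, mul_assoc] at h1
    have := Nat.le_of_mul_le_mul_left h1 hw
    omega
  have key := sparse_const hk (U.image fun u => (b u).natAbs)
    (fun s hs => by
      obtain ⟨u, hu, rfl⟩ := Finset.mem_image.1 hs
      exact Int.natAbs_pos.2 (hb0 u hu)) hS
    (fun s => ∑ u ∈ U.filter fun u => (b u).natAbs = s, (if 0 < b u then c u else -c u))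
    (κ - ∑ u ∈ U, if 0 < b u then 0 else c u * q)
    (by
      intro y hy
      have hx : y * τ⁻¹ ≠ 0 := mul_ne_zero hy (inv_ne_zero hτ)
      rw [← hsum _ hx, ← Finset.sum_sub_distrib,
        ← Finset.sum_fiberwise_of_maps_to (s := U) (t := U.image fun u => (b u).natAbs)
          (g := fun u => (b u).natAbs) (fun u hu => Finset.mem_image_of_mem _ hu)]
      apply Finset.sum_congr rfl
      intro s _
      rw [Finset.sum_mul]
      apply Finset.sum_congr rfl
      intro u hu'
      obtain ⟨hu, rfl⟩ := Finset.mem_filter.1 hu'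
      have e0 : y * τ⁻¹ * u = y * (b u : ZMod q)⁻¹ := by
        rw [(hb u hu).1, mul_inv, inv_inv, mul_assoc]
      rw [e0]
      split_ifs with h
      · have : (((b u).natAbs : ℕ) : ZMod q) = (b u : ZMod q) := by
          rw [← Int.cast_natCast, Int.natAbs_of_nonneg h.le]
        rw [this, sub_zero]
      · have : (b u : ZMod q) = -(((b u).natAbs : ℕ) : ZMod q) := by
          rw [← Int.cast_natCast, Int.ofNat_natAbs_of_nonpos (not_lt.1 h), Int.cast_neg, neg_neg]
        have hz : y * (((b u).natAbs : ℕ) : ZMod q)⁻¹ ≠ 0 := by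
          refine mul_ne_zero hy (inv_ne_zero fun h1 => ?_)
          have h2 := (hb u hu).1
          rw [this, h1, neg_zero] at h2
          exact mul_ne_zero hτ (inv_ne_zero (h0 u hu)) h2.symm
        rw [this, inv_neg, mul_neg, ZMod.neg_val, if_neg hz, Nat.cast_sub (ZMod.val_lt _).le]
        ring)
    _ (Finset.mem_image_of_mem _ hu0)
  rw [Finset.sum_eq_single u0] at key
  · split_ifs at key
    · exact key
    · exact neg_eq_zero.1 key
  · intro u hu hne
    obtain ⟨hu, h⟩ := Finset.mem_filter.1 hu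
    exact absurd (hinj u hu u0 hu0 h) hne
  · intro h
    exact absurd (Finset.mem_filter.2 ⟨hu0, rfl⟩ : u0 ∈ U.filter fun u => (b u).natAbs = (b u0).natAbs) h

end Pool.Agent.Lib.MP_53226a_nt
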