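import Mathlib

namespace Pool.Agent.Lib.MP_53226a_nt.Pop

/-- One folding step of bit-sliced addition modulo three. -/
def f3 (h : ℕ) (s : ℕ × ℕ) : ℕ × ℕ :=
  ((s.2 % 2 ^ h ||| s.2 >>> h) ^^^ ((s.1 % 2 ^ h ||| s.2 >>> h) ^^^ (s.2 % 2 ^ h ||| s.1 >>> h)),
   (s.1 % 2 ^ h ||| s.1 >>> h) ^^^ ((s.1 % 2 ^ h ||| s.2 >>> h) ^^^ (s.2 % 2 ^ h ||| s.1 >>> h)))

/-- Iterated folding. -/
def fold : ℕ → ℕ × ℕ → ℕ × ℕ
  | 0, s => s
  | n + 1, s => fold n (f3 (2 ^ n) s)

/-- The residue coded by two bits. -/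
def w (x y : Bool) : ZMod 3 := (if x then 1 else 0) - (if y then 1 else 0)

/-- The sum of the residues coded by the first `n` bit pairs. -/
def val (n : ℕ) (s : ℕ × ℕ) : ZMod 3 := ∑ i ∈ Finset.range n, w (s.1.testBit i) (s.2.testBit i)

theorem bit_step : ∀ a1 a2 b1 b2 : Bool, (a1 && a2) = false → (b1 && b2) = false →
    w ((a2 || b2) ^^ ((a1 || b2) ^^ (a2 || b1))) ((a1 || b1) ^^ ((a1 || b2) ^^ (a2 || b1)))
      = w a1 a2 + w b1 b2 ∧
    (((a2 || b2) ^^ ((a1 || b2) ^^ (a2 || b1))) && ((a1 || b1) ^^ ((a1 || b2) ^^ (a2 || b1))))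
      = false := by decide

theorem val_f3 (h : ℕ) (s : ℕ × ℕ) (hs : ∀ i, (s.1.testBit i && s.2.testBit i) = false) :
    val h (f3 h s) = val (h + h) s ∧
      ∀ i, ((f3 h s).1.testBit i && (f3 h s).2.testBit i) = false := by
  constructor
  · unfold val
    rw [Finset.sum_range_add, ← Finset.sum_add_distrib]
    refine Finset.sum_congr rfl fun i hi => ?_
    have hi' : i < h := Finset.mem_range.1 hi
    simp only [f3, Nat.testBit_xor, Nat.testBit_or, Nat.testBit_mod_two_pow, Nat.testBit_shiftRight,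
      hi', decide_true, Bool.true_and]
    exact (bit_step _ _ _ _ (hs i) (hs (h + i))).1
  · intro i
    simp only [f3, Nat.testBit_xor, Nat.testBit_or, Nat.testBit_mod_two_pow, Nat.testBit_shiftRight]
    refine (bit_step _ _ _ _ ?_ (hs (h + i))).2
    have := hs i
    revert this
    cases decide (i < h) <;> cases s.1.testBit i <;> cases s.2.testBit i <;> simp

theorem val_fold (n : ℕ) (s : ℕ × ℕ) (hs : ∀ i, (s.1.testBit i && s.2.testBit i) = false) :
    val 1 (fold n s) = val (2 ^ n) s := by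
  induction n generalizing s with
  | zero => rfl
  | succ n ih =>
    obtain ⟨h1, h2⟩ := val_f3 (2 ^ n) s hs
    rw [fold, ih _ h2, h1, pow_succ, mul_two]

theorem bit_digit (q c P i : ℕ) (hq : 0 < q) (hi : i < P) :
    (c * 2 ^ P / q).testBit i = decide (2 * (c * 2 ^ (P - 1 - i) % q) / q = 1) := by
  obtain ⟨k, rfl⟩ : ∃ k, P = i + 1 + k := ⟨P - 1 - i, by omega⟩
  have e : i + 1 + k - 1 - i = k := by omega
  rw [e, Nat.testBit_eq_decide_div_mod_eq, Nat.div_div_eq_div_mul,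
    show c * 2 ^ (i + 1 + k) = 2 * (c * 2 ^ k) * 2 ^ i by ring,
    Nat.mul_div_mul_right _ _ (by positivity)]
  set m := c * 2 ^ k
  have h1 : 2 * m = 2 * (m % q) + q * (2 * (m / q)) := by
    have := Nat.mod_add_div m q; nlinarith
  have h2 : 2 * (m % q) / q < 2 := by
    rw [Nat.div_lt_iff_lt_mul hq]; have := Nat.mod_lt m hq; omega
  rw [h1, Nat.add_mul_div_left _ _ hq]
  generalize 2 * (m % q) / q = d at h2 ⊢
  generalize m / q = a
  congr 1
  apply propext
  omega

theorem sum_res (q c P : ℕ) :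
    ∑ j ∈ Finset.range P, c * 2 ^ j % q + c % q
      = q * ∑ j ∈ Finset.range P, 2 * (c * 2 ^ j % q) / q + c * 2 ^ P % q := by
  induction P with
  | zero => simp
  | succ P ih =>
    rw [Finset.sum_range_succ, Finset.sum_range_succ, mul_add]
    have h1 := Nat.div_add_mod (2 * (c * 2 ^ P % q)) q
    have h2 : 2 * (c * 2 ^ P % q) % q = c * 2 ^ (P + 1) % q := by
      rw [Nat.mul_mod_mod, pow_succ]; congr 1; ring
    omega

/-- The sum of the residues of `c 2^j` over a period is `q` times the number of binary ones of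
`c 2^P / q`, which is computed modulo three by folding. -/
theorem orbit_sum (q c P n : ℕ) (hq : 0 < q) (hc : c < q) (hP : c * 2 ^ P % q = c)
    (hn : P ≤ 2 ^ n) : ∃ K : ℕ, ∑ j ∈ Finset.range P, c * 2 ^ j % q = q * K ∧
      (K : ZMod 3) = val 1 (fold n (c * 2 ^ P / q, 0)) := by
  refine ⟨∑ j ∈ Finset.range P, 2 * (c * 2 ^ j % q) / q, ?_, ?_⟩
  · have := sum_res q c P
    rw [hP, Nat.mod_eq_of_lt hc] at this
    omega
  rw [val_fold n _ (by simp), val]
  have hlt : c * 2 ^ P / q < 2 ^ P := by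
    rw [Nat.div_lt_iff_lt_mul hq, mul_comm]
    exact Nat.mul_lt_mul_of_pos_left hc (by positivity)
  rw [← Finset.sum_subset (Finset.range_mono hn) (fun i _ hi => by
    have : (c * 2 ^ P / q).testBit i = false := Nat.testBit_lt_two_pow
      (hlt.trans_le (Nat.pow_le_pow_right two_pos (by simpa using hi)))
    simp [w, this])]
  rw [← Finset.sum_range_reflect, Nat.cast_sum]
  refine Finset.sum_congr rfl fun i hi => ?_
  rw [bit_digit q c P i hq (Finset.mem_range.1 hi)]
  have h2 : 2 * (c * 2 ^ (P - 1 - i) % q) / q < 2 := by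
    rw [Nat.div_lt_iff_lt_mul hq]; have := Nat.mod_lt (c * 2 ^ (P - 1 - i)) hq; omega
  generalize 2 * (c * 2 ^ (P - 1 - i) % q) / q = d at h2 ⊢
  interval_cases d <;> simp [w]

end Pool.Agent.Lib.MP_53226a_nt.Pop
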