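import Mathlib
import Pool.Agent.Lib.MP_53226a_nt.Pop

namespace Pool.Agent.Lib.MP_53226a_nt.Zero

open Finset

theorem chi_int {q : ℕ} [Fact q.Prime] (χ : DirichletCharacter ℂ q) (x : ZMod q) :
    χ x ∈ integralClosure ℤ ℂ := by
  by_cases hx : x = 0
  · rw [hx, MulChar.map_zero]; exact zero_mem _
  · have hq : q.Prime := Fact.out
    apply IsIntegral.of_pow (n := q - 1) (by have := hq.two_le; omega)
    rw [← map_pow, ZMod.pow_card_sub_one_eq_one hx, map_one]
    exact isIntegral_one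

theorem int_mem_iff {p : ℕ} (hp : p.Prime) {P : Ideal (integralClosure ℤ ℂ)} (hP : P.IsMaximal)
    (hpP : (p : integralClosure ℤ ℂ) ∈ P) (s : ℤ) :
    (s : integralClosure ℤ ℂ) ∈ P ↔ (p : ℤ) ∣ s := by
  constructor
  · intro hs
    by_contra hd
    obtain ⟨a, b, hab⟩ := (Nat.prime_iff_prime_int.1 hp).irreducible.coprime_iff_not_dvd.2 hd
    apply hP.ne_top
    rw [Ideal.eq_top_iff_one]
    have : (1 : integralClosure ℤ ℂ) = (a : integralClosure ℤ ℂ) * p + b * s := by
      exact_mod_cast congrArg (Int.cast : ℤ → integralClosure ℤ ℂ) hab.symm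
    rw [this]
    exact P.add_mem (P.mul_mem_left _ hpP) (P.mul_mem_left _ hs)
  · rintro ⟨c, rfl⟩
    push_cast
    exact P.mul_mem_right _ hpP

theorem euler {q m : ℕ} [Fact q.Prime] (hq : q = 2 * m + 1) {x : ZMod q} (hx : x ≠ 0) :
    (quadraticChar (ZMod q) x = 1 ∧ x ^ m = 1) ∨ (quadraticChar (ZMod q) x = -1 ∧ x ^ m = -1) := by
  have h := quadraticChar_eq_pow_of_char_ne_two' (F := ZMod q)
    (by rw [ZMod.ringChar_zmod_n]; omega) x
  rw [ZMod.card, show q / 2 = m by omega] at h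
  rcases quadraticChar_dichotomy hx with e | e
  · left; rw [e] at h; exact ⟨e, by rw [← h]; simp⟩
  · right; rw [e] at h; exact ⟨e, by rw [← h]; simp⟩

theorem chi_congr {p n q : ℕ} (hp : p.Prime) (hp2 : p ≠ 2) [Fact q.Prime] (hq : q = 2 * p ^ n + 1)
    {P : Ideal (integralClosure ℤ ℂ)} (hP : P.IsMaximal) (hpP : (p : integralClosure ℤ ℂ) ∈ P)
    (χ : DirichletCharacter ℂ q) (hχ : χ (-1) = -1) (x : ZMod q) :
    (⟨χ x, chi_int χ x⟩ : integralClosure ℤ ℂ) - (quadraticChar (ZMod q) x : ℤ) ∈ P := by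
  set u : integralClosure ℤ ℂ := ⟨χ x, chi_int χ x⟩ with hu
  set v : integralClosure ℤ ℂ := ((quadraticChar (ZMod q) x : ℤ) : integralClosure ℤ ℂ) with hv
  have hodd : Odd (p ^ n) := (hp.odd_of_ne_two hp2).pow
  have huv : u ^ p ^ n = v ^ p ^ n := by
    apply Subtype.ext
    have e1 : ((u ^ p ^ n : integralClosure ℤ ℂ) : ℂ) = χ (x ^ p ^ n) := by
      rw [map_pow]; rfl
    rw [e1, hv]
    by_cases hx : x = 0
    · subst hx
      rw [zero_pow hodd.pos.ne', MulChar.map_zero, MulChar.map_zero, Int.cast_zero,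
        zero_pow hodd.pos.ne']
      rfl
    rcases euler hq hx with ⟨e, e'⟩ | ⟨e, e'⟩
    · rw [e, e']; simp
    · rw [e, e', hχ]; simp [hodd.neg_one_pow]
  obtain ⟨r, hr⟩ := exists_add_pow_prime_pow_eq hp (u - v) v n
  rw [sub_add_cancel, huv] at hr
  refine hP.isPrime.mem_of_pow_mem (p ^ n) ?_
  have : (u - v) ^ p ^ n = p * (-((u - v) * v * r)) := by linear_combination -hr
  rw [this]
  exact P.mul_mem_right _ hpP

theorem unit_iff {p n q : ℕ} (hp : p.Prime) (hp2 : p ≠ 2) (hn : n ≠ 0) [Fact q.Prime]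
    (hq : q = 2 * p ^ n + 1)
    {P : Ideal (integralClosure ℤ ℂ)} (hP : P.IsMaximal) (hpP : (p : integralClosure ℤ ℂ) ∈ P)
    (χ : DirichletCharacter ℂ q) (hχ : χ (-1) = -1) :
    (∃ a b : integralClosure ℤ ℂ, a ∉ P ∧ b ∉ P ∧
      (b : ℂ) * (-(1 / (q : ℂ)) * ∑ k ∈ Ico 1 q, (k : ℂ) * χ (k : ZMod q)) = (a : ℂ)) ↔
    ¬ (p : ℤ) ∣ ∑ k ∈ Ico 1 q, (k : ℤ) * jacobiSym k q := by
  set T : integralClosure ℤ ℂ := ∑ k ∈ Ico 1 q, (k : integralClosure ℤ ℂ) * ⟨χ k, chi_int χ k⟩
    with hT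
  have hTc : (T : ℂ) = ∑ k ∈ Ico 1 q, (k : ℂ) * χ (k : ZMod q) := by
    rw [hT]; push_cast; rfl
  have hTS : T - ((∑ k ∈ Ico 1 q, (k : ℤ) * jacobiSym k q : ℤ) : integralClosure ℤ ℂ) ∈ P := by
    rw [hT]
    push_cast
    rw [← sum_sub_distrib]
    refine P.sum_mem fun k _ => ?_
    rw [← mul_sub, ← jacobiSym.legendreSym.to_jacobiSym]
    refine P.mul_mem_left _ ?_
    have := chi_congr hp hp2 hq hP hpP χ hχ (k : ZMod q)
    simpa [legendreSym] using this
  have hqP : (q : integralClosure ℤ ℂ) ∉ P := by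
    intro h
    have h1 := (int_mem_iff hp hP hpP (q : ℤ)).1 (by exact_mod_cast h)
    have h2 : p ∣ q := by exact_mod_cast h1
    rw [hq] at h2
    exact hp.one_lt.ne' (Nat.dvd_one.1 ((Nat.dvd_add_right
      (Dvd.dvd.mul_left (dvd_pow_self p hn) 2)).1 h2))
  have hq0 : (q : ℂ) ≠ 0 := by exact_mod_cast (Fact.out : q.Prime).ne_zero
  rw [← int_mem_iff hp hP hpP, ← hTc]
  have hiff : T ∈ P ↔ ((∑ k ∈ Ico 1 q, (k : ℤ) * jacobiSym k q : ℤ) : integralClosure ℤ ℂ) ∈ P :=
    ⟨fun h => by simpa using P.sub_mem h hTS, fun h => by simpa using P.add_mem hTS h⟩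
  rw [← hiff]
  constructor
  · rintro ⟨a, b, ha, -, hab⟩ hTP
    have e : (q : integralClosure ℤ ℂ) * a = -(b * T) := by
      apply Subtype.ext
      push_cast
      rw [← hab]; field_simp
    rcases hP.isPrime.mem_or_mem (show (q : integralClosure ℤ ℂ) * a ∈ P by
      rw [e]; exact P.neg_mem (P.mul_mem_left _ hTP)) with h | h
    exacts [hqP h, ha h]
  · intro h
    refine ⟨-T, q, fun h' => h (by simpa using P.neg_mem h'), hqP, ?_⟩
    push_cast
    field_simp

theorem card_odd {q m : ℕ} [Fact q.Prime] (hq : q = 2 * m + 1) :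
    {χ : DirichletCharacter ℂ q | χ (-1) = -1}.ncard = m := by
  classical
  have hq' : q.Prime := Fact.out
  have h1 : (-1 : ZMod q) ≠ 1 := by
    have : Fact (2 < q) := ⟨by have := hq'.two_le; omega⟩
    exact ZMod.neg_one_ne_one
  have h2 := DirichletCharacter.sum_characters_eq_zero ℂ h1
  have h3 := DirichletCharacter.card_eq_totient_of_hasEnoughRootsOfUnity ℂ q
  rw [Nat.totient_prime hq', Nat.card_eq_fintype_card] at h3
  have h4 : ∑ χ : DirichletCharacter ℂ q, χ (-1)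
      = ∑ χ : DirichletCharacter ℂ q, (1 - 2 * if χ (-1) = -1 then (1 : ℂ) else 0) := by
    refine sum_congr rfl fun χ _ => ?_
    rcases χ.even_or_odd with e | e
    · have e' : χ (-1) = 1 := e
      rw [e', if_neg (by norm_num)]; ring
    · have e' : χ (-1) = -1 := e
      rw [e', if_pos rfl]; ring
  rw [h4, sum_sub_distrib, ← mul_sum, sum_boole, sum_const, card_univ, h3] at h2
  rw [Set.ncard_eq_toFinset_card', Set.toFinset_ofPred]
  have h5 : q - 1 = 2 * m := by omega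
  rw [h5] at h2
  have : ((univ.filter fun χ : DirichletCharacter ℂ q => χ (-1) = -1).card : ℂ) = m := by
    simp only [nsmul_eq_mul, mul_one] at h2
    push_cast at h2
    linear_combination -h2 / 2
  exact_mod_cast this

theorem sum_enum {q m : ℕ} [Fact q.Prime] (hq : q = 2 * m + 1) (hm : Odd m) {γ : ZMod q}
    (hγ : orderOf γ = m) (F : ZMod q → ℤ) :
    ∑ b, F b = F 0 + (∑ t ∈ range m, F (γ ^ t) + ∑ t ∈ range m, F (-γ ^ t)) := by
  classical
  have hq' : q.Prime := Fact.out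
  have h1 : (-1 : ZMod q) ≠ 1 := by
    have : Fact (2 < q) := ⟨by have := hq'.two_le; omega⟩
    exact ZMod.neg_one_ne_one
  have hpow : ∀ t, (γ ^ t) ^ m = 1 := fun t => by
    rw [← pow_mul, mul_comm, pow_mul, ← hγ, pow_orderOf_eq_one, one_pow]
  have hinj : Set.InjOn (fun t => γ ^ t) (range m : Set ℕ) := by
    rw [coe_range, ← hγ]; exact pow_injOn_Iio_orderOf
  have hinj' : Set.InjOn (fun t => -γ ^ t) (range m : Set ℕ) :=
    fun s hs t ht h => hinj hs ht (neg_injective h)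
  have hne : ∀ t, γ ^ t ≠ 0 := fun t h => by
    have := hpow t
    rw [h, zero_pow hm.pos.ne'] at this
    exact zero_ne_one this
  have hdisj : Disjoint ((range m).image fun t => γ ^ t) ((range m).image fun t => -γ ^ t) := by
    rw [disjoint_left]
    intro b hb hb'
    obtain ⟨s, -, rfl⟩ := mem_image.1 hb
    obtain ⟨t, -, h⟩ := mem_image.1 hb'
    have := hpow s
    rw [← h, hm.neg_pow, hpow] at this
    exact h1 this
  have h0 : (0 : ZMod q) ∉ ((range m).image fun t => γ ^ t) ∪ (range m).image fun t => -γ ^ t := by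
    intro h
    rcases mem_union.1 h with h | h
    · obtain ⟨s, -, h⟩ := mem_image.1 h
      exact hne s h
    · obtain ⟨s, -, h⟩ := mem_image.1 h
      exact hne s (neg_eq_zero.1 h)
  have huniv : insert (0 : ZMod q)
      (((range m).image fun t => γ ^ t) ∪ (range m).image fun t => -γ ^ t) = univ := by
    apply eq_univ_of_card
    rw [card_insert_of_notMem h0, card_union_of_disjoint hdisj, card_image_of_injOn hinj,
      card_image_of_injOn hinj', card_range, ZMod.card]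
    omega
  rw [← huniv, sum_insert h0, sum_union hdisj, sum_image hinj, sum_image hinj']

theorem sum_formula {q m : ℕ} [Fact q.Prime] (hq : q = 2 * m + 1) (hm : Odd m) {γ : ZMod q}
    (hγ : orderOf γ = m) : ∑ k ∈ Ico 1 q, (k : ℤ) * jacobiSym k q
      = 2 * ((∑ t ∈ range m, (γ ^ t).val : ℕ) : ℤ) - q * m := by
  have hq' : q.Prime := Fact.out
  have h1 : (-1 : ZMod q) ≠ 1 := by
    have : Fact (2 < q) := ⟨by have := hq'.two_le; omega⟩
    exact ZMod.neg_one_ne_one
  have hpow : ∀ t, (γ ^ t) ^ m = 1 := fun t => by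
    rw [← pow_mul, mul_comm, pow_mul, ← hγ, pow_orderOf_eq_one, one_pow]
  have hne : ∀ t, γ ^ t ≠ 0 := fun t h => by
    have := hpow t
    rw [h, zero_pow hm.pos.ne'] at this
    exact zero_ne_one this
  have e1 : ∑ k ∈ Ico 1 q, (k : ℤ) * jacobiSym k q
      = ∑ b : ZMod q, (b.val : ℤ) * quadraticChar (ZMod q) b := by
    have : ∑ b : ZMod q, (b.val : ℤ) * quadraticChar (ZMod q) b
        = ∑ k ∈ range q, (k : ℤ) * jacobiSym k q := by
      refine sum_bij (fun b _ => b.val) (fun b _ => mem_range.2 (ZMod.val_lt b))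
        (fun a _ b _ h => ZMod.val_injective q h) (fun j hj => ?_) (fun b _ => ?_)
      · exact ⟨(j : ZMod q), mem_univ _, ZMod.val_cast_of_lt (mem_range.1 hj)⟩
      · rw [← jacobiSym.legendreSym.to_jacobiSym]
        simp [legendreSym]
    rw [this, range_eq_Ico, sum_eq_sum_Ico_succ_bot hq'.pos]
    simp
  rw [e1, sum_enum hq hm hγ, ZMod.val_zero, Nat.cast_zero, zero_mul, zero_add, ← sum_add_distrib,
    Nat.cast_sum, mul_sum, show (q : ℤ) * m = ∑ _t ∈ range m, (q : ℤ) by simp [mul_comm],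
    ← sum_sub_distrib]
  refine sum_congr rfl fun t _ => ?_
  have e2 : quadraticChar (ZMod q) (γ ^ t) = 1 := by
    rcases euler hq (hne t) with ⟨e, -⟩ | ⟨-, e⟩
    · exact e
    · exact absurd (e.symm.trans (hpow t)) h1
  have e3 : quadraticChar (ZMod q) (-γ ^ t) = -1 := by
    rcases euler hq (neg_ne_zero.2 (hne t)) with ⟨-, e⟩ | ⟨e, -⟩
    · rw [hm.neg_pow, hpow] at e
      exact absurd e h1
    · exact e
  rw [e2, e3, ZMod.neg_val, if_neg (hne t), Nat.cast_sub (ZMod.val_lt _).le]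
  ring

theorem sum_blocks (f : ℕ → ℕ) (a P : ℕ) :
    ∑ t ∈ range (a * P), f t = ∑ i ∈ range a, ∑ j ∈ range P, f (a * j + i) := by
  rw [sum_comm]
  induction P with
  | zero => simp
  | succ P ih => rw [mul_add, mul_one, sum_range_add, ih, sum_range_succ]

theorem prime_q : Nat.Prime 258280327 := by norm_num

theorem block (c : ℕ) (hc : c < 258280327) (r : ZMod 3)
    (hr : Pop.val 1 (Pop.fold 24 (c * 2 ^ 14348907 / 258280327, 0)) = r) :
    ∃ K : ℕ, ∑ j ∈ range 14348907, c * 2 ^ j % 258280327 = 258280327 * K ∧ (K : ZMod 3) = r := by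
  have h2 : 2 ^ 14348907 % 258280327 = 1 := by decide +kernel
  rw [← hr]
  exact Pop.orbit_sum 258280327 c 14348907 24 (by norm_num) hc
    (by rw [Nat.mul_mod, h2, mul_one, Nat.mod_mod, Nat.mod_eq_of_lt hc]) (by norm_num)

theorem three_dvd :
    (3 : ℤ) ∣ ∑ k ∈ Ico 1 258280327, ((k : ℕ) : ℤ) * jacobiSym (k : ℕ) 258280327 := by
  have : Fact (Nat.Prime 258280327) := ⟨prime_q⟩
  set γ : ZMod 258280327 := ((206558934 : ℕ) : ZMod 258280327) with hγ
  have h9 : γ ^ 9 = ((2 : ℕ) : ZMod 258280327) := by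
    rw [hγ, ← Nat.cast_pow, ZMod.natCast_eq_natCast_iff']
    decide +kernel
  have hord : orderOf γ = 3 ^ 17 := by
    have : Fact (Nat.Prime 3) := ⟨Nat.prime_three⟩
    refine orderOf_eq_prime_pow (n := 16) ?_ ?_
    · rw [show 3 ^ 16 = 9 * 4782969 by norm_num, pow_mul, h9, ← Nat.cast_pow, ← Nat.cast_one,
        ZMod.natCast_eq_natCast_iff']
      decide +kernel
    · rw [show 3 ^ (16 + 1) = 9 * 14348907 by norm_num, pow_mul, h9, ← Nat.cast_pow,
        ← Nat.cast_one, ZMod.natCast_eq_natCast_iff']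
      decide +kernel
  rw [sum_formula (m := 3 ^ 17) (by norm_num) (Odd.pow (by decide)) hord]
  refine dvd_sub (Dvd.dvd.mul_left ?_ 2) (Dvd.dvd.mul_left (by norm_num) _)
  have e : ∀ i j : ℕ, (γ ^ (9 * j + i)).val = 206558934 ^ i % 258280327 * 2 ^ j % 258280327 := by
    intro i j
    rw [pow_add, pow_mul, h9, hγ, ← Nat.cast_pow, ← Nat.cast_pow, ← Nat.cast_mul, ZMod.val_natCast,
      Nat.mod_mul_mod, mul_comm]
  rw [show 3 ^ 17 = 9 * 14348907 by norm_num, sum_blocks (fun t => (γ ^ t).val)]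
  simp only [e]
  have hb : ∀ i : Fin 9, Pop.val 1 (Pop.fold 24
      (206558934 ^ (i : ℕ) % 258280327 * 2 ^ 14348907 / 258280327, 0))
        = ![0, 1, 2, 2, 0, 0, 0, 0, 1] i := by decide +kernel
  choose K hK hK' using fun i : Fin 9 =>
    block (206558934 ^ (i : ℕ) % 258280327) (Nat.mod_lt _ (by norm_num)) _ (hb i)
  rw [← Fin.sum_univ_eq_sum_range
    (fun i => ∑ j ∈ range 14348907, 206558934 ^ i % 258280327 * 2 ^ j % 258280327) 9,
    sum_congr rfl fun i _ => hK i, ← mul_sum, Nat.cast_mul]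
  refine Dvd.dvd.mul_left ?_ _
  have : ((∑ i, K i : ℕ) : ZMod 3) = 0 := by
    rw [Nat.cast_sum, sum_congr rfl fun i _ => hK' i]
    decide
  exact_mod_cast (ZMod.natCast_eq_zero_iff _ 3).1 this

end Pool.Agent.Lib.MP_53226a_nt.Zero
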